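import Pool.Agent.Whit.Spec

/-!
# Job A1: the key inequality bounds the Gontcharoff polynomials
-/

namespace Pool.Agent.Whit

open scoped Nat

noncomputable section

namespace A1

lemma Gl_nil : Gl [] = 1 := by
  rw [Gl]

lemma Gl_cons (z : ℂ) (zs : List ℂ) :
    Gl (z :: zs) = -∑ k ∈ Finset.range (zs.length + 1),
      Gl (zs.drop k) * z ^ (k + 1) / ((k + 1)! : ℂ) := by
  rw [Gl]
  congr 1
  exact Finset.sum_attach (Finset.range (zs.length + 1))
    (fun k => Gl (zs.drop k) * z ^ (k + 1) / ((k + 1)! : ℂ))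

lemma diff_Gl : ∀ (n : ℕ) (ys zs : List ℂ), ys.length = n →
    Differentiable ℂ (fun w => Gl (ys ++ w :: zs)) := by
  intro n
  induction n using Nat.strong_induction_on with
  | _ n ih =>
    intro ys zs hlen
    cases ys with
    | nil =>
      simp only [List.nil_append, Gl_cons]
      refine (Differentiable.fun_sum fun k _ => ?_).neg
      refine Differentiable.div_const ?_ _
      exact (differentiable_const _).mul (differentiable_id.pow _)
    | cons y ys =>
      have hfun : (fun w => Gl (y :: ys ++ w :: zs)) = fun w =>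
          -∑ k ∈ Finset.range (ys.length + zs.length + 1 + 1),
            Gl ((ys ++ w :: zs).drop k) * y ^ (k + 1) / ((k + 1)! : ℂ) := by
        funext w
        have hl : (ys ++ w :: zs).length + 1 = ys.length + zs.length + 1 + 1 := by
          rw [List.length_append, List.length_cons]
          omega
        rw [List.cons_append, Gl_cons, hl]
      rw [hfun]
      refine (Differentiable.fun_sum fun k _ => ?_).neg
      refine Differentiable.div_const ?_ _
      refine Differentiable.mul ?_ (differentiable_const _)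
      by_cases h : k ≤ ys.length
      · have : (fun w => Gl ((ys ++ w :: zs).drop k)) = fun w => Gl (ys.drop k ++ w :: zs) := by
          funext w
          rw [List.drop_append_of_le_length h]
        rw [this]
        refine ih (ys.drop k).length ?_ _ _ rfl
        simp only [List.length_drop, List.length_cons] at *
        omega
      · have : (fun w => Gl ((ys ++ w :: zs).drop k)) =
            fun _ => Gl (zs.drop (k - ys.length - 1)) := by
          funext w
          rw [List.drop_append, List.drop_eq_nil_of_le (by omega), List.nil_append]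
          congr 1
          obtain ⟨m, hm⟩ : ∃ m, k - ys.length = m + 1 := ⟨k - ys.length - 1, by omega⟩
          rw [hm]
          simp
        rw [this]
        exact differentiable_const _

/-- The vector of Gontcharoff polynomials. -/
def W (zs : List ℂ) (k : ℕ) : ℂ := if k ≤ zs.length then Gl (zs.drop k) else 0

lemma W_nil : W [] = e0 := by
  funext k
  unfold W e0
  by_cases h : k = 0
  · subst h
    simp [Gl_nil]
  · simp [h]

lemma W_cons_zero (z : ℂ) (zs : List ℂ) : W (z :: zs) 0 = Gl (z :: zs) := by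
  simp [W]

lemma W_zero (zs : List ℂ) : W zs 0 = Gl zs := by
  simp [W]

lemma W_cons_succ (z : ℂ) (zs : List ℂ) (k : ℕ) : W (z :: zs) (k + 1) = W zs k := by
  simp [W]

lemma W_big (zs : List ℂ) (k : ℕ) (h : zs.length < k) : W zs k = 0 := by
  unfold W
  rw [if_neg (by omega)]

lemma FS_W (zs : List ℂ) (Q : ℂ) : FS (Drot Q (W zs)) :=
  ⟨zs.length + 1, fun k hk => by simp [Drot, W_big zs k (by omega)]⟩

lemma Gl_conj : ∀ (n : ℕ) (zs : List ℂ), zs.length = n →
    Gl (zs.map (starRingEnd ℂ)) = (starRingEnd ℂ) (Gl zs) := by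
  intro n
  induction n using Nat.strong_induction_on with
  | _ n ih =>
    intro zs hlen
    cases zs with
    | nil => simp [Gl_nil]
    | cons z zs =>
      rw [List.map_cons, Gl_cons, Gl_cons, map_neg, map_sum]
      congr 1
      rw [List.length_map]
      refine Finset.sum_congr rfl fun k _ => ?_
      rw [← List.map_drop, ih (zs.drop k).length _ _ rfl]
      · simp
      · simp only [List.length_drop, List.length_cons] at *
        omega

lemma W_conj (zs : List ℂ) (k : ℕ) :
    W (zs.map (starRingEnd ℂ)) k = (starRingEnd ℂ) (W zs k) := by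
  unfold W
  rw [List.length_map]
  split_ifs
  · rw [← List.map_drop, Gl_conj _ _ rfl]
  · simp

lemma cj_Drot (Q : ℂ) (zs : List ℂ) :
    cj (Drot Q (W zs)) = Drot ((starRingEnd ℂ) Q) (W (zs.map (starRingEnd ℂ))) := by
  funext k
  simp only [cj, Drot, map_mul, map_pow, W_conj]

lemma P_smul (z q c : ℂ) (v : ℕ → ℂ) : P z q (fun k => c * v k) = ‖c‖ ^ 2 * P z q v := by
  unfold P
  have h1 : ∑' k : ℕ, ell z q k * (c * v k) = c * ∑' k : ℕ, ell z q k * v k := by
    rw [← tsum_mul_left]
    exact tsum_congr fun k => by ring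
  have h2 : ∑' k : ℕ, ch k * ‖c * v (k + 1) - pk z q k * (c * v k)‖ ^ 2 =
      ‖c‖ ^ 2 * ∑' k : ℕ, ch k * ‖v (k + 1) - pk z q k * v k‖ ^ 2 := by
    rw [← tsum_mul_left]
    refine tsum_congr fun k => ?_
    have : c * v (k + 1) - pk z q k * (c * v k) = c * (v (k + 1) - pk z q k * v k) := by ring
    rw [this, norm_mul]
    ring
  rw [h1, h2, norm_mul]
  ring

lemma step_eq (Q z0 : ℂ) (h0 : z0 ≠ 0) (zs : List ℂ) :
    Drot Q (W (z0 :: zs)) = fun k => z0 * Drot (Q / z0) (Top (Drot z0 (W zs))) k := by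
  funext k
  cases k with
  | zero =>
    simp only [Drot, pow_zero, one_mul, W_cons_zero, Gl_cons, Top]
    rw [tsum_eq_sum (s := Finset.range (zs.length + 1))]
    · rw [mul_neg, Finset.mul_sum]
      congr 1
      refine Finset.sum_congr rfl fun k hk => ?_
      rw [Finset.mem_range] at hk
      have : W zs k = Gl (zs.drop k) := by
        unfold W
        rw [if_pos (by omega)]
      rw [this]
      ring
    · intro k hk
      rw [Finset.mem_range] at hk
      rw [W_big zs k (by omega)]
      simp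
  | succ k =>
    simp only [Drot, W_cons_succ, Top]
    rw [div_pow]
    have : z0 ^ k ≠ 0 := pow_ne_zero _ h0
    field_simp
    ring

lemma ch_nonneg (k : ℕ) : 0 ≤ ch k := by
  unfold ch
  positivity

lemma P_nonneg (z q : ℂ) (v : ℕ → ℂ) : 0 ≤ P z q v := by
  unfold P
  have : 0 ≤ ∑' k : ℕ, ch k * ‖v (k + 1) - pk z q k * v k‖ ^ 2 :=
    tsum_nonneg fun k => mul_nonneg (ch_nonneg k) (by positivity)
  positivity

lemma functional_le (z q : ℂ) (v : ℕ → ℂ) : ‖∑' k : ℕ, ell z q k * v k‖ ^ 2 ≤ P z q v := by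
  unfold P
  have : 0 ≤ ∑' k : ℕ, ch k * ‖v (k + 1) - pk z q k * v k‖ ^ 2 :=
    tsum_nonneg fun k => mul_nonneg (ch_nonneg k) (by positivity)
  linarith

/-- The bound of `P` on the torus. -/
lemma torus (z q : ℂ) (hK : Key z q) : ∀ (n : ℕ) (zs : List ℂ), zs.length = n →
    (∀ w ∈ zs, ‖w‖ = 1) → ∀ Q : ℂ, ‖Q‖ = 1 →
    P z q (Drot Q (W zs)) ≤ ((‖z‖ ^ 2)⁻¹) ^ n * P z q e0 := by
  intro n
  induction n with
  | zero =>
    intro zs hlen _ Q _
    rw [List.length_eq_zero_iff] at hlen
    subst hlen
    have : Drot Q (W []) = e0 := by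
      rw [W_nil]
      funext k
      unfold Drot e0
      split_ifs with h
      · subst h; simp
      · simp
    rw [this, pow_zero, one_mul]
  | succ n ih =>
    intro zs hlen hzs Q hQ
    cases zs with
    | nil => simp at hlen
    | cons z0 zs =>
      have hz0 : ‖z0‖ = 1 := hzs z0 (by simp)
      have hne : z0 ≠ 0 := by
        intro h
        rw [h] at hz0
        simp at hz0
      have hlen' : zs.length = n := by simpa using hlen
      have hzs' : ∀ w ∈ zs, ‖w‖ = 1 := fun w hw => hzs w (by simp [hw])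
      rw [step_eq Q z0 hne zs, P_smul, hz0, one_pow, one_mul]
      have hQ' : ‖Q / z0‖ = 1 := by rw [norm_div, hQ, hz0, div_one]
      refine (hK (Q / z0) hQ' _ (FS_W zs z0)).trans ?_
      rw [pow_succ' ((‖z‖ ^ 2)⁻¹) n, mul_assoc]
      refine mul_le_mul_of_nonneg_left ?_ (by positivity)
      unfold Mx
      refine max_le (ih zs hlen' hzs' z0 hz0) ?_
      rw [cj_Drot]
      refine ih _ (by simpa using hlen') ?_ _ (by simpa using hz0)
      intro w hw
      rw [List.mem_map] at hw
      obtain ⟨w', hw', rfl⟩ := hw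
      simpa using hzs' w' hw'

/-- The bound on the torus. -/
lemma torus_bound (z q : ℂ) (hl : 3 / 4 ≤ ‖ell z q 0‖) (hK : Key z q)
    (zs : List ℂ) (hzs : ∀ w ∈ zs, ‖w‖ = 1) :
    ‖Gl zs‖ ≤ 4 / 3 * √(P z q e0) * (‖z‖⁻¹) ^ zs.length := by
  set n := zs.length with hn
  -- the polynomial
  let p : ℂ → ℂ := fun Q => ∑ k ∈ Finset.range (n + 1), ell z q k * (Q ^ k * W zs k)
  have hp : ∀ Q, p Q = ∑' k : ℕ, ell z q k * Drot Q (W zs) k := by
    intro Q
    rw [tsum_eq_sum (s := Finset.range (n + 1))]
    · rfl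
    · intro k hk
      rw [Finset.mem_range] at hk
      simp [Drot, W_big zs k (by omega)]
  have hbd : ∀ Q : ℂ, ‖Q‖ = 1 → ‖p Q‖ ≤ √(P z q e0) * (‖z‖⁻¹) ^ n := by
    intro Q hQ
    have h1 : ‖p Q‖ ^ 2 ≤ ((‖z‖ ^ 2)⁻¹) ^ n * P z q e0 := by
      rw [hp]
      exact (functional_le z q _).trans (torus z q hK n zs rfl hzs Q hQ)
    have h2 : ((‖z‖ ^ 2)⁻¹) ^ n * P z q e0 = (√(P z q e0) * (‖z‖⁻¹) ^ n) ^ 2 := by
      rw [mul_pow, Real.sq_sqrt (P_nonneg z q e0), ← inv_pow, ← pow_mul, ← pow_mul, mul_comm 2 n,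
        mul_comm]
    rw [h2] at h1
    exact le_of_sq_le_sq h1 (by positivity)
  have hdiff : Differentiable ℂ p := by
    refine Differentiable.fun_sum fun k _ => ?_
    exact (differentiable_const _).mul ((differentiable_id.pow _).mul (differentiable_const _))
  have h0 : ‖p 0‖ ≤ √(P z q e0) * (‖z‖⁻¹) ^ n := by
    refine Complex.norm_le_of_forall_mem_frontier_norm_le (U := Metric.ball (0 : ℂ) 1)
      Metric.isBounded_ball hdiff.diffContOnCl ?_ ?_
    · intro Q hQ
      rw [frontier_ball (0 : ℂ) one_ne_zero, mem_sphere_zero_iff_norm] at hQ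
      exact hbd Q hQ
    · exact subset_closure (by simp)
  have hp0 : p 0 = ell z q 0 * Gl zs := by
    show ∑ k ∈ Finset.range (n + 1), ell z q k * ((0 : ℂ) ^ k * W zs k) = _
    rw [Finset.sum_range_succ']
    simp [W_zero]
  rw [hp0, norm_mul] at h0
  have h3 : 3 / 4 * ‖Gl zs‖ ≤ ‖ell z q 0‖ * ‖Gl zs‖ :=
    mul_le_mul_of_nonneg_right hl (norm_nonneg _)
  nlinarith [h0, h3]

/-- Extension to the closed polydisk. -/
lemma polydisk (C ρ : ℝ) (h : ∀ zs : List ℂ, (∀ w ∈ zs, ‖w‖ = 1) → ‖Gl zs‖ ≤ C * ρ ^ zs.length) :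
    ∀ (zs ys : List ℂ), (∀ w ∈ ys, ‖w‖ = 1) → (∀ w ∈ zs, ‖w‖ ≤ 1) →
      ‖Gl (ys ++ zs)‖ ≤ C * ρ ^ (ys.length + zs.length) := by
  intro zs
  induction zs with
  | nil =>
    intro ys hys _
    simpa using h ys hys
  | cons z zs ih =>
    intro ys hys hzs
    have hz : ‖z‖ ≤ 1 := hzs z (by simp)
    have hd := diff_Gl ys.length ys zs rfl
    refine Complex.norm_le_of_forall_mem_frontier_norm_le (U := Metric.ball (0 : ℂ) 1)
      (f := fun w => Gl (ys ++ w :: zs)) Metric.isBounded_ball hd.diffContOnCl ?_ ?_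
    · intro w hw
      rw [frontier_ball (0 : ℂ) one_ne_zero, mem_sphere_zero_iff_norm] at hw
      have := ih (ys ++ [w]) (by
        intro u hu
        rw [List.mem_append, List.mem_singleton] at hu
        rcases hu with hu | hu
        · exact hys u hu
        · rw [hu]; exact hw) (fun u hu => hzs u (by simp [hu]))
      have e1 : ys ++ [w] ++ zs = ys ++ w :: zs := by simp
      have e2 : (ys ++ [w]).length + zs.length = ys.length + (z :: zs).length := by
        simp only [List.length_append, List.length_cons, List.length_nil]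
        omega
      rw [e1, e2] at this
      exact this
    · rw [closure_ball (0 : ℂ) one_ne_zero]
      simpa using hz

end A1

/-- Job A1. -/
theorem tGBound : TGBound := by
  intro z q _ _ hE hK
  refine ⟨4 / 3 * √(P z q e0) + 1, by positivity, ?_⟩
  intro zs hzs
  have h := A1.polydisk (4 / 3 * √(P z q e0)) (‖z‖⁻¹)
    (fun zs hzs => A1.torus_bound z q hE.ell_zero' hK zs hzs) zs [] (by simp) hzs
  rw [List.nil_append, List.length_nil, zero_add] at h
  refine h.trans ?_
  refine mul_le_mul_of_nonneg_right (by linarith) (by positivity)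

end

end Pool.Agent.Whit
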