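import Pool.Agent.Whit.Spec

/-!
# The Whittaker constant: from the bound for Gontcharoff polynomials to the Whittaker property
-/

namespace Pool.Agent.Whit

open scoped Nat
open Filter Topology

/-! ### The last-element recursion for `Gl` -/

lemma Gl_nil : Gl [] = 1 := by rw [Gl]

lemma Gl_cons (z : ℂ) (zs : List ℂ) :
    Gl (z :: zs) = -∑ k ∈ Finset.range (zs.length + 1),
      Gl (zs.drop k) * z ^ (k + 1) / ((k + 1)! : ℂ) := by
  rw [Gl]
  rw [Finset.sum_attach (Finset.range (zs.length + 1))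
    (fun k => Gl (zs.drop k) * z ^ (k + 1) / ((k + 1)! : ℂ))]

lemma Gl_zero_cons (zs : List ℂ) : Gl (0 :: zs) = 0 := by
  rw [Gl_cons]
  simp

lemma Gl_replicate (k : ℕ) : Gl (List.replicate k 0) = if k = 0 then 1 else 0 := by
  cases k with
  | zero => simp [Gl_nil]
  | succ k => simp [List.replicate_succ, Gl_zero_cons]

lemma Gl_last : ∀ (n : ℕ) (L : List ℂ), L.length = n → ∀ (z : ℂ) (k : ℕ),
    Gl (L ++ z :: List.replicate k 0) = Gl (L ++ List.replicate (k + 1) 0)
      - Gl L * z ^ (k + 1) / ((k + 1)! : ℂ) := by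
  intro n
  induction n using Nat.strong_induction_on with
  | _ n ih =>
    intro L hL z k
    cases L with
    | nil =>
      simp only [List.nil_append, Gl_nil, List.replicate_succ, Gl_zero_cons]
      rw [Gl_cons]
      rw [Finset.sum_eq_single k]
      · simp [Gl_nil]
      · intro j hj hjk
        have hj' : j < k := by
          simp only [List.length_replicate, Finset.mem_range] at hj
          omega
        rw [List.drop_replicate, Gl_replicate]
        rw [if_neg (by omega)]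
        simp
      · intro h
        simp at h
    | cons y L' =>
      have hlen : L'.length < n := by
        rw [← hL]; simp
      simp only [List.cons_append]
      rw [Gl_cons, Gl_cons, Gl_cons]
      have e1 : (L' ++ z :: List.replicate k 0).length + 1 = (L'.length + 1) + (k + 1) := by
        simp; omega
      have e2 : (L' ++ List.replicate (k + 1) (0 : ℂ)).length + 1 = (L'.length + 1) + (k + 1) := by
        simp; omega
      rw [e1, e2]
      have hsp : ∀ g : ℕ → ℂ, ∑ j ∈ Finset.range ((L'.length + 1) + (k + 1)), g j =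
          ∑ j ∈ Finset.range (L'.length + 1), g j +
            ∑ x ∈ Finset.range (k + 1), g (L'.length + 1 + x) := fun g =>
        Finset.sum_range_add g _ _
      rw [hsp, hsp]
      have h1 : ∑ j ∈ Finset.range (L'.length + 1),
          Gl ((L' ++ z :: List.replicate k 0).drop j) * y ^ (j + 1) / ((j + 1)! : ℂ) =
          ∑ j ∈ Finset.range (L'.length + 1),
            Gl ((L' ++ List.replicate (k + 1) 0).drop j) * y ^ (j + 1) / ((j + 1)! : ℂ)
          - (∑ j ∈ Finset.range (L'.length + 1),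
            Gl (L'.drop j) * y ^ (j + 1) / ((j + 1)! : ℂ)) * (z ^ (k + 1) / ((k + 1)! : ℂ)) := by
        rw [Finset.sum_mul, ← Finset.sum_sub_distrib]
        refine Finset.sum_congr rfl ?_
        intro j hj
        have hj' : j ≤ L'.length := by
          simp only [Finset.mem_range] at hj; omega
        rw [List.drop_append_of_le_length hj', List.drop_append_of_le_length hj']
        rw [ih (L'.drop j).length (by rw [List.length_drop]; omega) _ rfl]
        ring
      have h2 : ∑ x ∈ Finset.range (k + 1),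
          Gl ((L' ++ z :: List.replicate k 0).drop (L'.length + 1 + x)) *
            y ^ (L'.length + 1 + x + 1) / ((L'.length + 1 + x + 1)! : ℂ) =
          ∑ x ∈ Finset.range (k + 1),
          Gl ((L' ++ List.replicate (k + 1) 0).drop (L'.length + 1 + x)) *
            y ^ (L'.length + 1 + x + 1) / ((L'.length + 1 + x + 1)! : ℂ) := by
        refine Finset.sum_congr rfl ?_
        intro x _
        have : (L' ++ z :: List.replicate k 0).drop (L'.length + 1 + x) =
            (L' ++ List.replicate (k + 1) 0).drop (L'.length + 1 + x) := by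
          have a1 : L'.length + 1 + x = L'.length + (x + 1) := by omega
          rw [a1, List.drop_append, List.drop_append]
          simp [List.replicate_succ]
        rw [this]
      rw [h1, h2]
      ring

/-! ### The growth of the Taylor coefficients -/

lemma factorial_le (n : ℕ) (hn : 1 ≤ n) :
    (n ! : ℝ) ≤ Real.exp 1 * n * (n / Real.exp 1) ^ n := by
  obtain ⟨m, rfl⟩ : ∃ m, n = m + 1 := ⟨n - 1, by omega⟩
  have h := Stirling.stirlingSeq'_antitone (Nat.zero_le m)
  simp only [Function.comp, Nat.succ_eq_add_one, zero_add, Stirling.stirlingSeq_one] at h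
  rw [Stirling.stirlingSeq] at h
  have hm : (1 : ℝ) ≤ ((m + 1 : ℕ) : ℝ) := by
    exact_mod_cast Nat.succ_le_succ (Nat.zero_le m)
  have hpos : 0 < √(2 * ((m + 1 : ℕ) : ℝ)) * (((m + 1 : ℕ) : ℝ) / Real.exp 1) ^ (m + 1) := by
    have : 0 < ((m + 1 : ℕ) : ℝ) := by linarith
    positivity
  rw [div_le_iff₀ hpos] at h
  refine h.trans ?_
  have h2 : √(2 * ((m + 1 : ℕ) : ℝ)) = √2 * √((m + 1 : ℕ) : ℝ) := by
    rw [Real.sqrt_mul (by norm_num)]
  rw [h2]
  have h3 : √((m + 1 : ℕ) : ℝ) ≤ ((m + 1 : ℕ) : ℝ) := by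
    rw [Real.sqrt_le_left (by linarith)]
    nlinarith
  have h4 : (0 : ℝ) < √2 := by positivity
  have h5 : 0 ≤ (((m + 1 : ℕ) : ℝ) / Real.exp 1) ^ (m + 1) := by positivity
  calc Real.exp 1 / √2 * (√2 * √((m + 1 : ℕ) : ℝ) * (((m + 1 : ℕ) : ℝ) / Real.exp 1) ^ (m + 1))
      = Real.exp 1 * √((m + 1 : ℕ) : ℝ) * (((m + 1 : ℕ) : ℝ) / Real.exp 1) ^ (m + 1) := by
        field_simp
    _ ≤ _ := by
        gcongr

lemma bdd_image (f : ℂ → ℂ) (hf : Differentiable ℂ f) (r : ℝ) :
    BddAbove ((fun z => ‖f z‖) '' Metric.closedBall (0 : ℂ) r) :=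
  ((isCompact_closedBall (0 : ℂ) r).image (hf.continuous.norm)).bddAbove

lemma le_maxMod (f : ℂ → ℂ) (hf : Differentiable ℂ f) (r : ℝ) (z : ℂ) (hz : ‖z‖ ≤ r) :
    ‖f z‖ ≤ maxMod f r := by
  refine le_csSup (bdd_image f hf r) ?_
  exact ⟨z, by simpa using hz, rfl⟩

/-- From the exponential type to a bound for the maximum modulus. -/
lemma maxMod_le (f : ℂ → ℂ) (hf : Differentiable ℂ f) (W : ℝ) (hW : 0 < W)
    (h : expType f < (W : EReal)) :
    ∃ σ : ℝ, 0 < σ ∧ σ < W ∧ ∃ R : ℝ, 0 < R ∧ ∀ r : ℝ, R ≤ r → maxMod f r ≤ Real.exp (σ * r) := by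
  obtain ⟨x, hx1, hx2⟩ := EReal.lt_iff_exists_real_btwn.1 h
  have hx2' : x < W := EReal.coe_lt_coe_iff.1 hx2
  refine ⟨max x (W / 2), ?_, ?_, ?_⟩
  · exact lt_max_of_lt_right (by linarith)
  · exact max_lt hx2' (by linarith)
  · have he := eventually_lt_of_limsup_lt hx1
    obtain ⟨R, hR⟩ := eventually_atTop.1 he
    refine ⟨max R 1, lt_max_of_lt_right one_pos, ?_⟩
    intro r hr
    have hr1 : R ≤ r := (le_max_left _ _).trans hr
    have hr2 : (1 : ℝ) ≤ r := (le_max_right _ _).trans hr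
    have h1 := hR r hr1
    have h2 : Real.log (maxMod f r) / r < x := EReal.coe_lt_coe_iff.1 h1
    have h0 : 0 ≤ maxMod f r := (norm_nonneg _).trans (le_maxMod f hf r 0 (by simp; linarith))
    rcases h0.eq_or_lt with h0 | h0
    · rw [← h0]; positivity
    · rw [div_lt_iff₀ (by linarith)] at h2
      have h3 : Real.log (maxMod f r) ≤ max x (W / 2) * r := by
        refine h2.le.trans ?_
        have : x ≤ max x (W / 2) := le_max_left _ _
        nlinarith
      calc maxMod f r = Real.exp (Real.log (maxMod f r)) := (Real.exp_log h0).symm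
        _ ≤ _ := Real.exp_le_exp.2 h3

lemma coeff_bound (f : ℂ → ℂ) (hf : Differentiable ℂ f) (W : ℝ) (hW : 0 < W)
    (h : expType f < (W : EReal)) :
    ∃ τ : ℝ, 0 < τ ∧ τ < W ∧ ∃ K : ℝ, 0 < K ∧ ∀ n : ℕ, ‖iteratedDeriv n f 0‖ ≤ K * τ ^ n := by
  obtain ⟨σ, hσ0, hσW, R, hR0, hR⟩ := maxMod_le f hf W hW h
  set τ : ℝ := (σ + W) / 2 with hτ
  have hστ : σ < τ := by rw [hτ]; linarith
  have hτW : τ < W := by rw [hτ]; linarith
  have hτ0 : 0 < τ := hσ0.trans hστ
  refine ⟨τ, hτ0, hτW, ?_⟩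
  -- for large `n`
  have hlarge : ∀ n : ℕ, 1 ≤ n → σ * R ≤ n →
      ‖iteratedDeriv n f 0‖ ≤ Real.exp 1 * n * σ ^ n := by
    intro n hn1 hn
    have hnpos : (0 : ℝ) < n := by exact_mod_cast hn1
    have hr0 : 0 < (n : ℝ) / σ := by positivity
    have hrR : R ≤ (n : ℝ) / σ := by
      rw [le_div_iff₀ hσ0]; linarith
    have hb := Complex.norm_iteratedDeriv_le_of_forall_mem_sphere_norm_le (c := 0) n hr0
      (hf.diffContOnCl) (C := Real.exp (σ * ((n : ℝ) / σ))) (by
        intro z hz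
        refine (le_maxMod f hf ((n : ℝ) / σ) z ?_).trans (hR _ hrR)
        have : ‖z‖ = (n : ℝ) / σ := by simpa using hz
        exact this.le)
    refine hb.trans ?_
    have e1 : σ * ((n : ℝ) / σ) = n := by field_simp
    rw [e1]
    have h1 := factorial_le n hn1
    have h2 : Real.exp (n : ℝ) = Real.exp 1 ^ n := by
      rw [← Real.exp_nat_mul]; simp
    rw [div_le_iff₀ (by positivity)]
    calc (n ! : ℝ) * Real.exp (n : ℝ)
        ≤ (Real.exp 1 * n * (n / Real.exp 1) ^ n) * Real.exp (n : ℝ) := by gcongr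
      _ = Real.exp 1 * n * σ ^ n * ((n : ℝ) / σ) ^ n := by
        rw [h2, div_pow, div_pow]
        field_simp
  -- boundedness of the quotients
  have hq : |σ / τ| < 1 := by
    rw [abs_of_pos (by positivity), div_lt_one hτ0]; exact hστ
  have htend : Tendsto (fun n : ℕ => (n : ℝ) * (σ / τ) ^ n) atTop (𝓝 0) := by
    have := tendsto_pow_const_mul_const_pow_of_abs_lt_one 1 hq
    simpa using this
  obtain ⟨K1, hK1⟩ := htend.bddAbove_range
  have hK1' : ∀ n : ℕ, (n : ℝ) * (σ / τ) ^ n ≤ K1 := fun n => hK1 ⟨n, rfl⟩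
  have hK1nn : 0 ≤ K1 := by simpa using hK1' 0
  obtain ⟨N, hN⟩ := exists_nat_ge (max 1 (σ * R))
  set K2 : ℝ := ∑ j ∈ Finset.range N, ‖iteratedDeriv j f 0‖ / τ ^ j with hK2
  have hK2nn : 0 ≤ K2 := Finset.sum_nonneg fun j _ => by positivity
  refine ⟨Real.exp 1 * K1 + K2 + 1, by positivity, ?_⟩
  intro n
  by_cases hn : n < N
  · have h1 : ‖iteratedDeriv n f 0‖ / τ ^ n ≤ K2 := by
      rw [hK2]
      exact Finset.single_le_sum (f := fun j => ‖iteratedDeriv j f 0‖ / τ ^ j)
        (fun j _ => by positivity) (Finset.mem_range.2 hn)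
    rw [div_le_iff₀ (by positivity)] at h1
    refine h1.trans ?_
    have : 0 < τ ^ n := by positivity
    have h3 : 0 ≤ Real.exp 1 * K1 := by positivity
    nlinarith
  · have hn' : (N : ℝ) ≤ n := by exact_mod_cast not_lt.1 hn
    have h1 : (1 : ℝ) ≤ n := (le_max_left _ _).trans (hN.trans hn')
    have h2 : σ * R ≤ n := (le_max_right _ _).trans (hN.trans hn')
    have h3 := hlarge n (by exact_mod_cast h1) h2
    refine h3.trans ?_
    have h4 := hK1' n
    have h5 : Real.exp 1 * n * σ ^ n = Real.exp 1 * ((n : ℝ) * (σ / τ) ^ n) * τ ^ n := by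
      rw [div_pow]
      field_simp
    rw [h5]
    have h6 : 0 < τ ^ n := by positivity
    refine mul_le_mul_of_nonneg_right ?_ h6.le
    have : Real.exp 1 * ((n : ℝ) * (σ / τ) ^ n) ≤ Real.exp 1 * K1 :=
      mul_le_mul_of_nonneg_left h4 (Real.exp_pos 1).le
    linarith

/-! ### The dual recursion -/

/-- `b_n(k) = Gl (z_m, …, z_{m+n-1}, 0, …, 0)`. -/
noncomputable def bb (w : ℕ → ℂ) (n k : ℕ) : ℂ :=
  Gl (List.ofFn (fun i : Fin n => w i) ++ List.replicate k 0)

lemma bb_zero (w : ℕ → ℂ) (k : ℕ) : bb w 0 k = if k = 0 then 1 else 0 := by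
  simp [bb, Gl_replicate]

lemma bb_succ (w : ℕ → ℂ) (n k : ℕ) :
    bb w (n + 1) k = bb w n (k + 1) - bb w n 0 * w n ^ (k + 1) / ((k + 1)! : ℂ) := by
  have h := Gl_last n (List.ofFn (fun i : Fin n => w i)) (by simp) (w n) k
  simp only [bb]
  rw [List.ofFn_succ_last]
  simp only [Fin.val_last, List.append_assoc, List.cons_append, List.nil_append, List.replicate_zero,
    List.append_nil]
  exact h

lemma bb_norm (z : ℂ) (C : ℝ) (hG : ∀ zs : List ℂ, (∀ w ∈ zs, ‖w‖ ≤ 1) →
    ‖Gl zs‖ ≤ C * (‖z‖⁻¹) ^ zs.length) (w : ℕ → ℂ) (hw : ∀ n, ‖w n‖ ≤ 1) (n k : ℕ) :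
    ‖bb w n k‖ ≤ C * (‖z‖⁻¹) ^ (n + k) := by
  have h := hG (List.ofFn (fun i : Fin n => w i) ++ List.replicate k 0) (by
    intro x hx
    rw [List.mem_append] at hx
    rcases hx with hx | hx
    · rw [List.mem_ofFn] at hx
      obtain ⟨i, rfl⟩ := hx
      exact hw i
    · rw [List.mem_replicate] at hx
      rw [hx.2]; simp)
  simpa [bb] using h

/-- The main vanishing statement. -/
lemma a_zero (z : ℂ) (hz : 0 < ‖z‖) (C : ℝ)
    (hG : ∀ zs : List ℂ, (∀ w ∈ zs, ‖w‖ ≤ 1) → ‖Gl zs‖ ≤ C * (‖z‖⁻¹) ^ zs.length)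
    (w : ℕ → ℂ) (hw : ∀ n, ‖w n‖ ≤ 1) (a : ℕ → ℂ) (τ K : ℝ) (hτ0 : 0 < τ) (hτ : τ < ‖z‖)
    (hK : 0 < K) (ha : ∀ n, ‖a n‖ ≤ K * τ ^ n)
    (hrec : ∀ n, a n = -∑' k : ℕ, a (n + 1 + k) * w n ^ (k + 1) / ((k + 1)! : ℂ)) :
    a 0 = 0 := by
  have hq0 : 0 < τ * ‖z‖⁻¹ := by positivity
  have hq1 : τ * ‖z‖⁻¹ < 1 := by
    rw [← div_eq_mul_inv, div_lt_one hz]; exact hτ
  -- bounds
  have hterm : ∀ n k, ‖a (n + k) * bb w n k‖ ≤ K * C * (τ * ‖z‖⁻¹) ^ n * (τ * ‖z‖⁻¹) ^ k := by
    intro n k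
    rw [norm_mul]
    calc ‖a (n + k)‖ * ‖bb w n k‖ ≤ (K * τ ^ (n + k)) * (C * (‖z‖⁻¹) ^ (n + k)) := by
          gcongr
          · exact ha _
          · exact bb_norm z C hG w hw n k
      _ = _ := by
          rw [mul_pow, mul_pow, pow_add, pow_add]; ring
  have hgeo : Summable fun k : ℕ => (τ * ‖z‖⁻¹) ^ k := summable_geometric_of_lt_one hq0.le hq1
  have hsum : ∀ n, Summable fun k => a (n + k) * bb w n k := by
    intro n
    refine Summable.of_norm_bounded (hgeo.mul_left (K * C * (τ * ‖z‖⁻¹) ^ n)) ?_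
    intro k
    exact hterm n k
  have hsumw : ∀ n, Summable fun k => a (n + 1 + k) * w n ^ (k + 1) / ((k + 1)! : ℂ) := by
    intro n
    have hexp : Summable fun k : ℕ => K * τ ^ (n + 1) * (τ ^ k / (k ! : ℝ)) :=
      (Real.summable_pow_div_factorial τ).mul_left _
    refine Summable.of_norm_bounded hexp ?_
    intro k
    rw [norm_div, norm_mul, norm_pow]
    have h1 : ‖((k + 1)! : ℂ)‖ = ((k + 1)! : ℝ) := by simp
    rw [h1]
    have h2 : ‖w n‖ ^ (k + 1) ≤ 1 := pow_le_one₀ (norm_nonneg _) (hw n)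
    have h3 : (k ! : ℝ) ≤ ((k + 1)! : ℝ) := by exact_mod_cast Nat.factorial_le (Nat.le_succ k)
    have h4 : (0 : ℝ) < (k ! : ℝ) := by positivity
    calc ‖a (n + 1 + k)‖ * ‖w n‖ ^ (k + 1) / ((k + 1)! : ℝ)
        ≤ (K * τ ^ (n + 1 + k)) * 1 / (k ! : ℝ) := by
          gcongr
          exact ha _
      _ = _ := by rw [pow_add]; ring
  have hid : ∀ n, a 0 = ∑' k, a (n + k) * bb w n k := by
    intro n
    induction n with
    | zero =>
      rw [tsum_eq_single 0]
      · simp [bb_zero]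
      · intro k hk
        rw [bb_zero, if_neg hk, mul_zero]
    | succ n ih =>
      rw [ih, (hsum n).tsum_eq_zero_add]
      have e1 : a (n + 0) * bb w n 0 =
          ∑' k, -(bb w n 0 * (a (n + 1 + k) * w n ^ (k + 1) / ((k + 1)! : ℂ))) := by
        rw [tsum_neg, tsum_mul_left, Nat.add_zero, hrec n]
        ring
      have e2 : ∀ k, a (n + (k + 1)) * bb w n (k + 1) = a (n + 1 + k) * bb w n (k + 1) := by
        intro k
        rw [show n + (k + 1) = n + 1 + k by omega]
      have hs2 : Summable fun k => a (n + 1 + k) * bb w n (k + 1) := by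
        have := (summable_nat_add_iff 1).2 (hsum n)
        refine this.congr ?_
        intro k
        exact e2 k
      rw [e1, tsum_congr e2, ← Summable.tsum_add ((hsumw n).mul_left (bb w n 0)).neg hs2]
      refine tsum_congr ?_
      intro k
      rw [bb_succ]
      ring
  -- conclusion
  have hb : ∀ n, ‖a 0‖ ≤ K * C * (τ * ‖z‖⁻¹) ^ n * (1 - τ * ‖z‖⁻¹)⁻¹ := by
    intro n
    rw [hid n]
    have h1 : Summable fun k => K * C * (τ * ‖z‖⁻¹) ^ n * (τ * ‖z‖⁻¹) ^ k :=
      hgeo.mul_left _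
    have h2 := tsum_of_norm_bounded (h1.hasSum) (fun k => hterm n k)
    refine h2.trans ?_
    rw [tsum_mul_left, tsum_geometric_of_lt_one hq0.le hq1]
  have ht : Tendsto (fun n : ℕ => K * C * (τ * ‖z‖⁻¹) ^ n * (1 - τ * ‖z‖⁻¹)⁻¹) atTop (𝓝 0) := by
    have h0 := tendsto_pow_atTop_nhds_zero_of_lt_one hq0.le hq1
    have := (h0.const_mul (K * C)).mul_const (1 - τ * ‖z‖⁻¹)⁻¹
    simpa using this
  have hle : ‖a 0‖ ≤ 0 := ge_of_tendsto' ht hb
  exact norm_le_zero_iff.1 hle

lemma iteratedDeriv_differentiable (f : ℂ → ℂ) (hf : Differentiable ℂ f) (n : ℕ) :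
    Differentiable ℂ (iteratedDeriv n f) := by
  have h : ContDiff ℂ (n + 1 : ℕ) f := hf.contDiff
  exact h.differentiable_iteratedDeriv n (by exact_mod_cast Nat.lt_succ_self n)

lemma iteratedDeriv_iter (f : ℂ → ℂ) (n k : ℕ) :
    iteratedDeriv k (iteratedDeriv n f) = iteratedDeriv (n + k) f := by
  induction k with
  | zero => simp
  | succ k ih => rw [iteratedDeriv_succ, ih, ← Nat.add_assoc, iteratedDeriv_succ]

theorem tWhit : TWhit := by
  intro z hz _ hG f hadm htype
  obtain ⟨C, _, hG⟩ := hG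
  obtain ⟨hf, hzero⟩ := hadm
  obtain ⟨τ, hτ0, hτ, K, hK, hcoef⟩ := coeff_bound f hf ‖z‖ hz htype
  choose w hw1 hw2 using hzero
  have hall : ∀ m, iteratedDeriv m f 0 = 0 := by
    intro m
    have hrec : ∀ n, iteratedDeriv (m + n) f 0 =
        -∑' k : ℕ, iteratedDeriv (m + (n + 1 + k)) f 0 * w (m + n) ^ (k + 1) / ((k + 1)! : ℂ) := by
      intro n
      have hs := Complex.hasSum_taylorSeries_of_entire
        (iteratedDeriv_differentiable f hf (m + n)) 0 (w (m + n))
      rw [hw2 (m + n)] at hs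
      simp only [iteratedDeriv_iter, sub_zero, smul_eq_mul] at hs
      have h0 := hs.tsum_eq
      rw [hs.summable.tsum_eq_zero_add] at h0
      simp only [Nat.factorial_zero, Nat.cast_one, inv_one, pow_zero, one_mul, Nat.add_zero] at h0
      rw [eq_neg_iff_add_eq_zero]
      have hc : ∀ k : ℕ, iteratedDeriv (m + (n + 1 + k)) f 0 * w (m + n) ^ (k + 1) /
          ((k + 1)! : ℂ) = (((k + 1)! : ℂ))⁻¹ *
            (w (m + n) ^ (k + 1) * iteratedDeriv (m + n + (k + 1)) f 0) := by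
        intro k
        rw [show m + n + (k + 1) = m + (n + 1 + k) by omega]
        field_simp
      rw [tsum_congr hc]
      exact h0
    have := a_zero z hz C hG (fun n => w (m + n)) (fun n => hw1 _)
      (fun n => iteratedDeriv (m + n) f 0) τ (K * τ ^ m) hτ0 hτ (by positivity)
      (fun n => by
        refine (hcoef (m + n)).trans (le_of_eq ?_)
        rw [pow_add]; ring)
      (fun n => hrec n)
    simpa using this
  intro x
  have hs := (Complex.hasSum_taylorSeries_of_entire hf 0 x).tsum_eq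
  rw [← hs]
  simp [hall]

end Pool.Agent.Whit
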