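import Pool.Agent.Whit.Spec

set_option autoImplicit false

/-!
# Job A3: zeros of `phi` for `|q'| ≤ 1`
-/

namespace Pool.Agent.Whit
namespace A3

open scoped Nat
open Finset

noncomputable section

/-- Coefficients of `1 / phi`. -/
def g (q : ℂ) : ℕ → ℂ
  | 0 => 1
  | n + 1 => -∑ k ∈ (range (n + 1)).attach,
      g q (n - k.1) * (q ^ ((k.1 + 1) * k.1 / 2) / ((k.1 + 1)! : ℂ))
termination_by n => n
decreasing_by omega

lemma g_zero (q : ℂ) : g q 0 = 1 := by rw [g]

lemma g_succ (q : ℂ) (n : ℕ) : g q (n + 1) = -∑ k ∈ range (n + 1),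
    g q (n - k) * (q ^ ((k + 1) * k / 2) / ((k + 1)! : ℂ)) := by
  rw [g]
  congr 1
  exact Finset.sum_attach (range (n + 1))
    (fun k => g q (n - k) * (q ^ ((k + 1) * k / 2) / ((k + 1)! : ℂ)))

lemma differentiable_g (n : ℕ) : Differentiable ℂ (fun q => g q n) := by
  induction n using Nat.strong_induction_on with
  | _ n ih =>
    rcases n with _ | n
    · simp only [g_zero]
      exact differentiable_const _
    · simp only [g_succ]
      apply Differentiable.neg
      apply Differentiable.fun_sum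
      intro k hk
      apply Differentiable.mul (ih (n - k) (by omega))
      apply Differentiable.div_const
      exact differentiable_id.pow _

/-- the test list -/
def L (q : ℂ) : ℕ → List ℂ
  | 0 => []
  | n + 1 => q ^ n :: L q n

lemma length_L (q : ℂ) (n : ℕ) : (L q n).length = n := by
  induction n with
  | zero => rfl
  | succ n ih => simp [L, ih]

lemma drop_L (q : ℂ) (n k : ℕ) : (L q n).drop k = L q (n - k) := by
  induction k generalizing n with
  | zero => simp
  | succ k ih =>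
    rcases n with _ | n
    · simp [L]
    · rw [L, List.drop_succ_cons, ih]
      congr 1
      omega

lemma norm_L (q : ℂ) (hq : ‖q‖ = 1) (n : ℕ) : ∀ w ∈ L q n, ‖w‖ ≤ 1 := by
  induction n with
  | zero => simp [L]
  | succ n ih =>
    intro w hw
    rw [L, List.mem_cons] at hw
    rcases hw with rfl | hw
    · rw [norm_pow, hq, one_pow]
    · exact ih w hw

/-- triangular numbers -/
def tri : ℕ → ℕ
  | 0 => 0
  | n + 1 => tri n + n

lemma tri_eq (n : ℕ) : (n + 1) * n / 2 = tri (n + 1) := by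
  induction n with
  | zero => rfl
  | succ n ih =>
    rw [tri, ← ih]
    have e : (n + 1 + 1) * (n + 1) = (n + 1) * n + (n + 1) * 2 := by ring
    rw [e, Nat.add_mul_div_right _ _ (by norm_num)]

lemma tri_add (m k : ℕ) : tri m + (m + k) * (k + 1) = tri (k + 1) + tri (m + k + 1) := by
  induction m with
  | zero =>
    simp only [tri, zero_add]
    have e : ∀ k : ℕ, k * (k + 1) = tri k + k + (tri k + k) := by
      intro k
      induction k with
      | zero => rfl
      | succ k ih => simp only [tri]; linarith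
    exact e k
  | succ m ih =>
    have e : m + 1 + k + 1 = (m + k + 1) + 1 := by ring
    have h1 : tri (m + 1) = tri m + m := rfl
    have h2 : tri (m + 1 + k + 1) = tri (m + k + 1) + (m + k + 1) := by rw [e]; rfl
    have e2 : (m + 1 + k) * (k + 1) = (m + k) * (k + 1) + (k + 1) := by ring
    rw [h1, h2, e2]
    omega

lemma Gl_cons (z : ℂ) (zs : List ℂ) : Gl (z :: zs) = -∑ k ∈ range (zs.length + 1),
    Gl (zs.drop k) * z ^ (k + 1) / ((k + 1)! : ℂ) := by
  rw [Gl]
  congr 1
  exact Finset.sum_attach (range (zs.length + 1))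
    (fun k => Gl (zs.drop k) * z ^ (k + 1) / ((k + 1)! : ℂ))

lemma Gl_L (q : ℂ) (n : ℕ) : Gl (L q n) = g q n * q ^ tri n := by
  induction n using Nat.strong_induction_on with
  | _ n ih =>
    rcases n with _ | n
    · simp [L, Gl, g_zero, tri]
    · rw [L, Gl_cons, length_L, g_succ, neg_mul, Finset.sum_mul]
      congr 1
      apply Finset.sum_congr rfl
      intro k hk
      rw [mem_range] at hk
      rw [drop_L, ih (n - k) (by omega), tri_eq]
      obtain ⟨m, rfl⟩ : ∃ m, n = m + k := ⟨n - k, by omega⟩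
      rw [Nat.add_sub_cancel, ← pow_mul]
      have := tri_add m k
      have e : q ^ tri m * q ^ ((m + k) * (k + 1)) = q ^ tri (k + 1) * q ^ tri (m + k + 1) := by
        rw [← pow_add, ← pow_add, this]
      calc g q m * q ^ tri m * q ^ ((m + k) * (k + 1)) / ((k + 1)! : ℂ)
          = g q m * (q ^ tri m * q ^ ((m + k) * (k + 1))) / ((k + 1)! : ℂ) := by ring
        _ = _ := by rw [e]; ring

lemma norm_g_circle {z : ℂ} {C : ℝ}
    (hC : ∀ zs : List ℂ, (∀ w ∈ zs, ‖w‖ ≤ 1) → ‖Gl zs‖ ≤ C * (‖z‖⁻¹) ^ zs.length)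
    (q : ℂ) (hq : ‖q‖ = 1) (n : ℕ) : ‖g q n‖ ≤ C * (‖z‖⁻¹) ^ n := by
  have h := hC (L q n) (norm_L q hq n)
  rw [length_L, Gl_L, norm_mul, norm_pow, hq, one_pow, mul_one] at h
  exact h

lemma norm_g {z : ℂ} {C : ℝ}
    (hC : ∀ zs : List ℂ, (∀ w ∈ zs, ‖w‖ ≤ 1) → ‖Gl zs‖ ≤ C * (‖z‖⁻¹) ^ zs.length)
    (q : ℂ) (hq : ‖q‖ ≤ 1) (n : ℕ) : ‖g q n‖ ≤ C * (‖z‖⁻¹) ^ n := by
  have h := Complex.norm_le_of_forall_mem_frontier_norm_le (f := fun q => g q n)
    (U := Metric.ball (0 : ℂ) 1) Metric.isBounded_ball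
    (differentiable_g n).diffContOnCl (C := C * (‖z‖⁻¹) ^ n) ?_ (z := q) ?_
  · exact h
  · intro w hw
    rw [frontier_ball (0 : ℂ) one_ne_zero, mem_sphere_zero_iff_norm] at hw
    exact norm_g_circle hC w hw n
  · rw [closure_ball (0 : ℂ) one_ne_zero, mem_closedBall_zero_iff]
    exact hq

end

end A3

open A3 in
theorem tZeros : TZeros := by
  intro z hz hG z' q' hq' h0
  obtain ⟨C, hC0, hC⟩ := hG
  by_contra hlt
  rw [not_le] at hlt
  have hg := norm_g hC q' hq'
  -- summability
  have hs1 : Summable fun n : ℕ => ‖q' ^ (n * (n - 1) / 2) * z' ^ n / (n.factorial : ℂ)‖ := by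
    refine Summable.of_nonneg_of_le (fun n => norm_nonneg _) (fun n => ?_)
      (Real.summable_pow_div_factorial ‖z'‖)
    rw [norm_div, norm_mul, norm_pow, norm_pow, Complex.norm_natCast]
    have : ‖q'‖ ^ (n * (n - 1) / 2) ≤ 1 := pow_le_one₀ (norm_nonneg _) hq'
    gcongr
    calc ‖q'‖ ^ (n * (n - 1) / 2) * ‖z'‖ ^ n ≤ 1 * ‖z'‖ ^ n := by gcongr
      _ = _ := one_mul _
  have hs2 : Summable fun n : ℕ => ‖g q' n * z' ^ n‖ := by
    have hr : ‖z'‖ / ‖z‖ < 1 := (div_lt_one hz).2 hlt
    refine Summable.of_nonneg_of_le (fun n => norm_nonneg _) (fun n => ?_)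
      ((summable_geometric_of_lt_one (by positivity) hr).mul_left C)
    rw [norm_mul, norm_pow]
    calc ‖g q' n‖ * ‖z'‖ ^ n ≤ (C * (‖z‖⁻¹) ^ n) * ‖z'‖ ^ n := by
          gcongr
          exact hg n
      _ = _ := by rw [div_eq_mul_inv, mul_pow]; ring
  have hprod := tsum_mul_tsum_eq_tsum_sum_range_of_summable_norm hs1 hs2
  have hcoef : ∀ n : ℕ, ∑ k ∈ Finset.range (n + 1),
      q' ^ (k * (k - 1) / 2) * z' ^ k / (k.factorial : ℂ) * (g q' (n - k) * z' ^ (n - k)) =
      if n = 0 then 1 else 0 := by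
    intro n
    rcases n with _ | n
    · simp [g_zero]
    · rw [if_neg (by omega), Finset.sum_range_succ']
      have e1 : ∀ k ∈ Finset.range (n + 1),
          q' ^ ((k + 1) * (k + 1 - 1) / 2) * z' ^ (k + 1) / ((k + 1).factorial : ℂ) *
            (g q' (n + 1 - (k + 1)) * z' ^ (n + 1 - (k + 1))) =
          z' ^ (n + 1) * (g q' (n - k) * (q' ^ ((k + 1) * k / 2) / ((k + 1).factorial : ℂ))) := by
        intro k hk
        rw [Finset.mem_range] at hk
        rw [Nat.add_sub_cancel, Nat.add_sub_add_right]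
        have : z' ^ (n + 1) = z' ^ (k + 1) * z' ^ (n - k) := by
          rw [← pow_add]; congr 1; omega
        rw [this]; ring
      rw [Finset.sum_congr rfl e1, ← Finset.mul_sum]
      have e2 := g_succ q' n
      have e3 : ∑ k ∈ Finset.range (n + 1),
          g q' (n - k) * (q' ^ ((k + 1) * k / 2) / ((k + 1).factorial : ℂ)) = -g q' (n + 1) := by
        rw [e2, neg_neg]
      rw [e3]
      simp
      ring
  simp only [hcoef] at hprod
  rw [tsum_ite_eq] at hprod
  unfold phi at h0
  rw [h0, zero_mul] at hprod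
  exact zero_ne_one hprod

end Pool.Agent.Whit
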