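import Pool.Agent.Whit.Spec

/-!
# The extremal function
-/

namespace Pool.Agent.Whit

open scoped Nat
open Filter

namespace A4

lemma term_norm {w q : ℂ} (hq : ‖q‖ = 1) (n : ℕ) :
    ‖q ^ (n * (n - 1) / 2) * w ^ n / (n ! : ℂ)‖ = ‖w‖ ^ n / (n ! : ℝ) := by
  rw [norm_div, norm_mul, norm_pow, norm_pow, hq, one_pow, one_mul]
  congr 1
  exact Complex.norm_natCast _

lemma summable_term {w q : ℂ} (hq : ‖q‖ = 1) :
    Summable fun n : ℕ => ‖q ^ (n * (n - 1) / 2) * w ^ n / (n ! : ℂ)‖ := by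
  refine (Real.summable_pow_div_factorial ‖w‖).congr fun n => ?_
  rw [term_norm hq]

lemma norm_phi_le {w q : ℂ} (hq : ‖q‖ = 1) : ‖phi w q‖ ≤ Real.exp ‖w‖ := by
  unfold phi
  refine (norm_tsum_le_tsum_norm (summable_term hq)).trans ?_
  rw [Real.exp_eq_exp_ℝ, NormedSpace.exp_eq_tsum_div]
  refine le_of_eq (tsum_congr fun n => ?_)
  rw [term_norm hq]

lemma phi_zero (q : ℂ) : phi 0 q = 1 := by
  unfold phi
  rw [tsum_eq_single 0]
  · simp
  · intro n hn
    simp [hn]

lemma tri_succ (m : ℕ) : (m + 1) * (m + 1 - 1) / 2 = m * (m - 1) / 2 + m := by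
  have h1 : (m + 1) * (m + 1 - 1) = m * (m - 1) + m * 2 := by
    cases m with
    | zero => rfl
    | succ k =>
      simp only [Nat.add_sub_cancel]
      ring
  rw [h1, Nat.add_mul_div_right _ _ (by norm_num)]

lemma hasDerivAt_phi {q : ℂ} (hq : ‖q‖ = 1) (w : ℂ) :
    HasDerivAt (fun w => phi w q) (phi (q * w) q) w := by
  set F : ℕ → ℂ → ℂ := fun n w => q ^ (n * (n - 1) / 2) * w ^ n / (n ! : ℂ) with hF
  set R : ℝ := ‖w‖ + 1 with hR
  have hd : ∀ n (x : ℂ), HasDerivAt (F n) (q ^ (n * (n - 1) / 2) * ((n : ℂ) * x ^ (n - 1)) / (n ! : ℂ)) x := by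
    intro n x
    exact ((hasDerivAt_pow n x).const_mul _).div_const _
  have hu : Summable fun n : ℕ => R ^ n / (n ! : ℝ) := Real.summable_pow_div_factorial R
  have hdiff : ∀ n, DifferentiableOn ℂ (F n) (Metric.ball 0 R) := fun n x _ =>
    (hd n x).differentiableAt.differentiableWithinAt
  have hle : ∀ n x, x ∈ Metric.ball (0 : ℂ) R → ‖F n x‖ ≤ R ^ n / (n ! : ℝ) := by
    intro n x hx
    simp only [hF]
    rw [term_norm hq]
    have : ‖x‖ ≤ R := by
      rw [Metric.mem_ball, dist_zero_right] at hx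
      exact hx.le
    gcongr
  have hw : w ∈ Metric.ball (0 : ℂ) R := by
    rw [Metric.mem_ball, dist_zero_right, hR]
    linarith
  have h1 := Complex.hasSum_deriv_of_summable_norm hu hdiff Metric.isOpen_ball hle hw
  have h2 := (Complex.differentiableOn_tsum_of_summable_norm hu hdiff Metric.isOpen_ball hle).differentiableAt
    (Metric.isOpen_ball.mem_nhds hw)
  have e1 : (fun w => phi w q) = fun w => ∑' n, F n w := by
    funext w
    rfl
  rw [e1]
  have h3 : deriv (fun w => ∑' n, F n w) w = phi (q * w) q := by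
    rw [← h1.tsum_eq]
    have e2 : ∀ n, deriv (F n) w = q ^ (n * (n - 1) / 2) * ((n : ℂ) * w ^ (n - 1)) / (n ! : ℂ) :=
      fun n => (hd n w).deriv
    have hs : Summable fun n => deriv (F n) w := h1.summable
    rw [hs.tsum_eq_zero_add]
    have e3 : deriv (F 0) w = 0 := by
      rw [e2]; simp
    rw [e3, zero_add]
    unfold phi
    refine tsum_congr fun m => ?_
    rw [e2, tri_succ, mul_pow, pow_add, Nat.factorial_succ]
    simp only [Nat.add_sub_cancel]
    push_cast
    have h4 : ((m : ℂ) + 1) ≠ 0 := Nat.cast_add_one_ne_zero m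
    have h5 : (m ! : ℂ) ≠ 0 := Nat.cast_ne_zero.2 (Nat.factorial_ne_zero m)
    field_simp
  rw [← h3]
  exact h2.hasDerivAt

lemma hasDerivAt_comp {q : ℂ} (hq : ‖q‖ = 1) (c t : ℂ) :
    HasDerivAt (fun t => phi (c * t) q) (c * phi (q * c * t) q) t := by
  have h1 := hasDerivAt_phi hq (c * t)
  have h2 : HasDerivAt (fun t : ℂ => c * t) c t := by
    simpa using (hasDerivAt_id t).const_mul c
  have h3 := h1.comp t h2
  refine h3.congr_deriv ?_
  rw [mul_comm, mul_assoc]

lemma iter {q : ℂ} (hq : ‖q‖ = 1) (z : ℂ) (n : ℕ) :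
    iteratedDeriv n (fun t => phi (z * t) q) =
      fun t => z ^ n * q ^ (n * (n - 1) / 2) * phi (q ^ n * z * t) q := by
  induction n with
  | zero =>
    funext t
    simp
  | succ n ih =>
    rw [iteratedDeriv_succ, ih]
    funext t
    have h := (hasDerivAt_comp hq (q ^ n * z) t).const_mul (z ^ n * q ^ (n * (n - 1) / 2))
    rw [h.deriv, tri_succ, pow_add, pow_succ z, pow_succ q]
    rw [show q * (q ^ n * z) * t = q ^ n * q * z * t by ring]
    ring

end A4

open A4 in
theorem tUpper : TUpper := by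
  intro z q hq h0
  have hq0 : q ≠ 0 := by
    intro h
    rw [h, norm_zero] at hq
    exact zero_ne_one hq
  refine ⟨⟨fun t => (hasDerivAt_comp hq z t).differentiableAt, fun n => ⟨(q ^ n)⁻¹, ?_, ?_⟩⟩, ?_, ?_⟩
  · rw [norm_inv, norm_pow, hq, one_pow, inv_one]
  · rw [iter hq z n]
    simp only []
    have : q ^ n * z * (q ^ n)⁻¹ = z := by
      have := pow_ne_zero n hq0
      field_simp
    rw [this, h0, mul_zero]
  · have hM : ∀ r : ℝ, 0 ≤ r → 1 ≤ maxMod (fun t => phi (z * t) q) r ∧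
        maxMod (fun t => phi (z * t) q) r ≤ Real.exp (‖z‖ * r) := by
      intro r hr
      have hb : ∀ y ∈ (fun t => ‖phi (z * t) q‖) '' Metric.closedBall (0 : ℂ) r,
          y ≤ Real.exp (‖z‖ * r) := by
        rintro y ⟨t, ht, rfl⟩
        refine (norm_phi_le hq).trans (Real.exp_le_exp.2 ?_)
        rw [norm_mul]
        rw [Metric.mem_closedBall, dist_zero_right] at ht
        exact mul_le_mul_of_nonneg_left ht (norm_nonneg z)
      constructor
      · refine le_csSup ⟨_, hb⟩ ⟨0, ?_, ?_⟩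
        · simpa using hr
        · simp only []
          rw [mul_zero, phi_zero, norm_one]
      · refine csSup_le ⟨_, ⟨0, ?_, rfl⟩⟩ hb
        simpa using hr
    unfold expType
    refine limsup_le_of_le (by isBoundedDefault) ?_
    filter_upwards [eventually_gt_atTop (0 : ℝ)] with r hr
    obtain ⟨h1, h2⟩ := hM r hr.le
    rw [EReal.coe_le_coe_iff, div_le_iff₀ hr]
    calc Real.log (maxMod (fun t => phi (z * t) q) r) ≤ Real.log (Real.exp (‖z‖ * r)) :=
          Real.log_le_log (by linarith) h2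
      _ = ‖z‖ * r := Real.log_exp _
  · rw [mul_zero, phi_zero]

end Pool.Agent.Whit
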