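import Pool.Agent.Whit.Spec

/-!
# WHIT-B1: existence of the optimal pair
-/

namespace Pool.Agent.Whit.B1

open scoped Nat
open Complex

noncomputable section

/-- the terms of the series -/
def tm (z q : ℂ) (n : ℕ) : ℂ := q ^ (n * (n - 1) / 2) * z ^ n / (n ! : ℂ)

/-- weighted sums of the terms -/
def Sa (a : ℕ → ℝ) (z q : ℂ) : ℂ := ∑' n : ℕ, (a n : ℂ) * tm z q n

lemma phi_eq (z q : ℂ) : phi z q = Sa (fun _ => 1) z q := by
  simp [phi, Sa, tm]

lemma pik_eq (z q : ℂ) (k : ℕ) : pik z q k = -tm z q (k + 1) := by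
  unfold pik Vk tm
  rw [Nat.add_sub_cancel, mul_comm (k + 1) k]
  ring

lemma tm_zero (z q : ℂ) : tm z q 0 = 1 := by simp [tm]

lemma tm_succ (z q : ℂ) (n : ℕ) : tm z q (n + 1) = tm z q n * q ^ n * z / ((n : ℂ) + 1) := by
  unfold tm
  rw [Nat.triangle_succ, Nat.factorial_succ, pow_add, pow_succ z]
  have h1 : (n ! : ℂ) ≠ 0 := by exact_mod_cast Nat.factorial_ne_zero n
  have h2 : ((n : ℂ) + 1) ≠ 0 := by exact_mod_cast Nat.succ_ne_zero n
  push_cast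
  field_simp

/-- weights of at most quadratic growth -/
def WB (a : ℕ → ℝ) : Prop := ∀ n, |a n| ≤ (n : ℝ) ^ 2 + 1

lemma norm_tm {z q : ℂ} (hq : ‖q‖ ≤ 1) (n : ℕ) : ‖tm z q n‖ ≤ ‖z‖ ^ n / (n ! : ℝ) := by
  unfold tm
  rw [norm_div, norm_mul, norm_pow, norm_pow, Complex.norm_natCast]
  apply div_le_div_of_nonneg_right _ (by positivity)
  calc ‖q‖ ^ (n * (n - 1) / 2) * ‖z‖ ^ n ≤ 1 * ‖z‖ ^ n := by
        apply mul_le_mul_of_nonneg_right _ (by positivity)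
        exact pow_le_one₀ (norm_nonneg _) hq
    _ = ‖z‖ ^ n := one_mul _

/-- the master numerical bound -/
lemma fact_bd (n : ℕ) : ((n : ℝ) ^ 2 + 1) * ((n : ℝ) ^ 2 + 1) * 2 ^ n ≤ 400 * (n ! : ℝ) := by
  have key : ∀ m : ℕ, (((m : ℝ) + 5) ^ 2 + 1) * (((m : ℝ) + 5) ^ 2 + 1) * 2 ^ (m + 5)
      ≤ 400 * ((m + 5)! : ℝ) := by
    intro m
    induction m with
    | zero => norm_num [Nat.factorial]
    | succ m ih =>
      rw [show m + 1 + 5 = (m + 5) + 1 by ring, Nat.factorial_succ, pow_succ]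
      push_cast
      have hm : (0 : ℝ) ≤ m := Nat.cast_nonneg m
      have h1 : ((((m : ℝ) + 1) + 5) ^ 2 + 1) * ((((m : ℝ) + 1) + 5) ^ 2 + 1) * 2
          ≤ ((m : ℝ) + 5 + 1) * ((((m : ℝ) + 5) ^ 2 + 1) * (((m : ℝ) + 5) ^ 2 + 1)) := by
        nlinarith [mul_nonneg hm hm, mul_nonneg (mul_nonneg hm hm) hm,
          mul_nonneg (mul_nonneg (mul_nonneg hm hm) hm) hm,
          mul_nonneg (mul_nonneg (mul_nonneg (mul_nonneg hm hm) hm) hm) hm]
      have h2 : (0 : ℝ) ≤ 2 ^ (m + 5) := by positivity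
      have h3 : (0 : ℝ) ≤ (m : ℝ) + 5 + 1 := by positivity
      calc ((((m : ℝ) + 1) + 5) ^ 2 + 1) * ((((m : ℝ) + 1) + 5) ^ 2 + 1) * (2 ^ (m + 5) * 2)
          = (((((m : ℝ) + 1) + 5) ^ 2 + 1) * ((((m : ℝ) + 1) + 5) ^ 2 + 1) * 2) * 2 ^ (m + 5) := by
            ring
        _ ≤ (((m : ℝ) + 5 + 1) * ((((m : ℝ) + 5) ^ 2 + 1) * (((m : ℝ) + 5) ^ 2 + 1)))
            * 2 ^ (m + 5) := mul_le_mul_of_nonneg_right h1 h2
        _ = ((m : ℝ) + 5 + 1) * ((((m : ℝ) + 5) ^ 2 + 1) * (((m : ℝ) + 5) ^ 2 + 1)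
            * 2 ^ (m + 5)) := by ring
        _ ≤ ((m : ℝ) + 5 + 1) * (400 * ((m + 5)! : ℝ)) := mul_le_mul_of_nonneg_left ih h3
        _ = 400 * (((m : ℝ) + 5 + 1) * ((m + 5)! : ℝ)) := by ring
  rcases Nat.lt_or_ge n 5 with h | h
  · interval_cases n <;> norm_num [Nat.factorial]
  · obtain ⟨m, rfl⟩ := Nat.exists_eq_add_of_le h
    have := key m
    rw [show 5 + m = m + 5 by ring]
    push_cast
    exact this

lemma fact_bd' (n : ℕ) : ((n : ℝ) ^ 2 + 1) * ((n : ℝ) ^ 2 + 1) / (n ! : ℝ) ≤ 400 * (1 / 2) ^ n := by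
  have h := fact_bd n
  have h1 : (0 : ℝ) < (n ! : ℝ) := by exact_mod_cast Nat.factorial_pos n
  rw [div_le_iff₀ h1, one_div, inv_pow]
  have h2 : (0 : ℝ) < 2 ^ n := by positivity
  rw [← mul_le_mul_iff_left₀ h2]
  calc _ ≤ 400 * (n ! : ℝ) := h
    _ = _ := by field_simp

lemma summable_half : Summable fun n : ℕ => 400 * (1 / 2 : ℝ) ^ n :=
  (summable_geometric_two).mul_left _

lemma tsum_half : ∑' n : ℕ, 400 * (1 / 2 : ℝ) ^ n = 800 := by
  rw [tsum_mul_left, tsum_geometric_two]; norm_num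

lemma norm_term {a : ℕ → ℝ} (ha : WB a) {z q : ℂ} (hz : ‖z‖ ≤ 1) (hq : ‖q‖ ≤ 1) (n : ℕ) :
    ‖(a n : ℂ) * tm z q n‖ ≤ 400 * (1 / 2) ^ n := by
  refine le_trans ?_ (fact_bd' n)
  rw [norm_mul, Complex.norm_real, Real.norm_eq_abs]
  have h1 := norm_tm (z := z) hq n
  have h2 : ‖z‖ ^ n / (n ! : ℝ) ≤ 1 / (n ! : ℝ) := by
    apply div_le_div_of_nonneg_right _ (by positivity)
    exact pow_le_one₀ (norm_nonneg _) hz
  have h3 : (0 : ℝ) ≤ (n : ℝ) ^ 2 := by positivity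
  calc |a n| * ‖tm z q n‖ ≤ ((n : ℝ) ^ 2 + 1) * (1 / (n ! : ℝ)) :=
        mul_le_mul (ha n) (h1.trans h2) (norm_nonneg _) (by positivity)
    _ = ((n : ℝ) ^ 2 + 1) / (n ! : ℝ) := by ring
    _ ≤ _ := by
        apply div_le_div_of_nonneg_right _ (by positivity)
        nlinarith

lemma summable_term {a : ℕ → ℝ} (ha : WB a) {z q : ℂ} (hz : ‖z‖ ≤ 1) (hq : ‖q‖ ≤ 1) :
    Summable fun n => (a n : ℂ) * tm z q n :=
  Summable.of_norm_bounded summable_half (norm_term ha hz hq)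

lemma pow_sub_bd {x y : ℂ} (hx : ‖x‖ ≤ 1) (hy : ‖y‖ ≤ 1) (n : ℕ) :
    ‖x ^ n - y ^ n‖ ≤ n * ‖x - y‖ := by
  induction n with
  | zero => simp
  | succ n ih =>
    have : x ^ (n + 1) - y ^ (n + 1) = (x ^ n - y ^ n) * x + y ^ n * (x - y) := by ring
    rw [this]
    refine (norm_add_le _ _).trans ?_
    rw [norm_mul, norm_mul, norm_pow]
    have h1 : ‖x ^ n - y ^ n‖ * ‖x‖ ≤ (n * ‖x - y‖) * 1 :=
      mul_le_mul ih hx (norm_nonneg _) (by positivity)
    have h2 : ‖y‖ ^ n * ‖x - y‖ ≤ 1 * ‖x - y‖ :=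
      mul_le_mul_of_nonneg_right (pow_le_one₀ (norm_nonneg _) hy) (norm_nonneg _)
    push_cast
    linarith

lemma tm_sub_bd {z q z' q' : ℂ} (hz : ‖z‖ ≤ 1) (hq : ‖q‖ ≤ 1) (hz' : ‖z'‖ ≤ 1) (hq' : ‖q'‖ ≤ 1)
    (n : ℕ) : ‖tm z q n - tm z' q' n‖ ≤ (n : ℝ) ^ 2 * (‖z - z'‖ + ‖q - q'‖) / (n ! : ℝ) := by
  unfold tm
  have h0 : (0 : ℝ) < (n ! : ℝ) := by exact_mod_cast Nat.factorial_pos n
  rw [← sub_div, norm_div, Complex.norm_natCast]
  apply div_le_div_of_nonneg_right _ h0.le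
  set k := n * (n - 1) / 2 with hk
  have hk2 : (k : ℝ) ≤ (n : ℝ) ^ 2 := by
    have : k ≤ n * n := by
      rw [hk]
      exact (Nat.div_le_self _ _).trans (Nat.mul_le_mul_left n (Nat.sub_le n 1))
    calc (k : ℝ) ≤ ((n * n : ℕ) : ℝ) := by exact_mod_cast this
      _ = (n : ℝ) ^ 2 := by push_cast; ring
  have hn2 : (n : ℝ) ≤ (n : ℝ) ^ 2 := by
    rcases Nat.eq_zero_or_pos n with h | h
    · subst h; simp
    · have : (1 : ℝ) ≤ n := by exact_mod_cast h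
      nlinarith
  have e : q ^ k * z ^ n - q' ^ k * z' ^ n = (q ^ k - q' ^ k) * z ^ n + q' ^ k * (z ^ n - z' ^ n) := by
    ring
  rw [e]
  refine (norm_add_le _ _).trans ?_
  rw [norm_mul, norm_mul, norm_pow, norm_pow]
  have h1 : ‖q ^ k - q' ^ k‖ * ‖z‖ ^ n ≤ (k * ‖q - q'‖) * 1 :=
    mul_le_mul (pow_sub_bd hq hq' k) (pow_le_one₀ (norm_nonneg _) hz) (by positivity) (by positivity)
  have h2 : ‖q'‖ ^ k * ‖z ^ n - z' ^ n‖ ≤ 1 * (n * ‖z - z'‖) :=
    mul_le_mul (pow_le_one₀ (norm_nonneg _) hq') (pow_sub_bd hz hz' n) (norm_nonneg _) (by norm_num)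
  have h3 : (k : ℝ) * ‖q - q'‖ ≤ (n : ℝ) ^ 2 * ‖q - q'‖ :=
    mul_le_mul_of_nonneg_right hk2 (norm_nonneg _)
  have h4 : (n : ℝ) * ‖z - z'‖ ≤ (n : ℝ) ^ 2 * ‖z - z'‖ :=
    mul_le_mul_of_nonneg_right hn2 (norm_nonneg _)
  linarith

/-- Lipschitz bound -/
lemma Sa_lip {a : ℕ → ℝ} (ha : WB a) {z q z' q' : ℂ} (hz : ‖z‖ ≤ 1) (hq : ‖q‖ ≤ 1)
    (hz' : ‖z'‖ ≤ 1) (hq' : ‖q'‖ ≤ 1) :
    ‖Sa a z q - Sa a z' q'‖ ≤ 800 * (‖z - z'‖ + ‖q - q'‖) := by
  set δ := ‖z - z'‖ + ‖q - q'‖ with hδ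
  have hδ0 : 0 ≤ δ := by positivity
  have hs := summable_term ha hz hq
  have hs' := summable_term ha hz' hq'
  have e : Sa a z q - Sa a z' q' = ∑' n, ((a n : ℂ) * tm z q n - (a n : ℂ) * tm z' q' n) :=
    (hs.tsum_sub hs').symm
  rw [e]
  have hb : ∀ n, ‖(a n : ℂ) * tm z q n - (a n : ℂ) * tm z' q' n‖ ≤ (400 * (1 / 2) ^ n) * δ := by
    intro n
    rw [← mul_sub, norm_mul, Complex.norm_real, Real.norm_eq_abs]
    have h0 : (0 : ℝ) < (n ! : ℝ) := by exact_mod_cast Nat.factorial_pos n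
    calc |a n| * ‖tm z q n - tm z' q' n‖
        ≤ ((n : ℝ) ^ 2 + 1) * ((n : ℝ) ^ 2 * δ / (n ! : ℝ)) :=
          mul_le_mul (ha n) (tm_sub_bd hz hq hz' hq' n) (norm_nonneg _) (by positivity)
      _ ≤ ((n : ℝ) ^ 2 + 1) * (((n : ℝ) ^ 2 + 1) * δ / (n ! : ℝ)) := by
          apply mul_le_mul_of_nonneg_left _ (by positivity)
          apply div_le_div_of_nonneg_right _ h0.le
          nlinarith
      _ = (((n : ℝ) ^ 2 + 1) * ((n : ℝ) ^ 2 + 1) / (n ! : ℝ)) * δ := by ring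
      _ ≤ _ := mul_le_mul_of_nonneg_right (fact_bd' n) hδ0
  have hsum : Summable fun n : ℕ => (400 * (1 / 2 : ℝ) ^ n) * δ := summable_half.mul_right δ
  calc ‖∑' n, ((a n : ℂ) * tm z q n - (a n : ℂ) * tm z' q' n)‖
      ≤ ∑' n : ℕ, (400 * (1 / 2 : ℝ) ^ n) * δ := tsum_of_norm_bounded hsum.hasSum hb
    _ = 800 * δ := by rw [tsum_mul_right, tsum_half]

/-! ### derivative -/

lemma WB_one : WB (fun _ => 1) := by
  intro n; simp only [abs_one]; nlinarith [sq_nonneg (n : ℝ)]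

lemma WB_id : WB (fun n => (n : ℝ)) := by
  intro n
  rw [abs_of_nonneg (Nat.cast_nonneg n)]
  nlinarith [sq_nonneg ((n : ℝ) - 1)]

lemma WB_tri : WB (fun n => (n : ℝ) * ((n : ℝ) - 1) / 2) := by
  intro n
  have h : (0 : ℝ) ≤ n := Nat.cast_nonneg n
  rw [abs_le]
  constructor <;> nlinarith [sq_nonneg ((n : ℝ) - 1)]

/-- termwise derivative -/
def dt (q : ℂ) (n : ℕ) (z : ℂ) : ℂ := q ^ (n * (n - 1) / 2) * ((n : ℂ) * z ^ (n - 1)) / (n ! : ℂ)

lemma dt_succ (z q : ℂ) (n : ℕ) : dt q (n + 1) z = tm (q * z) q n := by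
  unfold dt tm
  rw [Nat.triangle_succ, Nat.factorial_succ, Nat.add_sub_cancel, pow_add, mul_pow]
  have h1 : (n ! : ℂ) ≠ 0 := by exact_mod_cast Nat.factorial_ne_zero n
  have h2 : ((n : ℂ) + 1) ≠ 0 := by exact_mod_cast Nat.succ_ne_zero n
  push_cast
  field_simp

lemma dt_zero (z q : ℂ) : dt q 0 z = 0 := by simp [dt]

lemma norm_dt {z q : ℂ} (hz : ‖z‖ ≤ 1) (hq : ‖q‖ ≤ 1) (n : ℕ) :
    ‖dt q n z‖ ≤ 400 * (1 / 2) ^ n := by
  refine le_trans ?_ (fact_bd' n)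
  unfold dt
  rw [norm_div, norm_mul, norm_mul, norm_pow, norm_pow, Complex.norm_natCast, Complex.norm_natCast]
  apply div_le_div_of_nonneg_right _ (by positivity)
  have h1 : ‖q‖ ^ (n * (n - 1) / 2) ≤ 1 := pow_le_one₀ (norm_nonneg _) hq
  have h2 : ‖z‖ ^ (n - 1) ≤ 1 := pow_le_one₀ (norm_nonneg _) hz
  have h3 : (0 : ℝ) ≤ n := Nat.cast_nonneg n
  calc ‖q‖ ^ (n * (n - 1) / 2) * ((n : ℝ) * ‖z‖ ^ (n - 1)) ≤ 1 * ((n : ℝ) * 1) :=
        mul_le_mul h1 (mul_le_mul_of_nonneg_left h2 h3) (by positivity) (by norm_num)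
    _ ≤ _ := by nlinarith [sq_nonneg ((n : ℝ) - 1), sq_nonneg (n : ℝ), mul_nonneg h3 h3,
                  mul_nonneg (mul_nonneg h3 h3) (mul_nonneg h3 h3)]

lemma summable_dt {z q : ℂ} (hz : ‖z‖ ≤ 1) (hq : ‖q‖ ≤ 1) : Summable fun n => dt q n z :=
  Summable.of_norm_bounded summable_half (norm_dt hz hq)

lemma tsum_dt {z q : ℂ} (hz : ‖z‖ ≤ 1) (hq : ‖q‖ ≤ 1) : ∑' n, dt q n z = phi (q * z) q := by
  rw [(summable_dt hz hq).tsum_eq_zero_add, dt_zero, zero_add, phi_eq]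
  unfold Sa
  simp only [dt_succ, Complex.ofReal_one, one_mul]

lemma hasDerivAt_phi {z q : ℂ} (hz : ‖z‖ < 1) (hq : ‖q‖ ≤ 1) :
    HasDerivAt (fun w => phi w q) (phi (q * z) q) z := by
  have h := hasDerivAt_tsum_of_isPreconnected (𝕜 := ℂ) (F := ℂ)
    (u := fun n : ℕ => 400 * (1 / 2 : ℝ) ^ n) (t := Metric.ball (0 : ℂ) 1)
    (g := fun n w => tm w q n) (g' := fun n w => dt q n w) (y₀ := 0) (y := z)
    summable_half Metric.isOpen_ball (convex_ball 0 1).isPreconnected ?_ ?_ ?_ ?_ ?_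
  · rw [tsum_dt hz.le hq] at h
    have e : (fun w => phi w q) = fun w => ∑' n, tm w q n := by
      funext w; rfl
    rw [e]
    exact h
  · intro n y _
    unfold tm dt
    have h1 : HasDerivAt (fun y : ℂ => y ^ n) ((n : ℂ) * y ^ (n - 1)) y := hasDerivAt_pow n y
    exact (h1.const_mul _).div_const _
  · intro n y hy
    exact norm_dt (by simpa using (Metric.mem_ball.mp hy).le) hq n
  · simp
  · have := summable_term WB_one (z := 0) (q := q) (by simp) hq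
    simpa using this
  · simpa using hz

lemma mul_phi {z q : ℂ} (hz : ‖z‖ ≤ 1) (hq : ‖q‖ ≤ 1) :
    Sa (fun n => (n : ℝ)) z q = z * phi (q * z) q := by
  rw [← tsum_dt hz hq, ← tsum_mul_left]
  unfold Sa
  apply tsum_congr
  intro n
  unfold tm dt
  rcases Nat.eq_zero_or_pos n with h | h
  · subst h; simp
  · have e : z ^ n = z * z ^ (n - 1) := by
      rw [← pow_succ', Nat.sub_add_cancel h]
    rw [e]
    push_cast
    ring

/-! ### The root as a function of `q` -/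

/-- Data for the root function. -/
structure RD (zm qm c : ℂ) : Prop where
  nz : ‖zm‖ ≤ 9 / 10
  nq : ‖qm‖ = 1
  hc : c = phi (qm * zm) qm
  lc : 13 / 10 ≤ ‖c‖
  sm : ‖phi zm qm‖ ≤ 1 / 10 ^ 15

/-- radius of the ball -/
def rho : ℝ := 9 / 10 ^ 13

lemma approx {zm qm c : ℂ} (h : RD zm qm c) {q : ℂ} (hq : ‖q‖ = 1) (hqq : ‖q - qm‖ ≤ 1 / 10 ^ 15)
    {z w : ℂ} (hz : ‖z - zm‖ ≤ rho) (hw : ‖w - zm‖ ≤ rho) :
    ‖(phi z q - phi w q) - c * (z - w)‖ ≤ 1 / 10 ^ 8 * ‖z - w‖ := by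
  have hball : ∀ y ∈ Metric.closedBall zm rho, ‖y‖ < 1 := by
    intro y hy
    rw [Metric.mem_closedBall, dist_eq_norm] at hy
    have : ‖y‖ ≤ ‖y - zm‖ + ‖zm‖ := by
      calc ‖y‖ = ‖(y - zm) + zm‖ := by ring_nf
        _ ≤ _ := norm_add_le _ _
    have h2 := h.nz
    unfold rho at hy
    norm_num at hy h2 ⊢
    linarith
  have hd : ∀ y ∈ Metric.closedBall zm rho,
      HasDerivWithinAt (fun y => phi y q - c * y) (phi (q * y) q - c) (Metric.closedBall zm rho) y := by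
    intro y hy
    have h1 := hasDerivAt_phi (hball y hy) hq.le
    have h2 : HasDerivAt (fun y : ℂ => c * y) c y := by
      simpa using (hasDerivAt_id y).const_mul c
    exact (h1.sub h2).hasDerivWithinAt
  have hb : ∀ y ∈ Metric.closedBall zm rho, ‖phi (q * y) q - c‖ ≤ 1 / 10 ^ 8 := by
    intro y hy
    have hy1 := hball y hy
    rw [Metric.mem_closedBall, dist_eq_norm] at hy
    rw [h.hc, phi_eq, phi_eq]
    have n1 : ‖q * y‖ ≤ 1 := by rw [norm_mul, hq, one_mul]; exact hy1.le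
    have n2 : ‖qm * zm‖ ≤ 1 := by
      rw [norm_mul, h.nq, one_mul]; exact h.nz.trans (by norm_num)
    refine (Sa_lip WB_one n1 hq.le n2 h.nq.le).trans ?_
    have n3 : ‖q * y - qm * zm‖ ≤ ‖y - zm‖ + ‖q - qm‖ := by
      have e : q * y - qm * zm = q * (y - zm) + (q - qm) * zm := by ring
      rw [e]
      refine (norm_add_le _ _).trans ?_
      rw [norm_mul, norm_mul, hq, one_mul]
      have : ‖q - qm‖ * ‖zm‖ ≤ ‖q - qm‖ * 1 :=
        mul_le_mul_of_nonneg_left (h.nz.trans (by norm_num)) (norm_nonneg _)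
      linarith
    unfold rho at hy
    norm_num at hy hqq ⊢
    linarith
  have := Convex.norm_image_sub_le_of_norm_hasDerivWithin_le hd hb (convex_closedBall zm rho)
    (x := w) (y := z) (by rwa [Metric.mem_closedBall, dist_eq_norm])
    (by rwa [Metric.mem_closedBall, dist_eq_norm])
  refine le_trans (le_of_eq ?_) this
  congr 1
  ring

lemma exists_root {zm qm c : ℂ} (h : RD zm qm c) {q : ℂ} (hq : ‖q‖ = 1)
    (hqq : ‖q - qm‖ ≤ 2 / 10 ^ 16) : ∃ z, ‖z - zm‖ ≤ rho ∧ phi z q = 0 := by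
  have hqq' : ‖q - qm‖ ≤ 1 / 10 ^ 15 := hqq.trans (by norm_num)
  have hc0 : c ≠ 0 := by
    intro h0
    have := h.lc
    rw [h0, norm_zero] at this
    norm_num at this
  have hcp : 0 < ‖c‖ := norm_pos_iff.mpr hc0
  have hrho : (0 : ℝ) ≤ rho := by unfold rho; norm_num
  -- value at the centre
  have hcen : ‖phi zm q‖ ≤ 2 / 10 ^ 13 := by
    have nz1 : ‖zm‖ ≤ 1 := h.nz.trans (by norm_num)
    have h1 := Sa_lip WB_one nz1 hq.le nz1 h.nq.le
    rw [← phi_eq, ← phi_eq, sub_self, norm_zero, zero_add] at h1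
    have h2 : ‖phi zm q‖ ≤ ‖phi zm q - phi zm qm‖ + ‖phi zm qm‖ := by
      calc ‖phi zm q‖ = ‖(phi zm q - phi zm qm) + phi zm qm‖ := by ring_nf
        _ ≤ _ := norm_add_le _ _
    have h3 := h.sm
    norm_num at h1 h2 h3 hqq ⊢
    linarith
  set N : ℂ → ℂ := fun z => z - phi z q / c with hN
  have hlip : ∀ z w : ℂ, ‖z - zm‖ ≤ rho → ‖w - zm‖ ≤ rho → ‖N z - N w‖ ≤ 1 / 2 * ‖z - w‖ := by
    intro z w hz hw
    have h1 := approx h hq hqq' hz hw
    have e : N z - N w = -(((phi z q - phi w q) - c * (z - w)) / c) := by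
      rw [hN]
      field_simp
      ring
    rw [e, norm_neg, norm_div, div_le_iff₀ hcp]
    refine h1.trans ?_
    have h2 := h.lc
    have h3 := norm_nonneg (z - w)
    nlinarith
  have hNc : ‖N zm - zm‖ ≤ 2 / 10 ^ 13 := by
    have e : N zm - zm = -(phi zm q / c) := by rw [hN]; ring
    rw [e, norm_neg, norm_div, div_le_iff₀ hcp]
    have h2 := h.lc
    nlinarith
  have hmaps : Set.MapsTo N (Metric.closedBall zm rho) (Metric.closedBall zm rho) := by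
    intro z hz
    rw [Metric.mem_closedBall, dist_eq_norm] at hz ⊢
    have h1 := hlip z zm hz (by simpa using hrho)
    have h2 : ‖N z - zm‖ ≤ ‖N z - N zm‖ + ‖N zm - zm‖ := by
      calc ‖N z - zm‖ = ‖(N z - N zm) + (N zm - zm)‖ := by ring_nf
        _ ≤ _ := norm_add_le _ _
    unfold rho at hz ⊢
    norm_num at hz h1 h2 hNc ⊢
    linarith
  have hcontr : ContractingWith (1 / 2 : NNReal) (hmaps.restrict N _ _) := by
    refine ⟨by rw [← NNReal.coe_lt_coe]; norm_num, ?_⟩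
    apply LipschitzWith.of_dist_le_mul
    intro x y
    rw [Subtype.dist_eq, Subtype.dist_eq, dist_eq_norm, dist_eq_norm]
    have hx := x.2
    have hy := y.2
    rw [Metric.mem_closedBall, dist_eq_norm] at hx hy
    have := hlip x y hx hy
    simpa using this
  obtain ⟨y, hy, hfix, -⟩ := hcontr.exists_fixedPoint' (Metric.isClosed_closedBall.isComplete)
    hmaps (x := zm) (Metric.mem_closedBall_self hrho) (edist_ne_top _ _)
  refine ⟨y, by rwa [Metric.mem_closedBall, dist_eq_norm] at hy, ?_⟩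
  have h1 : N y = y := hfix
  rw [hN] at h1
  have h2 : phi y q / c = 0 := by
    have : y - phi y q / c = y := h1
    linear_combination -this
  rcases div_eq_zero_iff.mp h2 with h3 | h3
  · exact h3
  · exact absurd h3 hc0

lemma root_dist {zm qm c : ℂ} (h : RD zm qm c) {q : ℂ} (hq : ‖q‖ = 1)
    (hqq : ‖q - qm‖ ≤ 2 / 10 ^ 16) {z w : ℂ} (hz : ‖z - zm‖ ≤ rho) (hw : ‖w - zm‖ ≤ rho)
    (h0 : phi z q = 0) : ‖z - w‖ ≤ ‖phi w q‖ := by
  have h1 := approx h hq (hqq.trans (by norm_num)) hz hw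
  rw [h0, zero_sub] at h1
  have h2 : ‖c * (z - w)‖ ≤ ‖phi w q‖ + ‖-phi w q - c * (z - w)‖ := by
    calc ‖c * (z - w)‖ = ‖-(phi w q) - (-phi w q - c * (z - w))‖ := by ring_nf
      _ ≤ ‖-(phi w q)‖ + ‖-phi w q - c * (z - w)‖ := norm_sub_le _ _
      _ = _ := by rw [norm_neg]
  rw [norm_mul] at h2
  have h3 := h.lc
  have h4 := norm_nonneg (z - w)
  nlinarith

/-! ### Integer arithmetic -/

end

/-- scale -/
def SS : ℤ := 10 ^ 32

/-- rounded product -/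
def gm (a b : ℤ × ℤ) : ℤ × ℤ := ((a.1 * b.1 - a.2 * b.2) / SS, (a.1 * b.2 + a.2 * b.1) / SS)

/-- rounded quotient -/
def gd (a : ℤ × ℤ) (n : ℤ) : ℤ × ℤ := (a.1 / n, a.2 / n)

/-- powers of `q` and terms -/
def st (Q Z : ℤ × ℤ) : ℕ → (ℤ × ℤ) × (ℤ × ℤ)
  | 0 => ((SS, 0), (SS, 0))
  | n + 1 => (gm (st Q Z n).1 Q, gd (gm (gm (st Q Z n).2 (st Q Z n).1) Z) (n + 1))

/-- weighted sums -/
def sm (a : ℕ → ℤ) (Q Z : ℤ × ℤ) : ℕ → ℤ × ℤ
  | 0 => (0, 0)
  | n + 1 => ((sm a Q Z n).1 + a n * (st Q Z n).2.1, (sm a Q Z n).2 + a n * (st Q Z n).2.2)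

noncomputable section

/-- value of a pair -/
def cv (a : ℤ × ℤ) : ℂ := ⟨(a.1 : ℝ) / 10 ^ 32, (a.2 : ℝ) / 10 ^ 32⟩

lemma norm_le_of_re_im {w : ℂ} {e : ℝ} (h1 : |w.re| ≤ e) (h2 : |w.im| ≤ e) : ‖w‖ ≤ 2 * e := by
  have := Complex.norm_le_abs_re_add_abs_im w
  linarith

lemma floor_err (x : ℤ) (n : ℤ) (hn : 0 < n) : |((x / n : ℤ) : ℝ) - (x : ℝ) / n| ≤ 1 := by
  have hn' : (0 : ℝ) < n := by exact_mod_cast hn
  have h1 : ((x / n : ℤ) : ℝ) * n ≤ x := by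
    have : (x / n) * n ≤ x := Int.ediv_mul_le x hn.ne'
    exact_mod_cast this
  have h2 : (x : ℝ) < ((x / n : ℤ) : ℝ) * n + n := by
    have : x < (x / n) * n + n := by
      have := Int.lt_ediv_add_one_mul_self x hn
      linarith
    exact_mod_cast this
  rw [abs_le]
  constructor
  · rw [neg_le_sub_iff_le_add, div_le_iff₀ hn']; linarith
  · rw [sub_le_iff_le_add, ← sub_le_iff_le_add', le_div_iff₀ hn']; linarith

lemma gm_err (a b : ℤ × ℤ) : ‖cv (gm a b) - cv a * cv b‖ ≤ 2 / 10 ^ 32 := by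
  have h := floor_err (a.1 * b.1 - a.2 * b.2) SS (by unfold SS; norm_num)
  have h' := floor_err (a.1 * b.2 + a.2 * b.1) SS (by unfold SS; norm_num)
  have hS : (SS : ℝ) = 10 ^ 32 := by unfold SS; norm_num
  rw [hS] at h h'
  have e : (2 : ℝ) / 10 ^ 32 = 2 * (1 / 10 ^ 32) := by ring
  rw [e]
  apply norm_le_of_re_im
  · have : (cv (gm a b) - cv a * cv b).re
        = ((((a.1 * b.1 - a.2 * b.2) / SS : ℤ) : ℝ) - ((a.1 * b.1 - a.2 * b.2 : ℤ) : ℝ) / 10 ^ 32)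
          / 10 ^ 32 := by
      simp only [cv, gm, Complex.sub_re, Complex.mul_re]
      push_cast
      ring
    rw [this, abs_div, abs_of_pos (by positivity : (0 : ℝ) < 10 ^ 32)]
    exact div_le_div_of_nonneg_right h (by positivity)
  · have : (cv (gm a b) - cv a * cv b).im
        = ((((a.1 * b.2 + a.2 * b.1) / SS : ℤ) : ℝ) - ((a.1 * b.2 + a.2 * b.1 : ℤ) : ℝ) / 10 ^ 32)
          / 10 ^ 32 := by
      simp only [cv, gm, Complex.sub_im, Complex.mul_im]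
      push_cast
      ring
    rw [this, abs_div, abs_of_pos (by positivity : (0 : ℝ) < 10 ^ 32)]
    exact div_le_div_of_nonneg_right h' (by positivity)

lemma gd_err (a : ℤ × ℤ) (n : ℕ) : ‖cv (gd a ((n : ℤ) + 1)) - cv a / ((n : ℂ) + 1)‖ ≤ 2 / 10 ^ 32 := by
  have hn : (0 : ℤ) < (n : ℤ) + 1 := by positivity
  have h := floor_err a.1 ((n : ℤ) + 1) hn
  have h' := floor_err a.2 ((n : ℤ) + 1) hn
  have e : (2 : ℝ) / 10 ^ 32 = 2 * (1 / 10 ^ 32) := by ring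
  have ec : cv a / ((n : ℂ) + 1) = ⟨(a.1 : ℝ) / ((n : ℝ) + 1) / 10 ^ 32, (a.2 : ℝ) / ((n : ℝ) + 1) / 10 ^ 32⟩ := by
    have h1 : ((n : ℂ) + 1) ≠ 0 := by exact_mod_cast Nat.succ_ne_zero n
    have h2 : ((n : ℝ) + 1) ≠ 0 := by exact_mod_cast Nat.succ_ne_zero n
    rw [div_eq_iff h1]
    have h3 : ((n : ℂ) + 1) = (((n : ℝ) + 1 : ℝ) : ℂ) := by push_cast; rfl
    rw [h3]
    apply Complex.ext
    · simp only [cv, Complex.mul_re, Complex.ofReal_re, Complex.ofReal_im, mul_zero, sub_zero]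
      field_simp
    · simp only [cv, Complex.mul_im, Complex.ofReal_re, Complex.ofReal_im, mul_zero, zero_add]
      field_simp
  rw [ec, e]
  push_cast at h h'
  apply norm_le_of_re_im
  · have : (cv (gd a ((n : ℤ) + 1)) - ⟨(a.1 : ℝ) / ((n : ℝ) + 1) / 10 ^ 32,
        (a.2 : ℝ) / ((n : ℝ) + 1) / 10 ^ 32⟩).re
        = (((a.1 / ((n : ℤ) + 1) : ℤ) : ℝ) - (a.1 : ℝ) / ((n : ℝ) + 1)) / 10 ^ 32 := by
      simp only [cv, gd, Complex.sub_re]
      ring
    rw [this, abs_div, abs_of_pos (by positivity : (0 : ℝ) < 10 ^ 32)]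
    exact div_le_div_of_nonneg_right h (by positivity)
  · have : (cv (gd a ((n : ℤ) + 1)) - ⟨(a.1 : ℝ) / ((n : ℝ) + 1) / 10 ^ 32,
        (a.2 : ℝ) / ((n : ℝ) + 1) / 10 ^ 32⟩).im
        = (((a.2 / ((n : ℤ) + 1) : ℤ) : ℝ) - (a.2 : ℝ) / ((n : ℝ) + 1)) / 10 ^ 32 := by
      simp only [cv, gd, Complex.sub_im]
      ring
    rw [this, abs_div, abs_of_pos (by positivity : (0 : ℝ) < 10 ^ 32)]
    exact div_le_div_of_nonneg_right h' (by positivity)

/-- error of the terms -/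
lemma st_err {Q Z : ℤ × ℤ} {q : ℂ} (hq : ‖q‖ = 1) (hQ : ‖q - cv Q‖ ≤ 2 / 10 ^ 32)
    (hZ : ‖cv Z‖ ≤ 1) : ∀ n : ℕ, n ≤ 30 →
      ‖q ^ n - cv (st Q Z n).1‖ ≤ 10 * n / 10 ^ 32 ∧
      ‖tm (cv Z) q n - cv (st Q Z n).2‖ ≤ 10 * n ^ 2 / 10 ^ 32 := by
  intro n
  have hcS : cv (SS, 0) = 1 := by
    unfold cv SS
    apply Complex.ext <;> norm_num
  induction n with
  | zero =>
    intro _
    simp only [st, hcS, tm_zero, pow_zero, sub_self, norm_zero]
    constructor <;> positivity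
  | succ n ih =>
    intro hn
    obtain ⟨h1, h2⟩ := ih (by omega)
    have hn30 : (n : ℝ) ≤ 30 := by exact_mod_cast (by omega : n ≤ 30)
    have hn0 : (0 : ℝ) ≤ n := Nat.cast_nonneg n
    set w := cv (st Q Z n).1 with hw
    set t := cv (st Q Z n).2 with ht
    have nw : ‖w‖ ≤ 2 := by
      have : ‖w‖ ≤ ‖q ^ n‖ + ‖q ^ n - w‖ := by
        calc ‖w‖ = ‖q ^ n - (q ^ n - w)‖ := by ring_nf
          _ ≤ _ := norm_sub_le _ _
      rw [norm_pow, hq, one_pow] at this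
      have h5 : 10 * (n : ℝ) / 10 ^ 32 ≤ 1 := by
        rw [div_le_one (by positivity)]
        norm_num
        linarith
      linarith
    have ntm : ‖tm (cv Z) q n‖ ≤ 1 := by
      refine (norm_tm hq.le n).trans ?_
      rw [div_le_one (by exact_mod_cast Nat.factorial_pos n)]
      calc ‖cv Z‖ ^ n ≤ 1 := pow_le_one₀ (norm_nonneg _) hZ
        _ ≤ (n ! : ℝ) := by exact_mod_cast Nat.succ_le_of_lt (Nat.factorial_pos n)
    have nt : ‖t‖ ≤ 2 := by
      have : ‖t‖ ≤ ‖tm (cv Z) q n‖ + ‖tm (cv Z) q n - t‖ := by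
        calc ‖t‖ = ‖tm (cv Z) q n - (tm (cv Z) q n - t)‖ := by ring_nf
          _ ≤ _ := norm_sub_le _ _
      have h5 : 10 * (n : ℝ) ^ 2 / 10 ^ 32 ≤ 1 := by
        rw [div_le_one (by positivity)]
        have : (n : ℝ) ^ 2 ≤ 900 := by nlinarith
        norm_num
        linarith
      linarith
    constructor
    · have e1 : q ^ (n + 1) - cv (st Q Z (n + 1)).1
          = (q ^ n - w) * q + w * (q - cv Q) - (cv (gm (st Q Z n).1 Q) - w * cv Q) := by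
        simp only [st, hw]
        ring
      rw [e1]
      have h3 := gm_err (st Q Z n).1 Q
      rw [← hw] at h3
      refine (norm_sub_le _ _).trans ?_
      have h4 : ‖(q ^ n - w) * q + w * (q - cv Q)‖ ≤ 10 * n / 10 ^ 32 + 2 * (2 / 10 ^ 32) := by
        refine (norm_add_le _ _).trans ?_
        rw [norm_mul, norm_mul, hq, mul_one]
        have := mul_le_mul nw hQ (norm_nonneg _) (by norm_num)
        linarith
      push_cast
      have : 10 * ((n : ℝ) + 1) / 10 ^ 32 = 10 * n / 10 ^ 32 + 10 / 10 ^ 32 := by ring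
      rw [this]
      norm_num at h3 h4 ⊢
      linarith
    · set p := gm (st Q Z n).2 (st Q Z n).1 with hp
      set r := gm p Z with hr
      have e1 : tm (cv Z) q (n + 1) - cv (st Q Z (n + 1)).2
          = ((tm (cv Z) q n * q ^ n * cv Z) - cv r) / ((n : ℂ) + 1)
            - (cv (gd r ((n : ℤ) + 1)) - cv r / ((n : ℂ) + 1)) := by
        rw [tm_succ]
        simp only [st, ← hp, ← hr]
        ring
      rw [e1]
      have h3 := gm_err (st Q Z n).2 (st Q Z n).1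
      rw [← hw, ← ht, ← hp] at h3
      have h4 := gm_err p Z
      rw [← hr] at h4
      have h5 := gd_err r n
      refine (norm_sub_le _ _).trans ?_
      have h6 : ‖tm (cv Z) q n * q ^ n - cv p‖
          ≤ 10 * n ^ 2 / 10 ^ 32 + 2 * (10 * n / 10 ^ 32) + 2 / 10 ^ 32 := by
        have e2 : tm (cv Z) q n * q ^ n - cv p
            = (tm (cv Z) q n - t) * q ^ n + t * (q ^ n - w) - (cv p - t * w) := by ring
        rw [e2]
        refine (norm_sub_le _ _).trans ?_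
        have h7 : ‖(tm (cv Z) q n - t) * q ^ n + t * (q ^ n - w)‖
            ≤ 10 * n ^ 2 / 10 ^ 32 + 2 * (10 * n / 10 ^ 32) := by
          refine (norm_add_le _ _).trans ?_
          rw [norm_mul, norm_mul, norm_pow, hq, one_pow, mul_one]
          have := mul_le_mul nt h1 (norm_nonneg _) (by norm_num)
          linarith
        linarith
      have h8 : ‖(tm (cv Z) q n * q ^ n * cv Z) - cv r‖
          ≤ 10 * n ^ 2 / 10 ^ 32 + 2 * (10 * n / 10 ^ 32) + 4 / 10 ^ 32 := by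
        have e2 : tm (cv Z) q n * q ^ n * cv Z - cv r
            = (tm (cv Z) q n * q ^ n - cv p) * cv Z - (cv r - cv p * cv Z) := by ring
        rw [e2]
        refine (norm_sub_le _ _).trans ?_
        rw [norm_mul]
        have := mul_le_mul h6 hZ (norm_nonneg _) (by positivity)
        have e3 : (4 : ℝ) / 10 ^ 32 = 2 / 10 ^ 32 + 2 / 10 ^ 32 := by ring
        rw [e3]
        linarith
      have h9 : ‖((tm (cv Z) q n * q ^ n * cv Z) - cv r) / ((n : ℂ) + 1)‖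
          ≤ ‖(tm (cv Z) q n * q ^ n * cv Z) - cv r‖ := by
        rw [norm_div]
        apply div_le_self (norm_nonneg _)
        have : ((n : ℂ) + 1) = ((n + 1 : ℕ) : ℂ) := by push_cast; rfl
        rw [this, Complex.norm_natCast]
        push_cast
        linarith
      push_cast
      have e4 : 10 * ((n : ℝ) + 1) ^ 2 / 10 ^ 32
          = (10 * n ^ 2 / 10 ^ 32 + 2 * (10 * n / 10 ^ 32)) + 10 / 10 ^ 32 := by ring
      rw [e4]
      have e5 : (10 : ℝ) / 10 ^ 32 = 4 / 10 ^ 32 + 2 / 10 ^ 32 + 4 / 10 ^ 32 := by ring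
      rw [e5]
      have : (0 : ℝ) ≤ 4 / 10 ^ 32 := by positivity
      linarith

lemma cv_sm (a : ℕ → ℤ) (Q Z : ℤ × ℤ) (N : ℕ) :
    cv (sm a Q Z N) = ∑ n ∈ Finset.range N, (a n : ℂ) * cv (st Q Z n).2 := by
  induction N with
  | zero => simp only [sm, cv, Finset.range_zero, Finset.sum_empty]; apply Complex.ext <;> simp
  | succ N ih =>
    rw [Finset.sum_range_succ, ← ih]
    apply Complex.ext
    · simp only [sm, cv, Complex.add_re, Complex.mul_re, Complex.intCast_re, Complex.intCast_im]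
      push_cast
      ring
    · simp only [sm, cv, Complex.add_im, Complex.mul_im, Complex.intCast_re, Complex.intCast_im]
      push_cast
      ring

/-- tail bound -/
lemma fact_tail (m : ℕ) :
    (((m : ℝ) + 28) ^ 2 + 1) / ((m + 28)! : ℝ) ≤ 1 / 10 ^ 26 * (1 / 2) ^ m := by
  induction m with
  | zero => norm_num [Nat.factorial]
  | succ m ih =>
    have h0 : (0 : ℝ) < ((m + 28)! : ℝ) := by exact_mod_cast Nat.factorial_pos _
    rw [show m + 1 + 28 = (m + 28) + 1 by ring, Nat.factorial_succ]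
    push_cast
    have hm : (0 : ℝ) ≤ m := Nat.cast_nonneg m
    generalize ((m + 28)! : ℝ) = F at h0 ih ⊢
    have h1 : (((m : ℝ) + 1 + 28) ^ 2 + 1) / (((m : ℝ) + 28 + 1) * F)
        ≤ 1 / 2 * ((((m : ℝ) + 28) ^ 2 + 1) / F) := by
      have h3 : (0 : ℝ) < ((m : ℝ) + 28 + 1) * F := by positivity
      rw [div_le_iff₀ h3]
      have : 1 / 2 * ((((m : ℝ) + 28) ^ 2 + 1) / F) * (((m : ℝ) + 28 + 1) * F)
          = 1 / 2 * (((m : ℝ) + 28) ^ 2 + 1) * ((m : ℝ) + 28 + 1) := by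
        field_simp
      rw [this]
      nlinarith [mul_nonneg hm hm, mul_nonneg (mul_nonneg hm hm) hm]
    refine h1.trans ?_
    rw [pow_succ (1 / 2 : ℝ) m]
    linarith

lemma sum_err {a : ℕ → ℤ} (ha : WB (fun n => (a n : ℝ))) {Q Z : ℤ × ℤ} {q : ℂ} (hq : ‖q‖ = 1)
    (hQ : ‖q - cv Q‖ ≤ 2 / 10 ^ 32) (hZ : ‖cv Z‖ ≤ 1) :
    ‖Sa (fun n => (a n : ℝ)) (cv Z) q - cv (sm a Q Z 28)‖ ≤ 1 / 10 ^ 23 := by
  have hs := summable_term ha hZ hq.le
  unfold Sa
  rw [← hs.sum_add_tsum_nat_add 28, cv_sm, add_sub_right_comm, ← Finset.sum_sub_distrib]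
  refine (norm_add_le _ _).trans ?_
  have h1 : ‖∑ n ∈ Finset.range 28, ((((a n : ℝ)) : ℂ) * tm (cv Z) q n - (a n : ℂ) * cv (st Q Z n).2)‖
      ≤ 28 * (10 ^ 7 / 10 ^ 32) := by
    refine (norm_sum_le _ _).trans ?_
    have : ∀ n ∈ Finset.range 28,
        ‖(((a n : ℝ)) : ℂ) * tm (cv Z) q n - (a n : ℂ) * cv (st Q Z n).2‖ ≤ 10 ^ 7 / 10 ^ 32 := by
      intro n hn
      have hn28 : n < 28 := Finset.mem_range.mp hn
      have hn' : (n : ℝ) ≤ 28 := by exact_mod_cast hn28.le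
      have hn0 : (0 : ℝ) ≤ n := Nat.cast_nonneg n
      have e : (((a n : ℝ)) : ℂ) * tm (cv Z) q n - (a n : ℂ) * cv (st Q Z n).2
          = (((a n : ℝ)) : ℂ) * (tm (cv Z) q n - cv (st Q Z n).2) := by
        push_cast; ring
      rw [e, norm_mul, Complex.norm_real, Real.norm_eq_abs]
      have h2 := (st_err hq hQ hZ n (by omega)).2
      have h3 := ha n
      have h4 : (n : ℝ) ^ 2 ≤ 784 := by nlinarith
      calc |(a n : ℝ)| * ‖tm (cv Z) q n - cv (st Q Z n).2‖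
          ≤ ((n : ℝ) ^ 2 + 1) * (10 * (n : ℝ) ^ 2 / 10 ^ 32) :=
            mul_le_mul h3 h2 (norm_nonneg _) (by positivity)
        _ ≤ 785 * (10 * 784 / 10 ^ 32) := by
            apply mul_le_mul (by linarith) _ (by positivity) (by norm_num)
            apply div_le_div_of_nonneg_right _ (by positivity)
            linarith
        _ ≤ 10 ^ 7 / 10 ^ 32 := by norm_num
    calc _ ≤ ∑ n ∈ Finset.range 28, (10 ^ 7 / 10 ^ 32 : ℝ) := Finset.sum_le_sum this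
      _ = 28 * (10 ^ 7 / 10 ^ 32) := by rw [Finset.sum_const, Finset.card_range, nsmul_eq_mul]; norm_num
  have h2 : ‖∑' n, (((a (n + 28) : ℝ)) : ℂ) * tm (cv Z) q (n + 28)‖ ≤ 2 / 10 ^ 26 := by
    have hb : ∀ n, ‖(((a (n + 28) : ℝ)) : ℂ) * tm (cv Z) q (n + 28)‖ ≤ 1 / 10 ^ 26 * (1 / 2) ^ n := by
      intro n
      refine le_trans ?_ (fact_tail n)
      rw [norm_mul, Complex.norm_real, Real.norm_eq_abs]
      have h3 := ha (n + 28)
      have h4 := norm_tm (z := cv Z) hq.le (n + 28)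
      have h5 : ‖cv Z‖ ^ (n + 28) / ((n + 28)! : ℝ) ≤ 1 / ((n + 28)! : ℝ) := by
        apply div_le_div_of_nonneg_right _ (by positivity)
        exact pow_le_one₀ (norm_nonneg _) hZ
      calc |(a (n + 28) : ℝ)| * ‖tm (cv Z) q (n + 28)‖
          ≤ (((n + 28 : ℕ) : ℝ) ^ 2 + 1) * (1 / ((n + 28)! : ℝ)) :=
            mul_le_mul h3 (h4.trans h5) (norm_nonneg _) (by positivity)
        _ = _ := by push_cast; ring
    have hsum : Summable fun n : ℕ => 1 / 10 ^ 26 * (1 / 2 : ℝ) ^ n := summable_geometric_two.mul_left _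
    calc _ ≤ ∑' n : ℕ, 1 / 10 ^ 26 * (1 / 2 : ℝ) ^ n := tsum_of_norm_bounded hsum.hasSum hb
      _ = 2 / 10 ^ 26 := by rw [tsum_mul_left, tsum_geometric_two]; ring
  have h3 : (28 : ℝ) * (10 ^ 7 / 10 ^ 32) + 2 / 10 ^ 26 ≤ 1 / 10 ^ 23 := by norm_num
  linarith

/-! ### The two end points -/

/-- the point of the unit circle with parameter `t` -/
def qt (t : ℝ) : ℂ := (1 + t * I) / (1 - t * I)

lemma den_ne (t : ℝ) : (1 : ℂ) - t * I ≠ 0 := by
  intro h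
  have := congrArg Complex.re h
  simp at this

lemma norm_qt (t : ℝ) : ‖qt t‖ = 1 := by
  unfold qt
  rw [norm_div]
  have h : ‖(1 : ℂ) + t * I‖ = ‖(1 : ℂ) - t * I‖ := by
    have : (1 : ℂ) - t * I = (starRingEnd ℂ) (1 + t * I) := by
      simp [sub_eq_add_neg]
    rw [this, Complex.norm_conj]
  rw [h, div_self (norm_ne_zero_iff.mpr (den_ne t))]

lemma one_le_den (t : ℝ) : 1 ≤ ‖(1 : ℂ) - t * I‖ := by
  have h := Complex.abs_re_le_norm ((1 : ℂ) - t * I)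
  simpa using h

lemma qt_sub (t s : ℝ) : ‖qt t - qt s‖ ≤ 2 * |t - s| := by
  have e : qt t - qt s = 2 * ((t - s : ℝ) : ℂ) * I / ((1 - t * I) * (1 - s * I)) := by
    unfold qt
    have h1 := den_ne t
    have h2 := den_ne s
    rw [div_sub_div _ _ h1 h2]
    congr 1
    push_cast
    ring
  rw [e, norm_div, norm_mul, norm_mul, norm_mul, Complex.norm_I, Complex.norm_real,
    Real.norm_eq_abs, mul_one]
  have h1 := one_le_den t
  have h2 := one_le_den s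
  have h3 : 1 ≤ ‖(1 : ℂ) - t * I‖ * ‖(1 : ℂ) - s * I‖ := one_le_mul_of_one_le_of_one_le h1 h2
  have h4 : ‖(2 : ℂ)‖ = 2 := by norm_num
  rw [h4]
  exact div_le_self (by positivity) h3

lemma qt_eq (t : ℝ) : qt t = ⟨(1 - t ^ 2) / (1 + t ^ 2), 2 * t / (1 + t ^ 2)⟩ := by
  have h1 := den_ne t
  have h2 : (1 + t ^ 2 : ℝ) ≠ 0 := by positivity
  unfold qt
  rw [div_eq_iff h1]
  apply Complex.ext
  · simp
    field_simp
    ring
  · simp
    field_simp
    ring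

/-- end points -/
def tl : ℝ := 254663994732856187 / 10 ^ 17
def tr : ℝ := 254663994732856197 / 10 ^ 17

/-- rounded data -/
def Ql : ℤ × ℤ := (-73281231811352294623210626731658, 68043082412621846862577107420060)
def Zl : ℤ × ℤ := (-73305252329682980321035315944202, -8312748190487051224332246412832)
def Qr : ℤ × ℤ := (-73281231811352296441237972555553, 68043082412621844904592862073983)
def Zr : ℤ × ℤ := (-73305252329682980382428607897788, -8312748190487050682940801023237)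

lemma Ql_err : ‖qt tl - cv Ql‖ ≤ 2 / 10 ^ 32 := by
  rw [qt_eq, show (2 : ℝ) / 10 ^ 32 = 2 * (1 / 10 ^ 32) by ring]
  apply norm_le_of_re_im
  · simp only [Complex.sub_re, cv, tl, Ql]
    rw [abs_le]; constructor <;> norm_num
  · simp only [Complex.sub_im, cv, tl, Ql]
    rw [abs_le]; constructor <;> norm_num

lemma Qr_err : ‖qt tr - cv Qr‖ ≤ 2 / 10 ^ 32 := by
  rw [qt_eq, show (2 : ℝ) / 10 ^ 32 = 2 * (1 / 10 ^ 32) by ring]
  apply norm_le_of_re_im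
  · simp only [Complex.sub_re, cv, tr, Qr]
    rw [abs_le]; constructor <;> norm_num
  · simp only [Complex.sub_im, cv, tr, Qr]
    rw [abs_le]; constructor <;> norm_num

/-- weights -/
def w1 : ℕ → ℤ := fun _ => 1
def w2 : ℕ → ℤ := fun n => n
def w3 : ℕ → ℤ := fun n => (n * (n - 1) / 2 : ℕ)

lemma w3_cast (n : ℕ) : ((w3 n : ℤ) : ℝ) = (n : ℝ) * ((n : ℝ) - 1) / 2 := by
  unfold w3
  have h : Even (n * (n - 1)) := Nat.even_mul_pred_self n
  obtain ⟨k, hk⟩ := h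
  have h1 : n * (n - 1) / 2 = k := by rw [hk]; omega
  rw [h1]
  rcases Nat.eq_zero_or_pos n with h0 | h0
  · subst h0
    simp at hk
    have : k = 0 := by omega
    simp [this]
  · have h2 : ((n * (n - 1) : ℕ) : ℝ) = (n : ℝ) * ((n : ℝ) - 1) := by
      rw [Nat.cast_mul, Nat.cast_sub h0]; simp
    have h3 : ((n * (n - 1) : ℕ) : ℝ) = 2 * (k : ℝ) := by rw [hk]; push_cast; ring
    rw [← h2, h3]
    push_cast
    ring

lemma WB1 : WB (fun n => ((w1 n : ℤ) : ℝ)) := by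
  have := WB_one
  simpa [w1] using this

lemma WB2 : WB (fun n => ((w2 n : ℤ) : ℝ)) := by
  have := WB_id
  simpa [w2] using this

lemma WB3 : WB (fun n => ((w3 n : ℤ) : ℝ)) := by
  have h : (fun n => ((w3 n : ℤ) : ℝ)) = fun n : ℕ => (n : ℝ) * ((n : ℝ) - 1) / 2 := by
    funext n; exact w3_cast n
  rw [h]; exact WB_tri

lemma smA_l : sm w1 Ql Zl 28 = (-12, -12) := by decide +kernel
lemma smD_l : sm w2 Ql Zl 28 = (-130847627580899172714554930949613, 4156676557334242040253780216387) := by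
  decide +kernel
lemma smM_l : sm w3 Ql Zl 28 = (-36168101837802765561670159727887, 1148963139889733014626172731770) := by
  decide +kernel
lemma smA_r : sm w1 Qr Zr 28 = (-11, -12) := by decide +kernel
lemma smD_r : sm w2 Qr Zr 28 = (-130847627580899172579820337542203, 4156676557334241078171374110216) := by
  decide +kernel
lemma smM_r : sm w3 Qr Zr 28 = (-36168101837802765500938489940261, 1148963139889731442663175204179) := by
  decide +kernel

lemma norm_cv_le {a : ℤ × ℤ} {e : ℝ} (h : |(a.1 : ℝ)| + |(a.2 : ℝ)| ≤ e * 10 ^ 32) : ‖cv a‖ ≤ e := by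
  have h1 := Complex.norm_le_abs_re_add_abs_im (cv a)
  simp only [cv, abs_div] at h1
  rw [abs_of_pos (by positivity : (0 : ℝ) < 10 ^ 32), ← add_div] at h1
  refine h1.trans ?_
  rw [div_le_iff₀ (by positivity)]
  exact h

lemma nZl : ‖cv Zl‖ ≤ 9 / 10 := by
  apply norm_cv_le; norm_num [Zl, abs_of_nonneg, abs_of_nonpos]

lemma nZr : ‖cv Zr‖ ≤ 9 / 10 := by
  apply norm_cv_le; norm_num [Zr, abs_of_nonneg, abs_of_nonpos]

lemma phi_w1 (z q : ℂ) : phi z q = Sa (fun n => ((w1 n : ℤ) : ℝ)) z q := by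
  rw [phi_eq]; simp [w1]

lemma phi_l : ‖phi (cv Zl) (qt tl)‖ ≤ 2 / 10 ^ 23 := by
  have h := sum_err WB1 (norm_qt tl) Ql_err (nZl.trans (by norm_num))
  rw [← phi_w1, smA_l] at h
  have h2 : ‖cv (-12, -12)‖ ≤ 1 / 10 ^ 24 := by
    apply norm_cv_le; norm_num
  have h3 : ‖phi (cv Zl) (qt tl)‖ ≤ ‖phi (cv Zl) (qt tl) - cv (-12, -12)‖ + ‖cv (-12, -12)‖ := by
    calc _ = ‖(phi (cv Zl) (qt tl) - cv (-12, -12)) + cv (-12, -12)‖ := by ring_nf
      _ ≤ _ := norm_add_le _ _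
  norm_num at h h2 ⊢
  linarith

lemma phi_r : ‖phi (cv Zr) (qt tr)‖ ≤ 2 / 10 ^ 23 := by
  have h := sum_err WB1 (norm_qt tr) Qr_err (nZr.trans (by norm_num))
  rw [← phi_w1, smA_r] at h
  have h2 : ‖cv (-11, -12)‖ ≤ 1 / 10 ^ 24 := by
    apply norm_cv_le; norm_num
  have h3 : ‖phi (cv Zr) (qt tr)‖ ≤ ‖phi (cv Zr) (qt tr) - cv (-11, -12)‖ + ‖cv (-11, -12)‖ := by
    calc _ = ‖(phi (cv Zr) (qt tr) - cv (-11, -12)) + cv (-11, -12)‖ := by ring_nf
      _ ≤ _ := norm_add_le _ _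
  norm_num at h h2 ⊢
  linarith

lemma rd : RD (cv Zl) (qt tl) (phi (qt tl * cv Zl) (qt tl)) := by
  refine ⟨nZl, norm_qt tl, rfl, ?_, phi_l.trans (by norm_num)⟩
  have h1 : ‖cv Zl‖ ≤ 1 := nZl.trans (by norm_num)
  have h := mul_phi h1 (norm_qt tl).le
  have h2 := sum_err WB2 (norm_qt tl) Ql_err h1
  rw [smD_l] at h2
  have e : (fun n => ((w2 n : ℤ) : ℝ)) = fun n : ℕ => (n : ℝ) := by funext n; simp [w2]
  rw [e, h] at h2
  have h3 := (Complex.abs_re_le_norm _).trans h2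
  have hre : (cv (-130847627580899172714554930949613, 4156676557334242040253780216387)).re
      = (-130847627580899172714554930949613 : ℝ) / 10 ^ 32 := by simp [cv]
  rw [Complex.sub_re, hre, abs_le] at h3
  have h4 : -(cv Zl * phi (qt tl * cv Zl) (qt tl)).re ≤ ‖cv Zl‖ * ‖phi (qt tl * cv Zl) (qt tl)‖ := by
    rw [← norm_mul]
    exact (neg_le_abs _).trans (Complex.abs_re_le_norm _)
  have h5 := h3.2
  have h6 := nZl
  have h7 := norm_nonneg (phi (qt tl * cv Zl) (qt tl))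
  generalize (cv Zl * phi (qt tl * cv Zl) (qt tl)).re = R at h4 h5
  generalize ‖phi (qt tl * cv Zl) (qt tl)‖ = P at h4 h7 ⊢
  norm_num at h5
  nlinarith

lemma close_tl {t : ℝ} (ht : t ∈ Set.Icc tl tr) : ‖qt t - qt tl‖ ≤ 2 / 10 ^ 16 := by
  refine (qt_sub t tl).trans ?_
  have h1 : |t - tl| ≤ 1 / 10 ^ 16 := by
    rw [abs_of_nonneg (by linarith [ht.1])]
    have := ht.2
    unfold tr at this
    unfold tl
    norm_num at this ⊢
    linarith
  linarith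

/-- the root -/
def zeta (t : ℝ) : ℂ :=
  if h : t ∈ Set.Icc tl tr then (exists_root rd (norm_qt t) (close_tl h)).choose else 0

lemma zeta_near {t : ℝ} (ht : t ∈ Set.Icc tl tr) : ‖zeta t - cv Zl‖ ≤ rho := by
  unfold zeta
  rw [dif_pos ht]
  exact (exists_root rd (norm_qt t) (close_tl ht)).choose_spec.1

lemma zeta_zero {t : ℝ} (ht : t ∈ Set.Icc tl tr) : phi (zeta t) (qt t) = 0 := by
  unfold zeta
  rw [dif_pos ht]
  exact (exists_root rd (norm_qt t) (close_tl ht)).choose_spec.2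

lemma norm_zeta {t : ℝ} (ht : t ∈ Set.Icc tl tr) : ‖zeta t‖ ≤ 1 := by
  have h1 := zeta_near ht
  have h2 := nZl
  have h3 : ‖zeta t‖ ≤ ‖zeta t - cv Zl‖ + ‖cv Zl‖ := by
    calc _ = ‖(zeta t - cv Zl) + cv Zl‖ := by ring_nf
      _ ≤ _ := norm_add_le _ _
  unfold rho at h1
  norm_num at h1 h2 ⊢
  linarith

lemma zeta_lip {t s : ℝ} (ht : t ∈ Set.Icc tl tr) (hs : s ∈ Set.Icc tl tr) :
    ‖zeta t - zeta s‖ ≤ 1600 * |t - s| := by
  have h1 := root_dist rd (norm_qt t) (close_tl ht) (zeta_near ht) (zeta_near hs) (zeta_zero ht)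
  have h2 := Sa_lip WB_one (norm_zeta hs) (norm_qt t).le (norm_zeta hs) (norm_qt s).le
  rw [← phi_eq, ← phi_eq, zeta_zero hs, sub_zero, sub_self, norm_zero, zero_add] at h2
  have h3 := qt_sub t s
  linarith

lemma Sa_zeta_lip {a : ℕ → ℝ} (ha : WB a) {t s : ℝ} (ht : t ∈ Set.Icc tl tr)
    (hs : s ∈ Set.Icc tl tr) :
    ‖Sa a (zeta t) (qt t) - Sa a (zeta s) (qt s)‖ ≤ 2000000 * |t - s| := by
  have h1 := Sa_lip ha (norm_zeta ht) (norm_qt t).le (norm_zeta hs) (norm_qt s).le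
  have h2 := zeta_lip ht hs
  have h3 := qt_sub t s
  have h4 := abs_nonneg (t - s)
  linarith

lemma Sa_zeta_cont {a : ℕ → ℝ} (ha : WB a) :
    ContinuousOn (fun t => Sa a (zeta t) (qt t)) (Set.Icc tl tr) := by
  have : LipschitzOnWith 2000000 (fun t => Sa a (zeta t) (qt t)) (Set.Icc tl tr) := by
    apply LipschitzOnWith.of_dist_le_mul
    intro x hx y hy
    rw [dist_eq_norm, Real.dist_eq]
    exact Sa_zeta_lip ha hx hy
  exact this.continuousOn

/-- the function whose sign change is used -/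
def gg (t : ℝ) : ℝ :=
  (Sa (fun n => ((w3 n : ℤ) : ℝ)) (zeta t) (qt t) *
    (starRingEnd ℂ) (Sa (fun n => ((w2 n : ℤ) : ℝ)) (zeta t) (qt t))).im

lemma gg_cont : ContinuousOn gg (Set.Icc tl tr) := by
  unfold gg
  apply Complex.continuous_im.comp_continuousOn
  exact (Sa_zeta_cont WB3).mul (Complex.continuous_conj.comp_continuousOn (Sa_zeta_cont WB2))

lemma im_close {M D M0 D0 : ℂ} {e : ℝ} (he : e ≤ 1) (hM : ‖M - M0‖ ≤ e) (hD : ‖D - D0‖ ≤ e)
    (nM : ‖M0‖ ≤ 1) (nD : ‖D0‖ ≤ 2) :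
    |(M * (starRingEnd ℂ) D).im - (M0 * (starRingEnd ℂ) D0).im| ≤ 4 * e := by
  rw [← Complex.sub_im]
  refine (Complex.abs_im_le_norm _).trans ?_
  have e1 : M * (starRingEnd ℂ) D - M0 * (starRingEnd ℂ) D0
      = (M - M0) * (starRingEnd ℂ) D + M0 * (starRingEnd ℂ) (D - D0) := by
    rw [map_sub]; ring
  rw [e1]
  refine (norm_add_le _ _).trans ?_
  rw [norm_mul, norm_mul, Complex.norm_conj, Complex.norm_conj]
  have h1 : ‖D‖ ≤ 2 + e := by
    calc ‖D‖ = ‖(D - D0) + D0‖ := by ring_nf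
      _ ≤ ‖D - D0‖ + ‖D0‖ := norm_add_le _ _
      _ ≤ _ := by linarith
  have h0 : 0 ≤ e := (norm_nonneg _).trans hM
  have h2 : ‖M - M0‖ * ‖D‖ ≤ e * 3 := mul_le_mul hM (by linarith) (norm_nonneg _) h0
  have h3 : ‖M0‖ * ‖D - D0‖ ≤ 1 * e := mul_le_mul nM hD (norm_nonneg _) (by norm_num)
  linarith

lemma end_err {a : ℕ → ℤ} (ha : WB (fun n => (a n : ℝ))) {Q Z : ℤ × ℤ} {t : ℝ}
    (ht : t ∈ Set.Icc tl tr)
    (hQ : ‖qt t - cv Q‖ ≤ 2 / 10 ^ 32) (hZ : ‖cv Z‖ ≤ 1) (hp : ‖phi (cv Z) (qt t)‖ ≤ 2 / 10 ^ 23)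
    (hn : ‖cv Z - cv Zl‖ ≤ rho) :
    ‖Sa (fun n => (a n : ℝ)) (zeta t) (qt t) - cv (sm a Q Z 28)‖ ≤ 1 / 10 ^ 19 := by
  have h1 := sum_err ha (norm_qt t) hQ hZ
  have h2 := root_dist rd (norm_qt t) (close_tl ht) (zeta_near ht) hn (zeta_zero ht)
  have h3 := Sa_lip ha (norm_zeta ht) (norm_qt t).le hZ (norm_qt t).le
  rw [sub_self, norm_zero, add_zero] at h3
  have h4 : ‖Sa (fun n => (a n : ℝ)) (zeta t) (qt t) - cv (sm a Q Z 28)‖
      ≤ ‖Sa (fun n => (a n : ℝ)) (zeta t) (qt t) - Sa (fun n => (a n : ℝ)) (cv Z) (qt t)‖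
        + ‖Sa (fun n => (a n : ℝ)) (cv Z) (qt t) - cv (sm a Q Z 28)‖ := by
    calc _ = ‖(Sa (fun n => (a n : ℝ)) (zeta t) (qt t) - Sa (fun n => (a n : ℝ)) (cv Z) (qt t))
        + (Sa (fun n => (a n : ℝ)) (cv Z) (qt t) - cv (sm a Q Z 28))‖ := by ring_nf
      _ ≤ _ := norm_add_le _ _
  norm_num at h1 h2 h3 h4 hp ⊢
  linarith

lemma tl_mem : tl ∈ Set.Icc tl tr := ⟨le_rfl, by unfold tl tr; norm_num⟩
lemma tr_mem : tr ∈ Set.Icc tl tr := ⟨by unfold tl tr; norm_num, le_rfl⟩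

lemma gg_l : gg tl ≤ 0 := by
  have hn : ‖cv Zl - cv Zl‖ ≤ rho := by rw [sub_self, norm_zero]; unfold rho; norm_num
  have hM := end_err WB3 tl_mem Ql_err (nZl.trans (by norm_num)) phi_l hn
  have hD := end_err WB2 tl_mem Ql_err (nZl.trans (by norm_num)) phi_l hn
  rw [smM_l] at hM
  rw [smD_l] at hD
  have h := im_close (by norm_num) hM hD
    (norm_cv_le (by norm_num [abs_of_nonneg, abs_of_nonpos]))
    (norm_cv_le (by norm_num [abs_of_nonneg, abs_of_nonpos]))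
  rw [abs_le] at h
  have h2 := h.2
  unfold gg
  simp only [cv, Complex.mul_im, Complex.conj_re, Complex.conj_im] at h2 ⊢
  norm_num at h2 ⊢
  linarith

lemma gg_r : 0 ≤ gg tr := by
  have hn : ‖cv Zr - cv Zl‖ ≤ rho := by
    have : ‖cv Zr - cv Zl‖ ≤ 2 * (1 / 10 ^ 15) := by
      apply norm_le_of_re_im
      · simp only [Complex.sub_re, cv, Zr, Zl]
        rw [abs_le]; constructor <;> norm_num
      · simp only [Complex.sub_im, cv, Zr, Zl]
        rw [abs_le]; constructor <;> norm_num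
    refine this.trans ?_
    unfold rho; norm_num
  have hM := end_err WB3 tr_mem Qr_err (nZr.trans (by norm_num)) phi_r hn
  have hD := end_err WB2 tr_mem Qr_err (nZr.trans (by norm_num)) phi_r hn
  rw [smM_r] at hM
  rw [smD_r] at hD
  have h := im_close (by norm_num) hM hD
    (norm_cv_le (by norm_num [abs_of_nonneg, abs_of_nonpos]))
    (norm_cv_le (by norm_num [abs_of_nonneg, abs_of_nonpos]))
  rw [abs_le] at h
  have h2 := h.1
  unfold gg
  simp only [cv, Complex.mul_im, Complex.conj_re, Complex.conj_im] at h2 ⊢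
  norm_num at h2 ⊢
  linarith

lemma num_eq {z q : ℂ} (hz : ‖z‖ ≤ 1) (hq : ‖q‖ ≤ 1) :
    ∑' k : ℕ, ((k : ℂ) * ((k : ℂ) + 1) / 2) * pik z q k
      = -Sa (fun n => ((w3 n : ℤ) : ℝ)) z q := by
  have hs := summable_term WB3 hz hq
  unfold Sa
  rw [hs.tsum_eq_zero_add]
  have h0 : (((w3 0 : ℤ) : ℝ) : ℂ) * tm z q 0 = 0 := by simp [w3]
  rw [h0, zero_add, ← tsum_neg]
  apply tsum_congr
  intro k
  rw [pik_eq, w3_cast]
  push_cast
  ring

lemma den_eq {z q : ℂ} (hz : ‖z‖ ≤ 1) (hq : ‖q‖ ≤ 1) :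
    ∑' k : ℕ, ((k : ℂ) + 1) * pik z q k = -Sa (fun n => ((w2 n : ℤ) : ℝ)) z q := by
  have hs := summable_term WB2 hz hq
  unfold Sa
  rw [hs.tsum_eq_zero_add]
  have h0 : (((w2 0 : ℤ) : ℝ) : ℂ) * tm z q 0 = 0 := by simp [w2]
  rw [h0, zero_add, ← tsum_neg]
  apply tsum_congr
  intro k
  rw [pik_eq]
  simp only [w2]
  push_cast
  ring

end

end Pool.Agent.Whit.B1

namespace Pool.Agent.Whit

open B1 in
/-- WHIT-B1 -/
theorem tOpt : TOpt := by
  have h1 : (0 : ℝ) ∈ Set.Icc (gg tl) (gg tr) := ⟨gg_l, gg_r⟩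
  have h2 : tl ≤ tr := tl_mem.2
  obtain ⟨t, ht, h0⟩ := intermediate_value_Icc h2 gg_cont h1
  refine ⟨zeta t, qt t, norm_qt t, zeta_zero ht, ?_, ?_, ?_⟩
  · unfold m1
    rw [num_eq (norm_zeta ht) (norm_qt t).le, den_eq (norm_zeta ht) (norm_qt t).le, neg_div_neg_eq,
      Complex.div_im]
    unfold gg at h0
    simp only [Complex.mul_im, Complex.conj_re, Complex.conj_im] at h0
    rw [div_sub_div_same]
    have : (Sa (fun n => ((w3 n : ℤ) : ℝ)) (zeta t) (qt t)).im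
          * (Sa (fun n => ((w2 n : ℤ) : ℝ)) (zeta t) (qt t)).re
        - (Sa (fun n => ((w3 n : ℤ) : ℝ)) (zeta t) (qt t)).re
          * (Sa (fun n => ((w2 n : ℤ) : ℝ)) (zeta t) (qt t)).im = 0 := by linarith
    rw [this, zero_div]
  · have h3 := close_tl ht
    have h4 : ‖qt tl - q0‖ ≤ 2 * (1 / 10 ^ 15) := by
      rw [qt_eq]
      apply norm_le_of_re_im
      · simp only [Complex.sub_re, q0, tl]
        rw [abs_le]; constructor <;> norm_num
      · simp only [Complex.sub_im, q0, tl]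
        rw [abs_le]; constructor <;> norm_num
    have h5 : ‖qt t - q0‖ ≤ ‖qt t - qt tl‖ + ‖qt tl - q0‖ := by
      calc _ = ‖(qt t - qt tl) + (qt tl - q0)‖ := by ring_nf
        _ ≤ _ := norm_add_le _ _
    norm_num at h3 h4 h5 ⊢
    linarith
  · have h3 := zeta_near ht
    have h4 : ‖cv Zl - z0‖ ≤ 2 * (1 / 10 ^ 15) := by
      apply norm_le_of_re_im
      · simp only [Complex.sub_re, z0, cv, Zl]
        rw [abs_le]; constructor <;> norm_num
      · simp only [Complex.sub_im, z0, cv, Zl]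
        rw [abs_le]; constructor <;> norm_num
    have h5 : ‖zeta t - z0‖ ≤ ‖zeta t - cv Zl‖ + ‖cv Zl - z0‖ := by
      calc _ = ‖(zeta t - cv Zl) + (cv Zl - z0)‖ := by ring_nf
        _ ≤ _ := norm_add_le _ _
    unfold rho at h3
    norm_num at h3 h4 h5 ⊢
    linarith

end Pool.Agent.Whit
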