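import Pool.Agent.Whit.Spec

/-!
# WHIT-CC: the two zones cover the circle
-/

namespace Pool.Agent.Whit

theorem CC_cos_lo : (-(7300 / 10000) : ℝ) < Real.cos (2375 / 1000) := by
  have h := Real.cos_bound (x := Real.pi - 2375 / 1000) (by
    rw [abs_of_nonneg (by linarith [Real.pi_gt_d6])]
    linarith [Real.pi_lt_d6])
  rw [Real.cos_pi_sub, abs_of_nonneg (a := Real.pi - 2375 / 1000)
    (by linarith [Real.pi_gt_d6])] at h
  have h1 := (abs_le.1 h).1
  have p1 := Real.pi_gt_d6
  have p2 := Real.pi_lt_d6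
  have h2 := (abs_le.1 h).2
  have q1 : (7665 / 10000 : ℝ) ≤ Real.pi - 2375 / 1000 := by linarith
  have q2 : Real.pi - 2375 / 1000 ≤ (7667 / 10000 : ℝ) := by linarith
  have q3 : (7665 / 10000 : ℝ) ^ 2 ≤ (Real.pi - 2375 / 1000) ^ 2 :=
    pow_le_pow_left₀ (by norm_num) q1 2
  have q4 : (Real.pi - 2375 / 1000) ^ 4 ≤ (7667 / 10000 : ℝ) ^ 4 :=
    pow_le_pow_left₀ (by linarith) q2 4
  norm_num at q3 q4
  linarith

theorem CC_cos_hi : Real.cos (2404 / 1000) < (-(7330 / 10000) : ℝ) := by
  have p1 := Real.pi_gt_d6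
  have p2 := Real.pi_lt_d6
  have h := Real.one_sub_sq_div_two_le_cos (x := (Real.pi - 2404 / 1000) / 2)
  have q2 : Real.pi - 2404 / 1000 ≤ (73760 / 100000 : ℝ) := by linarith
  have q4 : (Real.pi - 2404 / 1000) ^ 2 ≤ (73760 / 100000 : ℝ) ^ 2 :=
    pow_le_pow_left₀ (by linarith) q2 2
  have h2 : (93199 / 100000 : ℝ) ≤ Real.cos ((Real.pi - 2404 / 1000) / 2) := by
    norm_num at q4
    nlinarith
  have h3 := Real.cos_sq ((Real.pi - 2404 / 1000) / 2)
  rw [mul_div_cancel₀ _ (two_ne_zero), Real.cos_pi_sub] at h3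
  have h4 := pow_le_pow_left₀ (by norm_num) h2 2
  norm_num at h4
  linarith

theorem tCover : TCover := by
  intro z q hO Q hQ
  have hqr : |q.re - q0.re| ≤ 1 / 10 ^ 12 := by
    have := (Complex.abs_re_le_norm (q - q0)).trans hO.near_q
    rwa [Complex.sub_re] at this
  have hqi : |q.im - q0.im| ≤ 1 / 10 ^ 12 := by
    have := (Complex.abs_im_le_norm (q - q0)).trans hO.near_q
    rwa [Complex.sub_im] at this
  simp only [q0] at hqr hqi
  rw [abs_le] at hqr hqi
  have hq0 : q ≠ 0 := by
    intro h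
    have := hO.norm_q
    rw [h, norm_zero] at this
    exact zero_ne_one this
  have hQ0 : Q ≠ 0 := by
    intro h
    rw [h, norm_zero] at hQ
    exact zero_ne_one hQ
  have hqe : q = Complex.exp (q.arg * Complex.I) := by
    have := Complex.norm_mul_exp_arg_mul_I q
    rw [hO.norm_q, Complex.ofReal_one, one_mul] at this
    exact this.symm
  have hQe : Q = Complex.exp (Q.arg * Complex.I) := by
    have := Complex.norm_mul_exp_arg_mul_I Q
    rw [hQ, Complex.ofReal_one, one_mul] at this
    exact this.symm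
  have hcos : Real.cos q.arg = q.re := by
    rw [Complex.cos_arg hq0, hO.norm_q, div_one]
  have ha0 : 0 ≤ q.arg := Complex.arg_nonneg_iff.2 (by
    have := hqi.1
    norm_num at this
    linarith)
  have haπ : q.arg ≤ Real.pi := Complex.arg_le_pi q
  have p1 := Real.pi_gt_d6
  have p2 := Real.pi_lt_d6
  have a1 : 2375 / 1000 ≤ q.arg := by
    by_contra hc
    rw [not_le] at hc
    have := Real.cos_lt_cos_of_nonneg_of_le_pi ha0 (by linarith) hc
    have c1 := CC_cos_lo
    rw [hcos] at this
    have := hqr.2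
    norm_num at this
    linarith
  have a2 : q.arg ≤ 2404 / 1000 := by
    by_contra hc
    rw [not_le] at hc
    have := Real.cos_lt_cos_of_nonneg_of_le_pi (by norm_num) haπ hc
    have c1 := CC_cos_hi
    rw [hcos] at this
    have := hqr.1
    norm_num at this
    linarith
  by_cases b1 : 46 / 16 ≤ Q.arg
  · exact Or.inl ⟨Q.arg, b1, by linarith [Complex.arg_le_pi Q], hQe⟩
  · by_cases b2 : Q.arg + 2 * Real.pi ≤ 131 / 16
    · refine Or.inl ⟨Q.arg + 2 * Real.pi, by linarith [Complex.neg_pi_lt_arg Q], b2, ?_⟩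
      have : ((Q.arg + 2 * Real.pi : ℝ) : ℂ) * Complex.I =
          Q.arg * Complex.I + 2 * Real.pi * Complex.I := by
        push_cast; ring
      rw [this, Complex.exp_add, Complex.exp_two_pi_mul_I, mul_one]
      exact hQe
    · refine Or.inr ⟨Q.arg - q.arg, ?_, ?_⟩
      · rw [abs_le]
        constructor <;> linarith
      · have : q * Complex.exp (((Q.arg - q.arg : ℝ) : ℂ) * Complex.I) =
            Complex.exp (Q.arg * Complex.I) := by
          calc q * Complex.exp (((Q.arg - q.arg : ℝ) : ℂ) * Complex.I)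
              = Complex.exp (q.arg * Complex.I) *
                  Complex.exp (((Q.arg - q.arg : ℝ) : ℂ) * Complex.I) := by rw [← hqe]
            _ = _ := by
              rw [← Complex.exp_add]
              congr 1
              push_cast; ring
        rw [this]
        exact hQe

end Pool.Agent.Whit
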