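import Pool.Agent.Whit.TrigS

/-!
# Squares and linear terms on a cell `[j/16, (j+1)/16]`
-/

namespace Pool.Agent.Whit.Eng

open Complex

noncomputable section

/-- Value of a trigonometric polynomial at `u`. -/
def evC : TP → ℂ → ℂ
  | [], _ => 0
  | c :: t, u => c.2.toC / 10 ^ 10 * u ^ c.1 + evC t u

/-- Exponents at most `15`. -/
def okT : TP → Prop
  | [] => True
  | c :: t => c.1 ≤ 15 ∧ okT t

theorem evS_bd (j : ℤ) (hj : |j| ≤ 150) (t : TP) (ht : okT t) :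
    ‖evC t (eG j) - (evS j t).toC / 10 ^ 25‖ ≤ (nms t : ℝ) * (3 / 10 ^ 21) := by
  induction t with
  | nil => simp [evC, evS, toC_zero, nms]
  | cons c t ih =>
    obtain ⟨hc, ht⟩ := ht
    have h1 := ih ht
    have h2 := pw_bd j hj c.1 hc
    have hc' : (c.1 : ℝ) ≤ 15 := by exact_mod_cast hc
    have h3 : ‖eG j ^ c.1 - (pw j c.1).toC / 10 ^ 15‖ ≤ 3 / 10 ^ 11 := by
      refine h2.trans ?_
      rw [div_le_div_iff₀ (by norm_num) (by norm_num)]
      nlinarith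
    have e : evC (c :: t) (eG j) - (evS j (c :: t)).toC / 10 ^ 25 =
        c.2.toC / 10 ^ 10 * (eG j ^ c.1 - (pw j c.1).toC / 10 ^ 15) +
          (evC t (eG j) - (evS j t).toC / 10 ^ 25) := by
      simp only [evC, evS, toC_add, toC_mul]
      ring
    rw [e]
    refine (norm_add_le _ _).trans ?_
    rw [norm_mul, norm_div]
    have h10 : ‖(10 : ℂ) ^ 10‖ = 10 ^ 10 := by norm_num
    rw [h10]
    have h4 : ‖c.2.toC‖ / 10 ^ 10 * ‖eG j ^ c.1 - (pw j c.1).toC / 10 ^ 15‖ ≤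
        (c.2.n1 : ℝ) / 10 ^ 10 * (3 / 10 ^ 11) := by
      gcongr
      exact norm_toC_le _
    simp only [nms]
    push_cast
    refine (add_le_add h4 h1).trans (le_of_eq ?_)
    ring

theorem evG_bd (j : ℤ) (hj : |j| ≤ 150) (t : TP) (ht : okT t) :
    ‖evC t (eG j) - (evG j t).toC / 10 ^ 8‖ ≤ (nms t : ℝ) * (3 / 10 ^ 21) + 2 / 10 ^ 8 := by
  have h1 := evS_bd j hj t ht
  have h2 := rnd_err 100000000000000000 (by norm_num) (evS j t)
  have e1 : (evS j t).toC / 10 ^ 25 - (evG j t).toC / 10 ^ 8 =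
      ((evS j t).toC / ((100000000000000000 : ℤ) : ℂ) -
        (GI.rnd 100000000000000000 (evS j t)).toC) / 10 ^ 8 := by
    simp only [evG]
    push_cast; ring
  have h3 : ‖(evS j t).toC / 10 ^ 25 - (evG j t).toC / 10 ^ 8‖ ≤ 2 / 10 ^ 8 := by
    rw [e1, norm_div]
    have : ‖(10 : ℂ) ^ 8‖ = 10 ^ 8 := by norm_num
    rw [this]
    gcongr
  have h4 := norm_sub_le_norm_sub_add_norm_sub (evC t (eG j)) ((evS j t).toC / 10 ^ 25)
    ((evG j t).toC / 10 ^ 8)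
  linarith

/-- The point of the cell with parameter `τ`. -/
def pt (j : ℤ) (τ : ℝ) : ℂ := exp ((((j : ℝ) + τ) / 16 : ℝ) * I)

theorem norm_pt (j : ℤ) (τ : ℝ) : ‖pt j τ‖ = 1 := norm_expI _

theorem chord_evC (j : ℤ) (τ : ℝ) (h0 : 0 ≤ τ) (h1 : τ ≤ 1) (t : TP) :
    ‖evC t (pt j τ) - ((1 - τ) * evC t (eG j) + τ * evC t (eG (j + 1)))‖ ≤
      (chs t : ℝ) / (2048 * 10 ^ 10) := by
  induction t with
  | nil => simp [evC, chs]
  | cons c t ih =>
    have hp : ∀ (x : ℝ) (ν : ℕ), exp (x * I) ^ ν = exp ((ν * x : ℝ) * I) := by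
      intro x ν
      rw [← Complex.exp_nat_mul]
      congr 1
      push_cast
      ring
    have h2 := chord (c.1 * ((j : ℝ) / 16)) (c.1 * (((j + 1 : ℤ) : ℝ) / 16)) τ h0 h1
    have e1 : pt j τ ^ c.1 = exp (((1 - τ) * (c.1 * ((j : ℝ) / 16)) +
        τ * (c.1 * (((j + 1 : ℤ) : ℝ) / 16)) : ℝ) * I) := by
      unfold pt
      rw [hp]
      congr 2
      push_cast
      ring
    rw [← e1, ← hp, ← hp] at h2
    have e : evC (c :: t) (pt j τ) -
        ((1 - τ) * evC (c :: t) (eG j) + τ * evC (c :: t) (eG (j + 1))) =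
        c.2.toC / 10 ^ 10 * (pt j τ ^ c.1 - ((1 - τ) * eG j ^ c.1 + τ * eG (j + 1) ^ c.1)) +
        (evC t (pt j τ) - ((1 - τ) * evC t (eG j) + τ * evC t (eG (j + 1)))) := by
      simp only [evC]
      ring
    rw [e]
    refine (norm_add_le _ _).trans ?_
    rw [norm_mul, norm_div]
    have h10 : ‖(10 : ℂ) ^ 10‖ = 10 ^ 10 := by norm_num
    rw [h10]
    have h4 : ‖c.2.toC‖ / 10 ^ 10 *
        ‖pt j τ ^ c.1 - ((1 - τ) * eG j ^ c.1 + τ * eG (j + 1) ^ c.1)‖ ≤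
        (c.2.n1 : ℝ) / 10 ^ 10 * ((c.1 : ℝ) ^ 2 / 2048) := by
      refine mul_le_mul ?_ (h2.trans (le_of_eq ?_)) (norm_nonneg _) (by positivity)
      · gcongr
        exact norm_toC_le _
      · push_cast
        ring
    simp only [chs]
    push_cast
    refine (add_le_add h4 ih).trans (le_of_eq ?_)
    ring

theorem bet_bd (t : TP) : (chs t : ℝ) / (2048 * 10 ^ 10) + (nms t : ℝ) * (3 / 10 ^ 21) +
    25 / 10 ^ 9 ≤ (bet t : ℝ) / 10 ^ 12 := by
  have h1 : (chs t * 100 : ℝ) / 2048 ≤ ((chs t * 100 / 2048 : ℕ) : ℝ) + 1 := by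
    have := Nat.lt_div_mul_add (a := chs t * 100) (b := 2048) (by norm_num)
    rw [div_le_iff₀ (by norm_num)]
    have h : ((chs t * 100 : ℕ) : ℝ) ≤ ((chs t * 100 / 2048 * 2048 + 2048 : ℕ) : ℝ) := by
      exact_mod_cast this.le
    push_cast at h ⊢
    linarith
  have h2 : (nms t : ℝ) / 100000000 ≤ ((nms t / 100000000 : ℕ) : ℝ) + 1 := by
    have := Nat.lt_div_mul_add (a := nms t) (b := 100000000) (by norm_num)
    rw [div_le_iff₀ (by norm_num)]
    have h : ((nms t : ℕ) : ℝ) ≤ ((nms t / 100000000 * 100000000 + 100000000 : ℕ) : ℝ) := by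
      exact_mod_cast this.le
    push_cast at h ⊢
    linarith
  unfold bet
  push_cast
  rw [le_div_iff₀ (by norm_num)]
  have e : ((chs t : ℝ) / (2048 * 10 ^ 10) + (nms t : ℝ) * (3 / 10 ^ 21) + 25 / 10 ^ 9) * 10 ^ 12 =
      (chs t * 100 : ℝ) / 2048 + (nms t : ℝ) * (3 / 10 ^ 9) + 25000 := by ring
  rw [e]
  have h3 : (nms t : ℝ) * (3 / 10 ^ 9) ≤ (nms t : ℝ) / 100000000 := by
    have : (0 : ℝ) ≤ nms t := Nat.cast_nonneg _
    nlinarith
  linarith

/-- Entry estimate on a cell. -/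
theorem entry_bd (j : ℤ) (hj : |j| ≤ 149) (τ : ℝ) (h0 : 0 ≤ τ) (h1 : τ ≤ 1) (t : TP) (ht : okT t)
    (y : ℂ) (hy : ‖y - evC t (pt j τ)‖ ≤ 5 / 10 ^ 9) :
    ‖y - ((1 - τ) * ((evG j t).toC / 10 ^ 8) + τ * ((evG (j + 1) t).toC / 10 ^ 8))‖ ≤
      (bet t : ℝ) / 10 ^ 12 := by
  have hj1 : |j + 1| ≤ 150 := by
    have := abs_add_le j 1
    simp at this
    omega
  have a1 := chord_evC j τ h0 h1 t
  have a2 := evG_bd j (by omega) t ht
  have a3 := evG_bd (j + 1) hj1 t ht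
  have b := bet_bd t
  have e : y - ((1 - τ) * ((evG j t).toC / 10 ^ 8) + τ * ((evG (j + 1) t).toC / 10 ^ 8)) =
      (y - evC t (pt j τ)) + (evC t (pt j τ) - ((1 - τ) * evC t (eG j) + τ * evC t (eG (j + 1)))) +
      ((1 - τ) * (evC t (eG j) - (evG j t).toC / 10 ^ 8) +
        τ * (evC t (eG (j + 1)) - (evG (j + 1) t).toC / 10 ^ 8)) := by ring
  rw [e]
  have n1 : ‖(1 - τ : ℂ)‖ = 1 - τ := by
    have : (1 - τ : ℂ) = ((1 - τ : ℝ) : ℂ) := by push_cast; ring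
    rw [this, Complex.norm_real, Real.norm_eq_abs, abs_of_nonneg (by linarith)]
  have n2 : ‖(τ : ℂ)‖ = τ := by rw [Complex.norm_real, Real.norm_eq_abs, abs_of_nonneg h0]
  have c1 : ‖(1 - τ : ℂ) * (evC t (eG j) - (evG j t).toC / 10 ^ 8) +
        τ * (evC t (eG (j + 1)) - (evG (j + 1) t).toC / 10 ^ 8)‖ ≤
      (nms t : ℝ) * (3 / 10 ^ 21) + 2 / 10 ^ 8 := by
    refine (norm_add_le _ _).trans ?_
    rw [norm_mul, norm_mul, n1, n2]
    have d1 := mul_le_mul_of_nonneg_left a2 (show 0 ≤ 1 - τ by linarith)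
    have d2 := mul_le_mul_of_nonneg_left a3 h0
    linarith
  have c2 := norm_add₃_le (a := y - evC t (pt j τ))
    (b := evC t (pt j τ) - ((1 - τ) * evC t (eG j) + τ * evC t (eG (j + 1))))
    (c := (1 - τ : ℂ) * (evC t (eG j) - (evG j t).toC / 10 ^ 8) +
        τ * (evC t (eG (j + 1)) - (evG (j + 1) t).toC / 10 ^ 8))
  refine c2.trans ?_
  linarith

end

end Pool.Agent.Whit.Eng
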