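import Mathlib

/-!
# The Whittaker constant (MP_9fbcbb_an): definitions

`phi z q = ∑ q^{n(n-1)/2} z^n / n!`; `HasProperty W`: every entire function which together with
each of its derivatives has a zero in the closed unit disk and whose exponential type is `< W`
vanishes identically.
-/

namespace Pool.Agent.Whit

open scoped Nat

noncomputable section

/-! ### The statement -/

/-- The Varga and Waldvogel function `φ(z,q) = ∑_{n ≥ 0} q^{n(n-1)/2} z^n / n!`. -/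
def phi (z q : ℂ) : ℂ := ∑' n : ℕ, q ^ (n * (n - 1) / 2) * z ^ n / (n ! : ℂ)

/-- Admissible functions: entire, and every derivative `f^{(n)}`, `n = 0, 1, 2, …` (in particular
`f` itself), has a zero in the closed unit disk. -/
def Admissible (f : ℂ → ℂ) : Prop :=
  Differentiable ℂ f ∧ ∀ n : ℕ, ∃ z : ℂ, ‖z‖ ≤ 1 ∧ iteratedDeriv n f z = 0

/-- `M_r = sup_{|z| ≤ r} |f(z)|`. -/
def maxMod (f : ℂ → ℂ) (r : ℝ) : ℝ := sSup ((fun z => ‖f z‖) '' Metric.closedBall (0 : ℂ) r)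

/-- `limsup_{r → ∞} (log M_r) / r`. -/
def expType (f : ℂ → ℂ) : EReal :=
  Filter.limsup (fun r : ℝ => ((Real.log (maxMod f r) / r : ℝ) : EReal)) Filter.atTop

/-- The property defining the Whittaker constant. -/
def HasProperty (W : ℝ) : Prop :=
  ∀ f : ℂ → ℂ, Admissible f → expType f < (W : EReal) → ∀ z, f z = 0

/-- `ω = inf_{|q| ≤ 1} min {|z| : φ(z,q) = 0}`. -/
def omega : ℝ := sInf {t : ℝ | ∃ z q : ℂ, ‖q‖ ≤ 1 ∧ phi z q = 0 ∧ t = ‖z‖}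

/-! ### Quantities attached to a pair `(z, q)` with `φ(z,q) = 0` -/

/-- `V_k = q^{k(k+1)/2} z^k`, the eigenvector. -/
def Vk (z q : ℂ) (k : ℕ) : ℂ := q ^ (k * (k + 1) / 2) * z ^ k

/-- `π_k = - V_k z / (k+1)!`; `∑ π_k = 1` if `φ(z,q) = 0`. -/
def pik (z q : ℂ) (k : ℕ) : ℂ := -(Vk z q k * z / ((k + 1)! : ℂ))

/-- `Π_k = ∑_{j ≥ k} π_j`. -/
def Pit (z q : ℂ) (k : ℕ) : ℂ := ∑' j : ℕ, pik z q (k + j)

/-- `μ = ∑_k Π_k`. -/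
def mu (z q : ℂ) : ℂ := ∑' k : ℕ, Pit z q k

/-- `a_k = Π_k / μ`; `∑ a_k = 1`. -/
def ak (z q : ℂ) (k : ℕ) : ℂ := Pit z q k / mu z q

/-- `ℓ_k = a_k / V_k`, the left eigenvector. -/
def ell (z q : ℂ) (k : ℕ) : ℂ := ak z q k / Vk z q k

/-- `p_k = V_{k+1} / V_k = q^{k+1} z`. -/
def pk (z q : ℂ) (k : ℕ) : ℂ := q ^ (k + 1) * z

/-- `A_n = ∑_{k > n} a_k`. -/
def Ak (z q : ℂ) (n : ℕ) : ℂ := ∑' j : ℕ, ak z q (n + 1 + j)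

/-- `AA_n = ∑_{l > n} A_l`. -/
def AAk (z q : ℂ) (n : ℕ) : ℂ := ∑' j : ℕ, Ak z q (n + 1 + j)

/-- `m_1 = (∑ k(k+1)/2 π_k) / (∑ (k+1) π_k)` (`= ∑ k a_k = ∑ A_n`). -/
def m1 (z q : ℂ) : ℂ :=
  (∑' k : ℕ, ((k : ℂ) * ((k : ℂ) + 1) / 2) * pik z q k) / ∑' k : ℕ, ((k : ℂ) + 1) * pik z q k

/-- Centre of the enclosure of `q`. -/
def q0 : ℂ := ⟨-(73281231811352295 / 10 ^ 17 : ℝ), (68043082412621846 / 10 ^ 17 : ℝ)⟩

/-- Centre of the enclosure of `z`. -/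
def z0 : ℂ := ⟨-(73305252329682980 / 10 ^ 17 : ℝ), -(8312748190487047 / 10 ^ 17 : ℝ)⟩

/-- The optimal pair. -/
structure Opt (z q : ℂ) : Prop where
  norm_q : ‖q‖ = 1
  zero : phi z q = 0
  crit : (m1 z q).im = 0
  near_q : ‖q - q0‖ ≤ 1 / 10 ^ 12
  near_z : ‖z - z0‖ ≤ 1 / 10 ^ 12

/-- The weights: `0.135 * 0.28^k` for `k ≤ 8`, then ratio `1/16`. -/
def ch (k : ℕ) : ℝ := 135 / 1000 * (28 / 100) ^ (min k 8) * (1 / 16) ^ (k - 8)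

/-! ### The quadratic form -/

/-- Finitely supported sequences. -/
def FS (v : ℕ → ℂ) : Prop := ∃ N : ℕ, ∀ k, N ≤ k → v k = 0

/-- The Hermitian form `P(v) = |∑ ℓ_k v_k|² + ∑ c_k |v_{k+1} - p_k v_k|²`. -/
def P (z q : ℂ) (v : ℕ → ℂ) : ℝ :=
  ‖∑' k : ℕ, ell z q k * v k‖ ^ 2 + ∑' k : ℕ, ch k * ‖v (k + 1) - pk z q k * v k‖ ^ 2

/-- Complex conjugate of a sequence. -/
def cj (v : ℕ → ℂ) : ℕ → ℂ := fun k => (starRingEnd ℂ) (v k)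

/-- `T v = (-∑ v_k/(k+1)!, v_0, v_1, …)`. -/
def Top (v : ℕ → ℂ) : ℕ → ℂ
  | 0 => -∑' k : ℕ, v k / ((k + 1)! : ℂ)
  | k + 1 => v k

/-- `D_Q v = (Q^k v_k)`. -/
def Drot (Q : ℂ) (v : ℕ → ℂ) : ℕ → ℂ := fun k => Q ^ k * v k

/-- `e_0`. -/
def e0 : ℕ → ℂ := fun k => if k = 0 then 1 else 0

/-- `M(v) = max (P v) (P (conj v))`. -/
def Mx (z q : ℂ) (v : ℕ → ℂ) : ℝ := max (P z q v) (P z q (cj v))

/-! ### Gontcharoff type polynomials on lists -/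

/-- `G [] = 1`, `G (z :: zs) = - ∑_{k ≤ |zs|} G (zs.drop k) z^{k+1}/(k+1)!`. -/
def Gl : List ℂ → ℂ
  | [] => 1
  | z :: zs => -∑ k ∈ (Finset.range (zs.length + 1)).attach,
      Gl (zs.drop k.1) * z ^ (k.1 + 1) / ((k.1 + 1)! : ℂ)
termination_by l => l.length
decreasing_by simp only [List.length_drop, List.length_cons]; omega

/-! ### The far form -/

/-- Main part (coordinates `0..8`) of `|z|^{-2} (w P(v) + (1-w) P(conj v)) - P(D_Q T v)`. -/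
def FarMain (z q Q : ℂ) (w : ℝ) (v : ℕ → ℂ) : ℝ :=
  (‖z‖ ^ 2)⁻¹ *
    (w * (‖∑ k ∈ Finset.range 9, ell z q k * v k‖ ^ 2 +
        ∑ k ∈ Finset.range 8, ch k * ‖v (k + 1) - pk z q k * v k‖ ^ 2) +
     (1 - w) * (‖∑ k ∈ Finset.range 9, (starRingEnd ℂ) (ell z q k) * v k‖ ^ 2 +
        ∑ k ∈ Finset.range 8, ch k * ‖v (k + 1) - (starRingEnd ℂ) (pk z q k) * v k‖ ^ 2))
  - ‖∑ k ∈ Finset.range 9, (ell z q (k + 1) * Q ^ (k + 1) - ell z q 0 / ((k + 1)! : ℂ)) * v k‖ ^ 2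
  - ch 0 * ‖Q * v 0 + pk z q 0 * ∑ k ∈ Finset.range 9, v k / ((k + 1)! : ℂ)‖ ^ 2
  - ∑ k ∈ Finset.range 8, ch (k + 1) * ‖Q * v (k + 1) - pk z q (k + 1) * v k‖ ^ 2

/-- Error weights of the far zone. -/
def Efar (k : ℕ) : ℝ := 5 / 10 ^ 6 / ((k ! : ℝ) * 2 ^ k) + if k = 8 then ch 8 / 3 else 0

/-! ### The near form

`u = e^{is}`, `η = u - 1`, `X = η x_0`, `d_k = x_{k+1} - x_k`, `c_k = ch k * |z|^{2(k+1)}`. -/

/-- `c_k`. -/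
def cn (z : ℂ) (k : ℕ) : ℝ := ch k * ‖z‖ ^ (2 * (k + 1))

/-- `ε_1(u) = ∑ A_i u^i`. -/
def eps1 (z q u : ℂ) : ℂ := ∑' i : ℕ, Ak z q i * u ^ i

/-- `ε_2(u) = ∑ AA_i u^i`. -/
def eps2 (z q u : ℂ) : ℂ := ∑' i : ℕ, AAk z q i * u ^ i

/-- `B_j(u) = ∑_i A_{max (j+1) i} u^i`. -/
def Bk (z q u : ℂ) (j : ℕ) : ℂ := ∑' i : ℕ, Ak z q (max (j + 1) i) * u ^ i

/-- The near form for finitely supported `d`. -/
def NearFull (z q u X : ℂ) (d : ℕ → ℂ) : ℝ :=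
  ‖X‖ ^ 2 * ((m1 z q).re + 2 * (u * eps2 z q u).re)
  + 2 * ((starRingEnd ℂ) X * u * ∑' j : ℕ, Bk z q u j * d j).re
  - 2 * ((starRingEnd ℂ) (∑' j : ℕ, Ak z q j * d j) *
      (eps1 z q u * X + (u - 1) * ∑' j : ℕ, Bk z q u j * d j)).re
  - ‖eps1 z q u * X + (u - 1) * ∑' j : ℕ, Bk z q u j * d j‖ ^ 2
  + ∑' k : ℕ, (cn z k * ‖d k‖ ^ 2
      - cn z (k + 1) * ‖X + (u - 1) * ∑ j ∈ Finset.range (k + 1), d j + d k‖ ^ 2)
  - cn z 0 * ‖X - ∑' j : ℕ, Pit z q (j + 1) * d j‖ ^ 2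

/-- Main part of the near form (coordinates `X, d_0, …, d_7`). -/
def NearMain (z q u X : ℂ) (d : ℕ → ℂ) : ℝ :=
  ‖X‖ ^ 2 * ((m1 z q).re + 2 * (u * eps2 z q u).re)
  + 2 * ((starRingEnd ℂ) X * u * ∑ j ∈ Finset.range 8, Bk z q u j * d j).re
  - 2 * ((starRingEnd ℂ) (∑ j ∈ Finset.range 8, Ak z q j * d j) *
      (eps1 z q u * X + (u - 1) * ∑ j ∈ Finset.range 8, Bk z q u j * d j)).re
  - ‖eps1 z q u * X + (u - 1) * ∑ j ∈ Finset.range 8, Bk z q u j * d j‖ ^ 2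
  + ∑ k ∈ Finset.range 8, (cn z k * ‖d k‖ ^ 2
      - cn z (k + 1) * ‖X + (u - 1) * ∑ j ∈ Finset.range (k + 1), d j + d k‖ ^ 2)
  - cn z 0 * ‖X - ∑ j ∈ Finset.range 8, Pit z q (j + 1) * d j‖ ^ 2

/-- Error weights of the near zone (for `X`). -/
def EnX : ℝ := 5 / 10 ^ 6

/-- Error weights of the near zone (for `d_j`). -/
def EnD (j : ℕ) : ℝ := ([2000, 500, 200, 80, 30, 15, 6, 3] : List ℕ).getD j 0 / 10 ^ 9

end

end Pool.Agent.Whit
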