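import Mathlib

/-!
# Kernel checked positivity of Hermitian forms with Gaussian integer entries
-/

namespace Pool.Agent.Whit.Eng

/-- Gaussian integers. -/
structure GI where
  re : ℤ
  im : ℤ

namespace GI

/-- As a complex number. -/
noncomputable def toC (a : GI) : ℂ := ⟨(a.re : ℝ), (a.im : ℝ)⟩

/-- Sum. -/
def add (a b : GI) : GI := ⟨a.re + b.re, a.im + b.im⟩

/-- Product. -/
def mul (a b : GI) : GI := ⟨a.re * b.re - a.im * b.im, a.re * b.im + a.im * b.re⟩

/-- Conjugate. -/
def conj (a : GI) : GI := ⟨a.re, -a.im⟩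

/-- Negative. -/
def neg (a : GI) : GI := ⟨-a.re, -a.im⟩

/-- Multiplication by an integer. -/
def smul (c : ℤ) (a : GI) : GI := ⟨c * a.re, c * a.im⟩

/-- Rounded division by an integer. -/
def rnd (m : ℤ) (a : GI) : GI := ⟨a.re / m, a.im / m⟩

/-- `|re| + |im|`. -/
def n1 (a : GI) : ℕ := a.re.natAbs + a.im.natAbs

end GI

/-! ### Vectors and matrices -/

/-- Sum of two vectors. -/
def addV : List GI → List GI → List GI
  | [], l => l
  | a :: l, [] => a :: l
  | a :: l, b :: l' => a.add b :: addV l l'

/-- Sum of two matrices. -/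
def addM : List (List GI) → List (List GI) → List (List GI)
  | [], M => M
  | r :: M, [] => r :: M
  | r :: M, r' :: M' => addV r r' :: addM M M'

/-- Multiple of a vector. -/
def scaleV (c : ℤ) : List GI → List GI
  | [] => []
  | a :: l => GI.smul c a :: scaleV c l

/-- Multiple of a matrix. -/
def scaleM (c : ℤ) : List (List GI) → List (List GI)
  | [] => []
  | r :: M => scaleV c r :: scaleM c M

/-- Multiple of a vector by a Gaussian integer. -/
def mulV (a : GI) : List GI → List GI
  | [] => []
  | b :: l => a.mul b :: mulV a l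

/-- The matrix (upper triangular part) of `|l v|²`. -/
def sqM : List GI → List (List GI)
  | [] => []
  | a :: l => (⟨a.re * a.re + a.im * a.im, 0⟩ :: mulV a.conj l) :: sqM l

/-- Diagonal matrices. -/
def diagM : List ℤ → List (List GI)
  | [] => []
  | a :: l => [⟨a, 0⟩] :: diagM l

/-- Positivity test. -/
def psd : ℕ → List (List GI) → Bool
  | _, [] => true
  | 0, _ :: _ => false
  | _ + 1, [] :: _ => false
  | n + 1, (a :: r) :: M =>
    decide (0 < a.re) && psd n (addM (scaleM a.re M) (scaleM (-1) (sqM r)))

end Pool.Agent.Whit.Eng
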