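import Pool.Agent.Whit.Trig

/-!
# Soundness of the positivity test
-/

namespace Pool.Agent.Whit.Eng

open Complex

noncomputable section

/-- Shift. -/
def sh (v : ℕ → ℂ) : ℕ → ℂ := fun k => v (k + 1)

/-- `∑ l_k v_k`. -/
def dot : List GI → (ℕ → ℂ) → ℂ
  | [], _ => 0
  | a :: l, v => a.toC * v 0 + dot l (sh v)

/-- Contribution of a row. -/
def rowq : List GI → (ℕ → ℂ) → ℝ
  | [], _ => 0
  | a :: l, v => (a.re : ℝ) * ‖v 0‖ ^ 2 + 2 * ((starRingEnd ℂ) (v 0) * dot l (sh v)).re

/-- The Hermitian form of an upper triangular matrix. -/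
def qf : List (List GI) → (ℕ → ℂ) → ℝ
  | [], _ => 0
  | r :: M, v => rowq r v + qf M (sh v)

theorem toC_add (a b : GI) : (a.add b).toC = a.toC + b.toC := by
  apply Complex.ext <;> simp [GI.toC, GI.add]

theorem toC_mul (a b : GI) : (a.mul b).toC = a.toC * b.toC := by
  apply Complex.ext <;> simp [GI.toC, GI.mul]

theorem toC_conj (a : GI) : (a.conj).toC = (starRingEnd ℂ) a.toC := by
  apply Complex.ext <;> simp [GI.toC, GI.conj]

theorem toC_neg (a : GI) : (a.neg).toC = -a.toC := by
  apply Complex.ext <;> simp [GI.toC, GI.neg]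

theorem toC_smul (c : ℤ) (a : GI) : (a.smul c).toC = (c : ℂ) * a.toC := by
  apply Complex.ext <;> simp [GI.toC, GI.smul]

theorem toC_zero : (⟨0, 0⟩ : GI).toC = 0 := by
  apply Complex.ext <;> simp [GI.toC]

theorem norm_toC_le (a : GI) : ‖a.toC‖ ≤ (a.n1 : ℝ) := by
  refine (Complex.norm_le_abs_re_add_abs_im _).trans ?_
  simp [GI.toC, GI.n1]

theorem rnd_err (m : ℤ) (hm : 0 < m) (a : GI) :
    ‖a.toC / (m : ℂ) - (a.rnd m).toC‖ ≤ 2 := by
  refine (Complex.norm_le_abs_re_add_abs_im _).trans ?_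
  have key : ∀ x : ℤ, |(x : ℝ) / (m : ℝ) - ((x / m : ℤ) : ℝ)| ≤ 1 := by
    intro x
    have hm' : (0 : ℝ) < (m : ℝ) := by exact_mod_cast hm
    have h1 : ((x / m : ℤ) : ℝ) * (m : ℝ) ≤ (x : ℝ) := by
      exact_mod_cast Int.ediv_mul_le x hm.ne'
    have h2 : (x : ℝ) < (((x / m : ℤ) : ℝ) + 1) * (m : ℝ) := by
      exact_mod_cast Int.lt_ediv_add_one_mul_self x hm
    rw [abs_le]
    constructor
    · have : ((x / m : ℤ) : ℝ) ≤ (x : ℝ) / (m : ℝ) := by rwa [le_div_iff₀ hm']
      linarith
    · have : (x : ℝ) / (m : ℝ) < ((x / m : ℤ) : ℝ) + 1 := by rwa [div_lt_iff₀ hm']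
      linarith
  have e1 : (a.toC / (m : ℂ) - (a.rnd m).toC).re = (a.re : ℝ) / (m : ℝ) - ((a.re / m : ℤ) : ℝ) := by
    have : (a.toC / (m : ℂ)) = a.toC / ((m : ℝ) : ℂ) := by norm_cast
    rw [this, Complex.sub_re, Complex.div_ofReal_re]
    simp [GI.toC, GI.rnd]
  have e2 : (a.toC / (m : ℂ) - (a.rnd m).toC).im = (a.im : ℝ) / (m : ℝ) - ((a.im / m : ℤ) : ℝ) := by
    have : (a.toC / (m : ℂ)) = a.toC / ((m : ℝ) : ℂ) := by norm_cast
    rw [this, Complex.sub_im, Complex.div_ofReal_im]
    simp [GI.toC, GI.rnd]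
  rw [e1, e2]
  linarith [key a.re, key a.im]

theorem sh_zero (v : ℕ → ℂ) : sh v 0 = v 1 := rfl

theorem dot_addV (l l' : List GI) (v : ℕ → ℂ) : dot (addV l l') v = dot l v + dot l' v := by
  induction l generalizing l' v with
  | nil => simp [addV, dot]
  | cons a l ih =>
    cases l' with
    | nil => simp [addV, dot]
    | cons b l' => simp only [addV, dot, toC_add, ih]; ring

theorem dot_scaleV (c : ℤ) (l : List GI) (v : ℕ → ℂ) : dot (scaleV c l) v = (c : ℂ) * dot l v := by
  induction l generalizing v with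
  | nil => simp [scaleV, dot]
  | cons a l ih => simp only [scaleV, dot, toC_smul, ih]; ring

theorem dot_mulV (a : GI) (l : List GI) (v : ℕ → ℂ) : dot (mulV a l) v = a.toC * dot l v := by
  induction l generalizing v with
  | nil => simp [mulV, dot]
  | cons b l ih => simp only [mulV, dot, toC_mul, ih]; ring

theorem rowq_addV (l l' : List GI) (v : ℕ → ℂ) : rowq (addV l l') v = rowq l v + rowq l' v := by
  cases l with
  | nil => simp [addV, rowq]
  | cons a l =>
    cases l' with
    | nil => simp [addV, rowq]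
    | cons b l' =>
      simp only [addV, rowq, dot_addV, mul_add, Complex.add_re]
      simp only [GI.add]
      push_cast
      ring

theorem rowq_scaleV (c : ℤ) (l : List GI) (v : ℕ → ℂ) :
    rowq (scaleV c l) v = (c : ℝ) * rowq l v := by
  cases l with
  | nil => simp [scaleV, rowq]
  | cons a l =>
    simp only [scaleV, rowq, dot_scaleV]
    have : (starRingEnd ℂ) (v 0) * ((c : ℂ) * dot l (sh v)) =
        ((c : ℝ) : ℂ) * ((starRingEnd ℂ) (v 0) * dot l (sh v)) := by push_cast; ring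
    rw [this, Complex.re_ofReal_mul]
    simp only [GI.smul]
    push_cast
    ring

theorem qf_addM (M M' : List (List GI)) (v : ℕ → ℂ) : qf (addM M M') v = qf M v + qf M' v := by
  induction M generalizing M' v with
  | nil => simp [addM, qf]
  | cons r M ih =>
    cases M' with
    | nil => simp [addM, qf]
    | cons r' M' => simp only [addM, qf, rowq_addV, ih]; ring

theorem qf_scaleM (c : ℤ) (M : List (List GI)) (v : ℕ → ℂ) :
    qf (scaleM c M) v = (c : ℝ) * qf M v := by
  induction M generalizing v with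
  | nil => simp [scaleM, qf]
  | cons r M ih => simp only [scaleM, qf, rowq_scaleV, ih]; ring

theorem norm_sq_add_eq (a b : ℂ) : ‖a + b‖ ^ 2 = ‖a‖ ^ 2 + 2 * ((starRingEnd ℂ) a * b).re + ‖b‖ ^ 2 := by
  rw [Complex.sq_norm, Complex.sq_norm, Complex.sq_norm, Complex.normSq_apply, Complex.normSq_apply,
    Complex.normSq_apply]
  simp
  ring

theorem qf_sqM (l : List GI) (v : ℕ → ℂ) : qf (sqM l) v = ‖dot l v‖ ^ 2 := by
  induction l generalizing v with
  | nil => simp [sqM, qf, dot]
  | cons a l ih =>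
    simp only [sqM, qf, rowq, dot, ih, dot_mulV, norm_sq_add_eq]
    have h1 : ((starRingEnd ℂ) (a.toC * v 0) * dot l (sh v)).re =
        ((starRingEnd ℂ) (v 0) * ((a.conj).toC * dot l (sh v))).re := by
      rw [toC_conj, map_mul]; ring_nf
    rw [h1, norm_mul, mul_pow]
    have h2 : ‖a.toC‖ ^ 2 = ((a.re * a.re + a.im * a.im : ℤ) : ℝ) := by
      rw [Complex.sq_norm, Complex.normSq_apply]; simp [GI.toC]
    rw [h2]

/-- `∑ d_k |v_k|²`. -/
def dq : List ℤ → (ℕ → ℂ) → ℝ
  | [], _ => 0
  | a :: l, v => (a : ℝ) * ‖v 0‖ ^ 2 + dq l (sh v)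

theorem qf_diagM (d : List ℤ) (v : ℕ → ℂ) : qf (diagM d) v = dq d v := by
  induction d generalizing v with
  | nil => simp [diagM, qf, dq]
  | cons a l ih => simp only [diagM, qf, rowq, dot, ih, dq]; simp

theorem psd_sound (n : ℕ) (M : List (List GI)) (h : psd n M = true) (v : ℕ → ℂ) : 0 ≤ qf M v := by
  induction n generalizing M v with
  | zero =>
    cases M with
    | nil => simp [qf]
    | cons r M => simp [psd] at h
  | succ n ih =>
    cases M with
    | nil => simp [qf]
    | cons r M =>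
      cases r with
      | nil => simp [psd] at h
      | cons a r =>
        simp only [psd, Bool.and_eq_true, decide_eq_true_eq] at h
        obtain ⟨ha, h⟩ := h
        have h1 := ih _ h (sh v)
        rw [qf_addM, qf_scaleM, qf_scaleM, qf_sqM] at h1
        have ha' : (0 : ℝ) < (a.re : ℝ) := by exact_mod_cast ha
        have h2 : (a.re : ℝ) * qf ((a :: r) :: M) v =
            ‖((a.re : ℝ) : ℂ) * v 0 + dot r (sh v)‖ ^ 2 +
              ((a.re : ℝ) * qf M (sh v) + ((-1 : ℤ) : ℝ) * ‖dot r (sh v)‖ ^ 2) := by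
          simp only [qf, rowq]
          rw [norm_sq_add_eq, norm_mul, mul_pow, Complex.norm_real, Real.norm_eq_abs, sq_abs, map_mul,
            Complex.conj_ofReal, mul_assoc, Complex.re_ofReal_mul]
          push_cast
          ring
        have h3 : 0 ≤ (a.re : ℝ) * qf ((a :: r) :: M) v := by
          rw [h2]; exact add_nonneg (sq_nonneg _) h1
        exact (mul_nonneg_iff_of_pos_left ha').mp h3

end

end Pool.Agent.Whit.Eng
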