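import Pool.Agent.Whit.FarData

/-!
# Kernel checks of the far cells, part 0
-/

namespace Pool.Agent.Whit.Eng

set_option maxRecDepth 10000

theorem fc0 : farCell 0 = true := by decide +kernel
theorem fc1 : farCell 1 = true := by decide +kernel
theorem fc2 : farCell 2 = true := by decide +kernel
theorem fc3 : farCell 3 = true := by decide +kernel
theorem fc4 : farCell 4 = true := by decide +kernel
theorem fc5 : farCell 5 = true := by decide +kernel
theorem fc6 : farCell 6 = true := by decide +kernel
theorem fc7 : farCell 7 = true := by decide +kernel
theorem fc8 : farCell 8 = true := by decide +kernel
theorem fc9 : farCell 9 = true := by decide +kernel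
theorem fc10 : farCell 10 = true := by decide +kernel
theorem fc11 : farCell 11 = true := by decide +kernel
theorem fc12 : farCell 12 = true := by decide +kernel
theorem fc13 : farCell 13 = true := by decide +kernel
theorem fc14 : farCell 14 = true := by decide +kernel
theorem fc15 : farCell 15 = true := by decide +kernel
theorem fc16 : farCell 16 = true := by decide +kernel

end Pool.Agent.Whit.Eng
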