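import Pool.Agent.Whit.FarData

/-!
# Kernel checks of the far cells, part 1
-/

namespace Pool.Agent.Whit.Eng

set_option maxRecDepth 10000

theorem fc17 : farCell 17 = true := by decide +kernel
theorem fc18 : farCell 18 = true := by decide +kernel
theorem fc19 : farCell 19 = true := by decide +kernel
theorem fc20 : farCell 20 = true := by decide +kernel
theorem fc21 : farCell 21 = true := by decide +kernel
theorem fc22 : farCell 22 = true := by decide +kernel
theorem fc23 : farCell 23 = true := by decide +kernel
theorem fc24 : farCell 24 = true := by decide +kernel
theorem fc25 : farCell 25 = true := by decide +kernel
theorem fc26 : farCell 26 = true := by decide +kernel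
theorem fc27 : farCell 27 = true := by decide +kernel
theorem fc28 : farCell 28 = true := by decide +kernel
theorem fc29 : farCell 29 = true := by decide +kernel
theorem fc30 : farCell 30 = true := by decide +kernel
theorem fc31 : farCell 31 = true := by decide +kernel
theorem fc32 : farCell 32 = true := by decide +kernel
theorem fc33 : farCell 33 = true := by decide +kernel

end Pool.Agent.Whit.Eng
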