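import Pool.Agent.Whit.FarData

/-!
# Kernel checks of the far cells, part 2
-/

namespace Pool.Agent.Whit.Eng

set_option maxRecDepth 10000

theorem fc34 : farCell 34 = true := by decide +kernel
theorem fc35 : farCell 35 = true := by decide +kernel
theorem fc36 : farCell 36 = true := by decide +kernel
theorem fc37 : farCell 37 = true := by decide +kernel
theorem fc38 : farCell 38 = true := by decide +kernel
theorem fc39 : farCell 39 = true := by decide +kernel
theorem fc40 : farCell 40 = true := by decide +kernel
theorem fc41 : farCell 41 = true := by decide +kernel
theorem fc42 : farCell 42 = true := by decide +kernel
theorem fc43 : farCell 43 = true := by decide +kernel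
theorem fc44 : farCell 44 = true := by decide +kernel
theorem fc45 : farCell 45 = true := by decide +kernel
theorem fc46 : farCell 46 = true := by decide +kernel
theorem fc47 : farCell 47 = true := by decide +kernel
theorem fc48 : farCell 48 = true := by decide +kernel
theorem fc49 : farCell 49 = true := by decide +kernel
theorem fc50 : farCell 50 = true := by decide +kernel

end Pool.Agent.Whit.Eng
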