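import Pool.Agent.Whit.FarData

/-!
# Kernel checks of the far cells, part 3
-/

namespace Pool.Agent.Whit.Eng

set_option maxRecDepth 10000

theorem fc51 : farCell 51 = true := by decide +kernel
theorem fc52 : farCell 52 = true := by decide +kernel
theorem fc53 : farCell 53 = true := by decide +kernel
theorem fc54 : farCell 54 = true := by decide +kernel
theorem fc55 : farCell 55 = true := by decide +kernel
theorem fc56 : farCell 56 = true := by decide +kernel
theorem fc57 : farCell 57 = true := by decide +kernel
theorem fc58 : farCell 58 = true := by decide +kernel
theorem fc59 : farCell 59 = true := by decide +kernel
theorem fc60 : farCell 60 = true := by decide +kernel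
theorem fc61 : farCell 61 = true := by decide +kernel
theorem fc62 : farCell 62 = true := by decide +kernel
theorem fc63 : farCell 63 = true := by decide +kernel
theorem fc64 : farCell 64 = true := by decide +kernel
theorem fc65 : farCell 65 = true := by decide +kernel
theorem fc66 : farCell 66 = true := by decide +kernel
theorem fc67 : farCell 67 = true := by decide +kernel

end Pool.Agent.Whit.Eng
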