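import Pool.Agent.Whit.FarData

/-!
# Kernel checks of the far cells, part 4
-/

namespace Pool.Agent.Whit.Eng

set_option maxRecDepth 10000

theorem fc68 : farCell 68 = true := by decide +kernel
theorem fc69 : farCell 69 = true := by decide +kernel
theorem fc70 : farCell 70 = true := by decide +kernel
theorem fc71 : farCell 71 = true := by decide +kernel
theorem fc72 : farCell 72 = true := by decide +kernel
theorem fc73 : farCell 73 = true := by decide +kernel
theorem fc74 : farCell 74 = true := by decide +kernel
theorem fc75 : farCell 75 = true := by decide +kernel
theorem fc76 : farCell 76 = true := by decide +kernel
theorem fc77 : farCell 77 = true := by decide +kernel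
theorem fc78 : farCell 78 = true := by decide +kernel
theorem fc79 : farCell 79 = true := by decide +kernel
theorem fc80 : farCell 80 = true := by decide +kernel
theorem fc81 : farCell 81 = true := by decide +kernel
theorem fc82 : farCell 82 = true := by decide +kernel
theorem fc83 : farCell 83 = true := by decide +kernel
theorem fc84 : farCell 84 = true := by decide +kernel

end Pool.Agent.Whit.Eng
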