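import Pool.Agent.Whit.FarT
import Pool.Agent.Whit.FarC0
import Pool.Agent.Whit.FarC1
import Pool.Agent.Whit.FarC2
import Pool.Agent.Whit.FarC3
import Pool.Agent.Whit.FarC4

/-!
# FM: positivity of the main part in the far zone
-/

namespace Pool.Agent.Whit

open Eng

theorem Eng.fc (i : ℕ) (hi : i < 85) : farCell i = true := by
  interval_cases i
  · exact fc0
  · exact fc1
  · exact fc2
  · exact fc3
  · exact fc4
  · exact fc5
  · exact fc6
  · exact fc7
  · exact fc8
  · exact fc9
  · exact fc10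
  · exact fc11
  · exact fc12
  · exact fc13
  · exact fc14
  · exact fc15
  · exact fc16
  · exact fc17
  · exact fc18
  · exact fc19
  · exact fc20
  · exact fc21
  · exact fc22
  · exact fc23
  · exact fc24
  · exact fc25
  · exact fc26
  · exact fc27
  · exact fc28
  · exact fc29
  · exact fc30
  · exact fc31
  · exact fc32
  · exact fc33
  · exact fc34
  · exact fc35
  · exact fc36
  · exact fc37
  · exact fc38
  · exact fc39
  · exact fc40
  · exact fc41
  · exact fc42
  · exact fc43
  · exact fc44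
  · exact fc45
  · exact fc46
  · exact fc47
  · exact fc48
  · exact fc49
  · exact fc50
  · exact fc51
  · exact fc52
  · exact fc53
  · exact fc54
  · exact fc55
  · exact fc56
  · exact fc57
  · exact fc58
  · exact fc59
  · exact fc60
  · exact fc61
  · exact fc62
  · exact fc63
  · exact fc64
  · exact fc65
  · exact fc66
  · exact fc67
  · exact fc68
  · exact fc69
  · exact fc70
  · exact fc71
  · exact fc72
  · exact fc73
  · exact fc74
  · exact fc75
  · exact fc76
  · exact fc77
  · exact fc78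
  · exact fc79
  · exact fc80
  · exact fc81
  · exact fc82
  · exact fc83
  · exact fc84

theorem Eng.wF_bd (i : ℕ) (hi : i < 85) : 0 ≤ wF.getD i 0 ∧ wF.getD i 0 ≤ 16 := by
  revert i
  decide

/-- FM. -/
theorem tFarMain : TFarMain := by
  intro z q _ _ hE θ h0 h1
  obtain ⟨i, hi, τ, t0, t1, hθ⟩ : ∃ i : ℕ, i < 85 ∧ ∃ τ : ℝ, 0 ≤ τ ∧ τ ≤ 1 ∧
      θ = (((46 + i : ℤ) : ℝ) + τ) / 16 := by
    by_cases hend : θ < 131 / 16
    · refine ⟨⌊16 * θ - 46⌋₊, ?_, 16 * θ - 46 - ⌊16 * θ - 46⌋₊, ?_, ?_, ?_⟩
      · rw [Nat.floor_lt (by linarith)]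
        push_cast
        linarith
      · have := Nat.floor_le (show 0 ≤ 16 * θ - 46 by linarith)
        linarith
      · have := Nat.lt_floor_add_one (16 * θ - 46)
        linarith
      · push_cast
        ring
    · refine ⟨84, by norm_num, 1, by norm_num, le_refl _, ?_⟩
      push_cast
      linarith
  have hc := fc i hi
  unfold farCell at hc
  rw [Bool.and_eq_true] at hc
  obtain ⟨w0, w1⟩ := wF_bd i hi
  have e : (47 + (i : ℤ)) = (46 + (i : ℤ)) + 1 := by ring
  rw [e] at hc
  refine ⟨((wF.getD i 0 : ℤ) : ℝ) / 16, ?_, ?_, fun v => ?_⟩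
  · have : (0 : ℝ) ≤ ((wF.getD i 0 : ℤ) : ℝ) := by exact_mod_cast w0
    positivity
  · have : ((wF.getD i 0 : ℤ) : ℝ) ≤ 16 := by exact_mod_cast w1
    linarith
  · have := far_cell hE (46 + i) (by rw [abs_of_nonneg (by positivity)]; omega) (wF.getD i 0) w0 w1
      hc.1 hc.2 τ t0 t1 v
    have ep : pt (46 + i) τ = Complex.exp (θ * Complex.I) := by
      unfold pt
      rw [hθ]
    rw [ep] at this
    exact this

end Pool.Agent.Whit
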