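import Pool.Agent.Whit.Spec

/-!
# The Whittaker constant: tail estimate for the far form (job FT)
-/

namespace Pool.Agent.Whit.FT

open scoped Nat
open Finset

noncomputable section

theorem ch_pos (k : ℕ) : 0 < ch k := by unfold ch; positivity

theorem ch_succ (k : ℕ) (hk : 8 ≤ k) : ch (k + 1) = ch k / 16 := by
  unfold ch
  have h1 : min (k + 1) 8 = 8 := by omega
  have h2 : min k 8 = 8 := by omega
  have h3 : k + 1 - 8 = (k - 8) + 1 := by omega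
  rw [h1, h2, h3, pow_succ]; ring

theorem ch_zero : ch 0 = 135 / 1000 := by unfold ch; norm_num

theorem ch_eight : ch 8 = 135 / 1000 * (28 / 100) ^ 8 := by unfold ch; norm_num

/-- `1 / ((10+j)!^2 ch (8+j))`. -/
def gg (j : ℕ) : ℝ := 1 / (((10 + j)! : ℝ) ^ 2 * ch (8 + j))

theorem gg_pos (j : ℕ) : 0 < gg j := by
  unfold gg
  have := ch_pos (8 + j)
  positivity

theorem gg_succ (j : ℕ) : gg (j + 1) ≤ 16 / 121 * gg j := by
  unfold gg
  have hc := ch_pos (8 + j)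
  have h1 : ch (8 + (j + 1)) = ch (8 + j) / 16 := ch_succ (8 + j) (by omega)
  have h2 : ((10 + (j + 1))! : ℝ) = (11 + j : ℝ) * ((10 + j)! : ℝ) := by
    rw [show 10 + (j + 1) = (10 + j) + 1 by ring, Nat.factorial_succ]
    push_cast; ring
  rw [h1, h2]
  have hf : (0 : ℝ) < ((10 + j)! : ℝ) := by positivity
  have hj : (0 : ℝ) ≤ (j : ℝ) := Nat.cast_nonneg j
  have e1 : 1 / (((11 + j : ℝ) * ((10 + j)! : ℝ)) ^ 2 * (ch (8 + j) / 16)) =
      (16 / (11 + j : ℝ) ^ 2) * (1 / (((10 + j)! : ℝ) ^ 2 * ch (8 + j))) := by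
    field_simp
  rw [e1]
  apply mul_le_mul_of_nonneg_right _ (by positivity)
  apply div_le_div_of_nonneg_left (by norm_num) (by norm_num)
  nlinarith

theorem gg_sum (m : ℕ) : ∑ j ∈ range m, gg j ≤ 177 / 10 ^ 10 := by
  have key : ∀ m : ℕ, ∑ j ∈ range m, gg j ≤ (gg 0 - gg m) * (121 / 105) := by
    intro m
    induction m with
    | zero => simp
    | succ m ih =>
      rw [sum_range_succ]
      have := gg_succ m
      linarith
  have h0 : gg 0 ≤ 149 / 10 ^ 10 := by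
    unfold gg
    rw [show 10 + 0 = 10 by rfl, show 8 + 0 = 8 by rfl, ch_eight]
    have : ((10 : ℕ)! : ℝ) = 3628800 := by norm_num [Nat.factorial]
    rw [this]
    norm_num
  have h1 := key m
  have h2 := gg_pos m
  linarith

/-- Tail functional bound. -/
theorem tail_bound (m : ℕ) (a x : ℕ → ℂ) (C : ℝ) (hC : 0 ≤ C)
    (ha : ∀ j, ‖a j‖ ≤ C / ((10 + j)! : ℝ)) :
    ‖∑ j ∈ range m, a j * x (9 + j)‖ ≤
      C * (1331 / 10 ^ 7) * Real.sqrt (∑ j ∈ range m, ch (8 + j) * ‖x (9 + j)‖ ^ 2) := by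
  set T2 := ∑ j ∈ range m, ch (8 + j) * ‖x (9 + j)‖ ^ 2 with hT2
  have hT0 : 0 ≤ T2 := sum_nonneg fun j _ => mul_nonneg (ch_pos _).le (by positivity)
  have h1 : ‖∑ j ∈ range m, a j * x (9 + j)‖ ≤
      ∑ j ∈ range m, C / ((10 + j)! : ℝ) * ‖x (9 + j)‖ := by
    refine (norm_sum_le _ _).trans (sum_le_sum fun j _ => ?_)
    rw [norm_mul]
    exact mul_le_mul_of_nonneg_right (ha j) (norm_nonneg _)
  have h2 : (∑ j ∈ range m, C / ((10 + j)! : ℝ) * ‖x (9 + j)‖) ^ 2 ≤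
      (∑ j ∈ range m, C ^ 2 * gg j) * T2 := by
    apply sum_sq_le_sum_mul_sum_of_sq_le_mul
    · intro j _; have := gg_pos j; positivity
    · intro j _; have := ch_pos (8 + j); positivity
    · intro j _
      unfold gg
      have := ch_pos (8 + j)
      apply le_of_eq
      field_simp
  have h3 : (∑ j ∈ range m, C ^ 2 * gg j) ≤ C ^ 2 * (177 / 10 ^ 10) := by
    rw [← mul_sum]
    exact mul_le_mul_of_nonneg_left (gg_sum m) (by positivity)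
  refine h1.trans ?_
  refine (abs_le_of_sq_le_sq' ?_ (by positivity)).2
  rw [mul_pow, Real.sq_sqrt hT0]
  refine h2.trans ((mul_le_mul_of_nonneg_right h3 hT0).trans ?_)
  apply mul_le_mul_of_nonneg_right _ hT0
  nlinarith [sq_nonneg C]


theorem norm_add_sq_ge (S τ : ℂ) : ‖S‖ ^ 2 - 2 * ‖S‖ * ‖τ‖ ≤ ‖S + τ‖ ^ 2 := by
  have h := abs_norm_sub_norm_le S (-τ)
  rw [sub_neg_eq_add, norm_neg] at h
  have h2 := sq_le_sq' (by linarith [neg_abs_le (‖S‖ - ‖τ‖)])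
    ((le_abs_self (‖S‖ - ‖τ‖)).trans h)
  nlinarith [sq_nonneg ‖τ‖]

theorem norm_add_sq_le (S τ : ℂ) : ‖S + τ‖ ^ 2 ≤ ‖S‖ ^ 2 + 2 * ‖S‖ * ‖τ‖ + ‖τ‖ ^ 2 := by
  have h := norm_add_le S τ
  have := norm_nonneg (S + τ)
  nlinarith

theorem diff_tail (om r w : ℝ) (hom : 0 < om) (hr : om ^ 2 * r = 1) (hr1 : 1837 / 1000 ≤ r)
    (w0 : 0 ≤ w) (w1 : w ≤ 1) (a b p p' Q : ℂ) (hp : ‖p‖ = om) (hp' : ‖p'‖ = om)
    (hQ : ‖Q‖ = 1) :
    ‖a‖ ^ 2 / 48 - ‖b‖ ^ 2 / 3 + ‖a‖ ^ 2 / 5 ≤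
      r * (w * ‖a - p * b‖ ^ 2 + (1 - w) * ‖a - (starRingEnd ℂ) p * b‖ ^ 2)
        - 1 / 16 * ‖Q * a - p' * b‖ ^ 2 := by
  set s := om * ‖b‖ with hs
  have hb0 := norm_nonneg b
  have ha0 := norm_nonneg a
  have hs0 : 0 ≤ s := by positivity
  have e1 : (‖a‖ - s) ^ 2 ≤ ‖a - p * b‖ ^ 2 := by
    have h := abs_norm_sub_norm_le a (p * b)
    rw [norm_mul, hp] at h
    rw [← sq_abs]
    exact pow_le_pow_left₀ (abs_nonneg _) h 2
  have e2 : (‖a‖ - s) ^ 2 ≤ ‖a - (starRingEnd ℂ) p * b‖ ^ 2 := by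
    have h := abs_norm_sub_norm_le a ((starRingEnd ℂ) p * b)
    rw [norm_mul, Complex.norm_conj, hp] at h
    rw [← sq_abs]
    exact pow_le_pow_left₀ (abs_nonneg _) h 2
  have e3 : ‖Q * a - p' * b‖ ^ 2 ≤ (‖a‖ + s) ^ 2 := by
    have h := norm_sub_le (Q * a) (p' * b)
    rw [norm_mul, norm_mul, hp', hQ, one_mul] at h
    exact pow_le_pow_left₀ (norm_nonneg _) h 2
  have e4 : (‖a‖ - s) ^ 2 ≤ w * ‖a - p * b‖ ^ 2 + (1 - w) * ‖a - (starRingEnd ℂ) p * b‖ ^ 2 := by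
    have := mul_le_mul_of_nonneg_left e1 w0
    have := mul_le_mul_of_nonneg_left e2 (sub_nonneg.2 w1)
    linarith
  have hb : ‖b‖ ^ 2 = r * s ^ 2 := by
    rw [hs, mul_pow]
    have : r * (om ^ 2 * ‖b‖ ^ 2) = (om ^ 2 * r) * ‖b‖ ^ 2 := by ring
    rw [this, hr, one_mul]
  have hr0 : 0 ≤ r := by linarith
  have e5 := mul_le_mul_of_nonneg_left e4 hr0
  rw [hb]
  have e6 : ‖a‖ ^ 2 / 48 - r * s ^ 2 / 3 + ‖a‖ ^ 2 / 5 ≤ r * (‖a‖ - s) ^ 2
      - 1 / 16 * (‖a‖ + s) ^ 2 := by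
    have e7 : 0 ≤ (r - 1837 / 1000) * ((‖a‖ - s) ^ 2 + s ^ 2 / 3) :=
      mul_nonneg (by linarith) (by positivity)
    nlinarith [sq_nonneg (‖a‖ - 122 / 100 * s), sq_nonneg s, sq_nonneg ‖a‖]
  linarith

/-- Telescoping of the difference tails. -/
theorem tele (m : ℕ) (t : ℕ → ℝ) :
    ∑ j ∈ range m, ch (8 + j) * (t (9 + j) ^ 2 / 48 - t (8 + j) ^ 2 / 3 + t (9 + j) ^ 2 / 5) =
      ch (8 + m) * t (8 + m) ^ 2 / 3 - ch 8 * t 8 ^ 2 / 3 +
        (∑ j ∈ range m, ch (8 + j) * t (9 + j) ^ 2) / 5 := by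
  induction m with
  | zero => simp
  | succ m ih =>
    rw [sum_range_succ, sum_range_succ, ih]
    have h1 : ch (8 + (m + 1)) = ch (8 + m) / 16 := ch_succ (8 + m) (by omega)
    have h2 : 8 + (m + 1) = 9 + m := by ring
    rw [h1, h2]
    ring

/-- `b = ∑_{k ≤ 8} 1.1 t_k / k!`. -/
def bb (v : ℕ → ℂ) : ℝ := ∑ k ∈ range 9, 11 / 10 / (k ! : ℝ) * ‖v k‖

theorem bb_nonneg (v : ℕ → ℂ) : 0 ≤ bb v := by
  unfold bb
  exact sum_nonneg fun k _ => by positivity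

theorem bb_sq (v : ℕ → ℂ) :
    bb v ^ 2 ≤ 895 / 100 * ∑ k ∈ range 9, ‖v k‖ ^ 2 / ((k ! : ℝ) * 2 ^ k) := by
  unfold bb
  have h := sum_sq_le_sum_mul_sum_of_sq_le_mul (range 9)
    (r := fun k => 11 / 10 / (k ! : ℝ) * ‖v k‖) (f := fun k => 121 / 100 * 2 ^ k / (k ! : ℝ))
    (g := fun k => ‖v k‖ ^ 2 / ((k ! : ℝ) * 2 ^ k)) (fun k _ => by positivity)
    (fun k _ => by positivity) (fun k _ => by
      apply le_of_eq
      field_simp
      ring)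
  refine h.trans ?_
  apply mul_le_mul_of_nonneg_right _ (sum_nonneg fun k _ => by positivity)
  simp only [sum_range_succ, sum_range_zero]
  norm_num [Nat.factorial]


/-- Expansion of `P` for a sequence vanishing from `9 + m` on (first form). -/
theorem P_expand (z q : ℂ) (x : ℕ → ℂ) (m : ℕ) (hx : ∀ k, 8 + m ≤ k → x k = 0) :
    P z q x = ‖(∑ k ∈ range 9, ell z q k * x k) + ∑ j ∈ range m, ell z q (9 + j) * x (9 + j)‖ ^ 2
      + ((∑ k ∈ range 8, ch k * ‖x (k + 1) - pk z q k * x k‖ ^ 2) +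
        ∑ j ∈ range m, ch (8 + j) * ‖x (9 + j) - pk z q (8 + j) * x (8 + j)‖ ^ 2) := by
  unfold P
  have h1 : ∑' k : ℕ, ell z q k * x k = (∑ k ∈ range 9, ell z q k * x k) +
      ∑ j ∈ range m, ell z q (9 + j) * x (9 + j) := by
    rw [← sum_range_add (fun k => ell z q k * x k) 9 m]
    apply tsum_eq_sum
    intro k hk
    rw [mem_range, not_lt] at hk
    rw [hx k (by omega), mul_zero]
  have h2 : ∑' k : ℕ, ch k * ‖x (k + 1) - pk z q k * x k‖ ^ 2 =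
      (∑ k ∈ range 8, ch k * ‖x (k + 1) - pk z q k * x k‖ ^ 2) +
        ∑ j ∈ range m, ch (8 + j) * ‖x (9 + j) - pk z q (8 + j) * x (8 + j)‖ ^ 2 := by
    have e : ∑ j ∈ range m, ch (8 + j) * ‖x (9 + j) - pk z q (8 + j) * x (8 + j)‖ ^ 2 =
        ∑ j ∈ range m, ch (8 + j) * ‖x (8 + j + 1) - pk z q (8 + j) * x (8 + j)‖ ^ 2 := by
      apply sum_congr rfl
      intro j _
      rw [show 8 + j + 1 = 9 + j by ring]
    rw [e, ← sum_range_add (fun k => ch k * ‖x (k + 1) - pk z q k * x k‖ ^ 2) 8 m]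
    apply tsum_eq_sum
    intro k hk
    rw [mem_range, not_lt] at hk
    rw [hx k (by omega), hx (k + 1) (by omega)]
    simp
  rw [h1, h2]

theorem P_cj_expand (z q : ℂ) (v : ℕ → ℂ) (m : ℕ) (hx : ∀ k, 8 + m ≤ k → v k = 0) :
    P z q (cj v) = ‖(∑ k ∈ range 9, (starRingEnd ℂ) (ell z q k) * v k) +
        ∑ j ∈ range m, (starRingEnd ℂ) (ell z q (9 + j)) * v (9 + j)‖ ^ 2
      + ((∑ k ∈ range 8, ch k * ‖v (k + 1) - (starRingEnd ℂ) (pk z q k) * v k‖ ^ 2) +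
        ∑ j ∈ range m, ch (8 + j) *
          ‖v (9 + j) - (starRingEnd ℂ) (pk z q (8 + j)) * v (8 + j)‖ ^ 2) := by
  rw [P_expand z q (cj v) m (fun k hk => by unfold cj; rw [hx k hk, map_zero])]
  have hn : ∀ a b p : ℂ, ‖(starRingEnd ℂ) a - p * (starRingEnd ℂ) b‖ =
      ‖a - (starRingEnd ℂ) p * b‖ := by
    intro a b p
    rw [← Complex.norm_conj]
    simp
  have h1 : ‖(∑ k ∈ range 9, ell z q k * cj v k) + ∑ j ∈ range m, ell z q (9 + j) * cj v (9 + j)‖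
      = ‖(∑ k ∈ range 9, (starRingEnd ℂ) (ell z q k) * v k) +
        ∑ j ∈ range m, (starRingEnd ℂ) (ell z q (9 + j)) * v (9 + j)‖ := by
    rw [← Complex.norm_conj]
    simp [cj, map_sum]
  rw [h1]
  unfold cj
  simp only [hn]

theorem P_T_expand (z q Q : ℂ) (hQ : ‖Q‖ = 1) (v : ℕ → ℂ) (m : ℕ)
    (hx : ∀ k, 8 + m ≤ k → v k = 0) :
    P z q (Drot Q (Top v)) =
      ‖(∑ k ∈ range 9, (ell z q (k + 1) * Q ^ (k + 1) - ell z q 0 / ((k + 1)! : ℂ)) * v k) +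
        ∑ j ∈ range m, (ell z q (9 + j + 1) * Q ^ (9 + j + 1) -
          ell z q 0 / ((9 + j + 1)! : ℂ)) * v (9 + j)‖ ^ 2
      + (ch 0 * ‖(Q * v 0 + pk z q 0 * ∑ k ∈ range 9, v k / ((k + 1)! : ℂ)) +
            ∑ j ∈ range m, (pk z q 0 / ((9 + j + 1)! : ℂ)) * v (9 + j)‖ ^ 2 +
        ((∑ k ∈ range 8, ch (k + 1) * ‖Q * v (k + 1) - pk z q (k + 1) * v k‖ ^ 2) +
        ∑ j ∈ range m, ch (8 + j + 1) *
          ‖Q * v (9 + j) - pk z q (8 + j + 1) * v (8 + j)‖ ^ 2)) := by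
  have hx0 : Drot Q (Top v) 0 = -∑' k : ℕ, v k / ((k + 1)! : ℂ) := by simp [Drot, Top]
  have hxs : ∀ k, Drot Q (Top v) (k + 1) = Q ^ (k + 1) * v k := fun k => by simp [Drot, Top]
  have hT : ∑' k : ℕ, v k / ((k + 1)! : ℂ) = ∑ k ∈ range (9 + m), v k / ((k + 1)! : ℂ) := by
    apply tsum_eq_sum
    intro k hk
    rw [mem_range, not_lt] at hk
    rw [hx k (by omega), zero_div]
  unfold P
  have h1 : ∑' k : ℕ, ell z q k * Drot Q (Top v) k =
      (∑ k ∈ range 9, (ell z q (k + 1) * Q ^ (k + 1) - ell z q 0 / ((k + 1)! : ℂ)) * v k) +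
        ∑ j ∈ range m, (ell z q (9 + j + 1) * Q ^ (9 + j + 1) -
          ell z q 0 / ((9 + j + 1)! : ℂ)) * v (9 + j) := by
    rw [← sum_range_add (fun k => (ell z q (k + 1) * Q ^ (k + 1) -
      ell z q 0 / ((k + 1)! : ℂ)) * v k) 9 m]
    rw [tsum_eq_sum (s := range (9 + m + 1))]
    · rw [sum_range_succ', hx0, hT, mul_neg, mul_sum, ← sub_eq_add_neg, ← sum_sub_distrib]
      apply sum_congr rfl
      intro k _
      rw [hxs]
      ring
    · intro k hk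
      rw [mem_range, not_lt] at hk
      obtain ⟨k', rfl⟩ : ∃ k', k = k' + 1 := ⟨k - 1, by omega⟩
      rw [hxs, hx k' (by omega)]
      simp
  have h2 : ∑' k : ℕ, ch k * ‖Drot Q (Top v) (k + 1) - pk z q k * Drot Q (Top v) k‖ ^ 2 =
      (ch 0 * ‖(Q * v 0 + pk z q 0 * ∑ k ∈ range 9, v k / ((k + 1)! : ℂ)) +
            ∑ j ∈ range m, (pk z q 0 / ((9 + j + 1)! : ℂ)) * v (9 + j)‖ ^ 2 +
        ((∑ k ∈ range 8, ch (k + 1) * ‖Q * v (k + 1) - pk z q (k + 1) * v k‖ ^ 2) +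
        ∑ j ∈ range m, ch (8 + j + 1) *
          ‖Q * v (9 + j) - pk z q (8 + j + 1) * v (8 + j)‖ ^ 2)) := by
    have e : ∑ j ∈ range m, ch (8 + j + 1) *
          ‖Q * v (9 + j) - pk z q (8 + j + 1) * v (8 + j)‖ ^ 2 =
        ∑ j ∈ range m, ch (8 + j + 1) *
          ‖Q * v (8 + j + 1) - pk z q (8 + j + 1) * v (8 + j)‖ ^ 2 := by
      apply sum_congr rfl
      intro j _
      rw [show 8 + j + 1 = 9 + j by ring]
    rw [e, ← sum_range_add (fun k => ch (k + 1) *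
      ‖Q * v (k + 1) - pk z q (k + 1) * v k‖ ^ 2) 8 m]
    rw [tsum_eq_sum (s := range (8 + m + 1))]
    · rw [sum_range_succ', add_comm]
      congr 1
      · congr 2
        rw [hxs, hx0, hT, sum_range_add, pow_succ, pow_zero, one_mul, mul_neg, sub_neg_eq_add,
          mul_add, add_assoc]
        congr 3
        rw [mul_sum]
        apply sum_congr rfl
        intro j _
        ring
      · apply sum_congr rfl
        intro k _
        rw [hxs, hxs]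
        have : Q ^ (k + 1 + 1) * v (k + 1) - pk z q (k + 1) * (Q ^ (k + 1) * v k) =
            Q ^ (k + 1) * (Q * v (k + 1) - pk z q (k + 1) * v k) := by ring
        rw [this, norm_mul, norm_pow, hQ, one_pow, one_mul]
    · intro k hk
      rw [mem_range, not_lt] at hk
      obtain ⟨k', rfl⟩ : ∃ k', k = k' + 1 := ⟨k - 1, by omega⟩
      rw [hxs, hxs, hx k' (by omega), hx (k' + 1) (by omega)]
      simp
  rw [h1, h2]


theorem norm_pk (z q : ℂ) (hq : ‖q‖ = 1) (k : ℕ) : ‖pk z q k‖ = ‖z‖ := by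
  unfold pk
  rw [norm_mul, norm_pow, hq, one_pow, one_mul]

/-- Bound of a main functional. -/
theorem main_bound (a v : ℕ → ℂ) (ha : ∀ k, ‖a k‖ ≤ 11 / 10 / (k ! : ℝ)) :
    ‖∑ k ∈ range 9, a k * v k‖ ≤ bb v := by
  unfold bb
  refine (norm_sum_le _ _).trans (sum_le_sum fun k _ => ?_)
  rw [norm_mul]
  exact mul_le_mul_of_nonneg_right (ha k) (norm_nonneg _)

theorem fact_succ (k : ℕ) : ((k + 1)! : ℝ) = ((k : ℝ) + 1) * (k ! : ℝ) := by
  rw [Nat.factorial_succ]; push_cast; ring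

theorem ell_le (z q : ℂ) (h : Enc z q) (k : ℕ) : ‖ell z q k‖ ≤ 11 / 10 / (k ! : ℝ) := by
  rcases Nat.eq_zero_or_pos k with rfl | hk
  · refine h.ell_zero.trans ?_
    norm_num [Nat.factorial]
  · refine (h.ell_bd k hk).trans ?_
    rw [fact_succ]
    have hf : (0 : ℝ) < (k ! : ℝ) := by positivity
    have hk' : (0 : ℝ) ≤ k := Nat.cast_nonneg k
    rw [div_le_div_iff₀ (by positivity) hf]
    nlinarith [mul_nonneg hk' hf.le]

theorem coef3_le (z q Q : ℂ) (h : Enc z q) (hQ : ‖Q‖ = 1) (k : ℕ) :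
    ‖ell z q (k + 1) * Q ^ (k + 1) - ell z q 0 / ((k + 1)! : ℂ)‖ ≤
      (66 / 100 / ((k : ℝ) + 2) + 77 / 100) / ((k + 1)! : ℝ) := by
  refine (norm_sub_le _ _).trans ?_
  rw [norm_mul, norm_pow, hQ, one_pow, mul_one, norm_div, Complex.norm_natCast]
  have h1 := h.ell_bd (k + 1) (by omega)
  have h2 := h.ell_zero
  have hf : (0 : ℝ) < ((k + 1)! : ℝ) := by positivity
  have hk' : (0 : ℝ) ≤ k := Nat.cast_nonneg k
  have h3 : ‖ell z q 0‖ / ((k + 1)! : ℝ) ≤ 77 / 100 / ((k + 1)! : ℝ) :=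
    div_le_div_of_nonneg_right h2 hf.le
  have h4 : (66 / 100 / ((k + 1 + 1)! : ℝ) : ℝ) = 66 / 100 / ((k : ℝ) + 2) / ((k + 1)! : ℝ) := by
    rw [fact_succ (k + 1)]
    push_cast
    rw [show (k : ℝ) + 1 + 1 = k + 2 by ring]
    exact (div_div _ _ _).symm
  rw [h4] at h1
  calc ‖ell z q (k + 1)‖ + ‖ell z q 0‖ / ((k + 1)! : ℝ)
      ≤ 66 / 100 / ((k : ℝ) + 2) / ((k + 1)! : ℝ) + 77 / 100 / ((k + 1)! : ℝ) := add_le_add h1 h3
    _ = _ := by ring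

theorem coef3_main (z q Q : ℂ) (h : Enc z q) (hQ : ‖Q‖ = 1) (k : ℕ) :
    ‖ell z q (k + 1) * Q ^ (k + 1) - ell z q 0 / ((k + 1)! : ℂ)‖ ≤ 11 / 10 / (k ! : ℝ) := by
  refine (coef3_le z q Q h hQ k).trans ?_
  have hf : (0 : ℝ) < (k ! : ℝ) := by positivity
  have hk' : (0 : ℝ) ≤ k := Nat.cast_nonneg k
  have h1 : 66 / 100 / ((k : ℝ) + 2) ≤ 33 / 100 := by
    rw [div_le_iff₀ (by positivity)]
    nlinarith
  rw [fact_succ]
  apply div_le_div₀ (by norm_num) (by linarith) hf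
  nlinarith [mul_nonneg hk' hf.le]

theorem coef3_tail (z q Q : ℂ) (h : Enc z q) (hQ : ‖Q‖ = 1) (j : ℕ) :
    ‖ell z q (9 + j + 1) * Q ^ (9 + j + 1) - ell z q 0 / ((9 + j + 1)! : ℂ)‖ ≤
      83 / 100 / ((10 + j)! : ℝ) := by
  refine (coef3_le z q Q h hQ (9 + j)).trans ?_
  have hj : (0 : ℝ) ≤ j := Nat.cast_nonneg j
  have h1 : 66 / 100 / (((9 + j : ℕ) : ℝ) + 2) ≤ 6 / 100 := by
    push_cast
    rw [div_le_iff₀ (by positivity)]
    nlinarith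
  rw [show 9 + j + 1 = 10 + j by ring]
  have hf : (0 : ℝ) < ((10 + j)! : ℝ) := by positivity
  exact div_le_div_of_nonneg_right (by linarith) hf.le

theorem S4_bound (z q Q : ℂ) (hq : ‖q‖ = 1) (hz : ‖z‖ ≤ 1) (hQ : ‖Q‖ = 1) (v : ℕ → ℂ) :
    ‖Q * v 0 + pk z q 0 * ∑ k ∈ range 9, v k / ((k + 1)! : ℂ)‖ ≤ 2 * bb v := by
  refine (norm_add_le _ _).trans ?_
  have h1 : ‖Q * v 0‖ ≤ bb v := by
    rw [norm_mul, hQ, one_mul]
    have h := single_le_sum (f := fun k => 11 / 10 / (k ! : ℝ) * ‖v k‖)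
      (fun k _ => by positivity) (show 0 ∈ range 9 by simp)
    simp only [Nat.factorial_zero, Nat.cast_one] at h
    have := norm_nonneg (v 0)
    unfold bb
    linarith
  have h2 : ‖pk z q 0 * ∑ k ∈ range 9, v k / ((k + 1)! : ℂ)‖ ≤ bb v := by
    rw [mul_sum]
    have e : ∀ k ∈ range 9, pk z q 0 * (v k / ((k + 1)! : ℂ)) =
        (pk z q 0 / ((k + 1)! : ℂ)) * v k := fun k _ => by ring
    rw [sum_congr rfl e]
    apply main_bound
    intro k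
    rw [norm_div, norm_pk z q hq, Complex.norm_natCast, fact_succ]
    have hf : (0 : ℝ) < (k ! : ℝ) := by positivity
    have hk' : (0 : ℝ) ≤ k := Nat.cast_nonneg k
    apply div_le_div₀ (by norm_num) (by linarith) hf
    nlinarith [mul_nonneg hk' hf.le]
  linarith

end

end Pool.Agent.Whit.FT

namespace Pool.Agent.Whit

open scoped Nat
open Finset FT

theorem tFarTail : TFarTail := by
  intro z q ho _ he Q hQ w w0 w1 v hv
  obtain ⟨m, hm⟩ := hv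
  have hx : ∀ k, 8 + m ≤ k → v k = 0 := fun k hk => hm k (by omega)
  have hq := ho.norm_q
  set om := ‖z‖ with hom
  have hz := he.norm_z
  rw [abs_le] at hz
  have hz1 : om ≤ 7378 / 10 ^ 4 := by
    have := hz.2
    linarith
  have hz2 : 7377 / 10 ^ 4 ≤ om := by
    have := hz.1
    linarith
  have hom0 : 0 < om := by linarith
  set r := (om ^ 2)⁻¹ with hr
  have hor : om ^ 2 * r = 1 := mul_inv_cancel₀ (by positivity)
  have hr1 : 1837 / 1000 ≤ r := by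
    rw [hr, le_inv_comm₀ (by norm_num) (by positivity)]
    nlinarith
  have hr2 : r ≤ 184 / 100 := by
    rw [hr, inv_le_comm₀ (by positivity) (by norm_num)]
    nlinarith
  rw [P_expand z q v m hx, P_cj_expand z q v m hx, P_T_expand z q Q hQ v m hx]
  unfold FarMain
  rw [← hom, ← hr]
  -- names
  set S1 := ∑ k ∈ range 9, ell z q k * v k with hS1
  set S2 := ∑ k ∈ range 9, (starRingEnd ℂ) (ell z q k) * v k with hS2
  set S3 := ∑ k ∈ range 9, (ell z q (k + 1) * Q ^ (k + 1) - ell z q 0 / ((k + 1)! : ℂ)) * v k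
    with hS3
  set S4 := Q * v 0 + pk z q 0 * ∑ k ∈ range 9, v k / ((k + 1)! : ℂ) with hS4
  set τ1 := ∑ j ∈ range m, ell z q (9 + j) * v (9 + j) with hτ1
  set τ2 := ∑ j ∈ range m, (starRingEnd ℂ) (ell z q (9 + j)) * v (9 + j) with hτ2
  set τ3 := ∑ j ∈ range m, (ell z q (9 + j + 1) * Q ^ (9 + j + 1) -
          ell z q 0 / ((9 + j + 1)! : ℂ)) * v (9 + j) with hτ3
  set τ4 := ∑ j ∈ range m, (pk z q 0 / ((9 + j + 1)! : ℂ)) * v (9 + j) with hτ4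
  set D1 := ∑ k ∈ range 8, ch k * ‖v (k + 1) - pk z q k * v k‖ ^ 2 with hD1
  set D2 := ∑ k ∈ range 8, ch k * ‖v (k + 1) - (starRingEnd ℂ) (pk z q k) * v k‖ ^ 2 with hD2
  set D3 := ∑ k ∈ range 8, ch (k + 1) * ‖Q * v (k + 1) - pk z q (k + 1) * v k‖ ^ 2 with hD3
  set F1 := ∑ j ∈ range m, ch (8 + j) * ‖v (9 + j) - pk z q (8 + j) * v (8 + j)‖ ^ 2 with hF1
  set F2 := ∑ j ∈ range m, ch (8 + j) *
          ‖v (9 + j) - (starRingEnd ℂ) (pk z q (8 + j)) * v (8 + j)‖ ^ 2 with hF2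
  set F3 := ∑ j ∈ range m, ch (8 + j + 1) *
          ‖Q * v (9 + j) - pk z q (8 + j + 1) * v (8 + j)‖ ^ 2 with hF3
  set T := Real.sqrt (∑ j ∈ range m, ch (8 + j) * ‖v (9 + j)‖ ^ 2) with hT
  have hTs : T ^ 2 = ∑ j ∈ range m, ch (8 + j) * ‖v (9 + j)‖ ^ 2 :=
    Real.sq_sqrt (sum_nonneg fun j _ => mul_nonneg (ch_pos _).le (by positivity))
  have hT0 : 0 ≤ T := Real.sqrt_nonneg _
  set b := bb v with hb
  have hb0 : 0 ≤ b := bb_nonneg v
  -- main functionals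
  have m1 : ‖S1‖ ≤ b := main_bound _ v (ell_le z q he)
  have m2 : ‖S2‖ ≤ b := main_bound _ v (fun k => by rw [Complex.norm_conj]; exact ell_le z q he k)
  have m3 : ‖S3‖ ≤ b := main_bound _ v (coef3_main z q Q he hQ)
  have m4 : ‖S4‖ ≤ 2 * b := S4_bound z q Q hq (by linarith) hQ v
  -- tails
  have t1 : ‖τ1‖ ≤ 66 / 100 * (1331 / 10 ^ 7) * T := by
    apply tail_bound m (fun j => ell z q (9 + j)) v _ (by norm_num)
    intro j
    have := he.ell_bd (9 + j) (by omega)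
    rwa [show 9 + j + 1 = 10 + j by ring] at this
  have t2 : ‖τ2‖ ≤ 66 / 100 * (1331 / 10 ^ 7) * T := by
    apply tail_bound m (fun j => (starRingEnd ℂ) (ell z q (9 + j))) v _ (by norm_num)
    intro j
    rw [Complex.norm_conj]
    have := he.ell_bd (9 + j) (by omega)
    rwa [show 9 + j + 1 = 10 + j by ring] at this
  have t3 : ‖τ3‖ ≤ 83 / 100 * (1331 / 10 ^ 7) * T := by
    apply tail_bound m (fun j => ell z q (9 + j + 1) * Q ^ (9 + j + 1) -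
          ell z q 0 / ((9 + j + 1)! : ℂ)) v _ (by norm_num)
    exact coef3_tail z q Q he hQ
  have t4 : ‖τ4‖ ≤ 738 / 1000 * (1331 / 10 ^ 7) * T := by
    apply tail_bound m (fun j => pk z q 0 / ((9 + j + 1)! : ℂ)) v _ (by norm_num)
    intro j
    rw [norm_div, norm_pk z q hq, Complex.norm_natCast, show 9 + j + 1 = 10 + j by ring]
    have hf : (0 : ℝ) < ((10 + j)! : ℝ) := by positivity
    exact div_le_div_of_nonneg_right (by linarith) hf.le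
  -- difference tails
  have dd : ch (8 + m) * ‖v (8 + m)‖ ^ 2 / 3 - ch 8 * ‖v 8‖ ^ 2 / 3 + T ^ 2 / 5 ≤
      r * (w * F1 + (1 - w) * F2) - F3 := by
    rw [hTs, ← tele m (fun k => ‖v k‖), hF1, hF2, hF3, mul_sum, mul_sum, ← sum_add_distrib,
      mul_sum, ← sum_sub_distrib]
    apply sum_le_sum
    intro j _
    have hc := ch_pos (8 + j)
    rw [ch_succ (8 + j) (by omega)]
    have h := diff_tail om r w hom0 hor hr1 w0 w1 (v (9 + j)) (v (8 + j)) (pk z q (8 + j))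
      (pk z q (8 + j + 1)) Q (norm_pk z q hq _) (norm_pk z q hq _) hQ
    have h' := mul_le_mul_of_nonneg_left h hc.le
    linarith
  have d0 : 0 ≤ ch (8 + m) * ‖v (8 + m)‖ ^ 2 / 3 := by
    have := ch_pos (8 + m)
    positivity
  -- errors
  have hE : ∑ k ∈ range 9, Efar k * ‖v k‖ ^ 2 =
      5 / 10 ^ 6 * (∑ k ∈ range 9, ‖v k‖ ^ 2 / ((k ! : ℝ) * 2 ^ k)) + ch 8 * ‖v 8‖ ^ 2 / 3 := by
    simp only [Efar, add_mul, sum_add_distrib, ite_mul, zero_mul, mul_sum]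
    congr 1
    · apply sum_congr rfl
      intro k _
      ring
    · simp
      ring
  have hbs := bb_sq v
  rw [← hb] at hbs
  rw [hE]
  -- squares
  have g1 := norm_add_sq_ge S1 τ1
  have g2 := norm_add_sq_ge S2 τ2
  have g3 := norm_add_sq_le S3 τ3
  have g4 := norm_add_sq_le S4 τ4
  have k1 : ‖S1‖ * ‖τ1‖ ≤ b * (66 / 100 * (1331 / 10 ^ 7) * T) :=
    mul_le_mul m1 t1 (norm_nonneg _) hb0
  have k2 : ‖S2‖ * ‖τ2‖ ≤ b * (66 / 100 * (1331 / 10 ^ 7) * T) :=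
    mul_le_mul m2 t2 (norm_nonneg _) hb0
  have k3 : ‖S3‖ * ‖τ3‖ ≤ b * (83 / 100 * (1331 / 10 ^ 7) * T) :=
    mul_le_mul m3 t3 (norm_nonneg _) hb0
  have k4 : ‖S4‖ * ‖τ4‖ ≤ (2 * b) * (738 / 1000 * (1331 / 10 ^ 7) * T) :=
    mul_le_mul m4 t4 (norm_nonneg _) (by positivity)
  have k5 : ‖τ3‖ ^ 2 ≤ (83 / 100 * (1331 / 10 ^ 7) * T) ^ 2 :=
    pow_le_pow_left₀ (norm_nonneg _) t3 2
  have k6 : ‖τ4‖ ^ 2 ≤ (738 / 1000 * (1331 / 10 ^ 7) * T) ^ 2 :=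
    pow_le_pow_left₀ (norm_nonneg _) t4 2
  rw [ch_zero]
  have hbT : 0 ≤ b * T := mul_nonneg hb0 hT0
  have G1 : ‖S1‖ ^ 2 - 2 * (b * (66 / 100 * (1331 / 10 ^ 7) * T)) ≤ ‖S1 + τ1‖ ^ 2 := by
    linarith
  have G2 : ‖S2‖ ^ 2 - 2 * (b * (66 / 100 * (1331 / 10 ^ 7) * T)) ≤ ‖S2 + τ2‖ ^ 2 := by
    linarith
  have G12 : w * ‖S1‖ ^ 2 + (1 - w) * ‖S2‖ ^ 2 - 2 * (b * (66 / 100 * (1331 / 10 ^ 7) * T)) ≤
      w * ‖S1 + τ1‖ ^ 2 + (1 - w) * ‖S2 + τ2‖ ^ 2 := by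
    have := mul_le_mul_of_nonneg_left G1 w0
    have := mul_le_mul_of_nonneg_left G2 (sub_nonneg.2 w1)
    linarith
  have hr0 : 0 ≤ r := by linarith
  have G12' := mul_le_mul_of_nonneg_left G12 hr0
  have G5 : r * (2 * (b * (66 / 100 * (1331 / 10 ^ 7) * T))) ≤
      184 / 100 * (2 * (b * (66 / 100 * (1331 / 10 ^ 7) * T))) := by
    apply mul_le_mul_of_nonneg_right hr2
    positivity
  have fin : 0 ≤ T ^ 2 / 5 - 184 / 100 * (2 * (b * (66 / 100 * (1331 / 10 ^ 7) * T)))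
      - (2 * (b * (83 / 100 * (1331 / 10 ^ 7) * T)) + (83 / 100 * (1331 / 10 ^ 7) * T) ^ 2)
      - 135 / 1000 * (2 * ((2 * b) * (738 / 1000 * (1331 / 10 ^ 7) * T))
        + (738 / 1000 * (1331 / 10 ^ 7) * T) ^ 2) + 5 / 10 ^ 6 * (b ^ 2 / (895 / 100)) := by
    nlinarith [sq_nonneg (T - 15 / 10 ^ 4 * b), sq_nonneg T, sq_nonneg b]
  have hfin2 : b ^ 2 / (895 / 100) ≤ ∑ k ∈ range 9, ‖v k‖ ^ 2 / ((k ! : ℝ) * 2 ^ k) := by
    rw [div_le_iff₀ (by norm_num)]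
    linarith
  linarith

end Pool.Agent.Whit
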