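import Pool.Agent.Whit.Defs

/-!
# The Whittaker constant: numerical data and target statements
-/

namespace Pool.Agent.Whit

open scoped Nat

/-! ### Data (numerators over `10^15`) -/

/-- Numerators of `ell z q k`, `k = 0..9`, over `10^15`. -/
def ellD : List (ℤ × ℤ) :=
  [(763477240017374, 24253614714385),
   (270384621582223, 103415297433863),
   (85757175056592, -4581639290994),
   (25979193315386, 4831682744177),
   (4099041630312, 934139466379),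
   (819593153347, 39879717206),
   (113490955529, 25164887947),
   (12777060772, 1389758542),
   (1647457388, 209150716),
   (148173269, 31071900)]

/-- Numerators of `pk z q k`, `k = 0..9`, over `10^15`. -/
def pkD : List (ℤ × ℤ) :=
  [(593752419916185, -437874689841018),
   (-137165651151758, 724887414916143),
   (-392719062344045, -624538163951018),
   (712744384039175, 190451104434475),
   (-651896666236241, 345408333295202),
   (242691430270940, -696690067270045),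
   (296202127029973, 675677793110454),
   (-676812564948922, -293599952464157),
   (695751042267184, -245370469583895),
   (-342897303278508, 653220957688913)]

/-- Numerators of `Pit z q k`, `k = 0..9`, over `10^15`. -/
def PitD : List (ℤ × ℤ) :=
  [(1000000000000000, 0),
   (266947476703170, -83127481904871),
   (31121911708411, 52686519461739),
   (9087680648637, -10505480575983),
   (1384542368966, -861000272833),
   (-80891725783, 220395323182),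
   (16073032634, 18540101158),
   (-655254838, 1891113071),
   (131544812, -138186685),
   (6176123, -11247659)]

/-- Numerators of `Ak z q n`, `n = 0..11`, over `10^15`. -/
def AkD : List (ℤ × ℤ) :=
  [(236522759982626, -24253614714385),
   (30698295321390, 32737884491004),
   (8215262609855, -8241892829517),
   (1022229391795, -441606619409),
   (-55719563636, 182167335375),
   (11384811158, 15862439070),
   (-436918966, 1317664668),
   (109219517, -110264822),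
   (5436521, -7952871),
   (448396, 484667),
   (30533, -33251),
   (2012, -607)]

/-- Numerators of `AAk z q n`, `n = 0..11`, over `10^15`. -/
def AAkD : List (ℤ × ℤ) :=
  [(39891130788463, 24253614714385),
   (9192835467073, -8484269776619),
   (977572857218, -242376947101),
   (-44656534577, 199229672307),
   (11063029059, 17062336933),
   (-321782099, 1199897863),
   (115136867, -117766805),
   (5917350, -7501983),
   (480829, 450888),
   (32433, -33779),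
   (1900, -527),
   (-112, 79)]


noncomputable section

/-- Decimal approximations `(a + b i) / 10^15`. -/
def dec (x : ℤ × ℤ) : ℂ := ⟨(x.1 : ℝ) / 10 ^ 15, (x.2 : ℝ) / 10 ^ 15⟩

/-- The `k`-th entry of a table. -/
def tab (l : List (ℤ × ℤ)) (k : ℕ) : ℂ := dec (l.getD k (0, 0))

/-! ### Targets -/

/-- S1: elementary identities and bounds for the series. -/
structure Basics (z q : ℂ) : Prop where
  z_ne : z ≠ 0
  q_ne : q ≠ 0
  norm_pik : ∀ k, ‖pik z q k‖ = ‖z‖ ^ (k + 1) / ((k + 1)! : ℝ)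
  summable_pik : Summable fun k => ‖pik z q k‖
  tsum_pik : ∑' k, pik z q k = 1
  Pit_zero : Pit z q 0 = 1
  Pit_succ : ∀ k, Pit z q k = pik z q k + Pit z q (k + 1)
  norm_Pit : ∀ k, ‖Pit z q k‖ ≤ 2 * ‖z‖ ^ (k + 1) / ((k + 1)! : ℝ)
  mu_eq : mu z q = ∑' k : ℕ, ((k : ℂ) + 1) * pik z q k
  mu_ne : mu z q ≠ 0
  norm_ak : ∀ k, ‖ak z q k‖ ≤ 2 * ‖z‖ ^ (k + 1) / ((k + 1)! : ℝ)
  tsum_ak : ∑' k, ak z q k = 1
  ak_zero : ak z q 0 = (mu z q)⁻¹
  ak_succ : ∀ k, ak z q k = ak z q 0 * pik z q k + ak z q (k + 1)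
  norm_Ak : ∀ n, ‖Ak z q n‖ ≤ 4 * ‖z‖ ^ (n + 2) / ((n + 2)! : ℝ)
  Ak_succ : ∀ n, Ak z q n = ak z q (n + 1) + Ak z q (n + 1)
  Ak_zero : Ak z q 0 = 1 - ak z q 0
  norm_AAk : ∀ n, ‖AAk z q n‖ ≤ 8 * ‖z‖ ^ (n + 3) / ((n + 3)! : ℝ)
  AAk_succ : ∀ n, AAk z q n = Ak z q (n + 1) + AAk z q (n + 1)
  m1_eq : m1 z q = ∑' n, Ak z q n
  m1_eq' : m1 z q = Ak z q 0 + AAk z q 0

/-- S1. -/
def TBasics : Prop := ∀ z q : ℂ, Opt z q → Basics z q

/-- S2: numerical enclosures. -/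
structure Enc (z q : ℂ) : Prop where
  norm_z : |‖z‖ - 737750757478224 / 10 ^ 15| ≤ 1 / 10 ^ 11
  ell_bd : ∀ k, 1 ≤ k → ‖ell z q k‖ ≤ 66 / 100 / ((k + 1)! : ℝ)
  ell_zero : ‖ell z q 0‖ ≤ 77 / 100
  ell_zero' : 3 / 4 ≤ ‖ell z q 0‖
  enc_ell : ∀ k < 10, ‖ell z q k - tab ellD k‖ ≤ 1 / 10 ^ 10
  enc_pk : ∀ k < 10, ‖pk z q k - tab pkD k‖ ≤ 1 / 10 ^ 10
  enc_Pit : ∀ k < 10, ‖Pit z q k - tab PitD k‖ ≤ 1 / 10 ^ 10
  enc_Ak : ∀ n < 12, ‖Ak z q n - tab AkD n‖ ≤ 1 / 10 ^ 10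
  enc_AAk : ∀ n < 12, ‖AAk z q n - tab AAkD n‖ ≤ 1 / 10 ^ 10
  enc_m1 : |(m1 z q).re - 276413890771089 / 10 ^ 15| ≤ 1 / 10 ^ 10
  norm_Pit : ∀ k, 1 ≤ k → ‖Pit z q k‖ ≤ 4 / 3 * (‖z‖ ^ (k + 1) / ((k + 1)! : ℝ))
  norm_ak : ∀ k, 1 ≤ k → ‖ak z q k‖ ≤ 21 / 20 * (‖z‖ ^ (k + 1) / ((k + 1)! : ℝ))
  norm_Ak : ∀ n, ‖Ak z q n‖ ≤ 3 / 2 * (‖z‖ ^ (n + 2) / ((n + 2)! : ℝ))
  norm_AAk : ∀ n, ‖AAk z q n‖ ≤ 2 * (‖z‖ ^ (n + 3) / ((n + 3)! : ℝ))

/-- S2. -/
def TEnc : Prop := ∀ z q : ℂ, Opt z q → Basics z q → Enc z q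

/-- B1: existence of the optimal pair. -/
def TOpt : Prop := ∃ z q : ℂ, Opt z q

/-- The key inequality: `P(D_Q T v) ≤ |z|^{-2} max (P v, P (conj v))`. -/
def Key (z q : ℂ) : Prop :=
  ∀ Q : ℂ, ‖Q‖ = 1 → ∀ v : ℕ → ℂ, FS v → P z q (Drot Q (Top v)) ≤ (‖z‖ ^ 2)⁻¹ * Mx z q v

/-- FT: far tail estimate. -/
def TFarTail : Prop := ∀ z q : ℂ, Opt z q → Basics z q → Enc z q →
  ∀ Q : ℂ, ‖Q‖ = 1 → ∀ w : ℝ, 0 ≤ w → w ≤ 1 → ∀ v : ℕ → ℂ, FS v →
    FarMain z q Q w v - ∑ k ∈ Finset.range 9, Efar k * ‖v k‖ ^ 2 ≤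
      (‖z‖ ^ 2)⁻¹ * (w * P z q v + (1 - w) * P z q (cj v)) - P z q (Drot Q (Top v))

/-- FM: positivity of the main part in the far zone. -/
def TFarMain : Prop := ∀ z q : ℂ, Opt z q → Basics z q → Enc z q →
  ∀ θ : ℝ, 46 / 16 ≤ θ → θ ≤ 131 / 16 → ∃ w : ℝ, 0 ≤ w ∧ w ≤ 1 ∧ ∀ v : ℕ → ℂ,
    ∑ k ∈ Finset.range 9, Efar k * ‖v k‖ ^ 2 ≤ FarMain z q (Complex.exp (θ * Complex.I)) w v

/-- NI: the near identity (`v_k = V_k x_k`, `Q = q u`). -/
def TNearId : Prop := ∀ z q : ℂ, Opt z q → Basics z q →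
  ∀ u : ℂ, ‖u‖ = 1 → ∀ x : ℕ → ℂ, FS x →
    P z q (fun k => Vk z q k * x k) - ‖z‖ ^ 2 * P z q (Drot (q * u) (Top fun k => Vk z q k * x k)) =
      NearFull z q u ((u - 1) * x 0) (fun k => x (k + 1) - x k)

/-- NT: near tail estimate. -/
def TNearTail : Prop := ∀ z q : ℂ, Opt z q → Basics z q → Enc z q →
  ∀ u : ℂ, ‖u‖ = 1 → ‖u - 1‖ ≤ 1 / 2 → ∀ (X : ℂ) (d : ℕ → ℂ), FS d →
    NearMain z q u X d - EnX * ‖X‖ ^ 2 - ∑ j ∈ Finset.range 8, EnD j * ‖d j‖ ^ 2 ≤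
      NearFull z q u X d

/-- NM: positivity of the main part in the near zone. -/
def TNearMain : Prop := ∀ z q : ℂ, Opt z q → Basics z q → Enc z q →
  ∀ s : ℝ, |s| ≤ 1 / 2 → ∀ (X : ℂ) (d : ℕ → ℂ),
    EnX * ‖X‖ ^ 2 + ∑ j ∈ Finset.range 8, EnD j * ‖d j‖ ^ 2 ≤
      NearMain z q (Complex.exp (s * Complex.I)) X d

/-- CC: the two zones cover the circle. -/
def TCover : Prop := ∀ z q : ℂ, Opt z q → ∀ Q : ℂ, ‖Q‖ = 1 →
  (∃ θ : ℝ, 46 / 16 ≤ θ ∧ θ ≤ 131 / 16 ∧ Q = Complex.exp (θ * Complex.I)) ∨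
  (∃ s : ℝ, |s| ≤ 1 / 2 ∧ Q = q * Complex.exp (s * Complex.I))

/-- K: assembly of the key inequality. -/
def TKey : Prop := TFarTail → TFarMain → TNearId → TNearTail → TNearMain → TCover →
  ∀ z q : ℂ, Opt z q → Basics z q → Enc z q → Key z q

/-- Bound for the Gontcharoff polynomials. -/
def GBound (z : ℂ) : Prop :=
  ∃ C : ℝ, 0 < C ∧ ∀ zs : List ℂ, (∀ w ∈ zs, ‖w‖ ≤ 1) → ‖Gl zs‖ ≤ C * (‖z‖⁻¹) ^ zs.length

/-- A1: the key inequality bounds the Gontcharoff polynomials on the closed polydisk. -/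
def TGBound : Prop := ∀ z q : ℂ, Opt z q → Basics z q → Enc z q → Key z q → GBound z

/-- A2: from the bound to the Whittaker property. -/
def TWhit : Prop := ∀ z : ℂ, 0 < ‖z‖ → ‖z‖ < 1 → GBound z → HasProperty ‖z‖

/-- A3: zeros of `phi` for `|q'| ≤ 1`. -/
def TZeros : Prop := ∀ z : ℂ, 0 < ‖z‖ → GBound z →
  ∀ z' q' : ℂ, ‖q'‖ ≤ 1 → phi z' q' = 0 → ‖z‖ ≤ ‖z'‖

/-- A4: the extremal function. -/
def TUpper : Prop := ∀ z q : ℂ, ‖q‖ = 1 → phi z q = 0 →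
  Admissible (fun t => phi (z * t) q) ∧ expType (fun t => phi (z * t) q) ≤ (‖z‖ : EReal) ∧
    phi (z * 0) q = 1

/-- Final statement. -/
def TFinal : Prop :=
  IsGreatest {W : ℝ | HasProperty W} omega ∧
    0.7377507574 < omega ∧ omega < 0.7377507575

end

end Pool.Agent.Whit
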