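import Pool.Agent.Whit.Trig
import Pool.Agent.Whit.Spec

/-!
# Integer matrices of the far zone
-/

namespace Pool.Agent.Whit.Eng

/-- Pair to Gaussian integer. -/
def ofP (x : ℤ × ℤ) : GI := ⟨x.1, x.2⟩

/-- `10^10 ell k`. -/
def ellG (k : ℕ) : GI := GI.rnd 100000 (ofP (ellD.getD k (0, 0)))

/-- `10^10 p_k`. -/
def pG (k : ℕ) : GI := GI.rnd 100000 (ofP (pkD.getD k (0, 0)))

/-- `10^8 ell k`. -/
def ell8 (k : ℕ) : GI := GI.rnd 10000000 (ofP (ellD.getD k (0, 0)))

/-- `10^8 p_k`. -/
def p8 (k : ℕ) : GI := GI.rnd 10000000 (ofP (pkD.getD k (0, 0)))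

/-- `10^10`. -/
def oneG : GI := ⟨10000000000, 0⟩

/-- Row of the functional of `D_Q T v`. -/
def rowF : List TP :=
  (List.range 9).map fun k =>
    [(k + 1, ellG (k + 1)), (0, GI.neg (GI.rnd (k + 1).factorial (ellG 0)))]

/-- Row of the zeroth difference of `D_Q T v`. -/
def rowGG : List TP :=
  (List.range 9).map fun k =>
    if k = 0 then [(1, oneG), (0, GI.rnd (k + 1).factorial (pG 0))]
    else [(0, GI.rnd (k + 1).factorial (pG 0))]

/-- Row of the `k+1`-st difference of `D_Q T v`. -/
def rowH (k : ℕ) : List TP :=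
  (List.range 9).map fun i =>
    if i = k + 1 then [(1, oneG)] else if i = k then [(0, GI.neg (pG (k + 1)))] else []

/-- Row `ell`. -/
def rowL : List GI := (List.range 9).map ell8

/-- Row of `v_{k+1} - p_k v_k`. -/
def rowP (k : ℕ) : List GI :=
  (List.range 9).map fun i =>
    if i = k + 1 then ⟨100000000, 0⟩ else if i = k then GI.neg (p8 k) else ⟨0, 0⟩

/-- Conjugate row. -/
def conjV : List GI → List GI
  | [] => []
  | a :: l => GI.conj a :: conjV l

/-- Sum over `k < 8`. -/
def sumM (f : ℕ → List (List GI)) : ℕ → List (List GI)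
  | 0 => []
  | n + 1 => addM (f n) (sumM f n)

/-- Coefficients of the positive differences. -/
def aC : List ℤ := [2480333603, 694493409, 194458154, 54448283, 15245519, 4268745, 1195248, 334669]

/-- Coefficients of the negative differences. -/
def bC : List ℤ :=
  [1350000000, 378000000, 105840000, 29635200, 8297856, 2323400, 650552, 182155, 51004]

/-- `P`-part. -/
def MA (cj : Bool) : List (List GI) :=
  addM (scaleM (256000 * 18372841509) (sqM (if cj then conjV rowL else rowL)))
    (sumM (fun k => scaleM (256000 * aC.getD k 0)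
      (sqM (if cj then conjV (rowP k) else rowP k))) 8)

/-- Base weights. -/
def baseF : List ℤ :=
  [2068480000000000000000000000, 1034240000000000000000000000, 261120000000000000000000000,
   45226666666666666666666667, 6613333333333333333333334, 1173333333333333333333334,
   364444444444444444444445, 163174603174603174603175, 696444841745613612698412699]

/-- Negative part at the grid point `j`. -/
def farN (j : ℤ) : List (List GI) :=
  addM (scaleM (16016 * 10000000000) (negM rowF j))
    (addM (scaleM (16016 * bC.getD 0 0) (negM rowGG j))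
      (addM (sumM (fun k => scaleM (16016 * bC.getD (k + 1) 0) (negM (rowH k) j)) 8)
        (diagM baseF)))

/-- The matrix at the grid point `j` with weight `iw/16`. -/
def farM (iw j : ℤ) : List (List GI) :=
  addM (addM (scaleM iw (MA false)) (scaleM (16 - iw) (MA true))) (scaleM (-1) (farN j))

/-- Weights (in sixteenths) of the cells `[j/16,(j+1)/16]`, `j = 46..130`. -/
def wF : List ℤ :=
  [13, 12, 11, 10, 8, 7, 6, 4, 4, 3, 3, 2, 2, 1, 1, 1, 1, 1, 1, 1, 1, 1, 1, 1, 1, 2, 2, 3, 4, 5,
   5, 6, 7, 8, 8, 8, 8, 8, 8, 8, 8, 8, 8, 8, 8, 8, 8, 8, 8, 8, 8, 8, 8, 8, 8, 8, 8, 8, 8, 8, 8, 8,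
   8, 8, 8, 8, 8, 8, 8, 8, 8, 8, 8, 8, 8, 9, 10, 10, 11, 12, 13, 14, 14, 15, 15]

/-- Check of the cell number `i`. -/
def farCell (i : ℕ) : Bool :=
  psd 9 (farM (wF.getD i 0) (46 + i)) && psd 9 (farM (wF.getD i 0) (47 + i))

set_option maxRecDepth 10000

end Pool.Agent.Whit.Eng
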