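import Pool.Agent.Whit.RowS
import Pool.Agent.Whit.FarData

/-!
# The far zone: from the integer matrices to `FarMain`
-/

namespace Pool.Agent.Whit.Eng

open Complex

noncomputable section

theorem getD_map_range {α : Type} (f : ℕ → α) (n : ℕ) (d : α) (k : ℕ) (hk : k < n) :
    ((List.range n).map f).getD k d = f k := by
  simp [List.getD, hk]

theorem dec_eq (x : ℤ × ℤ) : dec x = (ofP x).toC / 10 ^ 15 := by
  have : (10 : ℂ) ^ 15 = ((10 ^ 15 : ℝ) : ℂ) := by push_cast; ring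
  rw [this]
  apply Complex.ext
  · rw [Complex.div_ofReal_re]; simp [dec, ofP, GI.toC]
  · rw [Complex.div_ofReal_im]; simp [dec, ofP, GI.toC]

/-- Rounding a table entry to `10` digits. -/
theorem tab10 (y : ℂ) (x : ℤ × ℤ) (h : ‖y - dec x‖ ≤ 1 / 10 ^ 10) :
    ‖y - (GI.rnd 100000 (ofP x)).toC / 10 ^ 10‖ ≤ 3 / 10 ^ 10 := by
  have h2 := rnd_err 100000 (by norm_num) (ofP x)
  have e1 : dec x - (GI.rnd 100000 (ofP x)).toC / 10 ^ 10 =
      ((ofP x).toC / ((100000 : ℤ) : ℂ) - (GI.rnd 100000 (ofP x)).toC) / 10 ^ 10 := by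
    rw [dec_eq]; push_cast; ring
  have h3 : ‖dec x - (GI.rnd 100000 (ofP x)).toC / 10 ^ 10‖ ≤ 2 / 10 ^ 10 := by
    rw [e1, norm_div]
    have : ‖(10 : ℂ) ^ 10‖ = 10 ^ 10 := by norm_num
    rw [this]
    gcongr
  have := norm_sub_le_norm_sub_add_norm_sub y (dec x) ((GI.rnd 100000 (ofP x)).toC / 10 ^ 10)
  linarith

/-- Rounding a table entry to `8` digits. -/
theorem tab8 (y : ℂ) (x : ℤ × ℤ) (h : ‖y - dec x‖ ≤ 1 / 10 ^ 10) :
    ‖y - (GI.rnd 10000000 (ofP x)).toC / 10 ^ 8‖ ≤ 21 / 10 ^ 9 := by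
  have h2 := rnd_err 10000000 (by norm_num) (ofP x)
  have e1 : dec x - (GI.rnd 10000000 (ofP x)).toC / 10 ^ 8 =
      ((ofP x).toC / ((10000000 : ℤ) : ℂ) - (GI.rnd 10000000 (ofP x)).toC) / 10 ^ 8 := by
    rw [dec_eq]; push_cast; ring
  have h3 : ‖dec x - (GI.rnd 10000000 (ofP x)).toC / 10 ^ 8‖ ≤ 2 / 10 ^ 8 := by
    rw [e1, norm_div]
    have : ‖(10 : ℂ) ^ 8‖ = 10 ^ 8 := by norm_num
    rw [this]
    gcongr
  have := norm_sub_le_norm_sub_add_norm_sub y (dec x) ((GI.rnd 10000000 (ofP x)).toC / 10 ^ 8)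
  linarith

theorem oneG_C : oneG.toC / 10 ^ 10 = 1 := by
  have : oneG.toC = 10 ^ 10 := by
    have : (10 : ℂ) ^ 10 = ((10 ^ 10 : ℝ) : ℂ) := by push_cast; ring
    rw [this]
    apply Complex.ext
    · rw [Complex.ofReal_re]; simp [GI.toC, oneG]; norm_num
    · rw [Complex.ofReal_im]; simp [GI.toC, oneG]
  rw [this]
  exact div_self (by norm_num)

/-- Division by a factorial. -/
theorem fac_err (y : ℂ) (a : GI) (k : ℕ) (h : ‖y - a.toC / 10 ^ 10‖ ≤ 3 / 10 ^ 10) :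
    ‖y / (k.factorial : ℂ) - (GI.rnd k.factorial a).toC / 10 ^ 10‖ ≤ 5 / 10 ^ 10 := by
  have h2 := rnd_err k.factorial (by exact_mod_cast Nat.factorial_pos k) a
  have hk : (1 : ℝ) ≤ (k.factorial : ℝ) := by exact_mod_cast Nat.one_le_iff_ne_zero.mpr k.factorial_ne_zero
  have e1 : y / (k.factorial : ℂ) - (GI.rnd k.factorial a).toC / 10 ^ 10 =
      (y - a.toC / 10 ^ 10) / (k.factorial : ℂ) +
      (a.toC / ((k.factorial : ℤ) : ℂ) - (GI.rnd k.factorial a).toC) / 10 ^ 10 := by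
    push_cast; ring
  rw [e1]
  refine (norm_add_le _ _).trans ?_
  rw [norm_div, norm_div, Complex.norm_natCast]
  have : ‖(10 : ℂ) ^ 10‖ = 10 ^ 10 := by norm_num
  rw [this]
  have a1 : ‖y - a.toC / 10 ^ 10‖ / (k.factorial : ℝ) ≤ 3 / 10 ^ 10 :=
    (div_le_self (norm_nonneg _) hk).trans h
  have a2 : ‖a.toC / ((k.factorial : ℤ) : ℂ) - (GI.rnd k.factorial a).toC‖ / 10 ^ 10 ≤ 2 / 10 ^ 10 := by
    gcongr
  linarith

section far

variable {z q : ℂ} (hE : Enc z q)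

include hE

theorem ellG_err (k : ℕ) (hk : k < 10) : ‖ell z q k - (ellG k).toC / 10 ^ 10‖ ≤ 3 / 10 ^ 10 :=
  tab10 _ _ (hE.enc_ell k hk)

theorem pG_err (k : ℕ) (hk : k < 10) : ‖pk z q k - (pG k).toC / 10 ^ 10‖ ≤ 3 / 10 ^ 10 :=
  tab10 _ _ (hE.enc_pk k hk)

theorem ell8_err (k : ℕ) (hk : k < 10) : ‖ell z q k - (ell8 k).toC / 10 ^ 8‖ ≤ 21 / 10 ^ 9 :=
  tab8 _ _ (hE.enc_ell k hk)

theorem p8_err (k : ℕ) (hk : k < 10) : ‖pk z q k - (p8 k).toC / 10 ^ 8‖ ≤ 21 / 10 ^ 9 :=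
  tab8 _ _ (hE.enc_pk k hk)

/-- Row `F`. -/
theorem rowF_err (u : ℂ) (hu : ‖u‖ = 1) (k : ℕ) (hk : k < 9) :
    ‖(ell z q (k + 1) * u ^ (k + 1) - ell z q 0 / ((k + 1).factorial : ℂ)) -
      evC (rowF.getD k []) u‖ ≤ 5 / 10 ^ 9 := by
  have h1 := ellG_err hE (k + 1) (by omega)
  have h2 := fac_err _ _ (k + 1) (ellG_err hE 0 (by omega))
  unfold rowF
  rw [getD_map_range _ _ _ _ hk]
  simp only [evC, toC_neg, pow_zero, mul_one, add_zero]
  have e : (ell z q (k + 1) * u ^ (k + 1) - ell z q 0 / ((k + 1).factorial : ℂ)) -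
      ((ellG (k + 1)).toC / 10 ^ 10 * u ^ (k + 1) +
        -(GI.rnd (k + 1).factorial (ellG 0)).toC / 10 ^ 10) =
      (ell z q (k + 1) - (ellG (k + 1)).toC / 10 ^ 10) * u ^ (k + 1) -
      (ell z q 0 / ((k + 1).factorial : ℂ) - (GI.rnd (k + 1).factorial (ellG 0)).toC / 10 ^ 10) := by
    ring
  rw [e]
  refine (norm_sub_le _ _).trans ?_
  rw [norm_mul, norm_pow, hu, one_pow, mul_one]
  refine (add_le_add h1 h2).trans (by norm_num)

/-- Row `G`. -/
theorem rowGG_err (u : ℂ) (k : ℕ) (hk : k < 9) :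
    ‖((if k = 0 then u else 0) + pk z q 0 / ((k + 1).factorial : ℂ)) -
      evC (rowGG.getD k []) u‖ ≤ 5 / 10 ^ 9 := by
  have h2 := fac_err _ _ (k + 1) (pG_err hE 0 (by omega))
  unfold rowGG
  rw [getD_map_range _ _ _ _ hk]
  by_cases h : k = 0
  · subst h
    simp only [if_true, evC, oneG_C, pow_zero, mul_one, add_zero, pow_one, one_mul]
    have e : u + pk z q 0 / ((0 + 1).factorial : ℂ) -
        (u + (GI.rnd (0 + 1).factorial (pG 0)).toC / 10 ^ 10) =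
        pk z q 0 / ((0 + 1).factorial : ℂ) - (GI.rnd (0 + 1).factorial (pG 0)).toC / 10 ^ 10 := by
      ring
    rw [e]
    exact h2.trans (by norm_num)
  · simp only [h, if_false, evC, pow_zero, mul_one, add_zero, zero_add]
    exact h2.trans (by norm_num)

/-- Row `H`. -/
theorem rowH_err (u : ℂ) (m : ℕ) (hm : m < 8) (k : ℕ) (hk : k < 9) :
    ‖(if k = m + 1 then u else if k = m then -pk z q (m + 1) else 0) -
      evC ((rowH m).getD k []) u‖ ≤ 5 / 10 ^ 9 := by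
  unfold rowH
  rw [getD_map_range _ _ _ _ hk]
  by_cases h : k = m + 1
  · simp [h, evC, oneG_C]; norm_num
  · by_cases h' : k = m
    · have h2 := pG_err hE (m + 1) (by omega)
      rw [if_neg h, if_pos h', if_neg h, if_pos h']
      simp only [evC, toC_neg, pow_zero, mul_one, add_zero]
      have e : -pk z q (m + 1) - -(pG (m + 1)).toC / 10 ^ 10 =
        -(pk z q (m + 1) - (pG (m + 1)).toC / 10 ^ 10) := by ring
      rw [e, norm_neg]
      exact h2.trans (by norm_num)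
    · simp [h, h', evC]; norm_num

theorem rowL_err (k : ℕ) (hk : k < 9) :
    ‖ell z q k - (rowL.getD k ⟨0, 0⟩).toC / 10 ^ 8‖ ≤ 21 / 10 ^ 9 := by
  unfold rowL
  rw [getD_map_range _ _ _ _ hk]
  exact ell8_err hE k (by omega)

theorem rowP_err (m : ℕ) (hm : m < 8) (k : ℕ) (hk : k < 9) :
    ‖(if k = m + 1 then 1 else if k = m then -pk z q m else 0) -
      ((rowP m).getD k ⟨0, 0⟩).toC / 10 ^ 8‖ ≤ 21 / 10 ^ 9 := by
  unfold rowP
  rw [getD_map_range _ _ _ _ hk]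
  by_cases h : k = m + 1
  · rw [if_pos h, if_pos h]
    have : (⟨100000000, 0⟩ : GI).toC = 10 ^ 8 := by
      have : (10 : ℂ) ^ 8 = ((10 ^ 8 : ℝ) : ℂ) := by push_cast; ring
      rw [this]
      apply Complex.ext
      · rw [Complex.ofReal_re]; simp [GI.toC]; norm_num
      · rw [Complex.ofReal_im]; simp [GI.toC]
    rw [this, div_self (by norm_num)]
    norm_num
  · by_cases h' : k = m
    · have h2 := p8_err hE m (by omega)
      rw [if_neg h, if_pos h', if_neg h, if_pos h', toC_neg]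
      have e : -pk z q m - -(p8 m).toC / 10 ^ 8 = -(pk z q m - (p8 m).toC / 10 ^ 8) := by ring
      rw [e, norm_neg]
      exact h2
    · rw [if_neg h, if_neg h', if_neg h, if_neg h', toC_zero]
      norm_num

end far

theorem conjV_getD (l : List GI) (k : ℕ) :
    ((conjV l).getD k ⟨0, 0⟩).toC = (starRingEnd ℂ) (l.getD k ⟨0, 0⟩).toC := by
  induction l generalizing k with
  | nil => simp [conjV, toC_zero]
  | cons a l ih =>
    cases k with
    | zero => simp [conjV, toC_conj]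
    | succ k => simpa [conjV] using ih k

theorem conjV_err (l : List GI) (k : ℕ) (y : ℂ)
    (h : ‖y - (l.getD k ⟨0, 0⟩).toC / 10 ^ 8‖ ≤ 21 / 10 ^ 9) :
    ‖(starRingEnd ℂ) y - ((conjV l).getD k ⟨0, 0⟩).toC / 10 ^ 8‖ ≤ 21 / 10 ^ 9 := by
  rw [conjV_getD]
  have h10 : (starRingEnd ℂ) (10 ^ 8 : ℂ) = 10 ^ 8 := by
    rw [map_pow, map_ofNat (starRingEnd ℂ) 10]
  have e2 : (starRingEnd ℂ) y - (starRingEnd ℂ) (l.getD k ⟨0, 0⟩).toC / 10 ^ 8 =
      (starRingEnd ℂ) (y - (l.getD k ⟨0, 0⟩).toC / 10 ^ 8) := by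
    rw [map_sub, map_div₀, h10]
  rw [e2, Complex.norm_conj]
  exact h

theorem conjV_length (l : List GI) : (conjV l).length = l.length := by
  induction l with
  | nil => rfl
  | cons a l ih => simp [conjV, ih]

theorem rowF_ok : okR rowF := by
  intro t ht
  simp only [rowF, List.mem_map, List.mem_range] at ht
  obtain ⟨k, hk, rfl⟩ := ht
  exact ⟨by simp; omega, by simp, trivial⟩

theorem rowGG_ok : okR rowGG := by
  intro t ht
  simp only [rowGG, List.mem_map, List.mem_range] at ht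
  obtain ⟨k, hk, rfl⟩ := ht
  split_ifs
  · exact ⟨by simp, by simp, trivial⟩
  · exact ⟨by simp, trivial⟩

theorem rowH_ok (m : ℕ) : okR (rowH m) := by
  intro t ht
  simp only [rowH, List.mem_map, List.mem_range] at ht
  obtain ⟨k, hk, rfl⟩ := ht
  split_ifs
  · exact ⟨by simp, trivial⟩
  · exact ⟨by simp, trivial⟩
  · trivial

theorem rowF_len : rowF.length = 9 := by simp [rowF]
theorem rowGG_len : rowGG.length = 9 := by simp [rowGG]
theorem rowH_len (m : ℕ) : (rowH m).length = 9 := by simp [rowH]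
theorem rowL_len : rowL.length = 9 := by simp [rowL]
theorem rowP_len (m : ℕ) : (rowP m).length = 9 := by simp [rowP]

theorem qf_sumM (f : ℕ → List (List GI)) (n : ℕ) (v : ℕ → ℂ) :
    qf (sumM f n) v = ∑ k ∈ Finset.range n, qf (f k) v := by
  induction n with
  | zero => simp [sumM, qf]
  | succ n ih => simp only [sumM, qf_addM, ih, Finset.sum_range_succ]; ring

theorem two_sum (m : ℕ) (hm : m < 8) (a b : ℂ) (v : ℕ → ℂ) :
    ∑ k ∈ Finset.range 9, (if k = m + 1 then a else if k = m then b else 0) * v k =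
      a * v (m + 1) + b * v m := by
  have : ∀ k ∈ Finset.range 9, (if k = m + 1 then a else if k = m then b else 0) * v k =
      (if k = m + 1 then a * v k else 0) + (if k = m then b * v k else 0) := by
    intro k _
    by_cases h : k = m + 1
    · have : k ≠ m := by omega
      simp [h]
    · by_cases h' : k = m
      · simp [h']
      · simp [h, h']
  rw [Finset.sum_congr rfl this, Finset.sum_add_distrib, Finset.sum_ite_eq', Finset.sum_ite_eq',
    if_pos (Finset.mem_range.mpr (by omega)), if_pos (Finset.mem_range.mpr (by omega))]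

theorem sumG (u p : ℂ) (v : ℕ → ℂ) :
    ∑ k ∈ Finset.range 9, ((if k = 0 then u else 0) + p / ((k + 1).factorial : ℂ)) * v k =
      u * v 0 + p * ∑ k ∈ Finset.range 9, v k / ((k + 1).factorial : ℂ) := by
  have : ∀ k ∈ Finset.range 9, ((if k = 0 then u else 0) + p / ((k + 1).factorial : ℂ)) * v k =
      (if k = 0 then u * v k else 0) + p * (v k / ((k + 1).factorial : ℂ)) := by
    intro k _
    by_cases h : k = 0
    · simp only [h, if_true]; ring
    · simp only [h, if_false]; ring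
  rw [Finset.sum_congr rfl this, Finset.sum_add_distrib, Finset.sum_ite_eq',
    if_pos (Finset.mem_range.mpr (by norm_num)), Finset.mul_sum]

theorem ch_nonneg (k : ℕ) : 0 ≤ ch k := by unfold ch; positivity

theorem bC_bd (k : ℕ) (hk : k < 9) : ch k * 10 ^ 10 ≤ ((bC.getD k 0 : ℤ) : ℝ) := by
  interval_cases k <;> norm_num [ch, bC]

/-- Lower bound for `1/|z|²`. -/
theorem r_lo {z q : ℂ} (hE : Enc z q) : 1837302524 / 10 ^ 9 ≤ (‖z‖ ^ 2)⁻¹ := by
  have h := abs_le.mp hE.norm_z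
  have h1 : ‖z‖ ≤ 737750757488224 / 10 ^ 15 := by linarith [h.2]
  have h2 : 0 < ‖z‖ := by linarith [h.1]
  rw [le_inv_comm₀ (by norm_num) (by positivity)]
  calc ‖z‖ ^ 2 ≤ (737750757488224 / 10 ^ 15) ^ 2 := by gcongr
    _ ≤ _ := by norm_num

theorem r_hi {z q : ℂ} (hE : Enc z q) : (‖z‖ ^ 2)⁻¹ ≤ 18374 / 10 ^ 4 := by
  have h := abs_le.mp hE.norm_z
  have h1 : 7377507 / 10 ^ 7 ≤ ‖z‖ := by linarith [h.1]
  rw [inv_le_comm₀ (by positivity) (by norm_num)]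
  calc ((18374 / 10 ^ 4 : ℝ))⁻¹ ≤ (7377507 / 10 ^ 7) ^ 2 := by norm_num
    _ ≤ _ := by gcongr

theorem aC_bd (k : ℕ) (hk : k < 8) :
    ((aC.getD k 0 : ℤ) : ℝ) ≤ 1837302524 / 10 ^ 9 * (1 - 1 / 10 ^ 5) * ch k * 10 ^ 10 := by
  interval_cases k <;> norm_num [ch, aC]

theorem aC_nonneg (k : ℕ) (hk : k < 8) : 0 ≤ ((aC.getD k 0 : ℤ) : ℝ) := by
  interval_cases k <;> norm_num [aC]

theorem sum_ch : ∑ k ∈ Finset.range 8, ch k ≤ 1875 / 10 ^ 4 := by
  norm_num [Finset.sum_range_succ, ch]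

/-- `∑ |v_k|²/2^k`. -/
def WW (v : ℕ → ℂ) : ℝ := ∑ k ∈ Finset.range 9, ‖v k‖ ^ 2 / 2 ^ k

theorem WW_nonneg (v : ℕ → ℂ) : 0 ≤ WW v := Finset.sum_nonneg fun _ _ => by positivity

/-- Scaled positive square. -/
theorem pos_scaled {r c a A D W : ℝ} (hr : 1837302524 / 10 ^ 9 ≤ r) (hr2 : r ≤ 18374 / 10 ^ 4)
    (hc : 0 ≤ c) (hD : 0 ≤ D) (hW : 0 ≤ W)
    (ha : a ≤ 1837302524 / 10 ^ 9 * (1 - 1 / 10 ^ 5) * c * 10 ^ 10)
    (h : (1 - 1 / 10 ^ 5) * D / 10 ^ 16 - 226 / 10 ^ 10 * W ≤ A) :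
    a * D ≤ 10 ^ 26 * (r * (c * A) + 18374 / 10 ^ 4 * (226 / 10 ^ 10) * c * W) := by
  have h1 : r * c * ((1 - 1 / 10 ^ 5) * D / 10 ^ 16 - 226 / 10 ^ 10 * W) ≤ r * c * A :=
    mul_le_mul_of_nonneg_left h (mul_nonneg (by linarith) hc)
  have h2 : r * (c * W) ≤ 18374 / 10 ^ 4 * (c * W) := mul_le_mul_of_nonneg_right hr2 (mul_nonneg hc hW)
  have h3 : 1837302524 / 10 ^ 9 * (c * D) ≤ r * (c * D) :=
    mul_le_mul_of_nonneg_right hr (mul_nonneg hc hD)
  have h4 : a * D ≤ 1837302524 / 10 ^ 9 * (1 - 1 / 10 ^ 5) * c * 10 ^ 10 * D :=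
    mul_le_mul_of_nonneg_right ha hD
  nlinarith

/-- The positive part. -/
theorem MA_bd {z q : ℂ} (hE : Enc z q) (cj : Bool) (v : ℕ → ℂ) (xl : ℕ → ℂ) (xp : ℕ → ℂ)
    (hl : ∀ k, k < 9 → ‖xl k - ((if cj then conjV rowL else rowL).getD k ⟨0, 0⟩).toC / 10 ^ 8‖ ≤
      21 / 10 ^ 9)
    (hp : ∀ m < 8, ∀ k < 9, ‖(if k = m + 1 then 1 else if k = m then -xp m else 0) -
      ((if cj then conjV (rowP m) else rowP m).getD k ⟨0, 0⟩).toC / 10 ^ 8‖ ≤ 21 / 10 ^ 9) :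
    qf (MA cj) v ≤ 256000 * 10 ^ 26 * ((‖z‖ ^ 2)⁻¹ *
      (‖∑ k ∈ Finset.range 9, xl k * v k‖ ^ 2 +
        ∑ k ∈ Finset.range 8, ch k * ‖v (k + 1) - xp k * v k‖ ^ 2) + 5 / 10 ^ 8 * WW v) := by
  have hr := r_lo hE
  have hr2 := r_hi hE
  have hW := WW_nonneg v
  set r := (‖z‖ ^ 2)⁻¹
  have hlen1 : (if cj then conjV rowL else rowL).length = 9 := by
    cases cj <;> simp [rowL_len, conjV_length]
  have hlen2 : ∀ m, (if cj then conjV (rowP m) else rowP m).length = 9 := by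
    intro m
    cases cj <;> simp [rowP_len, conjV_length]
  have h1 := pos_sq _ hlen1 xl hl v
  have h2 : ∀ m ∈ Finset.range 8, ((aC.getD m 0 : ℤ) : ℝ) *
      ‖dot (if cj then conjV (rowP m) else rowP m) v‖ ^ 2 ≤
      10 ^ 26 * (r * (ch m * ‖v (m + 1) - xp m * v m‖ ^ 2) +
        18374 / 10 ^ 4 * (226 / 10 ^ 10) * ch m * WW v) := by
    intro m hm
    have hm' := Finset.mem_range.mp hm
    have h3 := pos_sq _ (hlen2 m) _ (hp m hm') v
    rw [two_sum m hm'] at h3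
    have e : (1 : ℂ) * v (m + 1) + -xp m * v m = v (m + 1) - xp m * v m := by ring
    rw [e] at h3
    exact pos_scaled hr hr2 (ch_nonneg m) (sq_nonneg _) hW (aC_bd m hm') h3
  have h4 := pos_scaled (a := 18372841509) (c := 1) hr hr2 (by norm_num) (sq_nonneg _) hW (by norm_num) h1
  have h5 := Finset.sum_le_sum h2
  rw [← Finset.mul_sum, Finset.sum_add_distrib, ← Finset.mul_sum] at h5
  have h6 : ∑ m ∈ Finset.range 8, 18374 / 10 ^ 4 * (226 / 10 ^ 10) * ch m * WW v =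
      18374 / 10 ^ 4 * (226 / 10 ^ 10) * WW v * ∑ m ∈ Finset.range 8, ch m := by
    rw [Finset.mul_sum]; exact Finset.sum_congr rfl fun _ _ => by ring
  rw [h6] at h5
  have h7 : 18374 / 10 ^ 4 * (226 / 10 ^ 10) * WW v * ∑ m ∈ Finset.range 8, ch m ≤
      18374 / 10 ^ 4 * (226 / 10 ^ 10) * WW v * (1875 / 10 ^ 4) :=
    mul_le_mul_of_nonneg_left sum_ch (by positivity)
  unfold MA
  rw [qf_addM, qf_scaleM, qf_sqM, qf_sumM]
  have e2 : ∑ k ∈ Finset.range 8, qf (scaleM (256000 * aC.getD k 0)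
      (sqM (if cj then conjV (rowP k) else rowP k))) v =
      256000 * ∑ k ∈ Finset.range 8, ((aC.getD k 0 : ℤ) : ℝ) *
        ‖dot (if cj then conjV (rowP k) else rowP k) v‖ ^ 2 := by
    rw [Finset.mul_sum]
    refine Finset.sum_congr rfl fun k _ => ?_
    rw [qf_scaleM, qf_sqM]
    push_cast
    ring
  rw [e2]
  push_cast
  have h8 : ‖dot (if cj then conjV rowL else rowL) v‖ ^ 2 * 18372841509 +
      ∑ k ∈ Finset.range 8, ((aC.getD k 0 : ℤ) : ℝ) *
        ‖dot (if cj then conjV (rowP k) else rowP k) v‖ ^ 2 ≤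
      10 ^ 26 * (r * (‖∑ k ∈ Finset.range 9, xl k * v k‖ ^ 2 +
        ∑ k ∈ Finset.range 8, ch k * ‖v (k + 1) - xp k * v k‖ ^ 2) + 5 / 10 ^ 8 * WW v) := by
    nlinarith
  nlinarith

end

end Pool.Agent.Whit.Eng
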