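import Pool.Agent.Whit.FarS

/-!
# The far zone on one cell
-/

namespace Pool.Agent.Whit.Eng

open Complex

noncomputable section

theorem dq_baseF (v : ℕ → ℂ) : 16 * 256000 * 10 ^ 26 * (∑ k ∈ Finset.range 9, Efar k * ‖v k‖ ^ 2 +
    5 / 10 ^ 8 * WW v) ≤ dq baseF v := by
  have e : 16 * 256000 * 10 ^ 26 * (∑ k ∈ Finset.range 9, Efar k * ‖v k‖ ^ 2 +
    5 / 10 ^ 8 * WW v) = ∑ k ∈ Finset.range 9,
      (16 * 256000 * 10 ^ 26 * (Efar k + 5 / 10 ^ 8 / 2 ^ k)) * ‖v k‖ ^ 2 := by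
    unfold WW
    rw [Finset.mul_sum, ← Finset.sum_add_distrib, Finset.mul_sum]
    exact Finset.sum_congr rfl fun k _ => by ring
  have e2 : dq baseF v = ∑ k ∈ Finset.range 9, ((baseF.getD k 0 : ℤ) : ℝ) * ‖v k‖ ^ 2 := by
    simp only [baseF, dq, sh, Finset.sum_range_succ, Finset.sum_range_zero]
    simp only [List.getD_cons_zero, List.getD_cons_succ]
    ring
  rw [e, e2]
  refine Finset.sum_le_sum fun k hk => mul_le_mul_of_nonneg_right ?_ (sq_nonneg _)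
  have hk' := Finset.mem_range.mp hk
  interval_cases k <;> norm_num [Efar, baseF, ch, Nat.factorial]

theorem far_cell {z q : ℂ} (hE : Enc z q) (j : ℤ) (hj : |j| ≤ 149) (iw : ℤ) (hw0 : 0 ≤ iw)
    (hw1 : iw ≤ 16) (p0 : psd 9 (farM iw j) = true) (p1 : psd 9 (farM iw (j + 1)) = true)
    (τ : ℝ) (h0 : 0 ≤ τ) (h1 : τ ≤ 1) (v : ℕ → ℂ) :
    ∑ k ∈ Finset.range 9, Efar k * ‖v k‖ ^ 2 ≤ FarMain z q (pt j τ) ((iw : ℝ) / 16) v := by
  have hu := norm_pt j τ
  set u := pt j τ with hudef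
  have q0 := psd_sound 9 _ p0 v
  have q1 := psd_sound 9 _ p1 v
  have hw0' : (0 : ℝ) ≤ (iw : ℝ) := by exact_mod_cast hw0
  have hw1' : (iw : ℝ) ≤ 16 := by exact_mod_cast hw1
  -- positive parts
  have PA := MA_bd hE false v (ell z q) (pk z q)
    (fun k hk => by simpa using rowL_err hE k hk)
    (fun m hm k hk => by simpa using rowP_err hE m hm k hk)
  have PB := MA_bd hE true v (fun k => (starRingEnd ℂ) (ell z q k))
    (fun k => (starRingEnd ℂ) (pk z q k))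
    (fun k hk => by
      have := conjV_err rowL k _ (rowL_err hE k hk)
      simpa using this)
    (fun m hm k hk => by
      have := conjV_err (rowP m) k _ (rowP_err hE m hm k hk)
      by_cases h : k = m + 1
      · simpa [h] using this
      · by_cases h' : k = m
        · simpa [h, h'] using this
        · simpa [h, h'] using this)
  -- negative parts
  have NF := neg_sq j hj τ h0 h1 rowF rowF_len rowF_ok _ (fun k hk => rowF_err hE u hu k hk) v
  have NG := neg_sq j hj τ h0 h1 rowGG rowGG_len rowGG_ok _ (fun k hk => rowGG_err hE u k hk) v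
  rw [sumG] at NG
  have NH : ∀ m ∈ Finset.range 8, ch (m + 1) * (256000 * 10 ^ 26 *
      ‖u * v (m + 1) - pk z q (m + 1) * v m‖ ^ 2) ≤ ((bC.getD (m + 1) 0 : ℤ) : ℝ) *
      (1001 * ((1 - τ) * qf (negM (rowH m) j) v + τ * qf (negM (rowH m) (j + 1)) v)) := by
    intro m hm
    have hm' := Finset.mem_range.mp hm
    have := neg_sq j hj τ h0 h1 (rowH m) (rowH_len m) (rowH_ok m) _
      (fun k hk => rowH_err hE u m hm' k hk) v
    rw [two_sum m hm'] at this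
    have e : u * v (m + 1) + -pk z q (m + 1) * v m = u * v (m + 1) - pk z q (m + 1) * v m := by ring
    rw [e] at this
    have hb := bC_bd (m + 1) (by omega)
    have hc := ch_nonneg (m + 1)
    have n0 : 0 ≤ 256000 * 10 ^ 16 * ‖u * v (m + 1) - pk z q (m + 1) * v m‖ ^ 2 := by positivity
    calc ch (m + 1) * (256000 * 10 ^ 26 * ‖u * v (m + 1) - pk z q (m + 1) * v m‖ ^ 2)
        = ch (m + 1) * 10 ^ 10 *
          (256000 * 10 ^ 16 * ‖u * v (m + 1) - pk z q (m + 1) * v m‖ ^ 2) := by ring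
      _ ≤ ((bC.getD (m + 1) 0 : ℤ) : ℝ) *
          (256000 * 10 ^ 16 * ‖u * v (m + 1) - pk z q (m + 1) * v m‖ ^ 2) :=
          mul_le_mul_of_nonneg_right hb n0
      _ ≤ _ := mul_le_mul_of_nonneg_left this ((mul_nonneg hc (by norm_num)).trans hb)
  have NHs := Finset.sum_le_sum NH
  have NG' : ch 0 * (256000 * 10 ^ 26 *
      ‖u * v 0 + pk z q 0 * ∑ k ∈ Finset.range 9, v k / ((k + 1).factorial : ℂ)‖ ^ 2) ≤
      ((bC.getD 0 0 : ℤ) : ℝ) *
      (1001 * ((1 - τ) * qf (negM rowGG j) v + τ * qf (negM rowGG (j + 1)) v)) := by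
    have hb := bC_bd 0 (by omega)
    have hc := ch_nonneg 0
    have n0 : 0 ≤ 256000 * 10 ^ 16 *
      ‖u * v 0 + pk z q 0 * ∑ k ∈ Finset.range 9, v k / ((k + 1).factorial : ℂ)‖ ^ 2 := by positivity
    calc _ = ch 0 * 10 ^ 10 * (256000 * 10 ^ 16 *
          ‖u * v 0 + pk z q 0 * ∑ k ∈ Finset.range 9, v k / ((k + 1).factorial : ℂ)‖ ^ 2) := by ring
      _ ≤ ((bC.getD 0 0 : ℤ) : ℝ) * (256000 * 10 ^ 16 *
          ‖u * v 0 + pk z q 0 * ∑ k ∈ Finset.range 9, v k / ((k + 1).factorial : ℂ)‖ ^ 2) :=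
          mul_le_mul_of_nonneg_right hb n0
      _ ≤ _ := mul_le_mul_of_nonneg_left NG ((mul_nonneg hc (by norm_num)).trans hb)
  have hN : ∀ i : ℤ, qf (farN i) v = 16016 * 10 ^ 10 * qf (negM rowF i) v +
      16016 * ((bC.getD 0 0 : ℤ) : ℝ) * qf (negM rowGG i) v +
      16016 * (∑ m ∈ Finset.range 8, ((bC.getD (m + 1) 0 : ℤ) : ℝ) * qf (negM (rowH m) i) v) +
      dq baseF v := by
    intro i
    unfold farN
    rw [qf_addM, qf_addM, qf_addM, qf_scaleM, qf_scaleM, qf_sumM, qf_diagM]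
    have e : ∑ k ∈ Finset.range 8, qf (scaleM (16016 * bC.getD (k + 1) 0) (negM (rowH k) i)) v =
        16016 * ∑ m ∈ Finset.range 8, ((bC.getD (m + 1) 0 : ℤ) : ℝ) * qf (negM (rowH m) i) v := by
      rw [Finset.mul_sum]
      refine Finset.sum_congr rfl fun k _ => ?_
      rw [qf_scaleM]
      push_cast
      ring
    rw [e]
    push_cast
    ring
  have hM : ∀ i : ℤ, qf (farM iw i) v = (iw : ℝ) * qf (MA false) v +
      (16 - (iw : ℝ)) * qf (MA true) v - qf (farN i) v := by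
    intro i
    unfold farM
    rw [qf_addM, qf_addM, qf_scaleM, qf_scaleM, qf_scaleM]
    push_cast
    ring
  have hbase := dq_baseF v
  rw [hM, hN] at q0 q1
  unfold FarMain
  set r := (‖z‖ ^ 2)⁻¹
  set A := ‖∑ k ∈ Finset.range 9, ell z q k * v k‖ ^ 2 +
        ∑ k ∈ Finset.range 8, ch k * ‖v (k + 1) - pk z q k * v k‖ ^ 2
  set B := ‖∑ k ∈ Finset.range 9, (starRingEnd ℂ) (ell z q k) * v k‖ ^ 2 +
        ∑ k ∈ Finset.range 8, ch k * ‖v (k + 1) - (starRingEnd ℂ) (pk z q k) * v k‖ ^ 2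
  set F := ‖∑ k ∈ Finset.range 9, (ell z q (k + 1) * u ^ (k + 1) -
    ell z q 0 / ((k + 1).factorial : ℂ)) * v k‖ ^ 2
  set G := ‖u * v 0 + pk z q 0 * ∑ k ∈ Finset.range 9, v k / ((k + 1).factorial : ℂ)‖ ^ 2
  have eH : ∑ m ∈ Finset.range 8, ch (m + 1) * (256000 * 10 ^ 26 *
      ‖u * v (m + 1) - pk z q (m + 1) * v m‖ ^ 2) = 256000 * 10 ^ 26 *
      ∑ m ∈ Finset.range 8, ch (m + 1) * ‖u * v (m + 1) - pk z q (m + 1) * v m‖ ^ 2 := by
    rw [Finset.mul_sum]; exact Finset.sum_congr rfl fun _ _ => by ring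
  have eN : ∑ m ∈ Finset.range 8, ((bC.getD (m + 1) 0 : ℤ) : ℝ) *
      (1001 * ((1 - τ) * qf (negM (rowH m) j) v + τ * qf (negM (rowH m) (j + 1)) v)) =
      1001 * ((1 - τ) * ∑ m ∈ Finset.range 8, ((bC.getD (m + 1) 0 : ℤ) : ℝ) * qf (negM (rowH m) j) v +
      τ * ∑ m ∈ Finset.range 8, ((bC.getD (m + 1) 0 : ℤ) : ℝ) * qf (negM (rowH m) (j + 1)) v) := by
    rw [Finset.mul_sum, Finset.mul_sum, ← Finset.sum_add_distrib, Finset.mul_sum]
    exact Finset.sum_congr rfl fun _ _ => by ring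
  rw [eH, eN] at NHs
  set H := ∑ m ∈ Finset.range 8, ch (m + 1) * ‖u * v (m + 1) - pk z q (m + 1) * v m‖ ^ 2
  have qq : 0 ≤ (1 - τ) * ((iw : ℝ) * qf (MA false) v + (16 - (iw : ℝ)) * qf (MA true) v -
      (16016 * 10 ^ 10 * qf (negM rowF j) v + 16016 * ((bC.getD 0 0 : ℤ) : ℝ) * qf (negM rowGG j) v +
      16016 * (∑ m ∈ Finset.range 8, ((bC.getD (m + 1) 0 : ℤ) : ℝ) * qf (negM (rowH m) j) v) +
      dq baseF v)) + τ * ((iw : ℝ) * qf (MA false) v + (16 - (iw : ℝ)) * qf (MA true) v -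
      (16016 * 10 ^ 10 * qf (negM rowF (j + 1)) v +
      16016 * ((bC.getD 0 0 : ℤ) : ℝ) * qf (negM rowGG (j + 1)) v +
      16016 * (∑ m ∈ Finset.range 8, ((bC.getD (m + 1) 0 : ℤ) : ℝ) * qf (negM (rowH m) (j + 1)) v) +
      dq baseF v)) := add_nonneg (mul_nonneg (by linarith) q0) (mul_nonneg h0 q1)
  have PA' := mul_le_mul_of_nonneg_left PA hw0'
  have PB' := mul_le_mul_of_nonneg_left PB (show 0 ≤ 16 - (iw : ℝ) by linarith)
  have fin : 16 * 256000 * 10 ^ 26 * ∑ k ∈ Finset.range 9, Efar k * ‖v k‖ ^ 2 ≤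
      16 * 256000 * 10 ^ 26 * (r * ((iw : ℝ) / 16 * A + (1 - (iw : ℝ) / 16) * B) - F - ch 0 * G - H) := by
    linear_combination qq + PA' + PB' + 16 * 10 ^ 10 * NF + 16 * NG' + 16 * NHs + hbase
  have h16 : (0 : ℝ) < 16 * 256000 * 10 ^ 26 := by norm_num
  exact le_of_mul_le_mul_left fin h16

end

end Pool.Agent.Whit.Eng
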