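import Pool.Agent.Whit.Spec

/-!
# WHIT-K: assembly of the key inequality
-/

namespace Pool.Agent.Whit

theorem K_norm_exp_sub_one (s : ℝ) (hs : |s| ≤ 1 / 2) :
    ‖Complex.exp (s * Complex.I) - 1‖ ≤ 1 / 2 := by
  have h := Real.norm_exp_I_mul_ofReal_sub_one_le (x := s)
  rw [mul_comm] at h
  exact h.trans (by rwa [Real.norm_eq_abs])

theorem tKey : TKey := by
  intro hFT hFM hNI hNT hNM hCC z q hO hB hE Q hQ v hv
  have hz : 0 < ‖z‖ := norm_pos_iff.2 hB.z_ne
  have hr : 0 < (‖z‖ ^ 2)⁻¹ := by positivity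
  rcases hCC z q hO Q hQ with ⟨θ, h1, h2, rfl⟩ | ⟨s, hs, rfl⟩
  · obtain ⟨w, hw0, hw1, hw⟩ := hFM z q hO hB hE θ h1 h2
    have a1 := hFT z q hO hB hE _ hQ w hw0 hw1 v hv
    have a2 := hw v
    have a3 : w * P z q v + (1 - w) * P z q (cj v) ≤ Mx z q v := by
      have b1 : P z q v ≤ Mx z q v := le_max_left _ _
      have b2 : P z q (cj v) ≤ Mx z q v := le_max_right _ _
      nlinarith [mul_le_mul_of_nonneg_left b1 hw0,
        mul_le_mul_of_nonneg_left b2 (by linarith : (0 : ℝ) ≤ 1 - w)]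
    have a4 := mul_le_mul_of_nonneg_left a3 hr.le
    linarith
  · have hV : ∀ k, Vk z q k ≠ 0 := fun k =>
      mul_ne_zero (pow_ne_zero _ hB.q_ne) (pow_ne_zero _ hB.z_ne)
    obtain ⟨N, hN⟩ := hv
    have hx : FS (fun k => v k / Vk z q k) := ⟨N, fun k hk => by simp only [hN k hk, zero_div]⟩
    have hd : FS (fun k => v (k + 1) / Vk z q (k + 1) - v k / Vk z q k) :=
      ⟨N, fun k hk => by
        simp only [hN k hk, hN (k + 1) (by omega), zero_div, sub_zero]⟩
    have hu : ‖Complex.exp (s * Complex.I)‖ = 1 := Complex.norm_exp_ofReal_mul_I s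
    have e1 := hNI z q hO hB _ hu _ hx
    have e2 : (fun k => Vk z q k * (v k / Vk z q k)) = v := by
      funext k
      rw [mul_div_cancel₀ _ (hV k)]
    rw [e2] at e1
    have e3 := hNT z q hO hB hE _ hu (K_norm_exp_sub_one s hs)
      ((Complex.exp (s * Complex.I) - 1) * (v 0 / Vk z q 0)) _ hd
    have e4 := hNM z q hO hB hE s hs
      ((Complex.exp (s * Complex.I) - 1) * (v 0 / Vk z q 0))
      (fun k => v (k + 1) / Vk z q (k + 1) - v k / Vk z q k)
    have e5 : ‖z‖ ^ 2 * P z q (Drot (q * Complex.exp (s * Complex.I)) (Top v)) ≤ P z q v := by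
      linarith
    have e6 : P z q v ≤ Mx z q v := le_max_left _ _
    rw [← div_eq_inv_mul, le_div_iff₀ (by positivity)]
    linarith

end Pool.Agent.Whit
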