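import Pool.Agent.Whit.Spec

/-!
# The Whittaker constant: the near identity (job NI)
-/

namespace Pool.Agent.Whit

open scoped Nat
open Finset

noncomputable section

/-! ### Finitely supported sums and Abel summation -/

lemma NI_tsum_FS {f : ℕ → ℂ} {N : ℕ} (h : ∀ k, N ≤ k → f k = 0) :
    ∑' k, f k = ∑ k ∈ range N, f k :=
  tsum_eq_sum (fun k hk => h k (by simpa using hk))

lemma NI_tsum_FSR {f : ℕ → ℝ} {N : ℕ} (h : ∀ k, N ≤ k → f k = 0) :
    ∑' k, f k = ∑ k ∈ range N, f k :=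
  tsum_eq_sum (fun k hk => h k (by simpa using hk))

lemma NI_abel (S x : ℕ → ℂ) (N : ℕ) :
    ∑ k ∈ range (N + 1), (S k - S (k + 1)) * x k =
      S 0 * x 0 + ∑ k ∈ range N, S (k + 1) * (x (k + 1) - x k) - S (N + 1) * x N := by
  induction N with
  | zero => simp; ring
  | succ n ih =>
    rw [Finset.sum_range_succ, ih, Finset.sum_range_succ _ n]
    ring

lemma NI_abel_tsum (S x : ℕ → ℂ) (hx : FS x) :
    ∑' k, (S k - S (k + 1)) * x k = S 0 * x 0 + ∑' k, S (k + 1) * (x (k + 1) - x k) := by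
  obtain ⟨N, hN⟩ := hx
  rw [NI_tsum_FS (N := N + 1) (fun k hk => by rw [hN k (by omega)]; ring),
    NI_tsum_FS (f := fun k => S (k + 1) * (x (k + 1) - x k)) (N := N)
      (fun k hk => by simp only [hN k hk, hN (k + 1) (by omega)]; ring),
    NI_abel, hN N le_rfl]
  ring

/-! ### Elementary facts on `V_k` and `p_k` -/

lemma NI_Vk_zero (z q : ℂ) : Vk z q 0 = 1 := by simp [Vk]

lemma NI_Vk_succ (z q : ℂ) (k : ℕ) : Vk z q (k + 1) = q ^ (k + 1) * z * Vk z q k := by
  unfold Vk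
  have h : (k + 1) * (k + 1 + 1) / 2 = k * (k + 1) / 2 + (k + 1) := by
    have : (k + 1) * (k + 1 + 1) = k * (k + 1) + 2 * (k + 1) := by ring
    rw [this]
    omega
  rw [h, pow_add, pow_succ z]
  ring

lemma NI_norm_Vk {z q : ℂ} (hq : ‖q‖ = 1) (k : ℕ) : ‖Vk z q k‖ = ‖z‖ ^ k := by
  simp [Vk, norm_pow, hq]

lemma NI_Vk_ne {z q : ℂ} (hz : z ≠ 0) (hq : q ≠ 0) (k : ℕ) : Vk z q k ≠ 0 :=
  mul_ne_zero (pow_ne_zero _ hq) (pow_ne_zero _ hz)

/-! ### Rewriting the two values of `P` -/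

lemma NI_P1 {z q : ℂ} (ho : Opt z q) (hb : Basics z q) (x : ℕ → ℂ) :
    P z q (fun k => Vk z q k * x k) =
      ‖∑' k, ak z q k * x k‖ ^ 2 + ∑' k, cn z k * ‖x (k + 1) - x k‖ ^ 2 := by
  unfold P
  congr 1
  · congr 2
    refine tsum_congr fun k => ?_
    have := NI_Vk_ne hb.z_ne hb.q_ne k
    unfold ell
    field_simp
  · refine tsum_congr fun k => ?_
    have h : Vk z q (k + 1) * x (k + 1) - pk z q k * (Vk z q k * x k) =
        Vk z q (k + 1) * (x (k + 1) - x k) := by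
      rw [NI_Vk_succ]; unfold pk; ring
    simp only [h, norm_mul, NI_norm_Vk ho.norm_q, cn]
    ring

lemma NI_P2 {z q : ℂ} (ho : Opt z q) (hb : Basics z q) {u : ℂ} (hu : ‖u‖ = 1) (x : ℕ → ℂ)
    (hx : FS x) :
    ‖z‖ ^ 2 * P z q (Drot (q * u) (Top fun k => Vk z q k * x k)) =
      ‖ak z q 0 * ∑' k, pik z q k * x k + ∑' k, ak z q (k + 1) * u ^ (k + 1) * x k‖ ^ 2
      + cn z 0 * ‖u * x 0 - ∑' k, pik z q k * x k‖ ^ 2
      + ∑' k, cn z (k + 1) * ‖u * x (k + 1) - x k‖ ^ 2 := by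
  obtain ⟨N, hN⟩ := hx
  have hz := hb.z_ne
  have hq := hb.q_ne
  -- the functional `π`
  have hpi : -∑' k : ℕ, Vk z q k * x k / ((k + 1)! : ℂ) = z⁻¹ * ∑' k, pik z q k * x k := by
    rw [← tsum_neg, ← tsum_mul_left]
    refine tsum_congr fun k => ?_
    unfold pik
    field_simp
  have hQ : ‖q * u‖ = 1 := by rw [norm_mul, ho.norm_q, hu, one_mul]
  unfold P
  rw [mul_add, add_assoc]
  congr 1
  · -- linear functional
    have hs : (∑' k, ell z q k * Drot (q * u) (Top fun k => Vk z q k * x k) k) =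
        z⁻¹ * (ak z q 0 * ∑' k, pik z q k * x k + ∑' k, ak z q (k + 1) * u ^ (k + 1) * x k) := by
      rw [NI_tsum_FS (N := N + 1), Finset.sum_range_succ']
      · have h0 : ell z q 0 * Drot (q * u) (Top fun k => Vk z q k * x k) 0 =
            z⁻¹ * (ak z q 0 * ∑' k, pik z q k * x k) := by
          simp only [Drot, Top, pow_zero, one_mul]
          rw [hpi]
          simp only [ell, NI_Vk_zero, div_one]
          ring
        have h1 : ∑ k ∈ range N, ell z q (k + 1) *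
            Drot (q * u) (Top fun k => Vk z q k * x k) (k + 1) =
            z⁻¹ * ∑' k, ak z q (k + 1) * u ^ (k + 1) * x k := by
          rw [NI_tsum_FS (N := N) (fun k hk => by rw [hN k hk, mul_zero]), Finset.mul_sum]
          refine Finset.sum_congr rfl fun k _ => ?_
          simp only [Drot, Top, ell]
          have h2 := NI_Vk_ne hz hq k
          rw [NI_Vk_succ, mul_pow]
          field_simp
        rw [h0, h1]
        ring
      · intro k hk
        obtain ⟨j, rfl⟩ : ∃ j, k = j + 1 := ⟨k - 1, by omega⟩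
        simp only [Drot, Top]
        rw [hN j (by omega)]
        ring
    rw [hs, norm_mul, norm_inv, mul_pow, ← mul_assoc, ← mul_pow,
      mul_inv_cancel₀ (norm_ne_zero_iff.mpr hz), one_pow, one_mul]
  · have hterm : ∀ k, ‖z‖ ^ 2 * (ch (k + 1) *
        ‖Drot (q * u) (Top fun k => Vk z q k * x k) (k + 1 + 1) -
          pk z q (k + 1) * Drot (q * u) (Top fun k => Vk z q k * x k) (k + 1)‖ ^ 2) =
        cn z (k + 1) * ‖u * x (k + 1) - x k‖ ^ 2 := by
      intro k
      have h : Drot (q * u) (Top fun k => Vk z q k * x k) (k + 1 + 1) -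
          pk z q (k + 1) * Drot (q * u) (Top fun k => Vk z q k * x k) (k + 1) =
          (q * u) ^ (k + 1) * (q ^ (k + 2) * (z * Vk z q k)) * (u * x (k + 1) - x k) := by
        simp only [Drot, Top, pk]
        rw [NI_Vk_succ]
        ring
      rw [h]
      simp only [norm_mul, norm_pow, NI_norm_Vk ho.norm_q, ho.norm_q, hu, cn]
      ring
    have hterm0 : ‖z‖ ^ 2 * (ch 0 *
        ‖Drot (q * u) (Top fun k => Vk z q k * x k) (0 + 1) -
          pk z q 0 * Drot (q * u) (Top fun k => Vk z q k * x k) 0‖ ^ 2) =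
        cn z 0 * ‖u * x 0 - ∑' k, pik z q k * x k‖ ^ 2 := by
      have h : Drot (q * u) (Top fun k => Vk z q k * x k) (0 + 1) -
          pk z q 0 * Drot (q * u) (Top fun k => Vk z q k * x k) 0 =
          q * (u * x 0 - ∑' k, pik z q k * x k) := by
        simp only [Drot, Top, pk]
        rw [hpi]
        simp only [NI_Vk_zero]
        field_simp
        ring
      rw [h]
      simp only [norm_mul, ho.norm_q, cn]
      ring
    rw [← tsum_mul_left, NI_tsum_FSR (N := N + 1), Finset.sum_range_succ', hterm0, add_comm]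
    · congr 1
      rw [NI_tsum_FSR (N := N)]
      · exact Finset.sum_congr rfl fun k _ => hterm k
      · intro k hk
        rw [hN k hk, hN (k + 1) (by omega)]
        simp
    · intro k hk
      obtain ⟨j, rfl⟩ : ∃ j, k = j + 1 := ⟨k - 1, by omega⟩
      rw [hterm j, hN j (by omega), hN (j + 1) (by omega)]
      simp

/-! ### Summability -/

lemma NI_summable_exp (r : ℝ) (m : ℕ) : Summable fun n : ℕ => r ^ (n + m) / ((n + m)! : ℝ) :=
  (summable_nat_add_iff m).mpr (Real.summable_pow_div_factorial r)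

lemma NI_summable_A {z q : ℂ} (hb : Basics z q) {u : ℂ} (hu : ‖u‖ = 1) :
    Summable fun i : ℕ => Ak z q i * u ^ i := by
  refine Summable.of_norm_bounded ((NI_summable_exp ‖z‖ 2).mul_left 4) fun n => ?_
  rw [norm_mul, norm_pow, hu, one_pow, mul_one]
  refine (hb.norm_Ak n).trans (le_of_eq ?_)
  ring

lemma NI_summable_AA {z q : ℂ} (hb : Basics z q) {u : ℂ} (hu : ‖u‖ = 1) :
    Summable fun i : ℕ => AAk z q i * u ^ i := by
  refine Summable.of_norm_bounded ((NI_summable_exp ‖z‖ 3).mul_left 8) fun n => ?_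
  rw [norm_mul, norm_pow, hu, one_pow, mul_one]
  refine (hb.norm_AAk n).trans (le_of_eq ?_)
  ring

lemma NI_summable_B {z q : ℂ} (hb : Basics z q) {u : ℂ} (hu : ‖u‖ = 1) (j : ℕ) :
    Summable fun i : ℕ => Ak z q (max j i) * u ^ i := by
  rw [← summable_nat_add_iff j]
  have h := (summable_nat_add_iff j).mpr (NI_summable_A hb hu)
  refine h.congr fun i => ?_
  rw [max_eq_right (by omega : j ≤ i + j)]

/-- `ε_1 = m_1 + (u - 1) ε_2`. -/
lemma NI_eps {z q : ℂ} (hb : Basics z q) {u : ℂ} (hu : ‖u‖ = 1) :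
    eps1 z q u = m1 z q + (u - 1) * eps2 z q u := by
  have hA := NI_summable_A hb hu
  have hAA := NI_summable_AA hb hu
  have e1 : eps1 z q u = Ak z q 0 + ∑' i, Ak z q (i + 1) * u ^ (i + 1) := by
    unfold eps1
    rw [hA.tsum_eq_zero_add]
    simp
  have e2 : eps2 z q u = AAk z q 0 + ∑' i, AAk z q (i + 1) * u ^ (i + 1) := by
    unfold eps2
    rw [hAA.tsum_eq_zero_add]
    simp
  have hs1 : Summable fun i : ℕ => AAk z q (i + 1) * u ^ (i + 1) :=
    (summable_nat_add_iff 1).mpr hAA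
  have e3 : ∑' i, Ak z q (i + 1) * u ^ (i + 1) =
      u * eps2 z q u - ∑' i, AAk z q (i + 1) * u ^ (i + 1) := by
    unfold eps2
    rw [← tsum_mul_left, ← (hAA.mul_left u).tsum_sub hs1]
    refine tsum_congr fun i => ?_
    rw [hb.AAk_succ i]
    ring
  rw [e1, e3, hb.m1_eq']
  linear_combination e2

/-- The recursion of `B`. -/
lemma NI_B_rec {z q : ℂ} (hb : Basics z q) {u : ℂ} (hu : ‖u‖ = 1) (j : ℕ) :
    (∑' i : ℕ, Ak z q (max j i) * u ^ i) - ∑' i : ℕ, Ak z q (max (j + 1) i) * u ^ i =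
      ak z q (j + 1) * ∑ i ∈ range (j + 1), u ^ i := by
  rw [← (NI_summable_B hb hu j).tsum_sub (NI_summable_B hb hu (j + 1)),
    NI_tsum_FS (N := j + 1), Finset.mul_sum]
  · refine Finset.sum_congr rfl fun i hi => ?_
    have hi' : i < j + 1 := by simpa using hi
    rw [max_eq_left (by omega : i ≤ j), max_eq_left (by omega : i ≤ j + 1), hb.Ak_succ j]
    ring
  · intro i hi
    rw [max_eq_right (by omega : j ≤ i), max_eq_right hi]
    ring

/-- `∑ a_{k+1} (u^{k+1} - 1) x_k = ε_1 X + (u - 1) ∑ B_j d_j`. -/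
lemma NI_F {z q : ℂ} (hb : Basics z q) {u : ℂ} (hu : ‖u‖ = 1) (x : ℕ → ℂ) (hx : FS x) :
    ∑' k, ak z q (k + 1) * (u ^ (k + 1) - 1) * x k =
      eps1 z q u * ((u - 1) * x 0) + (u - 1) * ∑' j, Bk z q u j * (x (j + 1) - x j) := by
  have h := NI_abel_tsum (fun j => ∑' i : ℕ, Ak z q (max j i) * u ^ i) x hx
  have h1 : ∑' k, ak z q (k + 1) * (u ^ (k + 1) - 1) * x k =
      (u - 1) * ∑' k, ((∑' i : ℕ, Ak z q (max k i) * u ^ i) -
        ∑' i : ℕ, Ak z q (max (k + 1) i) * u ^ i) * x k := by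
    rw [← tsum_mul_left]
    refine tsum_congr fun k => ?_
    rw [NI_B_rec hb hu k, ← mul_geom_sum u (k + 1)]
    ring
  rw [h1, h]
  have h2 : (∑' i : ℕ, Ak z q (max 0 i) * u ^ i) = eps1 z q u := by
    unfold eps1
    refine tsum_congr fun i => ?_
    rw [Nat.zero_max]
  simp only [h2, Bk]
  ring

/-- `∑ a_k x_k = x_0 + ∑ A_j d_j`. -/
lemma NI_alpha {z q : ℂ} (hb : Basics z q) (x : ℕ → ℂ) (hx : FS x) :
    ∑' k, ak z q k * x k = x 0 + ∑' j, Ak z q j * (x (j + 1) - x j) := by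
  have h := NI_abel_tsum (fun j => if j = 0 then 1 else Ak z q (j - 1)) x hx
  have h1 : ∑' k, ak z q k * x k =
      ∑' k, ((fun j => if j = 0 then 1 else Ak z q (j - 1)) k -
        (fun j => if j = 0 then 1 else Ak z q (j - 1)) (k + 1)) * x k := by
    refine tsum_congr fun k => ?_
    rcases k with _ | k
    · simp [hb.Ak_zero]
    · simp only [Nat.add_eq_zero_iff, one_ne_zero, and_false, if_false, Nat.add_sub_cancel]
      rw [hb.Ak_succ k]
      ring
  rw [h1, h]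
  simp

/-- `∑ π_k x_k = x_0 + ∑ Π_{j+1} d_j`. -/
lemma NI_pi {z q : ℂ} (hb : Basics z q) (x : ℕ → ℂ) (hx : FS x) :
    ∑' k, pik z q k * x k = x 0 + ∑' j, Pit z q (j + 1) * (x (j + 1) - x j) := by
  have h := NI_abel_tsum (fun j => Pit z q j) x hx
  have h1 : ∑' k, pik z q k * x k = ∑' k, (Pit z q k - Pit z q (k + 1)) * x k := by
    refine tsum_congr fun k => ?_
    rw [hb.Pit_succ k]
    ring
  rw [h1, h, hb.Pit_zero, one_mul]

/-- `a_0 π(x) + ∑ a_{k+1} u^{k+1} x_k = α + ∑ a_{k+1}(u^{k+1} - 1) x_k`. -/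
lemma NI_sum {z q : ℂ} (hb : Basics z q) (u : ℂ) (x : ℕ → ℂ) (hx : FS x) :
    ak z q 0 * ∑' k, pik z q k * x k + ∑' k, ak z q (k + 1) * u ^ (k + 1) * x k =
      ∑' k, ak z q k * x k + ∑' k, ak z q (k + 1) * (u ^ (k + 1) - 1) * x k := by
  obtain ⟨N, hN⟩ := hx
  rw [NI_tsum_FS (N := N) (fun k hk => by rw [hN k hk, mul_zero]),
    NI_tsum_FS (f := fun k => ak z q (k + 1) * u ^ (k + 1) * x k) (N := N)
      (fun k hk => by rw [hN k hk, mul_zero]),
    NI_tsum_FS (f := fun k => ak z q k * x k) (N := N) (fun k hk => by rw [hN k hk, mul_zero]),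
    NI_tsum_FS (f := fun k => ak z q (k + 1) * (u ^ (k + 1) - 1) * x k) (N := N)
      (fun k hk => by rw [hN k hk, mul_zero]),
    Finset.mul_sum, ← Finset.sum_add_distrib, ← Finset.sum_add_distrib]
  refine Finset.sum_congr rfl fun k _ => ?_
  rw [hb.ak_succ k]
  ring

/-! ### The final algebraic identity -/

lemma NI_algebra (u x0 A e1 e2 m B : ℂ) (hu : ‖u‖ = 1) (hm : m.im = 0)
    (he : e1 = m + (u - 1) * e2) :
    ‖x0 + A‖ ^ 2 - ‖x0 + A + (e1 * ((u - 1) * x0) + (u - 1) * B)‖ ^ 2 =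
      ‖(u - 1) * x0‖ ^ 2 * (m.re + 2 * (u * e2).re)
      + 2 * ((starRingEnd ℂ) ((u - 1) * x0) * u * B).re
      - 2 * ((starRingEnd ℂ) A * (e1 * ((u - 1) * x0) + (u - 1) * B)).re
      - ‖e1 * ((u - 1) * x0) + (u - 1) * B‖ ^ 2 := by
  have hu2 : u.re * u.re + u.im * u.im = 1 := by
    have := Complex.normSq_apply u
    rw [Complex.normSq_eq_norm_sq, hu] at this
    linarith
  subst he
  simp only [← Complex.normSq_eq_norm_sq, Complex.normSq_apply, Complex.add_re, Complex.add_im,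
    Complex.mul_re, Complex.mul_im, Complex.sub_re, Complex.sub_im, Complex.one_re, Complex.one_im,
    Complex.conj_re, Complex.conj_im, hm]
  linear_combination (-(2 * (x0.re * B.re + x0.im * B.im) +
    (x0.re * x0.re + x0.im * x0.im) * m.re +
    2 * (x0.re * x0.re + x0.im * x0.im) * ((u.re - 1) * e2.re - u.im * e2.im))) * hu2

/-! ### The near identity -/

theorem tNearId : TNearId := by
  intro z q ho hb u hu x hx
  rw [NI_P1 ho hb x, NI_P2 ho hb hu x hx, NI_sum hb u x hx, NI_F hb hu x hx, NI_alpha hb x hx,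
    NI_pi hb x hx]
  obtain ⟨N, hN⟩ := hx
  have hsum : (∑' k, cn z k * ‖x (k + 1) - x k‖ ^ 2) -
      ∑' k, cn z (k + 1) * ‖u * x (k + 1) - x k‖ ^ 2 =
      ∑' k : ℕ, (cn z k * ‖x (k + 1) - x k‖ ^ 2 - cn z (k + 1) *
        ‖(u - 1) * x 0 + (u - 1) * ∑ j ∈ range (k + 1), (x (j + 1) - x j) +
          (x (k + 1) - x k)‖ ^ 2) := by
    have h1 : ∀ k, (u - 1) * x 0 + (u - 1) * ∑ j ∈ range (k + 1), (x (j + 1) - x j) +
        (x (k + 1) - x k) = u * x (k + 1) - x k := by
      intro k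
      rw [Finset.sum_range_sub]
      ring
    simp only [h1]
    rw [NI_tsum_FSR (N := N), NI_tsum_FSR (f := fun k => cn z (k + 1) *
      ‖u * x (k + 1) - x k‖ ^ 2) (N := N), NI_tsum_FSR (N := N), Finset.sum_sub_distrib]
    all_goals
      intro k hk
      simp only [hN k hk, hN (k + 1) (by omega)]
      simp
  have halg := NI_algebra u (x 0) (∑' j, Ak z q j * (x (j + 1) - x j)) (eps1 z q u)
    (eps2 z q u) (m1 z q) (∑' j, Bk z q u j * (x (j + 1) - x j)) hu ho.crit (NI_eps hb hu)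
  have hc0 : u * x 0 - (x 0 + ∑' j, Pit z q (j + 1) * (x (j + 1) - x j)) =
      (u - 1) * x 0 - ∑' j, Pit z q (j + 1) * (x (j + 1) - x j) := by ring
  unfold NearFull
  rw [← hsum, hc0]
  linarith [halg]

end

end Pool.Agent.Whit
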