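import Pool.Agent.Whit.NearData

/-!
# Kernel checks of the near grid points
-/

namespace Pool.Agent.Whit.Eng

set_option maxRecDepth 10000

theorem nc0 : nearPt 0 = true := by decide +kernel
theorem nc1 : nearPt 1 = true := by decide +kernel
theorem nc2 : nearPt 2 = true := by decide +kernel
theorem nc3 : nearPt 3 = true := by decide +kernel
theorem nc4 : nearPt 4 = true := by decide +kernel
theorem nc5 : nearPt 5 = true := by decide +kernel
theorem nc6 : nearPt 6 = true := by decide +kernel
theorem nc7 : nearPt 7 = true := by decide +kernel
theorem nc8 : nearPt 8 = true := by decide +kernel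
theorem nc9 : nearPt 9 = true := by decide +kernel
theorem nc10 : nearPt 10 = true := by decide +kernel
theorem nc11 : nearPt 11 = true := by decide +kernel
theorem nc12 : nearPt 12 = true := by decide +kernel
theorem nc13 : nearPt 13 = true := by decide +kernel
theorem nc14 : nearPt 14 = true := by decide +kernel
theorem nc15 : nearPt 15 = true := by decide +kernel
theorem nc16 : nearPt 16 = true := by decide +kernel

end Pool.Agent.Whit.Eng
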