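import Pool.Agent.Whit.NearT
import Pool.Agent.Whit.NearC

/-!
# NM: positivity of the main part in the near zone
-/

namespace Pool.Agent.Whit

open Eng

theorem Eng.nc (i : ℕ) (hi : i < 17) : nearPt i = true := by
  interval_cases i
  · exact nc0
  · exact nc1
  · exact nc2
  · exact nc3
  · exact nc4
  · exact nc5
  · exact nc6
  · exact nc7
  · exact nc8
  · exact nc9
  · exact nc10
  · exact nc11
  · exact nc12
  · exact nc13
  · exact nc14
  · exact nc15
  · exact nc16

/-- NM. -/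
theorem tNearMain : TNearMain := by
  intro z q _ _ hE s hs X d
  obtain ⟨h0, h1⟩ := abs_le.mp hs
  obtain ⟨i, hi, τ, t0, t1, hθ⟩ : ∃ i : ℕ, i < 16 ∧ ∃ τ : ℝ, 0 ≤ τ ∧ τ ≤ 1 ∧
      s = (((-8 + i : ℤ) : ℝ) + τ) / 16 := by
    by_cases hend : s < 1 / 2
    · refine ⟨⌊16 * s + 8⌋₊, ?_, 16 * s + 8 - ⌊16 * s + 8⌋₊, ?_, ?_, ?_⟩
      · rw [Nat.floor_lt (by linarith)]
        push_cast
        linarith
      · have := Nat.floor_le (show 0 ≤ 16 * s + 8 by linarith)
        linarith
      · have := Nat.lt_floor_add_one (16 * s + 8)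
        linarith
      · push_cast
        ring
    · refine ⟨15, by norm_num, 1, by norm_num, le_refl _, ?_⟩
      push_cast
      linarith
  have c0 := nc i (by omega)
  have c1 := nc (i + 1) (by omega)
  unfold nearPt at c0 c1
  have e : (-8 + ((i + 1 : ℕ) : ℤ)) = (-8 + (i : ℤ)) + 1 := by push_cast; ring
  rw [e] at c1
  have ep : pt (-8 + i) τ = Complex.exp (s * Complex.I) := by
    unfold pt
    rw [hθ]
  have hu1 : ‖pt (-8 + i) τ - 1‖ ≤ 1 := by
    rw [ep, mul_comm]
    refine (Real.norm_exp_I_mul_ofReal_sub_one_le (x := s)).trans ?_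
    rw [Real.norm_eq_abs]
    linarith
  have := near_cell hE (-8 + i) (by rw [abs_le]; constructor <;> omega) c0 c1 τ t0 t1 hu1 X d
  rw [ep] at this
  exact this

end Pool.Agent.Whit
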