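import Pool.Agent.Whit.Spec

/-!
# The Whittaker constant: tail estimate for the near form
-/

namespace Pool.Agent.Whit

open scoped Nat ComplexConjugate
open Finset

namespace NT

/-- Perturbation of the finite part of the near form. -/
lemma core1 (X a a' b b' p p' e1 u η : ℂ) (c0 T s : ℝ) (hu : ‖u‖ = 1) (hη : ‖η‖ ≤ 1 / 2)
    (hc0 : 0 ≤ c0) (hc0' : c0 ≤ 1 / 10) (he1 : ‖e1‖ ≤ 1) (ha : ‖a‖ ≤ s) (hb : ‖b‖ ≤ s)
    (hp : ‖p‖ ≤ s) (ha' : ‖a'‖ ≤ T) (hb' : ‖b'‖ ≤ T) (hp' : ‖p'‖ ≤ T) (hs : 0 ≤ s) (hT : 0 ≤ T) :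
    2 * (conj X * u * b).re - 2 * (conj a * (e1 * X + η * b)).re - ‖e1 * X + η * b‖ ^ 2
      - c0 * ‖X - p‖ ^ 2 - (7 * (‖X‖ + s) * T + 2 * T ^ 2) ≤
    2 * (conj X * u * (b + b')).re - 2 * (conj (a + a') * (e1 * X + η * (b + b'))).re
      - ‖e1 * X + η * (b + b')‖ ^ 2 - c0 * ‖X - (p + p')‖ ^ 2 := by
  have hX := norm_nonneg X
  set F := e1 * X + η * b with hF
  have hFn : ‖F‖ ≤ ‖X‖ + s / 2 := by
    have h1 : ‖F‖ ≤ ‖e1 * X‖ + ‖η * b‖ := norm_add_le _ _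
    rw [norm_mul, norm_mul] at h1
    have h2 : ‖e1‖ * ‖X‖ ≤ 1 * ‖X‖ := mul_le_mul_of_nonneg_right he1 hX
    have h3 : ‖η‖ * ‖b‖ ≤ 1 / 2 * s := mul_le_mul hη hb (norm_nonneg _) (by norm_num)
    linarith
  have hF' : e1 * X + η * (b + b') = F + η * b' := by rw [hF]; ring
  rw [hF']
  have hw : ‖η * b'‖ ≤ T / 2 := by
    rw [norm_mul]
    have h3 : ‖η‖ * ‖b'‖ ≤ 1 / 2 * T := mul_le_mul hη hb' (norm_nonneg _) (by norm_num)
    linarith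
  have hF0 := norm_nonneg F
  -- term 1
  have t1 : -(‖X‖ * T) ≤ (conj X * u * b').re := by
    have h1 : |(conj X * u * b').re| ≤ ‖conj X * u * b'‖ := Complex.abs_re_le_norm _
    have h2 : ‖conj X * u * b'‖ ≤ ‖X‖ * T := by
      rw [norm_mul, norm_mul, hu, RCLike.norm_conj, mul_one]
      exact mul_le_mul_of_nonneg_left hb' hX
    have := abs_le.1 (h1.trans h2)
    exact this.1
  have e1' : (conj X * u * (b + b')).re = (conj X * u * b).re + (conj X * u * b').re := by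
    rw [mul_add, Complex.add_re]
  -- term 2
  have t2 : (conj a * (η * b')).re ≤ s * (T / 2) := by
    have h1 : |(conj a * (η * b')).re| ≤ ‖conj a * (η * b')‖ := Complex.abs_re_le_norm _
    have h2 : ‖conj a * (η * b')‖ ≤ s * (T / 2) := by
      rw [norm_mul, RCLike.norm_conj]
      exact mul_le_mul ha hw (norm_nonneg _) hs
    exact (abs_le.1 (h1.trans h2)).2
  have t3 : (conj a' * F).re ≤ T * (‖X‖ + s / 2) := by
    have h1 : |(conj a' * F).re| ≤ ‖conj a' * F‖ := Complex.abs_re_le_norm _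
    have h2 : ‖conj a' * F‖ ≤ T * (‖X‖ + s / 2) := by
      rw [norm_mul, RCLike.norm_conj]
      exact mul_le_mul ha' hFn (norm_nonneg _) hT
    exact (abs_le.1 (h1.trans h2)).2
  have t4 : (conj a' * (η * b')).re ≤ T * (T / 2) := by
    have h1 : |(conj a' * (η * b')).re| ≤ ‖conj a' * (η * b')‖ := Complex.abs_re_le_norm _
    have h2 : ‖conj a' * (η * b')‖ ≤ T * (T / 2) := by
      rw [norm_mul, RCLike.norm_conj]
      exact mul_le_mul ha' hw (norm_nonneg _) hT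
    exact (abs_le.1 (h1.trans h2)).2
  have e2' : (conj (a + a') * (F + η * b')).re =
      (conj a * F).re + (conj a * (η * b')).re + (conj a' * F).re + (conj a' * (η * b')).re := by
    rw [map_add]
    have : (conj a + conj a') * (F + η * b') =
      conj a * F + conj a * (η * b') + conj a' * F + conj a' * (η * b') := by ring
    rw [this, Complex.add_re, Complex.add_re, Complex.add_re]
  -- term 3
  have t5 : ‖F + η * b'‖ ^ 2 ≤ ‖F‖ ^ 2 + (‖X‖ + s / 2) * T + T ^ 2 / 4 := by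
    have h1 : ‖F + η * b'‖ ≤ ‖F‖ + T / 2 := (norm_add_le _ _).trans (by linarith)
    have h2 : ‖F + η * b'‖ ^ 2 ≤ (‖F‖ + T / 2) ^ 2 :=
      pow_le_pow_left₀ (norm_nonneg _) h1 2
    have h3 : ‖F‖ * T ≤ (‖X‖ + s / 2) * T := mul_le_mul_of_nonneg_right hFn hT
    nlinarith
  -- term 4
  have t6 : ‖X - (p + p')‖ ^ 2 ≤ ‖X - p‖ ^ 2 + 2 * (‖X‖ + s) * T + T ^ 2 := by
    have h1 : ‖X - (p + p')‖ ≤ ‖X - p‖ + T := by
      have : X - (p + p') = (X - p) - p' := by ring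
      rw [this]
      exact (norm_sub_le _ _).trans (by linarith)
    have h0 : ‖X - p‖ ≤ ‖X‖ + s := (norm_sub_le _ _).trans (by linarith)
    have h2 : ‖X - (p + p')‖ ^ 2 ≤ (‖X - p‖ + T) ^ 2 :=
      pow_le_pow_left₀ (norm_nonneg _) h1 2
    have h3 : ‖X - p‖ * T ≤ (‖X‖ + s) * T := mul_le_mul_of_nonneg_right h0 hT
    nlinarith
  have t6' : c0 * ‖X - (p + p')‖ ^ 2 ≤ c0 * ‖X - p‖ ^ 2 + 1 / 10 * (2 * (‖X‖ + s) * T + T ^ 2) := by
    have h1 := mul_le_mul_of_nonneg_left t6 hc0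
    have h2 : c0 * (2 * (‖X‖ + s) * T + T ^ 2) ≤ 1 / 10 * (2 * (‖X‖ + s) * T + T ^ 2) :=
      mul_le_mul_of_nonneg_right hc0' (by positivity)
    linarith
  rw [e1', e2']
  have hXT : 0 ≤ ‖X‖ * T := mul_nonneg hX hT
  have hsT : 0 ≤ s * T := mul_nonneg hs hT
  have hTT : 0 ≤ T ^ 2 := sq_nonneg T
  nlinarith

/-- Sum of a geometric sequence over an interval. -/
lemma geo_Ico (c : ℝ) (hc : 0 ≤ c) (N : ℕ) :
    ∑ j ∈ Ico 8 N, c * (16 / 121 : ℝ) ^ (j - 8) ≤ c * (121 / 105) := by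
  rcases Nat.lt_or_ge N 8 with h | h
  · rw [Ico_eq_empty (by omega)]; simp; positivity
  · obtain ⟨n, rfl⟩ := Nat.exists_eq_add_of_le h
    have : ∀ n : ℕ, ∑ j ∈ Ico 8 (8 + n), c * (16 / 121 : ℝ) ^ (j - 8) =
        c * (121 / 105) * (1 - (16 / 121 : ℝ) ^ n) := by
      intro n
      induction n with
      | zero => simp
      | succ n ih =>
        rw [← add_assoc, sum_Ico_succ_top (by omega), ih]
        have : 8 + n - 8 = n := by omega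
        rw [this, pow_succ]
        ring
    rw [this]
    have h1 : (0 : ℝ) ≤ (16 / 121 : ℝ) ^ n := by positivity
    have h2 : 0 ≤ c * (121 / 105) := by positivity
    nlinarith

lemma ch_eight_add (i : ℕ) : ch (8 + i) = 135 / 1000 * (28 / 100) ^ 8 * (1 / 16) ^ i := by
  unfold ch
  have h1 : min (8 + i) 8 = 8 := by omega
  have h2 : 8 + i - 8 = i := by omega
  rw [h1, h2]

lemma ch_pos (k : ℕ) : 0 < ch k := by unfold ch; positivity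

lemma cn_pos {z : ℂ} (hz : 0 < ‖z‖) (k : ℕ) : 0 < cn z k := by
  unfold cn; have := ch_pos k; positivity

lemma cn_nonneg (z : ℂ) (k : ℕ) : 0 ≤ cn z k := by
  unfold cn; have := (ch_pos k).le; positivity

lemma cn_succ (z : ℂ) (k : ℕ) (hk : 8 ≤ k) : cn z (k + 1) = ‖z‖ ^ 2 / 16 * cn z k := by
  obtain ⟨i, rfl⟩ := Nat.exists_eq_add_of_le hk
  unfold cn
  rw [ch_eight_add, show 8 + i + 1 = 8 + (i + 1) by ring, ch_eight_add]
  ring

/-- Pointwise comparison of the coefficients with the weights. -/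
lemma coeff_sq {z : ℂ} (hz1 : 7377 / 10000 ≤ ‖z‖) (hz2 : ‖z‖ ≤ 7378 / 10000) (f : ℂ) (j : ℕ)
    (hj : 8 ≤ j) (hf : ‖f‖ ≤ 3 / 2 * (‖z‖ ^ (j + 2) / ((j + 2)! : ℝ))) :
    ‖f‖ ^ 2 ≤ cn z j * (19 / 10 ^ 9 * (16 / 121 : ℝ) ^ (j - 8)) := by
  obtain ⟨i, rfl⟩ := Nat.exists_eq_add_of_le hj
  have hz : 0 < ‖z‖ := by linarith
  have hfac : ((10 ! : ℕ) : ℝ) * 11 ^ i ≤ ((8 + i + 2)! : ℝ) := by
    have h := @Nat.factorial_mul_pow_le_factorial 10 i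
    have h2 : 10 + i = 8 + i + 2 := by ring
    rw [h2] at h
    exact_mod_cast h
  have hF : (0 : ℝ) < ((8 + i + 2)! : ℝ) := by exact_mod_cast Nat.factorial_pos _
  have h1 : ‖f‖ ^ 2 ≤ (3 / 2 * (‖z‖ ^ (8 + i + 2) / ((8 + i + 2)! : ℝ))) ^ 2 :=
    pow_le_pow_left₀ (norm_nonneg _) hf 2
  refine h1.trans ?_
  unfold cn
  rw [ch_eight_add]
  have h8 : 8 + i - 8 = i := by omega
  rw [h8]
  have e1 : (3 / 2 * (‖z‖ ^ (8 + i + 2) / ((8 + i + 2)! : ℝ))) ^ 2 =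
      ‖z‖ ^ (2 * (8 + i + 1)) * (9 / 4 * ‖z‖ ^ 2 / ((8 + i + 2)! : ℝ) ^ 2) := by
    field_simp
    ring
  have e2 : 135 / 1000 * (28 / 100 : ℝ) ^ 8 * (1 / 16) ^ i * ‖z‖ ^ (2 * (8 + i + 1)) *
      (19 / 10 ^ 9 * (16 / 121 : ℝ) ^ i) =
      ‖z‖ ^ (2 * (8 + i + 1)) * (135 / 1000 * (28 / 100 : ℝ) ^ 8 * (19 / 10 ^ 9) *
        ((1 / 16) ^ i * (16 / 121 : ℝ) ^ i)) := by ring
  rw [e1, e2]
  apply mul_le_mul_of_nonneg_left _ (by positivity)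
  rw [← mul_pow]
  have h3 : ((1 : ℝ) / 16 * (16 / 121)) ^ i = 1 / 121 ^ i := by
    rw [show (1 : ℝ) / 16 * (16 / 121) = 1 / 121 by norm_num, one_div_pow]
  rw [h3, div_le_iff₀ (by positivity)]
  have h4 : (((10 ! : ℕ) : ℝ) * 11 ^ i) ^ 2 ≤ ((8 + i + 2)! : ℝ) ^ 2 :=
    pow_le_pow_left₀ (by positivity) hfac 2
  have h5 : (((10 ! : ℕ) : ℝ) * 11 ^ i) ^ 2 = ((10 ! : ℕ) : ℝ) ^ 2 * 121 ^ i := by
    rw [mul_pow, ← pow_mul, mul_comm i 2, pow_mul]; norm_num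
  rw [h5] at h4
  have h6 : 135 / 1000 * (28 / 100 : ℝ) ^ 8 * (19 / 10 ^ 9) * (1 / 121 ^ i) *
      (((10 ! : ℕ) : ℝ) ^ 2 * 121 ^ i) ≤
      135 / 1000 * (28 / 100 : ℝ) ^ 8 * (19 / 10 ^ 9) * (1 / 121 ^ i) * ((8 + i + 2)! : ℝ) ^ 2 :=
    mul_le_mul_of_nonneg_left h4 (by positivity)
  refine le_trans ?_ h6
  have h7 : 135 / 1000 * (28 / 100 : ℝ) ^ 8 * (19 / 10 ^ 9) * (1 / 121 ^ i) *
      (((10 ! : ℕ) : ℝ) ^ 2 * 121 ^ i) =
      135 / 1000 * (28 / 100 : ℝ) ^ 8 * (19 / 10 ^ 9) * ((10 ! : ℕ) : ℝ) ^ 2 := by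
    have : (121 : ℝ) ^ i ≠ 0 := by positivity
    field_simp
  rw [h7]
  have h8 : ((10 ! : ℕ) : ℝ) = 3628800 := by norm_num [Nat.factorial]
  rw [h8]
  nlinarith

/-- Cauchy-Schwarz for the tails. -/
lemma tail_bound {z : ℂ} (hz1 : 7377 / 10000 ≤ ‖z‖) (hz2 : ‖z‖ ≤ 7378 / 10000) (f d : ℕ → ℂ)
    (N : ℕ) (hf : ∀ j, 8 ≤ j → ‖f j‖ ≤ 3 / 2 * (‖z‖ ^ (j + 2) / ((j + 2)! : ℝ))) (T : ℝ)
    (hT : 0 ≤ T) (hT2 : ∑ j ∈ Ico 8 N, cn z j * ‖d j‖ ^ 2 = T ^ 2) :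
    ‖∑ j ∈ Ico 8 N, f j * d j‖ ≤ 3 / 20000 * T := by
  have hz : 0 < ‖z‖ := by linarith
  refine le_of_sq_le_sq ?_ (by positivity)
  · have h1 : ‖∑ j ∈ Ico 8 N, f j * d j‖ ≤ ∑ j ∈ Ico 8 N, ‖f j‖ * ‖d j‖ := by
      refine (norm_sum_le _ _).trans (le_of_eq ?_)
      exact sum_congr rfl fun j _ => norm_mul _ _
    have h2 : ‖∑ j ∈ Ico 8 N, f j * d j‖ ^ 2 ≤ (∑ j ∈ Ico 8 N, ‖f j‖ * ‖d j‖) ^ 2 :=
      pow_le_pow_left₀ (norm_nonneg _) h1 2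
    have h3 : (∑ j ∈ Ico 8 N, ‖f j‖ * ‖d j‖) ^ 2 ≤
        (∑ j ∈ Ico 8 N, 19 / 10 ^ 9 * (16 / 121 : ℝ) ^ (j - 8)) *
          ∑ j ∈ Ico 8 N, cn z j * ‖d j‖ ^ 2 := by
      apply Finset.sum_sq_le_sum_mul_sum_of_sq_le_mul
      · intro j _; positivity
      · intro j _; have := cn_nonneg z j; positivity
      · intro j hj
        have hj8 : 8 ≤ j := (mem_Ico.1 hj).1
        have := coeff_sq hz1 hz2 (f j) j hj8 (hf j hj8)
        rw [mul_pow]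
        have h5 := mul_le_mul_of_nonneg_right this (sq_nonneg ‖d j‖)
        linarith
    have h4 := geo_Ico (19 / 10 ^ 9) (by positivity) N
    rw [hT2] at h3
    have h5 : (∑ j ∈ Ico 8 N, 19 / 10 ^ 9 * (16 / 121 : ℝ) ^ (j - 8)) * T ^ 2 ≤
        19 / 10 ^ 9 * (121 / 105) * T ^ 2 := mul_le_mul_of_nonneg_right h4 (sq_nonneg _)
    have h6 : (19 / 10 ^ 9 * (121 / 105) : ℝ) * T ^ 2 ≤ (3 / 20000 * T) ^ 2 := by
      have := sq_nonneg T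
      nlinarith
    linarith

/-- `om^(i+2)/(i+2)!` is dominated by a geometric sequence. -/
lemma term_le {om : ℝ} (h0 : 0 ≤ om) (i : ℕ) :
    om ^ (i + 2) / ((i + 2)! : ℝ) ≤ om ^ 2 / 2 * (om / 3) ^ i := by
  have h := @Nat.factorial_mul_pow_le_factorial 2 i
  have h2 : (2 : ℝ) * 3 ^ i ≤ ((i + 2)! : ℝ) := by
    have h3 : 2 + i = i + 2 := by ring
    rw [h3] at h
    have : ((2 ! * (2 + 1) ^ i : ℕ) : ℝ) ≤ ((i + 2)! : ℝ) := by exact_mod_cast h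
    simpa [Nat.factorial] using this
  have h4 : om ^ 2 / 2 * (om / 3) ^ i = om ^ (i + 2) / (2 * 3 ^ i) := by
    rw [div_pow]; field_simp; ring
  rw [h4]
  exact div_le_div_of_nonneg_left (by positivity) (by positivity) h2

lemma summable_term {om : ℝ} (h0 : 0 ≤ om) (h1 : om < 1) :
    Summable fun i : ℕ => om ^ (i + 2) / ((i + 2)! : ℝ) := by
  apply Summable.of_nonneg_of_le (fun i => by positivity) (fun i => term_le h0 i)
  exact (summable_geometric_of_lt_one (by positivity) (by linarith)).mul_left _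

lemma norm_eps1 {z q u : ℂ} (hz1 : 7377 / 10000 ≤ ‖z‖) (hz2 : ‖z‖ ≤ 7378 / 10000)
    (hA : ∀ n, ‖Ak z q n‖ ≤ 3 / 2 * (‖z‖ ^ (n + 2) / ((n + 2)! : ℝ))) (hu : ‖u‖ = 1) :
    ‖eps1 z q u‖ ≤ 1 := by
  have hz : 0 < ‖z‖ := by linarith
  have hb : ∀ i, ‖Ak z q i * u ^ i‖ ≤ 3 / 4 * ‖z‖ ^ 2 * (‖z‖ / 3) ^ i := by
    intro i
    rw [norm_mul, norm_pow, hu, one_pow, mul_one]
    have := term_le hz.le i
    have := hA i
    linarith
  have hs : Summable fun i : ℕ => 3 / 4 * ‖z‖ ^ 2 * (‖z‖ / 3) ^ i :=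
    (summable_geometric_of_lt_one (by positivity) (by linarith)).mul_left _
  have hsn : Summable fun i => ‖Ak z q i * u ^ i‖ :=
    Summable.of_nonneg_of_le (fun i => norm_nonneg _) hb hs
  unfold eps1
  refine (norm_tsum_le_tsum_norm hsn).trans ((hsn.tsum_le_tsum hb hs).trans ?_)
  rw [tsum_mul_left, tsum_geometric_of_lt_one (by positivity) (by linarith)]
  rw [← div_eq_mul_inv, div_le_one (by linarith)]
  nlinarith

lemma norm_Bk {z q u : ℂ} (hz1 : 7377 / 10000 ≤ ‖z‖) (hz2 : ‖z‖ ≤ 7378 / 10000)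
    (hA : ∀ n, ‖Ak z q n‖ ≤ 3 / 2 * (‖z‖ ^ (n + 2) / ((n + 2)! : ℝ))) (hu : ‖u‖ = 1) (j : ℕ) :
    ‖Bk z q u j‖ ≤ 3 / 2 * (‖z‖ ^ (j + 2) / ((j + 2)! : ℝ)) := by
  have hz : 0 < ‖z‖ := by linarith
  have hF : (0 : ℝ) < ((j + 2)! : ℝ) := by exact_mod_cast Nat.factorial_pos _
  set K : ℝ := ‖z‖ ^ (j + 2) / ((j + 2)! : ℝ) with hK
  have hK0 : 0 < K := by positivity
  have hj3 : (0 : ℝ) < (j : ℝ) + 3 := by positivity
  -- first terms
  have hb1 : ∀ i, i < j + 2 → ‖Ak z q (max (j + 1) i) * u ^ i‖ ≤ 3 / 2 * (K * (‖z‖ / (j + 3))) := by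
    intro i hi
    have hm : max (j + 1) i = j + 1 := by omega
    rw [norm_mul, norm_pow, hu, one_pow, mul_one, hm]
    refine (hA (j + 1)).trans (le_of_eq ?_)
    rw [hK, show j + 1 + 2 = (j + 2) + 1 by ring, Nat.factorial_succ]
    push_cast
    rw [pow_succ]
    field_simp
    ring
  have hb2 : ∀ m, ‖Ak z q (max (j + 1) (m + (j + 2))) * u ^ (m + (j + 2))‖ ≤
      3 / 2 * (K * (‖z‖ ^ 2 / (4 * (j + 3)))) * (‖z‖ / 4) ^ m := by
    intro m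
    have hm : max (j + 1) (m + (j + 2)) = m + (j + 2) := by omega
    rw [norm_mul, norm_pow, hu, one_pow, mul_one, hm]
    refine (hA _).trans ?_
    have hfac : ((j + 2)! : ℝ) * (j + 3) * 4 ^ (m + 1) ≤ ((m + (j + 2) + 2)! : ℝ) := by
      have h := @Nat.factorial_mul_pow_le_factorial (j + 3) (m + 1)
      have h2 : (j + 3) + (m + 1) = m + (j + 2) + 2 := by ring
      rw [h2] at h
      have h3 : (((j + 3)! * (j + 3 + 1) ^ (m + 1) : ℕ) : ℝ) ≤ ((m + (j + 2) + 2)! : ℝ) := by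
        exact_mod_cast h
      refine le_trans ?_ h3
      rw [show (j + 3)! = (j + 3) * (j + 2)! from Nat.factorial_succ (j + 2)]
      push_cast
      have h4 : (4 : ℝ) ^ (m + 1) ≤ ((j : ℝ) + 3 + 1) ^ (m + 1) :=
        pow_le_pow_left₀ (by norm_num) (by have : (0:ℝ) ≤ j := Nat.cast_nonneg j; linarith) _
      have h5 := mul_le_mul_of_nonneg_left h4
        (show (0 : ℝ) ≤ ((j : ℝ) + 3) * ((j + 2)! : ℝ) by positivity)
      linarith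
    have e : (3 / 2 * (K * (‖z‖ ^ 2 / (4 * (j + 3)))) * (‖z‖ / 4) ^ m) =
        3 / 2 * (‖z‖ ^ (m + (j + 2) + 2) / (((j + 2)! : ℝ) * (j + 3) * 4 ^ (m + 1))) := by
      rw [hK, div_pow, pow_succ, pow_add, pow_add]
      field_simp
      ring
    rw [e]
    apply mul_le_mul_of_nonneg_left _ (by norm_num)
    exact div_le_div_of_nonneg_left (by positivity) (by positivity) hfac
  have hs2 : Summable fun m : ℕ => 3 / 2 * (K * (‖z‖ ^ 2 / (4 * (j + 3)))) * (‖z‖ / 4) ^ m :=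
    (summable_geometric_of_lt_one (by positivity) (by linarith)).mul_left _
  have hs3 : Summable fun m : ℕ =>
      ‖Ak z q (max (j + 1) (m + (j + 2))) * u ^ (m + (j + 2))‖ :=
    Summable.of_nonneg_of_le (fun _ => norm_nonneg _) hb2 hs2
  have hs : Summable fun i : ℕ => ‖Ak z q (max (j + 1) i) * u ^ i‖ :=
    (summable_nat_add_iff (j + 2)).1 hs3
  unfold Bk
  refine (norm_tsum_le_tsum_norm hs).trans ?_
  rw [← hs.sum_add_tsum_nat_add (j + 2)]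
  have h1 : ∑ i ∈ range (j + 2), ‖Ak z q (max (j + 1) i) * u ^ i‖ ≤
      (j + 2) * (3 / 2 * (K * (‖z‖ / (j + 3)))) := by
    refine (sum_le_sum fun i hi => hb1 i (mem_range.1 hi)).trans (le_of_eq ?_)
    rw [sum_const, card_range, nsmul_eq_mul]
    push_cast
    ring
  have h2 : ∑' m : ℕ, ‖Ak z q (max (j + 1) (m + (j + 2))) * u ^ (m + (j + 2))‖ ≤
      3 / 2 * (K * (‖z‖ ^ 2 / (4 * (j + 3)))) * (1 - ‖z‖ / 4)⁻¹ := by
    refine (hs3.tsum_le_tsum hb2 hs2).trans (le_of_eq ?_)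
    rw [tsum_mul_left, tsum_geometric_of_lt_one (by positivity) (by linarith)]
  have h3 : (1 - ‖z‖ / 4)⁻¹ ≤ 5 / 4 := by
    rw [inv_le_comm₀ (by linarith) (by norm_num)]
    linarith
  have h4 : 3 / 2 * (K * (‖z‖ ^ 2 / (4 * (j + 3)))) * (1 - ‖z‖ / 4)⁻¹ ≤
      3 / 2 * (K * (‖z‖ ^ 2 / (4 * (j + 3)))) * (5 / 4) :=
    mul_le_mul_of_nonneg_left h3 (by positivity)
  have h5 : (j + 2) * (3 / 2 * (K * (‖z‖ / (j + 3)))) +
      3 / 2 * (K * (‖z‖ ^ 2 / (4 * (j + 3)))) * (5 / 4) =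
      3 / 2 * K * (((j + 2) * ‖z‖ + 5 / 16 * ‖z‖ ^ 2) / (j + 3)) := by
    field_simp
    ring
  have h6 : ((j + 2) * ‖z‖ + 5 / 16 * ‖z‖ ^ 2) / ((j : ℝ) + 3) ≤ 1 := by
    rw [div_le_one hj3]
    have hj : (0 : ℝ) ≤ j := Nat.cast_nonneg j
    have h7 : ((j : ℝ) + 2) * ‖z‖ ≤ (j + 2) * (7378 / 10000) :=
      mul_le_mul_of_nonneg_left hz2 (by positivity)
    have h8 : ‖z‖ ^ 2 ≤ 1 := by nlinarith
    nlinarith
  have h9 : 3 / 2 * K * (((j + 2) * ‖z‖ + 5 / 16 * ‖z‖ ^ 2) / (j + 3)) ≤ 3 / 2 * K * 1 :=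
    mul_le_mul_of_nonneg_left h6 (by positivity)
  linarith

/-- Pointwise inequality for the difference terms. -/
lemma pointwise (Y d u : ℂ) (th : ℝ) (hth0 : 0 ≤ th) (hth : th ≤ 35 / 1000) (hu : ‖u‖ = 1)
    (hη : ‖u - 1‖ ≤ 1 / 2) :
    1 / 8 * (th * ‖Y + (u - 1) * d‖ ^ 2 - ‖Y‖ ^ 2) + 9 / 10 * ‖d‖ ^ 2 ≤
      ‖d‖ ^ 2 - th * ‖Y + u * d‖ ^ 2 := by
  have hY := norm_nonneg Y
  have hd := norm_nonneg d
  have h1 : ‖Y + u * d‖ ^ 2 ≤ 2 * ‖Y‖ ^ 2 + 2 * ‖d‖ ^ 2 := by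
    have h : ‖Y + u * d‖ ≤ ‖Y‖ + ‖d‖ := by
      refine (norm_add_le _ _).trans ?_
      rw [norm_mul, hu, one_mul]
    have h2 : ‖Y + u * d‖ ^ 2 ≤ (‖Y‖ + ‖d‖) ^ 2 := pow_le_pow_left₀ (norm_nonneg _) h 2
    nlinarith [sq_nonneg (‖Y‖ - ‖d‖)]
  have h2 : ‖Y + (u - 1) * d‖ ^ 2 ≤ 2 * ‖Y‖ ^ 2 + 1 / 2 * ‖d‖ ^ 2 := by
    have h : ‖Y + (u - 1) * d‖ ≤ ‖Y‖ + 1 / 2 * ‖d‖ := by
      refine (norm_add_le _ _).trans ?_
      rw [norm_mul]
      have := mul_le_mul_of_nonneg_right hη hd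
      linarith
    have h2 : ‖Y + (u - 1) * d‖ ^ 2 ≤ (‖Y‖ + 1 / 2 * ‖d‖) ^ 2 :=
      pow_le_pow_left₀ (norm_nonneg _) h 2
    nlinarith [sq_nonneg (‖Y‖ - 1 / 2 * ‖d‖)]
  have h3 := mul_le_mul_of_nonneg_left h1 hth0
  have h4 := mul_le_mul_of_nonneg_left h2 hth0
  have h5 : th * ‖Y‖ ^ 2 ≤ 35 / 1000 * ‖Y‖ ^ 2 := mul_le_mul_of_nonneg_right hth (sq_nonneg _)
  have h6 : th * ‖d‖ ^ 2 ≤ 35 / 1000 * ‖d‖ ^ 2 := mul_le_mul_of_nonneg_right hth (sq_nonneg _)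
  have h7 := sq_nonneg ‖Y‖
  have h8 := sq_nonneg ‖d‖
  nlinarith

/-- Difference terms. -/
noncomputable def gt (z u X : ℂ) (d : ℕ → ℂ) (k : ℕ) : ℝ :=
  cn z k * ‖d k‖ ^ 2 - cn z (k + 1) * ‖X + (u - 1) * ∑ j ∈ range (k + 1), d j + d k‖ ^ 2

lemma gt_partial {z u : ℂ} (hz1 : 7377 / 10000 ≤ ‖z‖) (hz2 : ‖z‖ ≤ 7378 / 10000) (X : ℂ)
    (d : ℕ → ℂ) (hu : ‖u‖ = 1) (hη : ‖u - 1‖ ≤ 1 / 2) (K : ℕ) (hK : 8 ≤ K) :
    ∑ k ∈ range 8, gt z u X d k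
      + 1 / 8 * (cn z K * ‖X + (u - 1) * ∑ j ∈ range K, d j‖ ^ 2
        - cn z 8 * ‖X + (u - 1) * ∑ j ∈ range 8, d j‖ ^ 2)
      + 9 / 10 * ∑ k ∈ Ico 8 K, cn z k * ‖d k‖ ^ 2 ≤ ∑ k ∈ range K, gt z u X d k := by
  induction K, hK using Nat.le_induction with
  | base => simp
  | succ K hK ih =>
    rw [sum_range_succ (fun k => gt z u X d k) K, sum_Ico_succ_top hK]
    have hp := pointwise (X + (u - 1) * ∑ j ∈ range K, d j) (d K) u (‖z‖ ^ 2 / 16)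
      (by positivity) (by nlinarith [norm_nonneg z]) hu hη
    have hc := mul_le_mul_of_nonneg_left hp (cn_nonneg z K)
    have e1 : X + (u - 1) * ∑ j ∈ range (K + 1), d j =
        X + (u - 1) * ∑ j ∈ range K, d j + (u - 1) * d K := by
      rw [sum_range_succ]; ring
    have e2 : X + (u - 1) * ∑ j ∈ range (K + 1), d j + d K =
        X + (u - 1) * ∑ j ∈ range K, d j + u * d K := by
      rw [sum_range_succ]; ring
    have e3 : gt z u X d K = cn z K * (‖d K‖ ^ 2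
        - ‖z‖ ^ 2 / 16 * ‖X + (u - 1) * ∑ j ∈ range K, d j + u * d K‖ ^ 2) := by
      unfold gt
      rw [e2, cn_succ z K hK]
      ring
    rw [e3, e1, cn_succ z K hK]
    linarith

lemma summable_cn {z : ℂ} (hz2 : ‖z‖ ≤ 7378 / 10000) : Summable fun k => cn z k := by
  have h : Summable fun i : ℕ => cn z (i + 8) := by
    have e : (fun i : ℕ => cn z (i + 8)) = fun i : ℕ => cn z 8 * (‖z‖ ^ 2 / 16) ^ i := by
      funext i
      induction i with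
      | zero => simp
      | succ i ih =>
        rw [show i + 1 + 8 = (i + 8) + 1 by ring, cn_succ z (i + 8) (by omega), ih, pow_succ]
        ring
    rw [e]
    exact (summable_geometric_of_lt_one (by positivity)
      (by nlinarith [norm_nonneg z])).mul_left _
  exact (summable_nat_add_iff 8).1 h

lemma gt_tsum {z u : ℂ} (hz1 : 7377 / 10000 ≤ ‖z‖) (hz2 : ‖z‖ ≤ 7378 / 10000) (X : ℂ)
    (d : ℕ → ℂ) (hu : ‖u‖ = 1) (hη : ‖u - 1‖ ≤ 1 / 2) (N : ℕ) (hN8 : 8 ≤ N)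
    (hN : ∀ k, N ≤ k → d k = 0) :
    ∑ k ∈ range 8, gt z u X d k
      - 1 / 8 * (cn z 8 * ‖X + (u - 1) * ∑ j ∈ range 8, d j‖ ^ 2)
      + 9 / 10 * ∑ k ∈ Ico 8 N, cn z k * ‖d k‖ ^ 2 ≤ ∑' k, gt z u X d k := by
  have hsum : ∀ K, N ≤ K → ∑ j ∈ range K, d j = ∑ j ∈ range N, d j := by
    intro K hK
    rw [← sum_range_add_sum_Ico d hK, sum_eq_zero (s := Ico N K), add_zero]
    intro x hx
    exact hN x (mem_Ico.1 hx).1
  have hs : Summable fun k => gt z u X d k := by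
    have h1 : Summable fun i : ℕ => gt z u X d (i + N) := by
      have e : (fun i : ℕ => gt z u X d (i + N)) =
          fun i : ℕ => -(‖X + (u - 1) * ∑ j ∈ range N, d j‖ ^ 2) * cn z (i + (N + 1)) := by
        funext i
        unfold gt
        rw [hN (i + N) (by omega), hsum (i + N + 1) (by omega)]
        simp only [norm_zero, add_zero]
        rw [show i + N + 1 = i + (N + 1) by ring]
        ring
      rw [e]
      exact ((summable_nat_add_iff (N + 1)).2 (summable_cn hz2)).mul_left _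
    exact (summable_nat_add_iff N).1 h1
  have ht := hs.hasSum.tendsto_sum_nat
  refine ge_of_tendsto ht ?_
  filter_upwards [Filter.eventually_ge_atTop N] with K hK
  have h := gt_partial hz1 hz2 X d hu hη K (by omega)
  have h2 : ∑ k ∈ Ico 8 K, cn z k * ‖d k‖ ^ 2 = ∑ k ∈ Ico 8 N, cn z k * ‖d k‖ ^ 2 := by
    rw [← sum_Ico_consecutive _ hN8 hK, sum_eq_zero (s := Ico N K), add_zero]
    intro x hx
    rw [hN x (mem_Ico.1 hx).1]
    simp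
  have h3 : 0 ≤ cn z K * ‖X + (u - 1) * ∑ j ∈ range K, d j‖ ^ 2 :=
    mul_nonneg (cn_nonneg z K) (sq_nonneg _)
  rw [h2] at h
  linarith

/-- Rational majorants of `3/2 |z|^(j+2)/(j+2)!`, `j < 8`. -/
noncomputable def ww (j : ℕ) : ℝ :=
  if j = 0 then 41 / 100 else if j = 1 then 101 / 1000 else if j = 2 then 186 / 10000 else
  if j = 3 then 28 / 10000 else if j = 4 then 34 / 100000 else if j = 5 then 36 / 10 ^ 6 else
  if j = 6 then 33 / 10 ^ 7 else 27 / 10 ^ 8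

lemma ww_nonneg (j : ℕ) : 0 ≤ ww j := by
  unfold ww; split_ifs <;> positivity

lemma le_ww {om : ℝ} (h0 : 0 ≤ om) (h1 : om ≤ 7378 / 10000) (j : ℕ) (hj : j < 8) :
    3 / 2 * (om ^ (j + 2) / ((j + 2)! : ℝ)) ≤ ww j := by
  have h : om ^ (j + 2) ≤ (7378 / 10000 : ℝ) ^ (j + 2) := pow_le_pow_left₀ h0 h1 _
  have hF : (0 : ℝ) < ((j + 2)! : ℝ) := by exact_mod_cast Nat.factorial_pos _
  have h2 : 3 / 2 * (om ^ (j + 2) / ((j + 2)! : ℝ)) ≤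
      3 / 2 * ((7378 / 10000 : ℝ) ^ (j + 2) / ((j + 2)! : ℝ)) := by
    apply mul_le_mul_of_nonneg_left _ (by norm_num)
    exact div_le_div_of_nonneg_right h hF.le
  refine h2.trans ?_
  interval_cases j <;> norm_num [ww, Nat.factorial]

lemma main_bound {om : ℝ} (h0 : 0 ≤ om) (h1 : om ≤ 7378 / 10000) (f d : ℕ → ℂ)
    (hf : ∀ j, j < 8 → ‖f j‖ ≤ 3 / 2 * (om ^ (j + 2) / ((j + 2)! : ℝ))) :
    ‖∑ j ∈ range 8, f j * d j‖ ≤ ∑ j ∈ range 8, ww j * ‖d j‖ := by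
  refine (norm_sum_le _ _).trans (sum_le_sum fun j hj => ?_)
  have hj8 := mem_range.1 hj
  rw [norm_mul]
  exact mul_le_mul_of_nonneg_right ((hf j hj8).trans (le_ww h0 h1 j hj8)) (norm_nonneg _)

lemma titu (x : ℝ) (t : ℕ → ℝ) : (∑ j ∈ range 8, 1 / 2 * t j + x) ^ 2 ≤
      (∑ j ∈ range 8, ((22 : ℝ) / 10) ^ j + 1) *
        (∑ j ∈ range 8, 1 / 4 * t j ^ 2 / (22 / 10) ^ j + x ^ 2) := by
  let r : ℕ → ℝ := fun i => Nat.casesOn i x (fun j => 1 / 2 * t j)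
  let f : ℕ → ℝ := fun i => Nat.casesOn i 1 (fun j => (22 / 10 : ℝ) ^ j)
  let g : ℕ → ℝ := fun i => Nat.casesOn i (x ^ 2) (fun j => 1 / 4 * t j ^ 2 / (22 / 10) ^ j)
  have h : (∑ i ∈ range (8 + 1), r i) ^ 2 ≤
      (∑ i ∈ range (8 + 1), f i) * ∑ i ∈ range (8 + 1), g i := by
    apply Finset.sum_sq_le_sum_mul_sum_of_sq_le_mul
    · intro i _; cases i <;> simp [f]; positivity
    · intro i _; cases i <;> simp [g] <;> positivity
    · intro i _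
      cases i with
      | zero => simp [r, f, g]
      | succ j =>
        simp only [r, f, g]
        have : ((22 : ℝ) / 10) ^ j ≠ 0 := by positivity
        apply le_of_eq
        field_simp
        ring
  rw [sum_range_succ' r 8, sum_range_succ' f 8, sum_range_succ' g 8] at h
  exact h

lemma final_num (x : ℝ) (t : ℕ → ℝ) :
    307 / 10 ^ 9 * (x + ∑ j ∈ range 8, ww j * t j) ^ 2
      + 27 / 10 ^ 10 * (x + 1 / 2 * ∑ j ∈ range 8, t j) ^ 2 ≤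
    EnX * x ^ 2 + ∑ j ∈ range 8, EnD j * t j ^ 2 := by
  have h1 : (x + ∑ j ∈ range 8, ww j * t j) ^ 2 ≤
      9 * (x ^ 2 + ∑ j ∈ range 8, (ww j * t j) ^ 2) := by
    have h := @sq_sum_le_card_mul_sum_sq ℕ ℝ _ _ _ _ (range 9)
      (fun i => Nat.casesOn i x (fun j => ww j * t j))
    rw [sum_range_succ' (fun i => (Nat.casesOn i x (fun j => ww j * t j) : ℝ)) 8,
      sum_range_succ' (fun i => (Nat.casesOn i x (fun j => ww j * t j) : ℝ) ^ 2) 8] at h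
    simp only [card_range] at h
    push_cast at h
    have e1 : (∑ j ∈ range 8, ww j * t j + x) ^ 2 = (x + ∑ j ∈ range 8, ww j * t j) ^ 2 := by ring
    have e2 : (9 : ℝ) * (∑ j ∈ range 8, (ww j * t j) ^ 2 + x ^ 2) =
      9 * (x ^ 2 + ∑ j ∈ range 8, (ww j * t j) ^ 2) := by ring
    rw [← e1, ← e2]
    exact h
  have h2 : (x + 1 / 2 * ∑ j ∈ range 8, t j) ^ 2 ≤
      458 * (x ^ 2 + ∑ j ∈ range 8, 1 / 4 * t j ^ 2 / (22 / 10) ^ j) := by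
    have e1 : (∑ j ∈ range 8, 1 / 2 * t j + x) ^ 2 = (x + 1 / 2 * ∑ j ∈ range 8, t j) ^ 2 := by
      rw [mul_sum]; ring
    have e2 : ∑ j ∈ range 8, ((22 : ℝ) / 10) ^ j + 1 ≤ 458 := by
      simp only [sum_range_succ, sum_range_zero]; norm_num
    have e3 : 0 ≤ ∑ j ∈ range 8, 1 / 4 * t j ^ 2 / (22 / 10) ^ j + x ^ 2 :=
      add_nonneg (sum_nonneg fun j _ => by positivity) (sq_nonneg _)
    have h3 : (∑ j ∈ range 8, 1 / 2 * t j + x) ^ 2 ≤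
      (∑ j ∈ range 8, ((22 : ℝ) / 10) ^ j + 1) *
        (∑ j ∈ range 8, 1 / 4 * t j ^ 2 / (22 / 10) ^ j + x ^ 2) := titu x t
    have h4 := mul_le_mul_of_nonneg_right e2 e3
    rw [← e1]
    linarith
  have h3 : 307 / 10 ^ 9 * (9 * (x ^ 2 + ∑ j ∈ range 8, (ww j * t j) ^ 2))
      + 27 / 10 ^ 10 * (458 * (x ^ 2 + ∑ j ∈ range 8, 1 / 4 * t j ^ 2 / (22 / 10) ^ j)) ≤
      EnX * x ^ 2 + ∑ j ∈ range 8, EnD j * t j ^ 2 := by
    have hx := sq_nonneg x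
    have h0 := sq_nonneg (t 0)
    have h1 := sq_nonneg (t 1)
    have h2 := sq_nonneg (t 2)
    have h3 := sq_nonneg (t 3)
    have h4 := sq_nonneg (t 4)
    have h5 := sq_nonneg (t 5)
    have h6 := sq_nonneg (t 6)
    have h7 := sq_nonneg (t 7)
    simp only [sum_range_succ, sum_range_zero, EnX, EnD, ww, mul_pow]
    norm_num
    linarith
  linarith

lemma amgm (T y : ℝ) : 7 * y * (3 / 20000 * T) + 2 * (3 / 20000 * T) ^ 2 - 9 / 10 * T ^ 2 ≤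
    307 / 10 ^ 9 * y ^ 2 := by
  nlinarith [sq_nonneg (T - 583 / 10 ^ 6 * y), sq_nonneg T, sq_nonneg y]

end NT

open NT in
/-- NT: near tail estimate. -/
theorem tNearTail : TNearTail := by
  intro z q hO hB hE u hu hη X d hd
  have hzn := abs_le.1 hE.norm_z
  have hz1 : 7377 / 10000 ≤ ‖z‖ := by linarith [hzn.1]
  have hz2 : ‖z‖ ≤ 7378 / 10000 := by linarith [hzn.2]
  have hz0 : 0 ≤ ‖z‖ := norm_nonneg z
  obtain ⟨N0, hN0⟩ := hd
  set N := max N0 8 with hNdef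
  have hN8 : 8 ≤ N := le_max_right _ _
  have hN : ∀ k, N ≤ k → d k = 0 := fun k hk => hN0 k ((le_max_left _ _).trans hk)
  have hA : ∀ n, ‖Ak z q n‖ ≤ 3 / 2 * (‖z‖ ^ (n + 2) / ((n + 2)! : ℝ)) := hE.norm_Ak
  have hBk : ∀ n, ‖Bk z q u n‖ ≤ 3 / 2 * (‖z‖ ^ (n + 2) / ((n + 2)! : ℝ)) :=
    fun n => norm_Bk hz1 hz2 hA hu n
  have hP : ∀ n, ‖Pit z q (n + 1)‖ ≤ 3 / 2 * (‖z‖ ^ (n + 2) / ((n + 2)! : ℝ)) := by
    intro n
    refine (hE.norm_Pit (n + 1) (by omega)).trans ?_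
    have : (0 : ℝ) ≤ ‖z‖ ^ (n + 1 + 1) / ((n + 1 + 1)! : ℝ) := by positivity
    have e : 3 / 2 * (‖z‖ ^ (n + 2) / ((n + 2)! : ℝ)) =
      3 / 2 * (‖z‖ ^ (n + 1 + 1) / ((n + 1 + 1)! : ℝ)) := rfl
    rw [e]
    linarith
  have split : ∀ f : ℕ → ℂ, ∑' j, f j * d j =
      ∑ j ∈ range 8, f j * d j + ∑ j ∈ Ico 8 N, f j * d j := by
    intro f
    rw [sum_range_add_sum_Ico _ hN8]
    apply tsum_eq_sum
    intro b hb
    rw [hN b (by simpa using hb), mul_zero]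
  set T : ℝ := √(∑ j ∈ Ico 8 N, cn z j * ‖d j‖ ^ 2) with hT
  have hT0 : 0 ≤ T := Real.sqrt_nonneg _
  have hS0 : 0 ≤ ∑ j ∈ Ico 8 N, cn z j * ‖d j‖ ^ 2 :=
    sum_nonneg fun j _ => mul_nonneg (cn_nonneg z j) (sq_nonneg _)
  have hT2 : ∑ j ∈ Ico 8 N, cn z j * ‖d j‖ ^ 2 = T ^ 2 := (Real.sq_sqrt hS0).symm
  set s : ℝ := ∑ j ∈ range 8, ww j * ‖d j‖ with hs
  have hs0 : 0 ≤ s := sum_nonneg fun j _ => mul_nonneg (ww_nonneg j) (norm_nonneg _)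
  have hc0 : cn z 0 ≤ 1 / 10 := by
    unfold cn ch
    have : ‖z‖ ^ 2 ≤ (7378 / 10000) ^ 2 := pow_le_pow_left₀ hz0 hz2 2
    norm_num
    norm_num at this
    linarith
  have hcore := core1 X (∑ j ∈ range 8, Ak z q j * d j) (∑ j ∈ Ico 8 N, Ak z q j * d j)
    (∑ j ∈ range 8, Bk z q u j * d j) (∑ j ∈ Ico 8 N, Bk z q u j * d j)
    (∑ j ∈ range 8, Pit z q (j + 1) * d j) (∑ j ∈ Ico 8 N, Pit z q (j + 1) * d j)
    (eps1 z q u) u (u - 1) (cn z 0) (3 / 20000 * T) s hu hη (cn_nonneg z 0) hc0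
    (norm_eps1 hz1 hz2 hA hu)
    (main_bound hz0 hz2 _ d fun j _ => hA j) (main_bound hz0 hz2 _ d fun j _ => hBk j)
    (main_bound hz0 hz2 (fun j => Pit z q (j + 1)) d fun j _ => hP j)
    (tail_bound hz1 hz2 _ d N (fun j _ => hA j) T hT0 hT2)
    (tail_bound hz1 hz2 _ d N (fun j _ => hBk j) T hT0 hT2)
    (tail_bound hz1 hz2 (fun j => Pit z q (j + 1)) d N (fun j _ => hP j) T hT0 hT2)
    hs0 (by positivity)
  have hdiff := gt_tsum hz1 hz2 X d hu hη N hN8 hN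
  rw [hT2] at hdiff
  have hY : ‖X + (u - 1) * ∑ j ∈ range 8, d j‖ ≤ ‖X‖ + 1 / 2 * ∑ j ∈ range 8, ‖d j‖ := by
    refine (norm_add_le _ _).trans ?_
    rw [norm_mul]
    have h1 : ‖∑ j ∈ range 8, d j‖ ≤ ∑ j ∈ range 8, ‖d j‖ := norm_sum_le _ _
    have h2 := mul_le_mul hη h1 (norm_nonneg _) (by norm_num)
    linarith
  have hcn8 : 1 / 8 * cn z 8 ≤ 27 / 10 ^ 10 := by
    unfold cn
    have e : ch 8 = 135 / 1000 * (28 / 100) ^ 8 := by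
      have := ch_eight_add 0
      simpa using this
    rw [e]
    have : ‖z‖ ^ (2 * (8 + 1)) ≤ (7378 / 10000) ^ (2 * (8 + 1)) := pow_le_pow_left₀ hz0 hz2 _
    have h2 := mul_le_mul_of_nonneg_left this
      (show (0 : ℝ) ≤ 1 / 8 * (135 / 1000 * (28 / 100) ^ 8) by positivity)
    have h3 : (1 : ℝ) / 8 * (135 / 1000 * (28 / 100) ^ 8) * (7378 / 10000) ^ (2 * (8 + 1)) ≤
      27 / 10 ^ 10 := by norm_num
    linarith
  have hY2 : 1 / 8 * (cn z 8 * ‖X + (u - 1) * ∑ j ∈ range 8, d j‖ ^ 2) ≤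
      27 / 10 ^ 10 * (‖X‖ + 1 / 2 * ∑ j ∈ range 8, ‖d j‖) ^ 2 := by
    have h1 : ‖X + (u - 1) * ∑ j ∈ range 8, d j‖ ^ 2 ≤
      (‖X‖ + 1 / 2 * ∑ j ∈ range 8, ‖d j‖) ^ 2 := pow_le_pow_left₀ (norm_nonneg _) hY 2
    have h2 := mul_le_mul hcn8 h1 (sq_nonneg _) (by positivity)
    linarith
  have hfin := final_num ‖X‖ (fun j => ‖d j‖)
  have ham := amgm T (‖X‖ + s)
  have eD : ∑ k ∈ range 8, gt z u X d k = ∑ k ∈ range 8, (cn z k * ‖d k‖ ^ 2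
      - cn z (k + 1) * ‖X + (u - 1) * ∑ j ∈ range (k + 1), d j + d k‖ ^ 2) := rfl
  have eD' : ∑' k, gt z u X d k = ∑' k : ℕ, (cn z k * ‖d k‖ ^ 2
      - cn z (k + 1) * ‖X + (u - 1) * ∑ j ∈ range (k + 1), d j + d k‖ ^ 2) := rfl
  rw [eD, eD'] at hdiff
  unfold NearMain NearFull
  rw [split (fun j => Bk z q u j), split (fun j => Ak z q j), split (fun j => Pit z q (j + 1))]
  linarith

end Pool.Agent.Whit
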