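import Pool.Agent.Whit.Spec

/-!
# Job S1: elementary series identities and crude bounds
-/

namespace Pool.Agent.Whit

open scoped Nat
open Filter Topology

namespace S1

/-- the majorant `r^m / m!` -/
noncomputable def w (r : ℝ) (m : ℕ) : ℝ := r ^ m / (m ! : ℝ)

lemma w_nonneg {r : ℝ} (hr : 0 ≤ r) (m : ℕ) : 0 ≤ w r m := by unfold w; positivity

lemma w_succ_le {r c : ℝ} (hr : 0 ≤ r) {m : ℕ} (h : r ≤ c * ((m : ℝ) + 1)) :
    w r (m + 1) ≤ w r m * c := by
  unfold w
  have h1 : ((m + 1)! : ℝ) = ((m : ℝ) + 1) * (m ! : ℝ) := by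
    rw [Nat.factorial_succ]; push_cast; ring
  rw [h1, pow_succ]
  have h2 : (0 : ℝ) < (m ! : ℝ) := by positivity
  have h3 : (0 : ℝ) < (m : ℝ) + 1 := by positivity
  rw [div_mul_eq_mul_div, div_le_div_iff₀ (by positivity) h2]
  have h4 : 0 ≤ r ^ m := by positivity
  nlinarith [mul_le_mul_of_nonneg_left h (mul_nonneg h4 h2.le)]

lemma w_add_le {r c : ℝ} (hr : 0 ≤ r) (hc : 0 ≤ c) {m : ℕ} (h : r ≤ c * ((m : ℝ) + 1)) (j : ℕ) :
    w r (m + j) ≤ w r m * c ^ j := by
  induction j with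
  | zero => simp
  | succ j ih =>
    have h1 : w r (m + j + 1) ≤ w r (m + j) * c := by
      apply w_succ_le hr
      push_cast
      have : (0 : ℝ) ≤ j := Nat.cast_nonneg j
      nlinarith
    calc w r (m + (j + 1)) = w r (m + j + 1) := by rw [add_assoc]
      _ ≤ w r (m + j) * c := h1
      _ ≤ (w r m * c ^ j) * c := mul_le_mul_of_nonneg_right ih hc
      _ = w r m * c ^ (j + 1) := by rw [pow_succ]; ring

/-- norms of tails: ratio bound -/
lemma tail_bound {f : ℕ → ℂ} {A r c B : ℝ} (hA : 0 ≤ A) (hr : 0 ≤ r) (hc : 0 ≤ c) (hc1 : c < 1)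
    {m : ℕ} (h : r ≤ c * ((m : ℝ) + 1)) (hf : ∀ j, ‖f j‖ ≤ A * w r (m + j))
    (hB : A ≤ B * (1 - c)) : Summable (fun j => ‖f j‖) ∧ ‖∑' j, f j‖ ≤ B * w r m := by
  have hg : HasSum (fun j => A * w r m * c ^ j) (A * w r m * (1 - c)⁻¹) :=
    (hasSum_geometric_of_lt_one hc hc1).mul_left _
  have hle : ∀ j, ‖f j‖ ≤ A * w r m * c ^ j := by
    intro j
    refine (hf j).trans ?_
    rw [mul_assoc]
    exact mul_le_mul_of_nonneg_left (w_add_le hr hc h j) hA
  have hs : Summable (fun j => ‖f j‖) :=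
    Summable.of_nonneg_of_le (fun _ => norm_nonneg _) hle hg.summable
  refine ⟨hs, ?_⟩
  calc ‖∑' j, f j‖ ≤ ∑' j, ‖f j‖ := norm_tsum_le_tsum_norm hs
    _ ≤ ∑' j, A * w r m * c ^ j := hs.tsum_le_tsum hle hg.summable
    _ = A * w r m * (1 - c)⁻¹ := hg.tsum_eq
    _ ≤ B * w r m := by
      have h1 : 0 < 1 - c := by linarith
      have h2 := w_nonneg hr m
      rw [← div_eq_mul_inv, div_le_iff₀ h1]
      nlinarith

/-- summation by parts -/
lemma parts {S f g G : ℕ → ℂ} (hS : ∀ k, S k = f k + S (k + 1)) (hG0 : G 0 = 0)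
    (hG : ∀ k, G (k + 1) = G k + g k) (N : ℕ) :
    ∑ k ∈ Finset.range N, g k * S k = ∑ k ∈ Finset.range N, G (k + 1) * f k + G N * S N := by
  induction N with
  | zero => simp [hG0]
  | succ N ih =>
    rw [Finset.sum_range_succ, Finset.sum_range_succ, ih]
    have h1 := hS N
    have h2 := hG N
    have h3 : f N = S N - S (N + 1) := by rw [h1]; ring
    rw [h3, h2]; ring

lemma exchange {S f g G : ℕ → ℂ} (hS : ∀ k, S k = f k + S (k + 1)) (hG0 : G 0 = 0)
    (hG : ∀ k, G (k + 1) = G k + g k) (h1 : Summable fun k => g k * S k)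
    (h2 : Summable fun k => G (k + 1) * f k) (h3 : Tendsto (fun N => G N * S N) atTop (𝓝 0)) :
    ∑' k, g k * S k = ∑' k, G (k + 1) * f k := by
  have t1 := h1.hasSum.tendsto_sum_nat
  have t2 := (h2.hasSum.tendsto_sum_nat.add h3)
  have t3 : Tendsto (fun N => ∑ k ∈ Finset.range N, g k * S k) atTop
      (𝓝 (∑' k, G (k + 1) * f k + 0)) := by
    refine t2.congr ?_
    intro N
    exact (parts hS hG0 hG N).symm
  rw [add_zero] at t3
  exact tendsto_nhds_unique t1 t3

/-- `(k+1)^2 ≤ 4 (k+1)!` -/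
lemma sq_le_fact (k : ℕ) : ((k : ℝ) + 1) ^ 2 ≤ 4 * ((k + 1)! : ℝ) := by
  have h : (k + 1) ^ 2 ≤ 4 * (k + 1)! := by
    induction k with
    | zero => norm_num
    | succ k ih =>
      rw [Nat.factorial_succ (k + 1)]
      rcases k with _ | k
      · norm_num
      · have h1 : (k + 1 + 1 + 1) ^ 2 ≤ (k + 1 + 1 + 1) * ((k + 1 + 1) ^ 2) := by nlinarith
        calc (k + 1 + 1 + 1) ^ 2 ≤ (k + 1 + 1 + 1) * ((k + 1 + 1) ^ 2) := h1
          _ ≤ (k + 1 + 1 + 1) * (4 * (k + 1 + 1)!) := Nat.mul_le_mul_left _ ih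
          _ = 4 * ((k + 1 + 1 + 1) * (k + 1 + 1)!) := by ring
  exact_mod_cast h

lemma sq_w_le {r : ℝ} (hr : 0 ≤ r) (k : ℕ) : ((k : ℝ) + 1) ^ 2 * w r (k + 1) ≤ 4 * r ^ (k + 1) := by
  unfold w
  have h1 := sq_le_fact k
  have h2 : (0 : ℝ) < ((k + 1)! : ℝ) := by positivity
  rw [← mul_div_assoc, div_le_iff₀ h2]
  have h3 : 0 ≤ r ^ (k + 1) := by positivity
  nlinarith [mul_le_mul_of_nonneg_right h1 h3]

section main

variable {z q : ℂ}

lemma bounds (h : Opt z q) : (-(7331 / 10000 : ℝ) ≤ z.re ∧ z.re ≤ -(7330 / 10000)) ∧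
    (-(832 / 10000 : ℝ) ≤ z.im ∧ z.im ≤ -(831 / 10000)) ∧
    (-(7329 / 10000 : ℝ) ≤ q.re ∧ q.re ≤ -(7328 / 10000)) ∧
    ((6804 / 10000 : ℝ) ≤ q.im ∧ q.im ≤ (6805 / 10000)) := by
  have e1 := (Complex.abs_re_le_norm (z - z0)).trans h.near_z
  have e2 := (Complex.abs_im_le_norm (z - z0)).trans h.near_z
  have e3 := (Complex.abs_re_le_norm (q - q0)).trans h.near_q
  have e4 := (Complex.abs_im_le_norm (q - q0)).trans h.near_q
  simp only [Complex.sub_re, Complex.sub_im, z0, q0] at e1 e2 e3 e4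
  rw [abs_le] at e1 e2 e3 e4
  norm_num at e1 e2 e3 e4 ⊢
  refine ⟨⟨?_, ?_⟩, ⟨?_, ?_⟩, ⟨?_, ?_⟩, ⟨?_, ?_⟩⟩ <;> linarith [e1.1, e1.2, e2.1, e2.2, e3.1, e3.2, e4.1, e4.2]

lemma norm_sq_z : ‖z‖ ^ 2 = z.re ^ 2 + z.im ^ 2 := by
  rw [← Complex.normSq_eq_norm_sq, Complex.normSq_apply]; ring

lemma norm_z_le (h : Opt z q) : ‖z‖ ≤ 3 / 4 := by
  obtain ⟨⟨a1, a2⟩, ⟨b1, b2⟩, -, -⟩ := bounds h
  have h1 := norm_sq_z (z := z)
  have h2 : z.re ^ 2 ≤ (7331 / 10000 : ℝ) ^ 2 := by nlinarith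
  have h3 : z.im ^ 2 ≤ (832 / 10000 : ℝ) ^ 2 := by nlinarith
  nlinarith [norm_nonneg z]

lemma le_norm_z (h : Opt z q) : 7 / 10 ≤ ‖z‖ := by
  obtain ⟨⟨a1, a2⟩, -, -, -⟩ := bounds h
  have h1 := norm_sq_z (z := z)
  have h2 : (7330 / 10000 : ℝ) ^ 2 ≤ z.re ^ 2 := by nlinarith
  by_contra hc
  push Not at hc
  nlinarith [norm_nonneg z, sq_nonneg z.im]

lemma norm_pik' (h : Opt z q) (k : ℕ) : ‖pik z q k‖ = w ‖z‖ (k + 1) := by
  unfold pik Vk w
  rw [norm_neg, norm_div, norm_mul, norm_mul, norm_pow, norm_pow, h.norm_q, one_pow, one_mul,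
    Complex.norm_natCast, pow_succ]

lemma re_pik_one (h : Opt z q) : 1 / 5 ≤ (pik z q 1).re := by
  obtain ⟨⟨a1, a2⟩, ⟨b1, b2⟩, ⟨c1, c2⟩, ⟨d1, d2⟩⟩ := bounds h
  have e : pik z q 1 = -(q * (z * z)) / 2 := by
    unfold pik Vk
    norm_num [Nat.factorial]
    ring
  have e2 : (pik z q 1).re = -(q.re * (z.re * z.re - z.im * z.im) -
      q.im * (z.re * z.im + z.im * z.re)) / 2 := by
    rw [e]
    have : (-(q * (z * z)) / 2 : ℂ) = ((1 / 2 : ℝ) : ℂ) * (-(q * (z * z))) := by push_cast; ring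
    rw [this, Complex.re_ofReal_mul]
    simp only [Complex.neg_re, Complex.mul_re, Complex.mul_im]
    ring
  rw [e2]
  have f1 : (530 / 1000 : ℝ) ≤ z.re * z.re - z.im * z.im := by nlinarith
  have f2 : (60 / 1000 : ℝ) ≤ z.re * z.im := by nlinarith
  have f3 : q.re * (z.re * z.re - z.im * z.im) ≤ -(388 / 1000) := by nlinarith
  have f4 : (40 / 1000 : ℝ) ≤ q.im * (z.re * z.im) := by nlinarith
  nlinarith

lemma norm_tsum_geom {f : ℕ → ℂ} {K c B : ℝ} (hc : 0 ≤ c) (hc1 : c < 1)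
    (hf : ∀ j, ‖f j‖ ≤ K * c ^ j) (hB : K ≤ B * (1 - c)) : ‖∑' j, f j‖ ≤ B := by
  have hg : HasSum (fun j => K * c ^ j) (K * (1 - c)⁻¹) :=
    (hasSum_geometric_of_lt_one hc hc1).mul_left _
  have hs : Summable (fun j => ‖f j‖) :=
    Summable.of_nonneg_of_le (fun _ => norm_nonneg _) hf hg.summable
  calc ‖∑' j, f j‖ ≤ ∑' j, ‖f j‖ := norm_tsum_le_tsum_norm hs
    _ ≤ ∑' j, K * c ^ j := hs.tsum_le_tsum hf hg.summable
    _ = K * (1 - c)⁻¹ := hg.tsum_eq
    _ ≤ B := by
      have h1 : 0 < 1 - c := by linarith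
      rw [← div_eq_mul_inv, div_le_iff₀ h1]
      exact hB

lemma summable_w (hr : ‖z‖ ≤ 3 / 4) (m : ℕ) : Summable fun k => w ‖z‖ (k + m) := by
  have h0 := norm_nonneg z
  have h : Summable fun k => ‖z‖ ^ (k + m) :=
    (summable_nat_add_iff m).2 (summable_geometric_of_lt_one h0 (by linarith))
  refine Summable.of_nonneg_of_le (fun k => w_nonneg h0 _) (fun k => ?_) h
  unfold w
  exact div_le_self (by positivity)
    (by exact_mod_cast Nat.one_le_iff_ne_zero.2 (Nat.factorial_ne_zero _))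

/-- summability with a quadratic factor -/
lemma summable_quad {f g : ℕ → ℂ} {C : ℝ} (hC : 0 ≤ C) (hr : ‖z‖ ≤ 3 / 4)
    (hf : ∀ k, ‖f k‖ ≤ C * w ‖z‖ (k + 1)) (hg : ∀ k, ‖g k‖ ≤ ((k : ℝ) + 1) ^ 2) :
    Summable (fun k => g k * f k) := by
  have h0 := norm_nonneg z
  have h : Summable fun k => (C * 4) * ‖z‖ ^ (k + 1) :=
    ((summable_nat_add_iff 1).2 (summable_geometric_of_lt_one h0 (by linarith))).mul_left _
  refine Summable.of_norm_bounded h (fun k => ?_)
  rw [norm_mul]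
  calc ‖g k‖ * ‖f k‖ ≤ ((k : ℝ) + 1) ^ 2 * (C * w ‖z‖ (k + 1)) :=
        mul_le_mul (hg k) (hf k) (norm_nonneg _) (by positivity)
    _ = C * (((k : ℝ) + 1) ^ 2 * w ‖z‖ (k + 1)) := by ring
    _ ≤ C * (4 * ‖z‖ ^ (k + 1)) := mul_le_mul_of_nonneg_left (sq_w_le h0 k) hC
    _ = C * 4 * ‖z‖ ^ (k + 1) := by ring

lemma tail_succ {f : ℕ → ℂ} (hf : Summable f) (k : ℕ) :
    ∑' j, f (k + j) = f k + ∑' j, f (k + 1 + j) := by
  have hs : Summable fun j => f (k + j) := by
    have := (summable_nat_add_iff k).2 hf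
    simpa only [add_comm] using this
  rw [hs.tsum_eq_zero_add]
  have e : (fun b => f (k + (b + 1))) = fun j => f (k + 1 + j) := by
    funext b; rw [show k + (b + 1) = k + 1 + b by omega]
  rw [e, add_zero]

lemma term_succ (n : ℕ) :
    q ^ ((n + 1) * (n + 1 - 1) / 2) * z ^ (n + 1) / ((n + 1)! : ℂ) = -pik z q n := by
  unfold pik Vk
  rw [Nat.add_sub_cancel, Nat.mul_comm (n + 1) n, neg_neg, pow_succ, mul_assoc]

lemma add_two_le (j : ℕ) : j + 2 ≤ 2 * 2 ^ j := by
  induction j with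
  | zero => norm_num
  | succ j ih =>
    have h5 : 1 ≤ 2 ^ j := Nat.one_le_two_pow
    rw [pow_succ]; omega

lemma norm_cast_le (k : ℕ) : ‖((k : ℕ) : ℂ)‖ ≤ ((k : ℝ) + 1) ^ 2 := by
  rw [Complex.norm_natCast]
  have : (0 : ℝ) ≤ k := Nat.cast_nonneg k
  nlinarith

lemma norm_cast_succ_le (k : ℕ) : ‖((k : ℂ) + 1)‖ ≤ ((k : ℝ) + 1) ^ 2 := by
  have e : ((k : ℂ) + 1) = ((k + 1 : ℕ) : ℂ) := by push_cast; ring
  rw [e, Complex.norm_natCast]
  have : (0 : ℝ) ≤ k := Nat.cast_nonneg k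
  push_cast
  nlinarith

lemma norm_tri_le (k : ℕ) : ‖(k : ℂ) * ((k : ℂ) + 1) / 2‖ ≤ ((k : ℝ) + 1) ^ 2 := by
  have e : ((k : ℂ) + 1) = ((k + 1 : ℕ) : ℂ) := by push_cast; ring
  rw [e, norm_div, norm_mul, Complex.norm_natCast, Complex.norm_natCast]
  have : (0 : ℝ) ≤ k := Nat.cast_nonneg k
  push_cast
  rw [Complex.norm_ofNat, div_le_iff₀ (by norm_num)]
  nlinarith

lemma norm_tri'_le (k : ℕ) : ‖(k : ℂ) * ((k : ℂ) - 1) / 2‖ ≤ ((k : ℝ) + 1) ^ 2 := by
  rw [norm_div, norm_mul, Complex.norm_natCast, Complex.norm_ofNat, div_le_iff₀ (by norm_num)]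
  have : (0 : ℝ) ≤ k := Nat.cast_nonneg k
  have h2 : ‖((k : ℂ) - 1)‖ ≤ (k : ℝ) + 1 := by
    refine (norm_sub_le _ _).trans ?_
    rw [Complex.norm_natCast, norm_one]
  nlinarith [mul_le_mul_of_nonneg_left h2 this]

end main

theorem basics {z q : ℂ} (h : Opt z q) : Basics z q := by
  have hr := norm_z_le h
  have hr' := le_norm_z h
  have h0 := norm_nonneg z
  have npi := norm_pik' h
  have hw := fun m => w_nonneg h0 m
  have spi : Summable fun k => ‖pik z q k‖ := by simp_rw [npi]; exact summable_w hr 1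
  have spi' : Summable (pik z q) := spi.of_norm
  have z_ne : z ≠ 0 := by
    intro hz; rw [hz, norm_zero] at hr'; norm_num at hr'
  have q_ne : q ≠ 0 := by
    intro hq; have := h.norm_q; rw [hq, norm_zero] at this; norm_num at this
  have tpi : ∑' k, pik z q k = 1 := by
    have hz := h.zero
    unfold phi at hz
    have hs : Summable fun n : ℕ => q ^ (n * (n - 1) / 2) * z ^ n / (n ! : ℂ) := by
      rw [← summable_nat_add_iff 1]
      simp_rw [term_succ]
      exact spi'.neg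
    rw [hs.tsum_eq_zero_add] at hz
    simp_rw [term_succ] at hz
    rw [tsum_neg] at hz
    simp only [Nat.zero_sub, Nat.mul_zero, Nat.zero_div, pow_zero, Nat.factorial_zero, Nat.cast_one,
      mul_one, div_one] at hz
    linear_combination -hz
  have Ps : ∀ k, Pit z q k = pik z q k + Pit z q (k + 1) := fun k => tail_succ spi' k
  have P0 : Pit z q 0 = 1 := by
    unfold Pit; simp only [zero_add]; exact tpi
  have nP1 : ∀ k, 1 ≤ k → ‖Pit z q k‖ ≤ 4 / 3 * w ‖z‖ (k + 1) := by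
    intro k hk
    have hk' : (1 : ℝ) ≤ k := by exact_mod_cast hk
    refine (tail_bound (A := 1) (c := 1 / 4) (m := k + 1) (by norm_num) h0 (by norm_num)
      (by norm_num) (by push_cast; linarith) (fun j => ?_) (by norm_num)).2
    rw [npi, one_mul, show k + j + 1 = k + 1 + j by omega]
  have nP : ∀ k, ‖Pit z q k‖ ≤ 8 / 5 * w ‖z‖ (k + 1) := by
    intro k
    have hk' : (0 : ℝ) ≤ k := Nat.cast_nonneg k
    refine (tail_bound (A := 1) (c := 3 / 8) (m := k + 1) (by norm_num) h0 (by norm_num)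
      (by norm_num) (by push_cast; linarith) (fun j => ?_) (by norm_num)).2
    rw [npi, one_mul, show k + j + 1 = k + 1 + j by omega]
  have npi' : ∀ k, ‖pik z q k‖ ≤ 1 * w ‖z‖ (k + 1) := fun k => by rw [npi, one_mul]
  have none : ∀ k : ℕ, ‖(1 : ℂ)‖ ≤ ((k : ℝ) + 1) ^ 2 := by
    intro k
    have : (0 : ℝ) ≤ k := Nat.cast_nonneg k
    rw [norm_one]; nlinarith
  have sk1 : Summable fun k : ℕ => ((k : ℂ) + 1) * pik z q k :=
    summable_quad (by norm_num) hr npi' norm_cast_succ_le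
  have sk0 : Summable fun k : ℕ => (k : ℂ) * pik z q k :=
    summable_quad (by norm_num) hr npi' norm_cast_le
  have mu_eq : mu z q = ∑' k : ℕ, ((k : ℂ) + 1) * pik z q k := by
    have e := exchange (S := Pit z q) (f := pik z q) (g := fun _ => 1) (G := fun k => (k : ℂ)) Ps
      (by simp) (fun k => by push_cast; ring)
      (summable_quad (by norm_num) hr nP none)
      (by
        have : (fun k : ℕ => ((k + 1 : ℕ) : ℂ) * pik z q k) = fun k : ℕ => ((k : ℂ) + 1) * pik z q k := by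
          funext k; push_cast; ring
        rw [this]; exact sk1)
      (summable_quad (by norm_num) hr nP norm_cast_le).tendsto_atTop_zero
    simp only [one_mul] at e
    unfold mu
    rw [e]
    refine tsum_congr fun k => ?_
    push_cast; ring
  -- lower bound for `mu`
  have mu_re : 9 / 10 ≤ ‖mu z q‖ := by
    have e1 : mu z q = 1 + (pik z q 1 + ∑' j : ℕ, ((j : ℂ) + 2) * pik z q (j + 2)) := by
      have e2 : ∑' k : ℕ, ((k : ℂ) + 1) * pik z q k =
          ∑' k : ℕ, (k : ℂ) * pik z q k + ∑' k, pik z q k := by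
        rw [← sk0.tsum_add spi']
        refine tsum_congr fun k => ?_
        ring
      rw [mu_eq, e2, tpi, sk0.tsum_eq_zero_add]
      have s1 : Summable fun b : ℕ => ((b + 1 : ℕ) : ℂ) * pik z q (b + 1) :=
        (summable_nat_add_iff (f := fun k : ℕ => (k : ℂ) * pik z q k) 1).2 sk0
      rw [s1.tsum_eq_zero_add]
      have e3 : ∀ b : ℕ, ((b + 1 + 1 : ℕ) : ℂ) * pik z q (b + 1 + 1) =
          ((b : ℂ) + 2) * pik z q (b + 2) := by
        intro b; push_cast; ring
      simp_rw [e3]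
      push_cast
      ring
    have e4 : ‖∑' j : ℕ, ((j : ℂ) + 2) * pik z q (j + 2)‖ ≤ 1 / 4 := by
      have hw3 : w ‖z‖ 3 ≤ 71 / 1000 := by
        unfold w
        have : ‖z‖ ^ 3 ≤ (3 / 4 : ℝ) ^ 3 := pow_le_pow_left₀ h0 hr 3
        norm_num [Nat.factorial] at this ⊢
        linarith
      refine norm_tsum_geom (K := 2 * w ‖z‖ 3) (c := 3 / 8) (by norm_num) (by norm_num)
        (fun j => ?_) ?_
      · have e5 : ((j : ℂ) + 2) = ((j + 2 : ℕ) : ℂ) := by push_cast; ring
        rw [norm_mul, npi, e5, Complex.norm_natCast, show j + 2 + 1 = 3 + j by omega]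
        have h1 := w_add_le (r := ‖z‖) (c := 3 / 16) h0 (by norm_num) (m := 3)
          (by push_cast; linarith) j
        have h2 : ((j + 2 : ℕ) : ℝ) ≤ 2 * 2 ^ j := by
          exact_mod_cast add_two_le j
        calc ((j + 2 : ℕ) : ℝ) * w ‖z‖ (3 + j) ≤ (2 * 2 ^ j) * (w ‖z‖ 3 * (3 / 16) ^ j) :=
              mul_le_mul h2 h1 (hw _) (by positivity)
          _ = 2 * w ‖z‖ 3 * (2 ^ j * (3 / 16) ^ j) := by ring
          _ = 2 * w ‖z‖ 3 * (3 / 8) ^ j := by rw [← mul_pow]; norm_num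
      · linarith
    have e6 : (mu z q).re = 1 + ((pik z q 1).re +
        (∑' j : ℕ, ((j : ℂ) + 2) * pik z q (j + 2)).re) := by
      rw [e1]; simp
    have e7 := (Complex.abs_re_le_norm _).trans e4
    have e8 := re_pik_one h
    have e9 := Complex.re_le_norm (mu z q)
    have e10 := (abs_le.1 e7).1
    linarith
  have mu_ne : mu z q ≠ 0 := by
    intro h1; rw [h1, norm_zero] at mu_re; norm_num at mu_re
  have mu_pos : 0 < ‖mu z q‖ := norm_pos_iff.2 mu_ne
  have na1 : ∀ k, 1 ≤ k → ‖ak z q k‖ ≤ 3 / 2 * w ‖z‖ (k + 1) := by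
    intro k hk
    unfold ak
    rw [norm_div, div_le_iff₀ mu_pos]
    have h1 := nP1 k hk
    have h2 := mul_le_mul_of_nonneg_left mu_re (mul_nonneg (by norm_num : (0 : ℝ) ≤ 3 / 2) (hw (k + 1)))
    have h3 := hw (k + 1)
    linarith
  have na : ∀ k, ‖ak z q k‖ ≤ 2 * w ‖z‖ (k + 1) := by
    intro k
    rcases Nat.eq_zero_or_pos k with rfl | hk
    · unfold ak
      rw [P0, norm_div, norm_one, div_le_iff₀ mu_pos]
      have e : w ‖z‖ (0 + 1) = ‖z‖ := by unfold w; simp
      rw [e]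
      nlinarith
    · have := na1 k hk
      have h3 := hw (k + 1)
      linarith
  have sP : Summable (Pit z q) := by
    have := summable_quad (by norm_num) hr nP none
    simpa only [one_mul] using this
  have sa : Summable (ak z q) := by
    have := summable_quad (by norm_num) hr na none
    simpa only [one_mul] using this
  have ta : ∑' k, ak z q k = 1 := by
    unfold ak
    rw [tsum_div_const]
    exact div_self mu_ne
  have a0 : ak z q 0 = (mu z q)⁻¹ := by unfold ak; rw [P0, one_div]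
  have as : ∀ k, ak z q k = ak z q 0 * pik z q k + ak z q (k + 1) := by
    intro k
    rw [a0]; unfold ak
    rw [Ps k]; field_simp
  have nA : ∀ n, ‖Ak z q n‖ ≤ 2 * w ‖z‖ (n + 2) := by
    intro n
    have hn : (0 : ℝ) ≤ n := Nat.cast_nonneg n
    refine (tail_bound (A := 3 / 2) (c := 1 / 4) (m := n + 2) (by norm_num) h0 (by norm_num)
      (by norm_num) (by push_cast; linarith) (fun j => ?_) (by norm_num)).2
    have := na1 (n + 1 + j) (by omega)
    rwa [show n + 1 + j + 1 = n + 2 + j by omega] at this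
  have nAA : ∀ n, ‖AAk z q n‖ ≤ 8 / 3 * w ‖z‖ (n + 3) := by
    intro n
    have hn : (0 : ℝ) ≤ n := Nat.cast_nonneg n
    refine (tail_bound (A := 2) (c := 1 / 4) (m := n + 3) (by norm_num) h0 (by norm_num)
      (by norm_num) (by push_cast; linarith) (fun j => ?_) (by norm_num)).2
    have := nA (n + 1 + j)
    rwa [show n + 1 + j + 2 = n + 3 + j by omega] at this
  have As : ∀ n, Ak z q n = ak z q (n + 1) + Ak z q (n + 1) := fun n => tail_succ sa (n + 1)
  have A0 : Ak z q 0 = 1 - ak z q 0 := by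
    have e := tail_succ sa 0
    simp only [zero_add] at e
    rw [ta] at e
    have e2 : Ak z q 0 = ∑' j, ak z q (1 + j) := by unfold Ak; simp only [zero_add]
    rw [e2]; linear_combination -e
  have sA : Summable (Ak z q) := by
    refine Summable.of_norm_bounded ((summable_w hr 2).mul_left 2) nA
  have AAs : ∀ n, AAk z q n = Ak z q (n + 1) + AAk z q (n + 1) := fun n => tail_succ sA (n + 1)
  have m1e : m1 z q = ∑' n, Ak z q n := by
    -- numerator
    have e1 : ∑' k : ℕ, ((k : ℂ) * ((k : ℂ) + 1) / 2) * pik z q k = ∑' k : ℕ, (k : ℂ) * Pit z q k := by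
      have e := exchange (S := Pit z q) (f := pik z q) (g := fun k => (k : ℂ))
        (G := fun k => (k : ℂ) * ((k : ℂ) - 1) / 2) Ps
        (by simp) (fun k => by push_cast; ring)
        (summable_quad (by norm_num) hr nP norm_cast_le)
        (by
          have : (fun k : ℕ => ((k + 1 : ℕ) : ℂ) * (((k + 1 : ℕ) : ℂ) - 1) / 2 * pik z q k) =
              fun k : ℕ => ((k : ℂ) * ((k : ℂ) + 1) / 2) * pik z q k := by
            funext k; push_cast; ring
          rw [this]; exact summable_quad (by norm_num) hr npi' norm_tri_le)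
        (summable_quad (by norm_num) hr nP norm_tri'_le).tendsto_atTop_zero
      rw [e]
      refine tsum_congr fun k => ?_
      push_cast; ring
    have e2 : ∑' n, Ak z q n = ∑' n : ℕ, ((n + 1 : ℕ) : ℂ) * ak z q (n + 1) := by
      have nA' : ∀ k, ‖Ak z q k‖ ≤ 2 * w ‖z‖ (k + 1) := by
        intro k
        refine (nA k).trans ?_
        have hk : (0 : ℝ) ≤ k := Nat.cast_nonneg k
        have := w_succ_le (c := 1) h0 (m := k + 1) (by push_cast; linarith)
        rw [mul_one] at this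
        linarith
      have na' : ∀ k, ‖ak z q (k + 1)‖ ≤ 2 * w ‖z‖ (k + 1) := by
        intro k
        refine (na (k + 1)).trans ?_
        have hk : (0 : ℝ) ≤ k := Nat.cast_nonneg k
        have := w_succ_le (c := 1) h0 (m := k + 1) (by push_cast; linarith)
        rw [mul_one] at this
        linarith
      have e := exchange (S := Ak z q) (f := fun n => ak z q (n + 1)) (g := fun _ => 1)
        (G := fun k => (k : ℂ)) As
        (by simp) (fun k => by push_cast; ring)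
        (summable_quad (by norm_num) hr nA' none)
        (by
          have : (fun k : ℕ => ((k + 1 : ℕ) : ℂ) * ak z q (k + 1)) =
              fun k : ℕ => ((k : ℂ) + 1) * ak z q (k + 1) := by
            funext k; push_cast; ring
          rw [this]; exact summable_quad (by norm_num) hr na' norm_cast_succ_le)
        (summable_quad (by norm_num) hr nA' norm_cast_le).tendsto_atTop_zero
      simp only [one_mul] at e
      exact e
    have ska : Summable fun k : ℕ => (k : ℂ) * ak z q k :=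
      summable_quad (by norm_num) hr na norm_cast_le
    have e3 : ∑' k : ℕ, (k : ℂ) * ak z q k = ∑' n : ℕ, ((n + 1 : ℕ) : ℂ) * ak z q (n + 1) := by
      rw [ska.tsum_eq_zero_add]; simp
    have e4 : ∑' k : ℕ, (k : ℂ) * ak z q k = (∑' k : ℕ, (k : ℂ) * Pit z q k) / mu z q := by
      rw [← tsum_div_const]
      refine tsum_congr fun k => ?_
      unfold ak; ring
    unfold m1
    rw [e1, ← mu_eq, e2, ← e3, e4]
  have nfac : ∀ (C : ℝ) (m : ℕ), C * w ‖z‖ m = C * ‖z‖ ^ m / (m ! : ℝ) := by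
    intro C m; unfold w; ring
  exact
    { z_ne := z_ne
      q_ne := q_ne
      norm_pik := npi
      summable_pik := spi
      tsum_pik := tpi
      Pit_zero := P0
      Pit_succ := Ps
      norm_Pit := fun k => by
        rw [← nfac]; exact (nP k).trans (mul_le_mul_of_nonneg_right (by norm_num) (hw _))
      mu_eq := mu_eq
      mu_ne := mu_ne
      norm_ak := fun k => by rw [← nfac]; exact na k
      tsum_ak := ta
      ak_zero := a0
      ak_succ := as
      norm_Ak := fun n => by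
        rw [← nfac]; exact (nA n).trans (mul_le_mul_of_nonneg_right (by norm_num) (hw _))
      Ak_succ := As
      Ak_zero := A0
      norm_AAk := fun n => by
        rw [← nfac]; exact (nAA n).trans (mul_le_mul_of_nonneg_right (by norm_num) (hw _))
      AAk_succ := AAs
      m1_eq := m1e
      m1_eq' := by
        rw [m1e, sA.tsum_eq_zero_add]
        unfold AAk
        have e : (fun b => Ak z q (b + 1)) = fun j => Ak z q (0 + 1 + j) := by
          funext b; rw [show b + 1 = 0 + 1 + b by omega]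
        rw [e] }

end S1

/-- S1. -/
theorem tBasics : TBasics := fun _ _ h => S1.basics h

end Pool.Agent.Whit
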