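import Pool.Agent.Whit.S2b

/-!
# Job S2: numerical enclosures (TEnc)
-/

namespace Pool.Agent.Whit.S2

open scoped Nat

/-! ### General tail bounds -/

lemma term_le {r : ℝ} (h0 : 0 ≤ r) (m j : ℕ) :
    r ^ (m + j) / ((m + j)! : ℝ) ≤ r ^ m / (m ! : ℝ) * (r / (m + 1)) ^ j := by
  have h1 : ((m ! * (m + 1) ^ j : ℕ) : ℝ) ≤ ((m + j)! : ℝ) := by
    exact_mod_cast Nat.factorial_mul_pow_le_factorial
  push_cast at h1
  have h2 : (0 : ℝ) < (m ! : ℝ) := by positivity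
  have h3 : (0 : ℝ) < (m + 1 : ℝ) ^ j := by positivity
  rw [pow_add, div_pow, div_mul_div_comm]
  exact div_le_div_of_nonneg_left (by positivity) (by positivity) h1

lemma tail_sum {r : ℝ} (h0 : 0 ≤ r) (h1 : r < 1) (m : ℕ) :
    Summable (fun j : ℕ => r ^ (m + j) / ((m + j)! : ℝ)) ∧
    ∑' j : ℕ, r ^ (m + j) / ((m + j)! : ℝ) ≤ r ^ m / (m ! : ℝ) * (1 - r / (m + 1))⁻¹ := by
  have h2 : r / (m + 1) < 1 := by
    rw [div_lt_one (by positivity)]
    have : (0 : ℝ) ≤ m := by positivity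
    linarith
  have h3 : 0 ≤ r / (m + 1) := by positivity
  have hg := (hasSum_geometric_of_lt_one h3 h2).mul_left (r ^ m / (m ! : ℝ))
  have hs : Summable (fun j : ℕ => r ^ (m + j) / ((m + j)! : ℝ)) :=
    Summable.of_nonneg_of_le (fun j => by positivity) (fun j => term_le h0 m j) hg.summable
  exact ⟨hs, (hs.tsum_le_tsum (fun j => term_le h0 m j) hg.summable).trans hg.tsum_eq.le⟩

/-- norm of a tail sum of the same type -/
lemma norm_tail {r c : ℝ} (h0 : 0 ≤ r) (h1 : r < 1) (hc : 0 ≤ c) (m : ℕ) {f : ℕ → ℂ}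
    (hf : ∀ j, ‖f j‖ ≤ c * (r ^ (m + j) / ((m + j)! : ℝ))) :
    ‖∑' j, f j‖ ≤ c * (r ^ m / (m ! : ℝ) * (1 - r / (m + 1))⁻¹) := by
  obtain ⟨hs, hle⟩ := tail_sum h0 h1 m
  exact (tsum_of_norm_bounded (hs.hasSum.mul_left c) hf).trans (mul_le_mul_of_nonneg_left hle hc)

lemma inv_le {r b : ℝ} {m : ℕ} (hr : r ≤ 7378 / 10000) {M : ℕ} (hM : M ≤ m)
    (hb : (1 - 7378 / 10000 / ((M : ℝ) + 1))⁻¹ ≤ b) (_h0 : 0 ≤ r) :
    (1 - r / ((m : ℝ) + 1))⁻¹ ≤ b := by
  refine le_trans (inv_anti₀ ?_ ?_) hb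
  · have : (7378 : ℝ) / 10000 / ((M : ℝ) + 1) ≤ 7378 / 10000 := by
      rw [div_le_iff₀ (by positivity)]
      have : (0 : ℝ) ≤ M := by positivity
      nlinarith
    linarith
  · have h1 : r / ((m : ℝ) + 1) ≤ 7378 / 10000 / ((M : ℝ) + 1) := by
      have hM' : (M : ℝ) ≤ m := by exact_mod_cast hM
      exact div_le_div₀ (by norm_num) hr (by positivity) (by linarith)
    linarith

/-! ### Soundness of the tables -/

lemma nb_ok {x : Bl} {u : ℂ} (hx : x.Ok u) {nn : ℕ} (h : nb x nn) : ‖u‖ ≤ (nn : ℝ) / D := by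
  have hD := D_pos
  have h1 : ‖x.c‖ ≤ ((nn - x.e : ℕ) : ℝ) / D := by
    refine le_of_sq_le_sq ?_ (by positivity)
    rw [Bl.c, norm_sq_mk, div_pow, div_pow, div_pow, ← add_div]
    refine div_le_div_of_nonneg_right ?_ (by positivity)
    exact_mod_cast h.2
  have h2 : ‖u‖ ≤ ‖u - x.c‖ + ‖x.c‖ := by
    have := norm_add_le (u - x.c) x.c
    rwa [sub_add_cancel] at this
  have h3 : ((nn - x.e : ℕ) : ℝ) = (nn : ℝ) - x.e := by
    rw [Nat.cast_sub h.1]
  rw [h3, sub_div] at h1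
  linarith [hx.1]

lemma lb_ok {x : Bl} {u : ℂ} (hx : x.Ok u) {l : ℕ}
    (h : (((l + x.e) ^ 2 : ℕ) : ℤ) ≤ x.a ^ 2 + x.b ^ 2) : (l : ℝ) / D ≤ ‖u‖ := by
  have hD := D_pos
  have hc : ((l + x.e : ℕ) : ℝ) / D ≤ ‖x.c‖ := by
    refine le_of_sq_le_sq ?_ (norm_nonneg _)
    rw [Bl.c, norm_sq_mk, div_pow, div_pow, div_pow, ← add_div]
    refine div_le_div_of_nonneg_right ?_ (by positivity)
    exact_mod_cast h
  have h3 : ‖x.c‖ ≤ ‖u‖ + ‖u - x.c‖ := by
    have := norm_sub_le u (u - x.c)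
    rwa [sub_sub_cancel] at this
  push_cast at hc
  rw [add_div] at hc
  linarith [hx.1]

section

variable {z q : ℂ}

lemma q0_eq : q0 = QB.c := by
  apply Complex.ext
  · simp only [q0, Bl.c, QB]; norm_num [D]
  · simp only [q0, Bl.c, QB]; norm_num [D]

lemma z0_eq : z0 = ZB.c := by
  apply Complex.ext
  · simp only [z0, Bl.c, ZB]; norm_num [D]
  · simp only [z0, Bl.c, ZB]; norm_num [D]

lemma norm_z0 : |‖z0‖ - 737750757478224 / 10 ^ 15| ≤ 1 / 10 ^ 13 := by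
  have h1 : ‖z0‖ ^ 2 = (-(73305252329682980 / 10 ^ 17 : ℝ)) ^ 2 +
      (-(8312748190487047 / 10 ^ 17 : ℝ)) ^ 2 := by
    unfold z0
    exact norm_sq_mk _ _
  have h2 : (737750757478224 / 10 ^ 15 - 1 / 10 ^ 13 : ℝ) ≤ ‖z0‖ := by
    refine le_of_sq_le_sq ?_ (norm_nonneg _)
    rw [h1]
    norm_num
  have h3 : ‖z0‖ ≤ (737750757478224 / 10 ^ 15 + 1 / 10 ^ 13 : ℝ) := by
    refine le_of_sq_le_sq ?_ (by positivity)
    rw [h1]
    norm_num
  rw [abs_le]
  constructor <;> linarith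

lemma norm_z_le (h : Opt z q) : |‖z‖ - 737750757478224 / 10 ^ 15| ≤ 11 / 10 ^ 13 := by
  have h1 := norm_z0
  have h2 : |‖z‖ - ‖z0‖| ≤ 1 / 10 ^ 12 := (abs_norm_sub_norm_le z z0).trans h.near_z
  rw [abs_le] at *
  constructor <;> linarith [h1.1, h1.2, h2.1, h2.2]

lemma QB_ok (h : Opt z q) : QB.Ok q := by
  refine ⟨?_, ?_⟩
  · rw [← q0_eq]
    refine h.near_q.trans (le_of_eq ?_)
    norm_num [QB, D]
  · rw [h.norm_q]
    norm_num [QB, D]

lemma ZB_ok (h : Opt z q) : ZB.Ok z := by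
  refine ⟨?_, ?_⟩
  · rw [← z0_eq]
    refine h.near_z.trans (le_of_eq ?_)
    norm_num [ZB, D]
  · have h1 := (abs_le.1 (norm_z_le h)).2
    have h2 : ‖z‖ ≤ 737750757478224 / 10 ^ 15 + 11 / 10 ^ 13 := by linarith
    refine h2.trans ?_
    norm_num [ZB, D]

lemma QIB_ok (h : Opt z q) : QIB.Ok q⁻¹ := by
  have h1 : q⁻¹ = (starRingEnd ℂ) q := by
    rw [Complex.inv_def, Complex.normSq_eq_norm_sq, h.norm_q]; simp
  have h2 : QIB.c = (starRingEnd ℂ) QB.c := by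
    apply Complex.ext
    · simp only [Bl.c, QIB, QB, Complex.conj_re]
    · simp only [Bl.c, QIB, QB, Complex.conj_im]; push_cast; ring
  refine ⟨?_, ?_⟩
  · rw [h1, h2, ← map_sub, RCLike.norm_conj]
    exact (QB_ok h).1
  · rw [norm_inv, h.norm_q]
    norm_num [QIB, D]

lemma ZIB_ok (h : Opt z q) : ZIB.Ok z⁻¹ := by
  rw [chk_ZIB]
  exact (inv_ok (ZB_ok h) (by norm_num) chk_ZBinv.1 (by simpa using chk_ZBinv.2)).1

lemma QT_ok (h : Opt z q) : ∀ k ≤ 14, (gt QT k).Ok (q ^ k) := by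
  intro k
  induction k with
  | zero => intro _; rw [chk_QT.1, pow_zero]; exact one_ok
  | succ k ih =>
    intro hk
    rw [chk_QT.2 k (by omega), pow_succ]
    exact mul_ok (ih (by omega)) (QB_ok h)

lemma tri (k : ℕ) : (k + 1) * (k + 1 + 1) / 2 = k * (k + 1) / 2 + (k + 1) := by
  rw [show (k + 1) * (k + 1 + 1) = k * (k + 1) + 2 * (k + 1) by ring,
    Nat.add_mul_div_left _ _ (by norm_num)]

lemma Vk_succ (z q : ℂ) (k : ℕ) : Vk z q (k + 1) = Vk z q k * (q ^ (k + 1) * z) := by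
  unfold Vk
  rw [tri, pow_add, pow_succ z]; ring

lemma VT_ok (h : Opt z q) : ∀ k ≤ 14, (gt VT k).Ok (Vk z q k) := by
  intro k
  induction k with
  | zero => intro _; rw [chk_VT.1]; simpa [Vk] using one_ok
  | succ k ih =>
    intro hk
    rw [chk_VT.2 k (by omega), Vk_succ]
    exact mul_ok (ih (by omega)) (mul_ok (QT_ok h _ hk) (ZB_ok h))

lemma piT_ok (h : Opt z q) : ∀ k < 14, (gt piT k).Ok (pik z q k) := by
  intro k hk
  rw [chk_piT k hk]
  unfold pik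
  exact neg_ok (divn_ok (mul_ok (VT_ok h k (by omega)) (ZB_ok h)) (Nat.factorial_pos _))

lemma z_pow_le (h : Opt z q) (m : ℕ) : ‖z‖ ^ m ≤ (7378 / 10000) ^ m := by
  refine pow_le_pow_left₀ (norm_nonneg _) ?_ m
  have := (abs_le.1 (norm_z_le h)).2
  norm_num at this ⊢
  linarith

lemma PitT_ok (h : Opt z q) (hB : Basics z q) : ∀ m ≤ 14, (gt PitT (14 - m)).Ok (Pit z q (14 - m)) := by
  intro m
  induction m with
  | zero =>
    intro _
    rw [Nat.sub_zero, chk_PitT.1]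
    refine small_ok ((hB.norm_Pit 14).trans ?_)
    have h1 := (ZB_ok h).2
    have h2 : ‖z‖ ^ (14 + 1) ≤ ((ZB.n : ℝ) / D) ^ 15 := pow_le_pow_left₀ (norm_nonneg _) h1 15
    calc 2 * ‖z‖ ^ (14 + 1) / ((14 + 1)! : ℝ) ≤ 2 * ((ZB.n : ℝ) / D) ^ 15 / ((14 + 1)! : ℝ) := by
          gcongr
      _ ≤ _ := by
          norm_num [ZB, D, Nat.factorial]
  | succ m ih =>
    intro hm
    have e1 : 14 - m = (14 - (m + 1)) + 1 := by omega
    have h1 := ih (by omega)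
    rw [e1] at h1
    rw [chk_PitT.2 (14 - (m + 1)) (by omega), hB.Pit_succ]
    exact add_ok (piT_ok h _ (by omega)) h1

lemma PitT_ok' (h : Opt z q) (hB : Basics z q) (k : ℕ) (hk : k ≤ 14) :
    (gt PitT k).Ok (Pit z q k) := by
  have := PitT_ok h hB (14 - k) (by omega)
  rwa [show 14 - (14 - k) = k by omega] at this

lemma PSB_ok (h : Opt z q) (hB : Basics z q) : ∀ k ≤ 14,
    (PSB k).Ok (∑ j ∈ Finset.range k, Pit z q j) := by
  intro k
  induction k with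
  | zero =>
    intro _
    rw [Finset.sum_range_zero]
    exact small_ok (by simp)
  | succ k ih =>
    intro hk
    rw [Finset.sum_range_succ]
    exact add_ok (ih (by omega)) (PitT_ok' h hB k (by omega))

lemma sum_ak (hB : Basics z q) (n : ℕ) :
    ∑ j ∈ Finset.range (n + 1), ak z q j = 1 - Ak z q n := by
  induction n with
  | zero => rw [Finset.sum_range_one, hB.Ak_zero]; ring
  | succ n ih =>
    rw [Finset.sum_range_succ, ih]
    have := hB.Ak_succ n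
    rw [this]; ring

lemma norm_Ak13 (h : Opt z q) (hB : Basics z q) : ‖Ak z q 13‖ ≤ ((3193048 : ℕ) : ℝ) / D := by
  refine (hB.norm_Ak 13).trans ?_
  have h1 := (ZB_ok h).2
  have h2 : ‖z‖ ^ (13 + 2) ≤ ((ZB.n : ℝ) / D) ^ 15 := pow_le_pow_left₀ (norm_nonneg _) h1 15
  calc 4 * ‖z‖ ^ (13 + 2) / ((13 + 2)! : ℝ) ≤ 4 * ((ZB.n : ℝ) / D) ^ 15 / ((13 + 2)! : ℝ) := by
        gcongr
    _ ≤ _ := by
        norm_num [ZB, D, Nat.factorial]

lemma MIB_ok (h : Opt z q) (hB : Basics z q) : MIB.Ok (mu z q)⁻¹ := by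
  have h1 := PSB_ok h hB 14 le_rfl
  rw [chk_SB] at h1
  have h2 := inv_ok h1 (a' := 76347724001736010507) (b' := 2425361471445415895)
    (l := 130913634138735522084) (nn := 76386237886889211394) (by norm_num) chk_SBinv.1
    (by simpa using chk_SBinv.2)
  have hne : ∑ j ∈ Finset.range 14, Pit z q j ≠ 0 := by
    rw [← norm_pos_iff]
    refine lt_of_lt_of_le ?_ h2.2
    exact div_pos (by norm_num) D_pos
  have h3 : (mu z q)⁻¹ = (1 + -Ak z q 13) * (∑ j ∈ Finset.range 14, Pit z q j)⁻¹ := by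
    have h4 := sum_ak hB 13
    have h5 : ∑ j ∈ Finset.range (13 + 1), ak z q j =
        (∑ j ∈ Finset.range 14, Pit z q j) * (mu z q)⁻¹ := by
      rw [Finset.sum_mul]
      exact Finset.sum_congr rfl fun j _ => by rw [ak, div_eq_mul_inv]
    rw [h5] at h4
    rw [← sub_eq_add_neg, ← h4]
    field_simp
  rw [h3, chk_MIB]
  refine mul_ok (add_ok one_ok (small_ok ?_)) h2.1
  rw [norm_neg]
  exact norm_Ak13 h hB

lemma akT_ok (h : Opt z q) (hB : Basics z q) (k : ℕ) (hk : k < 14) : (gt akT k).Ok (ak z q k) := by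
  rw [chk_akT k hk, ak, div_eq_mul_inv]
  exact mul_ok (PitT_ok' h hB k (by omega)) (MIB_ok h hB)

lemma AkT_ok (h : Opt z q) (hB : Basics z q) : ∀ m ≤ 13, (gt AkT (13 - m)).Ok (Ak z q (13 - m)) := by
  intro m
  induction m with
  | zero =>
    intro _
    rw [Nat.sub_zero, chk_AkT.1]
    exact small_ok (norm_Ak13 h hB)
  | succ m ih =>
    intro hm
    have e1 : 13 - m = (13 - (m + 1)) + 1 := by omega
    have h1 := ih (by omega)
    rw [e1] at h1
    rw [chk_AkT.2 (13 - (m + 1)) (by omega), hB.Ak_succ]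
    exact add_ok (akT_ok h hB _ (by omega)) h1

lemma AkT_ok' (h : Opt z q) (hB : Basics z q) (k : ℕ) (hk : k ≤ 13) :
    (gt AkT k).Ok (Ak z q k) := by
  have := AkT_ok h hB (13 - k) (by omega)
  rwa [show 13 - (13 - k) = k by omega] at this

lemma AAkT_ok (h : Opt z q) (hB : Basics z q) :
    ∀ m ≤ 12, (gt AAkT (12 - m)).Ok (AAk z q (12 - m)) := by
  intro m
  induction m with
  | zero =>
    intro _
    rw [Nat.sub_zero, chk_AAkT.1]
    refine small_ok ((hB.norm_AAk 12).trans ?_)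
    have h1 := (ZB_ok h).2
    have h2 : ‖z‖ ^ (12 + 3) ≤ ((ZB.n : ℝ) / D) ^ 15 := pow_le_pow_left₀ (norm_nonneg _) h1 15
    calc 8 * ‖z‖ ^ (12 + 3) / ((12 + 3)! : ℝ) ≤ 8 * ((ZB.n : ℝ) / D) ^ 15 / ((12 + 3)! : ℝ) := by
          gcongr
      _ ≤ _ := by
          norm_num [ZB, D, Nat.factorial]
  | succ m ih =>
    intro hm
    have e1 : 12 - m = (12 - (m + 1)) + 1 := by omega
    have h1 := ih (by omega)
    rw [e1] at h1
    rw [chk_AAkT.2 (12 - (m + 1)) (by omega), hB.AAk_succ]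
    exact add_ok (AkT_ok' h hB _ (by omega)) h1

lemma AAkT_ok' (h : Opt z q) (hB : Basics z q) (k : ℕ) (hk : k ≤ 12) :
    (gt AAkT k).Ok (AAk z q k) := by
  have := AAkT_ok h hB (12 - k) (by omega)
  rwa [show 12 - (12 - k) = k by omega] at this

lemma QIT_ok (h : Opt z q) : ∀ k ≤ 10, (gt QIT k).Ok (q⁻¹ ^ k) := by
  intro k
  induction k with
  | zero => intro _; rw [chk_QIT.1, pow_zero]; exact one_ok
  | succ k ih =>
    intro hk
    rw [chk_QIT.2 k (by omega), pow_succ]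
    exact mul_ok (ih (by omega)) (QIB_ok h)

lemma WT_ok (h : Opt z q) : ∀ k ≤ 10, (gt WT k).Ok (Vk z⁻¹ q⁻¹ k) := by
  intro k
  induction k with
  | zero => intro _; rw [chk_WT.1]; simpa [Vk] using one_ok
  | succ k ih =>
    intro hk
    rw [chk_WT.2 k (by omega), Vk_succ]
    exact mul_ok (ih (by omega)) (mul_ok (QIT_ok h _ hk) (ZIB_ok h))

lemma ellT_ok (h : Opt z q) (hB : Basics z q) (k : ℕ) (hk : k < 10) :
    (gt ellT k).Ok (ell z q k) := by
  have e1 : ell z q k = ak z q k * Vk z⁻¹ q⁻¹ k := by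
    unfold ell Vk
    rw [inv_pow, inv_pow, div_eq_mul_inv, mul_inv]
  rw [chk_ellT k hk, e1]
  exact mul_ok (akT_ok h hB k (by omega)) (WT_ok h k (by omega))

lemma pkT_ok (h : Opt z q) (k : ℕ) (hk : k < 10) : (gt pkT k).Ok (pk z q k) := by
  rw [chk_pkT k hk, pk]
  exact mul_ok (QT_ok h _ (by omega)) (ZB_ok h)

/-! ### General bounds -/

lemma norm_mu_inv (h : Opt z q) (hB : Basics z q) : ‖(mu z q)⁻¹‖ ≤ 77 / 100 := by
  refine (nb_ok (MIB_ok h hB) nb_MIB).trans (le_of_eq ?_)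
  norm_num [D]

lemma z_lt (h : Opt z q) : ‖z‖ ≤ 7378 / 10000 := by
  have := (abs_le.1 (norm_z_le h)).2
  norm_num at this ⊢
  linarith

lemma norm_Pit' (h : Opt z q) (hB : Basics z q) (k : ℕ) :
    ‖Pit z q k‖ ≤ ‖z‖ ^ (k + 1) / ((k + 1)! : ℝ) * (1 - ‖z‖ / ((k + 1 : ℕ) + 1))⁻¹ := by
  have hz := z_lt h
  have := norm_tail (c := 1) (norm_nonneg z) (by linarith) zero_le_one (k + 1)
    (f := fun j => pik z q (k + j)) (fun j => by
      rw [hB.norm_pik, one_mul, show k + 1 + j = k + j + 1 by ring])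
  rw [one_mul] at this
  exact this

lemma norm_Pit43 (h : Opt z q) (hB : Basics z q) (k : ℕ) (hk : 1 ≤ k) :
    ‖Pit z q k‖ ≤ 4 / 3 * (‖z‖ ^ (k + 1) / ((k + 1)! : ℝ)) := by
  refine (norm_Pit' h hB k).trans ?_
  rw [mul_comm]
  refine mul_le_mul_of_nonneg_right ?_ (by positivity)
  exact inv_le (z_lt h) (M := 2) (by omega) (by norm_num) (norm_nonneg z)

lemma norm_ak' (h : Opt z q) (hB : Basics z q) (k : ℕ) (hk : 1 ≤ k) :
    ‖ak z q k‖ ≤ 21 / 20 * (‖z‖ ^ (k + 1) / ((k + 1)! : ℝ)) := by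
  rw [ak, div_eq_mul_inv, norm_mul]
  calc ‖Pit z q k‖ * ‖(mu z q)⁻¹‖
      ≤ (4 / 3 * (‖z‖ ^ (k + 1) / ((k + 1)! : ℝ))) * (77 / 100) :=
        mul_le_mul (norm_Pit43 h hB k hk) (norm_mu_inv h hB) (norm_nonneg _) (by positivity)
    _ ≤ _ := by
        have : 0 ≤ ‖z‖ ^ (k + 1) / ((k + 1)! : ℝ) := by positivity
        linarith

lemma norm_Ak' (h : Opt z q) (hB : Basics z q) (n : ℕ) :
    ‖Ak z q n‖ ≤ 3 / 2 * (‖z‖ ^ (n + 2) / ((n + 2)! : ℝ)) := by
  have hz := z_lt h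
  have h1 := norm_tail (c := 21 / 20) (norm_nonneg z) (by linarith) (by norm_num) (n + 2)
    (f := fun j => ak z q (n + 1 + j)) (fun j => by
      have := norm_ak' h hB (n + 1 + j) (by omega)
      rwa [show n + 1 + j + 1 = n + 2 + j by ring] at this)
  have h2 := inv_le (b := 1.4) (z_lt h) (m := n + 2) (M := 2) (by omega) (by norm_num) (norm_nonneg z)
  refine h1.trans ?_
  calc 21 / 20 * (‖z‖ ^ (n + 2) / ((n + 2)! : ℝ) * (1 - ‖z‖ / (((n + 2 : ℕ) : ℝ) + 1))⁻¹)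
      ≤ 21 / 20 * (‖z‖ ^ (n + 2) / ((n + 2)! : ℝ) * 1.4) := by gcongr
    _ ≤ _ := by
        have : 0 ≤ ‖z‖ ^ (n + 2) / ((n + 2)! : ℝ) := by positivity
        linarith

lemma norm_AAk' (h : Opt z q) (hB : Basics z q) (n : ℕ) :
    ‖AAk z q n‖ ≤ 2 * (‖z‖ ^ (n + 3) / ((n + 3)! : ℝ)) := by
  have hz := z_lt h
  have h1 := norm_tail (c := 3 / 2) (norm_nonneg z) (by linarith) (by norm_num) (n + 3)
    (f := fun j => Ak z q (n + 1 + j)) (fun j => by
      have := norm_Ak' h hB (n + 1 + j)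
      rwa [show n + 1 + j + 2 = n + 3 + j by ring] at this)
  have h2 := inv_le (b := 1.3) (z_lt h) (m := n + 3) (M := 3) (by omega) (by norm_num) (norm_nonneg z)
  refine h1.trans ?_
  calc 3 / 2 * (‖z‖ ^ (n + 3) / ((n + 3)! : ℝ) * (1 - ‖z‖ / (((n + 3 : ℕ) : ℝ) + 1))⁻¹)
      ≤ 3 / 2 * (‖z‖ ^ (n + 3) / ((n + 3)! : ℝ) * 1.3) := by gcongr
    _ ≤ _ := by
        have : 0 ≤ ‖z‖ ^ (n + 3) / ((n + 3)! : ℝ) := by positivity
        linarith

lemma norm_Vk (h : Opt z q) (k : ℕ) : ‖Vk z q k‖ = ‖z‖ ^ k := by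
  unfold Vk
  rw [norm_mul, norm_pow, norm_pow, h.norm_q, one_pow, one_mul]

lemma ell_big (h : Opt z q) (hB : Basics z q) (k : ℕ) (hk : 10 ≤ k) :
    ‖ell z q k‖ ≤ 66 / 100 / ((k + 1)! : ℝ) := by
  have hz := z_lt h
  have hz0 : 0 < ‖z‖ := norm_pos_iff.2 hB.z_ne
  have h1 := norm_Pit' h hB k
  have h2 := inv_le (b := 1.07) (z_lt h) (m := k + 1) (M := 11) (by omega) (by norm_num) (norm_nonneg z)
  have h3 := norm_mu_inv h hB
  rw [ell, ak, norm_div, norm_Vk h, div_eq_mul_inv (Pit z q k), norm_mul]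
  rw [div_le_iff₀ (by positivity)]
  calc ‖Pit z q k‖ * ‖(mu z q)⁻¹‖
      ≤ (‖z‖ ^ (k + 1) / ((k + 1)! : ℝ) * 1.07) * (77 / 100) := by
        refine mul_le_mul (h1.trans ?_) h3 (norm_nonneg _) (by positivity)
        exact mul_le_mul_of_nonneg_left h2 (by positivity)
    _ = (‖z‖ * (1.07 * (77 / 100))) / ((k + 1)! : ℝ) * ‖z‖ ^ k := by
        rw [pow_succ]; ring
    _ ≤ 66 / 100 / ((k + 1)! : ℝ) * ‖z‖ ^ k := by
        gcongr
        linarith

lemma ell_bd' (h : Opt z q) (hB : Basics z q) (k : ℕ) (hk : 1 ≤ k) :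
    ‖ell z q k‖ ≤ 66 / 100 / ((k + 1)! : ℝ) := by
  rcases Nat.lt_or_ge k 10 with h10 | h10
  · have h1 := nb_ok (ellT_ok h hB k h10) (nb_ell k h10 hk)
    refine h1.trans ?_
    have hD := D_pos
    have hf : (0 : ℝ) < ((k + 1)! : ℝ) := by positivity
    rw [div_le_div_iff₀ hD hf]
    have h2 : ((66 * D / 100 / (k + 1)! : ℕ) : ℝ) * ((k + 1)! : ℝ) ≤ ((66 * D / 100 : ℕ) : ℝ) := by
      exact_mod_cast Nat.div_mul_le_self _ _
    refine h2.trans (le_of_eq ?_)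
    norm_num [D]
  · exact ell_big h hB k h10

end

end Pool.Agent.Whit.S2

namespace Pool.Agent.Whit

open S2

theorem tEnc : TEnc := by
  intro z q h hB
  refine
    { norm_z := ?_
      ell_bd := ell_bd' h hB
      ell_zero := ?_
      ell_zero' := ?_
      enc_ell := fun k hk => close_tab (ellT_ok h hB k hk) (cl_ell k hk)
      enc_pk := fun k hk => close_tab (pkT_ok h k hk) (cl_pk k hk)
      enc_Pit := fun k hk => close_tab (PitT_ok' h hB k (by omega)) (cl_Pit k hk)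
      enc_Ak := fun k hk => close_tab (AkT_ok' h hB k (by omega)) (cl_Ak k hk)
      enc_AAk := fun k hk => close_tab (AAkT_ok' h hB k (by omega)) (cl_AAk k hk)
      enc_m1 := ?_
      norm_Pit := norm_Pit43 h hB
      norm_ak := norm_ak' h hB
      norm_Ak := norm_Ak' h hB
      norm_AAk := norm_AAk' h hB }
  · exact (norm_z_le h).trans (by norm_num)
  · refine (nb_ok (ellT_ok h hB 0 (by norm_num)) nb_ell0).trans (le_of_eq ?_)
    norm_num [D]
  · refine le_trans (le_of_eq ?_) (lb_ok (ellT_ok h hB 0 (by norm_num)) lb_ell0)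
    norm_num [D]
  · have h1 := close_tab (add_ok (AkT_ok' h hB 0 (by norm_num)) (AAkT_ok' h hB 0 (by norm_num)))
      cl_m1
    rw [← hB.m1_eq'] at h1
    have h2 := (Complex.abs_re_le_norm _).trans h1
    simpa [dec] using h2

end Pool.Agent.Whit
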