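import Pool.Agent.Whit.A1
import Pool.Agent.Whit.A2
import Pool.Agent.Whit.A3
import Pool.Agent.Whit.A4
import Pool.Agent.Whit.B1
import Pool.Agent.Whit.CC
import Pool.Agent.Whit.FT
import Pool.Agent.Whit.K
import Pool.Agent.Whit.NI
import Pool.Agent.Whit.NT
import Pool.Agent.Whit.S1
import Pool.Agent.Whit.S2
import Pool.Agent.Whit.FM
import Pool.Agent.Whit.NM

/-!
# The Whittaker constant: assembly
-/

namespace Pool.Agent.Whit

theorem tFinal : TFinal := by
  obtain ⟨z, q, hO⟩ := tOpt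
  have hB := tBasics z q hO
  have hE := tEnc z q hO hB
  have hK := tKey tFarTail tFarMain tNearId tNearTail tNearMain tCover z q hO hB hE
  have hG := tGBound z q hO hB hE hK
  have hn := abs_le.mp hE.norm_z
  have hpos : 0 < ‖z‖ := by linarith [hn.1]
  have hlt : ‖z‖ < 1 := by linarith [hn.2]
  have hleast : IsLeast {t : ℝ | ∃ z q : ℂ, ‖q‖ ≤ 1 ∧ phi z q = 0 ∧ t = ‖z‖} ‖z‖ := by
    refine ⟨⟨z, q, hO.norm_q.le, hO.zero, rfl⟩, ?_⟩
    rintro t ⟨z', q', hq', h0, rfl⟩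
    exact tZeros z hpos hG z' q' hq' h0
  have hom : omega = ‖z‖ := hleast.csInf_eq
  unfold TFinal
  rw [hom]
  refine ⟨⟨tWhit z hpos hlt hG, ?_⟩, by linarith [hn.1], by linarith [hn.2]⟩
  intro W hW
  by_contra hlt'
  rw [not_le] at hlt'
  obtain ⟨ha, ht, h1⟩ := tUpper z q hO.norm_q hO.zero
  have := hW _ ha (lt_of_le_of_lt ht (by exact_mod_cast hlt')) 0
  rw [h1] at this
  exact one_ne_zero this

end Pool.Agent.Whit
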