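import Pool.Agent.Whit.FarData

/-!
# Integer matrices of the near zone
-/

namespace Pool.Agent.Whit.Eng

/-- `10^10 A_i`. -/
def AG (i : ℕ) : GI := GI.rnd 100000 (ofP (AkD.getD i (0, 0)))

/-- `10^10 AA_i`. -/
def AAG (i : ℕ) : GI := GI.rnd 100000 (ofP (AAkD.getD i (0, 0)))

/-- `10^10 Π_i`. -/
def PG (i : ℕ) : GI := GI.rnd 100000 (ofP (PitD.getD i (0, 0)))

/-- `10^8 A_i`. -/
def A8 (i : ℕ) : GI := GI.rnd 10000000 (ofP (AkD.getD i (0, 0)))

/-- `∑_{i<n} c_i u^{i+s}`. -/
def tpS (s : ℕ) (c : ℕ → GI) : ℕ → TP
  | 0 => []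
  | n + 1 => (n + s, c n) :: tpS s c n

/-- Row `A(d) + F`. -/
def rowS : List TP :=
  (List.range 9).map fun k =>
    if k = 0 then tpS 0 AG 12
    else (0, AG (k - 1)) :: (tpS 1 (fun i => AG (max k i)) 12 ++
      tpS 0 (fun i => GI.neg (AG (max k i))) 12)

/-- Linear row. -/
def rowR : List TP :=
  (List.range 9).map fun k =>
    if k = 0 then (0, ⟨1382069453, 0⟩) :: tpS 1 AAG 12
    else tpS 1 (fun i => AG (max k i)) 12

/-- Row `A(d)`. -/
def rowA : List GI := (List.range 9).map fun k => if k = 0 then ⟨0, 0⟩ else A8 (k - 1)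

/-- Row `X - Π(d)`. -/
def rowPi : List TP :=
  (List.range 9).map fun k => if k = 0 then [(0, oneG)] else [(0, GI.neg (PG k))]

/-- Row `X + η ∑_{j ≤ m} d_j + d_m`. -/
def rowHn (m : ℕ) : List TP :=
  (List.range 9).map fun k =>
    if k = 0 then [(0, oneG)]
    else if k = m + 1 then [(1, oneG)]
    else if k < m + 1 then [(1, oneG), (0, GI.neg oneG)] else []

/-- First row doubled. -/
def linM (l : List TP) (j : ℤ) : List (List GI) :=
  match rowG j l with
  | [] => []
  | a :: r => [GI.smul 2 a :: r]

/-- `β_k 2^{8-k}`. -/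
def lossN : ℕ → List TP → List ℤ
  | _, [] => []
  | s, t :: l => ((bet t * s : ℕ) : ℤ) :: lossN (s / 2) l

/-- Loss of the linear row. -/
def lossLin (l : List TP) : List (List GI) :=
  addM (diagM (lossN 256 l)) (diagM [((256 * btot l : ℕ) : ℤ)])

/-- Lower bounds of `10^14 c_k`. -/
def cLo : List ℤ :=
  [7347728431956, 1119774197832, 170650598445, 26006695641, 3963350989, 604004110, 92048613,
   14027963]

/-- Upper bounds of `10^14 c_k`. -/
def cHi : List ℤ :=
  [7347728432356, 1119774197954, 170650598474, 26006695647, 3963350991, 604004111, 92048615,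
   14027964, 2137825]

/-- Base weights. -/
def baseN : List ℤ :=
  [1292800000000000000000000000000, 518400000000000000000000000000,
   131200000000000000000000000000, 52800000000000000000000000000, 21280000000000000000000000000,
   8080000000000000000000000000, 4040000000000000000000000000, 1636000000000000000000000000,
   818000000000000000000000000]

/-- Positive constant part. -/
def nearP : List (List GI) :=
  addM (scaleM (256000 * 99999000000000) (sqM rowA))
    (diagM (0 :: scaleD (256000 * 10000000000000000) cLo))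

/-- Negative part. -/
def nearN (j : ℤ) : List (List GI) :=
  addM (scaleM (1001 * 100000000000000) (negM rowS j))
    (addM (scaleM (1001 * cHi.getD 0 0) (negM rowPi j))
      (addM (sumM (fun k => scaleM (1001 * cHi.getD (k + 1) 0) (negM (rowHn k) j)) 8)
        (addM (scaleM 1000000000000000000000 (lossLin rowR)) (diagM baseN))))

/-- The matrix at the grid point `j`. -/
def nearM (j : ℤ) : List (List GI) :=
  addM (addM nearP (scaleM (256000 * 10000000000000000000000) (linM rowR j)))
    (scaleM (-1) (nearN j))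

/-- Check of the grid point number `i`. -/
def nearPt (i : ℕ) : Bool := psd 9 (nearM (-8 + i))

end Pool.Agent.Whit.Eng
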