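import Pool.Agent.Whit.FarS
import Pool.Agent.Whit.NearData

/-!
# The near zone: rows
-/

namespace Pool.Agent.Whit.Eng

open Complex

noncomputable section

/-! ### The linear row -/

theorem dq_lossN (l : List TP) (m : ℕ) (hl : l.length ≤ m + 1) (v : ℕ → ℂ) :
    dq (lossN (2 ^ m) l) v = 2 ^ m * wsum l v := by
  induction l generalizing m v with
  | nil => simp [wsum, lossN, dq]
  | cons t l ih =>
    simp only [wsum, lossN, dq]
    cases m with
    | zero =>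
      have : l = [] := by
        cases l with
        | nil => rfl
        | cons a l => simp at hl
      subst this
      simp [wsum, lossN, dq]
    | succ m =>
      have h3 := ih m (by simp at hl ⊢; omega) (sh v)
      have e : (2 : ℕ) ^ (m + 1) / 2 = 2 ^ m := by rw [pow_succ]; simp
      rw [e, h3]
      push_cast
      rw [pow_succ]
      ring

theorem qf_lossLin (l : List TP) (hl : l.length = 9) (v : ℕ → ℂ) :
    qf (lossLin l) v = 256 * (wsum l v + (btot l : ℝ) * ‖v 0‖ ^ 2) := by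
  unfold lossLin
  rw [qf_addM, qf_diagM, qf_diagM]
  have := dq_lossN l 8 (by omega) v
  norm_num at this
  rw [this]
  simp only [dq]
  push_cast
  ring

theorem qf_linM (l : List TP) (j : ℤ) (v : ℕ → ℂ) :
    qf (linM l j) v = 2 * ((starRingEnd ℂ) (v 0) * dot (rowG j l) v).re := by
  unfold linM
  cases h : rowG j l with
  | nil => simp [qf, dot]
  | cons a r =>
    simp only [qf, rowq, dot, add_zero]
    have e : (starRingEnd ℂ) (v 0) * (a.toC * v 0 + dot r (sh v)) =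
        a.toC * ((starRingEnd ℂ) (v 0) * v 0) + (starRingEnd ℂ) (v 0) * dot r (sh v) := by ring
    rw [e, Complex.add_re, ← Complex.normSq_eq_conj_mul_self, Complex.re_mul_ofReal,
      Complex.normSq_eq_norm_sq]
    simp only [GI.smul, GI.toC]
    push_cast
    ring

theorem lin_row (j : ℤ) (hj : |j| ≤ 149) (τ : ℝ) (h0 : 0 ≤ τ) (h1 : τ ≤ 1) (l : List TP)
    (hlen : l.length = 9) (hl : okR l) (y : ℕ → ℂ)
    (hy : ∀ k < 9, ‖y k - evC (l.getD k []) (pt j τ)‖ ≤ 5 / 10 ^ 9) (v : ℕ → ℂ) :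
    256000 * 10 ^ 22 * ((1 - τ) * qf (linM l j) v + τ * qf (linM l (j + 1)) v) -
      10 ^ 21 * qf (lossLin l) v ≤
    256000 * 10 ^ 30 * (2 * ((starRingEnd ℂ) (v 0) * ∑ k ∈ Finset.range 9, y k * v k).re) := by
  have hb := row_bd j hj τ h0 h1 l hl y (by rw [hlen]; exact hy) v
  rw [hlen] at hb
  rw [qf_linM, qf_linM, qf_lossLin l hlen]
  set Y : ℂ := ∑ k ∈ Finset.range 9, y k * v k with hY
  set Z : ℂ := (1 - τ) * (dot (rowG j l) v / 10 ^ 8) + τ * (dot (rowG (j + 1) l) v / 10 ^ 8) with hZ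
  have ha := amgm_row l v ‖v 0‖ (norm_nonneg _)
  have e1 : ((starRingEnd ℂ) (v 0) * Y).re = ((starRingEnd ℂ) (v 0) * Z).re +
      ((starRingEnd ℂ) (v 0) * (Y - Z)).re := by
    rw [← Complex.add_re]; congr 1; ring
  have e2 : ((starRingEnd ℂ) (v 0) * Z).re =
      ((1 - τ) * ((starRingEnd ℂ) (v 0) * dot (rowG j l) v).re +
        τ * ((starRingEnd ℂ) (v 0) * dot (rowG (j + 1) l) v).re) / 10 ^ 8 := by
    have : (starRingEnd ℂ) (v 0) * Z =
        (((1 - τ) / 10 ^ 8 : ℝ) : ℂ) * ((starRingEnd ℂ) (v 0) * dot (rowG j l) v) +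
        ((τ / 10 ^ 8 : ℝ) : ℂ) * ((starRingEnd ℂ) (v 0) * dot (rowG (j + 1) l) v) := by
      rw [hZ]; push_cast; ring
    rw [this, Complex.add_re, Complex.re_ofReal_mul, Complex.re_ofReal_mul]
    ring
  have e3 : -(‖v 0‖ * (bsum l v / 10 ^ 12)) ≤ ((starRingEnd ℂ) (v 0) * (Y - Z)).re := by
    have := Complex.abs_re_le_norm ((starRingEnd ℂ) (v 0) * (Y - Z))
    rw [norm_mul, Complex.norm_conj] at this
    have h2 := mul_le_mul_of_nonneg_left hb (norm_nonneg (v 0))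
    have h3 := neg_abs_le (((starRingEnd ℂ) (v 0) * (Y - Z)).re)
    linarith
  rw [e1, e2]
  nlinarith

/-! ### Truncated series -/

theorem evC_append (s t : TP) (u : ℂ) : evC (s ++ t) u = evC s u + evC t u := by
  induction s with
  | nil => simp [evC]
  | cons a s ih => simp only [List.cons_append, evC, ih]; ring

theorem evC_tpS (s : ℕ) (c : ℕ → GI) (n : ℕ) (u : ℂ) :
    evC (tpS s c n) u = ∑ i ∈ Finset.range n, (c i).toC / 10 ^ 10 * u ^ (i + s) := by
  induction n with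
  | zero => simp [tpS, evC]
  | succ n ih => simp only [tpS, evC, ih, Finset.sum_range_succ]; ring

theorem okT_append (s t : TP) (hs : okT s) (ht : okT t) : okT (s ++ t) := by
  induction s with
  | nil => simpa using ht
  | cons a s ih => exact ⟨hs.1, ih hs.2⟩

theorem okT_tpS (s : ℕ) (c : ℕ → GI) (n : ℕ) (h : n + s ≤ 16) : okT (tpS s c n) := by
  induction n with
  | zero => trivial
  | succ n ih => exact ⟨by simp; omega, ih (by omega)⟩

/-- Tail of a series. -/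
theorem tail12 (c : ℕ → ℂ) (om : ℝ) (h0 : 0 ≤ om) (h1 : om ≤ 74 / 100)
    (hc : ∀ i, 12 ≤ i → ‖c i‖ ≤ 2 * (om ^ (i + 2) / ((i + 2).factorial : ℝ))) (u : ℂ)
    (hu : ‖u‖ = 1) :
    ‖∑' i : ℕ, c i * u ^ i - ∑ i ∈ Finset.range 12, c i * u ^ i‖ ≤ 1 / 10 ^ 10 := by
  have hb : ∀ i, ‖c (i + 12) * u ^ (i + 12)‖ ≤ 2 / (Nat.factorial 14 : ℝ) * om ^ i := by
    intro i
    rw [norm_mul, norm_pow, hu, one_pow, mul_one]
    refine (hc (i + 12) (by omega)).trans ?_
    have h2 : om ^ (i + 12 + 2) ≤ om ^ i := by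
      have : om ^ (i + 12 + 2) = om ^ i * om ^ 14 := by rw [← pow_add]
      rw [this]
      exact mul_le_of_le_one_right (pow_nonneg h0 _) (pow_le_one₀ h0 (by linarith))
    have h3 : (Nat.factorial 14 : ℝ) ≤ ((i + 12 + 2).factorial : ℝ) := by
      exact_mod_cast Nat.factorial_le (by omega)
    have h4 : (0 : ℝ) < (Nat.factorial 14 : ℝ) := by exact_mod_cast Nat.factorial_pos 14
    calc 2 * (om ^ (i + 12 + 2) / ((i + 12 + 2).factorial : ℝ)) ≤
        2 * (om ^ i / (Nat.factorial 14 : ℝ)) := by gcongr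
      _ = _ := by ring
  have hg : Summable fun i : ℕ => 2 / (Nat.factorial 14 : ℝ) * om ^ i :=
    (summable_geometric_of_lt_one h0 (by linarith)).mul_left _
  have hs : Summable fun i : ℕ => c (i + 12) * u ^ (i + 12) := Summable.of_norm_bounded hg hb
  have hs' : Summable fun i : ℕ => c i * u ^ i := (summable_nat_add_iff 12).mp hs
  rw [← hs'.sum_add_tsum_nat_add 12, add_sub_cancel_left]
  refine (norm_tsum_le_tsum_norm hs.norm).trans ?_
  refine (hs.norm.tsum_le_tsum hb hg).trans ?_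
  rw [tsum_mul_left, tsum_geometric_of_lt_one h0 (by linarith)]
  have h5 : (1 - om)⁻¹ ≤ (26 / 100)⁻¹ := by
    apply inv_anti₀ (by norm_num); linarith
  calc 2 / (Nat.factorial 14 : ℝ) * (1 - om)⁻¹ ≤ 2 / (Nat.factorial 14 : ℝ) * (26 / 100)⁻¹ := by
        gcongr
    _ ≤ _ := by norm_num [Nat.factorial]

/-- Truncated series against a table. -/
theorem series_err (c : ℕ → ℂ) (g : ℕ → GI) (om : ℝ) (h0 : 0 ≤ om) (h1 : om ≤ 74 / 100)
    (hc : ∀ i, 12 ≤ i → ‖c i‖ ≤ 2 * (om ^ (i + 2) / ((i + 2).factorial : ℝ)))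
    (hg : ∀ i < 12, ‖c i - (g i).toC / 10 ^ 10‖ ≤ 3 / 10 ^ 10) (u : ℂ) (hu : ‖u‖ = 1) :
    ‖∑' i : ℕ, c i * u ^ i - ∑ i ∈ Finset.range 12, (g i).toC / 10 ^ 10 * u ^ i‖ ≤
      37 / 10 ^ 10 := by
  have h := tail12 c om h0 h1 hc u hu
  have h2 : ‖∑ i ∈ Finset.range 12, c i * u ^ i -
      ∑ i ∈ Finset.range 12, (g i).toC / 10 ^ 10 * u ^ i‖ ≤ 36 / 10 ^ 10 := by
    rw [← Finset.sum_sub_distrib]
    refine (norm_sum_le _ _).trans ?_
    have : ∀ i ∈ Finset.range 12, ‖c i * u ^ i - (g i).toC / 10 ^ 10 * u ^ i‖ ≤ 3 / 10 ^ 10 := by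
      intro i hi
      rw [← sub_mul, norm_mul, norm_pow, hu, one_pow, mul_one]
      exact hg i (Finset.mem_range.mp hi)
    refine (Finset.sum_le_sum this).trans ?_
    rw [Finset.sum_const, Finset.card_range]
    norm_num
  have := norm_sub_le_norm_sub_add_norm_sub (∑' i : ℕ, c i * u ^ i)
    (∑ i ∈ Finset.range 12, c i * u ^ i) (∑ i ∈ Finset.range 12, (g i).toC / 10 ^ 10 * u ^ i)
  linarith

section near

variable {z q : ℂ} (hE : Enc z q)

include hE

theorem om_bd : 0 ≤ ‖z‖ ∧ ‖z‖ ≤ 74 / 100 := by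
  have h := abs_le.mp hE.norm_z
  exact ⟨norm_nonneg _, by linarith [h.2]⟩

theorem AG_err (i : ℕ) (hi : i < 12) : ‖Ak z q i - (AG i).toC / 10 ^ 10‖ ≤ 3 / 10 ^ 10 :=
  tab10 _ _ (hE.enc_Ak i hi)

theorem AAG_err (i : ℕ) (hi : i < 12) : ‖AAk z q i - (AAG i).toC / 10 ^ 10‖ ≤ 3 / 10 ^ 10 :=
  tab10 _ _ (hE.enc_AAk i hi)

theorem PG_err (i : ℕ) (hi : i < 10) : ‖Pit z q i - (PG i).toC / 10 ^ 10‖ ≤ 3 / 10 ^ 10 :=
  tab10 _ _ (hE.enc_Pit i hi)

theorem A8_err (i : ℕ) (hi : i < 12) : ‖Ak z q i - (A8 i).toC / 10 ^ 8‖ ≤ 21 / 10 ^ 9 :=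
  tab8 _ _ (hE.enc_Ak i hi)

theorem norm_Ak2 (i : ℕ) : ‖Ak z q i‖ ≤ 2 * (‖z‖ ^ (i + 2) / ((i + 2).factorial : ℝ)) := by
  refine (hE.norm_Ak i).trans ?_
  have : 0 ≤ ‖z‖ ^ (i + 2) / ((i + 2).factorial : ℝ) := by positivity
  linarith

theorem norm_AAk2 (i : ℕ) : ‖AAk z q i‖ ≤ 2 * (‖z‖ ^ (i + 2) / ((i + 2).factorial : ℝ)) := by
  refine (hE.norm_AAk i).trans ?_
  have h := om_bd hE
  have h1 : ‖z‖ ^ (i + 3) ≤ ‖z‖ ^ (i + 2) := pow_le_pow_of_le_one h.1 (by linarith [h.2]) (by omega)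
  have h2 : ((i + 2).factorial : ℝ) ≤ ((i + 3).factorial : ℝ) := by
    exact_mod_cast Nat.factorial_le (by omega)
  have h3 : (0 : ℝ) < ((i + 2).factorial : ℝ) := by exact_mod_cast Nat.factorial_pos _
  gcongr

theorem eps1_err (u : ℂ) (hu : ‖u‖ = 1) :
    ‖eps1 z q u - ∑ i ∈ Finset.range 12, (AG i).toC / 10 ^ 10 * u ^ i‖ ≤ 37 / 10 ^ 10 :=
  series_err _ _ ‖z‖ (om_bd hE).1 (om_bd hE).2 (fun i _ => norm_Ak2 hE i)
    (fun i hi => AG_err hE i hi) u hu

theorem eps2_err (u : ℂ) (hu : ‖u‖ = 1) :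
    ‖eps2 z q u - ∑ i ∈ Finset.range 12, (AAG i).toC / 10 ^ 10 * u ^ i‖ ≤ 37 / 10 ^ 10 :=
  series_err _ _ ‖z‖ (om_bd hE).1 (om_bd hE).2 (fun i _ => norm_AAk2 hE i)
    (fun i hi => AAG_err hE i hi) u hu

theorem Bk_err (u : ℂ) (hu : ‖u‖ = 1) (j : ℕ) (hj : j < 8) :
    ‖Bk z q u j - ∑ i ∈ Finset.range 12, (AG (max (j + 1) i)).toC / 10 ^ 10 * u ^ i‖ ≤
      37 / 10 ^ 10 :=
  series_err (fun i => Ak z q (max (j + 1) i)) (fun i => AG (max (j + 1) i)) ‖z‖
    (om_bd hE).1 (om_bd hE).2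
    (fun i hi => by
      have : max (j + 1) i = i := by omega
      simp only [this]
      exact norm_Ak2 hE i)
    (fun i hi => AG_err hE _ (by omega)) u hu

theorem rowS_err (u : ℂ) (hu : ‖u‖ = 1) (hu1 : ‖u - 1‖ ≤ 1) (k : ℕ) (hk : k < 9) :
    ‖(if k = 0 then eps1 z q u else Ak z q (k - 1) + (u - 1) * Bk z q u (k - 1)) -
      evC (rowS.getD k []) u‖ ≤ 5 / 10 ^ 9 := by
  unfold rowS
  rw [getD_map_range _ _ _ _ hk]
  by_cases h : k = 0
  · rw [if_pos h, if_pos h, evC_tpS]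
    simp only [add_zero]
    exact (eps1_err hE u hu).trans (by norm_num)
  · rw [if_neg h, if_neg h]
    obtain ⟨j, rfl⟩ : ∃ j, k = j + 1 := ⟨k - 1, by omega⟩
    have h1 := AG_err hE j (by omega)
    have h2 := Bk_err hE u hu j (by omega)
    simp only [evC, evC_append, evC_tpS, toC_neg, Nat.add_sub_cancel, pow_zero, mul_one, add_zero]
    have e : Ak z q j + (u - 1) * Bk z q u j - ((AG j).toC / 10 ^ 10 +
        (∑ i ∈ Finset.range 12, (AG (max (j + 1) i)).toC / 10 ^ 10 * u ^ (i + 1) +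
        ∑ i ∈ Finset.range 12, -(AG (max (j + 1) i)).toC / 10 ^ 10 * u ^ i)) =
        (Ak z q j - (AG j).toC / 10 ^ 10) + (u - 1) * (Bk z q u j -
          ∑ i ∈ Finset.range 12, (AG (max (j + 1) i)).toC / 10 ^ 10 * u ^ i) := by
      have e1 : ∑ i ∈ Finset.range 12, (AG (max (j + 1) i)).toC / 10 ^ 10 * u ^ (i + 1) =
          u * ∑ i ∈ Finset.range 12, (AG (max (j + 1) i)).toC / 10 ^ 10 * u ^ i := by
        rw [Finset.mul_sum]; exact Finset.sum_congr rfl fun _ _ => by ring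
      have e2 : ∑ i ∈ Finset.range 12, -(AG (max (j + 1) i)).toC / 10 ^ 10 * u ^ i =
          -∑ i ∈ Finset.range 12, (AG (max (j + 1) i)).toC / 10 ^ 10 * u ^ i := by
        rw [← Finset.sum_neg_distrib]; exact Finset.sum_congr rfl fun _ _ => by ring
      rw [e1, e2]
      ring
    rw [e]
    refine (norm_add_le _ _).trans ?_
    rw [norm_mul]
    have h3 : ‖u - 1‖ * ‖Bk z q u j -
          ∑ i ∈ Finset.range 12, (AG (max (j + 1) i)).toC / 10 ^ 10 * u ^ i‖ ≤ 1 * (37 / 10 ^ 10) :=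
      mul_le_mul hu1 h2 (norm_nonneg _) (by norm_num)
    refine (add_le_add h1 h3).trans (by norm_num)

theorem rowR_err (u : ℂ) (hu : ‖u‖ = 1) (k : ℕ) (hk : k < 9) :
    ‖(if k = 0 then (((m1 z q).re / 2 : ℝ) : ℂ) + u * eps2 z q u else u * Bk z q u (k - 1)) -
      evC (rowR.getD k []) u‖ ≤ 5 / 10 ^ 9 := by
  have es : ∀ c : ℕ → GI, ∑ i ∈ Finset.range 12, (c i).toC / 10 ^ 10 * u ^ (i + 1) =
          u * ∑ i ∈ Finset.range 12, (c i).toC / 10 ^ 10 * u ^ i := by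
    intro c
    rw [Finset.mul_sum]; exact Finset.sum_congr rfl fun _ _ => by ring
  unfold rowR
  rw [getD_map_range _ _ _ _ hk]
  by_cases h : k = 0
  · rw [if_pos h, if_pos h]
    simp only [evC, evC_tpS, pow_zero, mul_one]
    rw [es]
    have h2 := eps2_err hE u hu
    have h1 : ‖(((m1 z q).re / 2 : ℝ) : ℂ) - (⟨1382069453, 0⟩ : GI).toC / 10 ^ 10‖ ≤ 2 / 10 ^ 10 := by
      have : (⟨1382069453, 0⟩ : GI).toC / 10 ^ 10 = ((1382069453 / 10 ^ 10 : ℝ) : ℂ) := by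
        have h10 : (10 : ℂ) ^ 10 = ((10 ^ 10 : ℝ) : ℂ) := by push_cast; ring
        rw [h10]
        apply Complex.ext
        · rw [Complex.div_ofReal_re, Complex.ofReal_re]; simp [GI.toC]
        · rw [Complex.div_ofReal_im, Complex.ofReal_im]; simp [GI.toC]
      rw [this, ← Complex.ofReal_sub, Complex.norm_real, Real.norm_eq_abs]
      have := abs_le.mp hE.enc_m1
      rw [abs_le]
      constructor <;> linarith [this.1, this.2]
    have e : (((m1 z q).re / 2 : ℝ) : ℂ) + u * eps2 z q u -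
        ((⟨1382069453, 0⟩ : GI).toC / 10 ^ 10 +
          u * ∑ i ∈ Finset.range 12, (AAG i).toC / 10 ^ 10 * u ^ i) =
        ((((m1 z q).re / 2 : ℝ) : ℂ) - (⟨1382069453, 0⟩ : GI).toC / 10 ^ 10) +
        u * (eps2 z q u - ∑ i ∈ Finset.range 12, (AAG i).toC / 10 ^ 10 * u ^ i) := by ring
    rw [e]
    refine (norm_add_le _ _).trans ?_
    rw [norm_mul, hu, one_mul]
    refine (add_le_add h1 h2).trans (by norm_num)
  · rw [if_neg h, if_neg h]
    obtain ⟨j, rfl⟩ : ∃ j, k = j + 1 := ⟨k - 1, by omega⟩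
    have h2 := Bk_err hE u hu j (by omega)
    simp only [evC_tpS, Nat.add_sub_cancel]
    rw [es, ← mul_sub, norm_mul, hu, one_mul]
    exact h2.trans (by norm_num)

theorem rowA_err (k : ℕ) (hk : k < 9) :
    ‖(if k = 0 then 0 else Ak z q (k - 1)) - (rowA.getD k ⟨0, 0⟩).toC / 10 ^ 8‖ ≤ 21 / 10 ^ 9 := by
  unfold rowA
  rw [getD_map_range _ _ _ _ hk]
  by_cases h : k = 0
  · rw [if_pos h, if_pos h, toC_zero]; norm_num
  · rw [if_neg h, if_neg h]
    exact A8_err hE _ (by omega)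

theorem rowPi_err (u : ℂ) (k : ℕ) (hk : k < 9) :
    ‖(if k = 0 then 1 else -Pit z q k) - evC (rowPi.getD k []) u‖ ≤ 5 / 10 ^ 9 := by
  unfold rowPi
  rw [getD_map_range _ _ _ _ hk]
  by_cases h : k = 0
  · rw [if_pos h, if_pos h]
    simp only [evC, oneG_C, pow_zero, mul_one, add_zero, sub_self, norm_zero]
    norm_num
  · rw [if_neg h, if_neg h]
    have h2 := PG_err hE k (by omega)
    simp only [evC, toC_neg, pow_zero, mul_one, add_zero]
    have e : -Pit z q k - -(PG k).toC / 10 ^ 10 = -(Pit z q k - (PG k).toC / 10 ^ 10) := by ring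
    rw [e, norm_neg]
    exact h2.trans (by norm_num)

omit hE in
theorem rowHn_err (u : ℂ) (m k : ℕ) (hk : k < 9) :
    ‖(if k = 0 then 1 else if k = m + 1 then u else if k < m + 1 then u - 1 else 0) -
      evC ((rowHn m).getD k []) u‖ ≤ 5 / 10 ^ 9 := by
  unfold rowHn
  rw [getD_map_range _ _ _ _ hk]
  split_ifs
  · simp only [evC, oneG_C, pow_zero, mul_one, add_zero, sub_self, norm_zero]; norm_num
  · simp only [evC, oneG_C, pow_one, one_mul, add_zero, sub_self, norm_zero]; norm_num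
  · simp only [evC, toC_neg, neg_div, oneG_C, pow_zero, pow_one, one_mul, mul_one, add_zero]
    have : u - 1 - (u + -1) = 0 := by ring
    rw [this, norm_zero]
    norm_num
  · simp only [evC, sub_self, norm_zero]; norm_num

end near

theorem rowS_ok : okR rowS := by
  intro t ht
  simp only [rowS, List.mem_map, List.mem_range] at ht
  obtain ⟨k, hk, rfl⟩ := ht
  split_ifs
  · exact okT_tpS _ _ _ (by norm_num)
  · exact ⟨by simp, okT_append _ _ (okT_tpS _ _ _ (by norm_num)) (okT_tpS _ _ _ (by norm_num))⟩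

theorem rowR_ok : okR rowR := by
  intro t ht
  simp only [rowR, List.mem_map, List.mem_range] at ht
  obtain ⟨k, hk, rfl⟩ := ht
  split_ifs
  · exact ⟨by simp, okT_tpS _ _ _ (by norm_num)⟩
  · exact okT_tpS _ _ _ (by norm_num)

theorem rowPi_ok : okR rowPi := by
  intro t ht
  simp only [rowPi, List.mem_map, List.mem_range] at ht
  obtain ⟨k, hk, rfl⟩ := ht
  split_ifs <;> exact ⟨by simp, trivial⟩

theorem rowHn_ok (m : ℕ) : okR (rowHn m) := by
  intro t ht
  simp only [rowHn, List.mem_map, List.mem_range] at ht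
  obtain ⟨k, hk, rfl⟩ := ht
  split_ifs
  · exact ⟨by simp, trivial⟩
  · exact ⟨by simp, trivial⟩
  · exact ⟨by simp, by simp, trivial⟩
  · trivial

theorem rowS_len : rowS.length = 9 := by simp [rowS]
theorem rowR_len : rowR.length = 9 := by simp [rowR]
theorem rowPi_len : rowPi.length = 9 := by simp [rowPi]
theorem rowHn_len (m : ℕ) : (rowHn m).length = 9 := by simp [rowHn]
theorem rowA_len : rowA.length = 9 := by simp [rowA]

end

end Pool.Agent.Whit.Eng
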