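import Pool.Agent.Whit.NearS

/-!
# The near zone on one cell
-/

namespace Pool.Agent.Whit.Eng

open Complex

noncomputable section

/-- The vector `(X, d_0, d_1, …)`. -/
def vec (X : ℂ) (d : ℕ → ℂ) : ℕ → ℂ
  | 0 => X
  | k + 1 => d k

theorem sum9 (y : ℕ → ℂ) (X : ℂ) (d : ℕ → ℂ) : ∑ k ∈ Finset.range 9, y k * vec X d k =
    y 0 * X + ∑ k ∈ Finset.range 8, y (k + 1) * d k := by
  rw [Finset.sum_range_succ']
  simp only [vec]
  ring

theorem dq_baseN (v : ℕ → ℂ) : 256000 * 10 ^ 30 * (EnX * ‖v 0‖ ^ 2 +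
    ∑ k ∈ Finset.range 8, EnD k * ‖v (k + 1)‖ ^ 2 + 5 / 10 ^ 8 * WW v) ≤ dq baseN v := by
  have e2 : dq baseN v = ∑ k ∈ Finset.range 9, ((baseN.getD k 0 : ℤ) : ℝ) * ‖v k‖ ^ 2 := by
    simp only [baseN, dq, sh, Finset.sum_range_succ, Finset.sum_range_zero]
    simp only [List.getD_cons_zero, List.getD_cons_succ]
    ring
  have e : 256000 * 10 ^ 30 * (EnX * ‖v 0‖ ^ 2 +
    ∑ k ∈ Finset.range 8, EnD k * ‖v (k + 1)‖ ^ 2 + 5 / 10 ^ 8 * WW v) =
    (256000 * 10 ^ 30 * (EnX + 5 / 10 ^ 8)) * ‖v 0‖ ^ 2 + ∑ k ∈ Finset.range 8,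
      (256000 * 10 ^ 30 * (EnD k + 5 / 10 ^ 8 / 2 ^ (k + 1))) * ‖v (k + 1)‖ ^ 2 := by
    unfold WW
    have : ∑ k ∈ Finset.range 8,
      (256000 * 10 ^ 30 * (EnD k + 5 / 10 ^ 8 / 2 ^ (k + 1))) * ‖v (k + 1)‖ ^ 2 =
      256000 * 10 ^ 30 * (∑ k ∈ Finset.range 8, EnD k * ‖v (k + 1)‖ ^ 2 +
        5 / 10 ^ 8 * ∑ k ∈ Finset.range 8, ‖v (k + 1)‖ ^ 2 / 2 ^ (k + 1)) := by
      rw [Finset.mul_sum, ← Finset.sum_add_distrib, Finset.mul_sum]
      exact Finset.sum_congr rfl fun k _ => by ring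
    rw [this, Finset.sum_range_succ' _ 8]
    ring
  rw [e, e2, Finset.sum_range_succ' _ 8]
  have h1 : ∑ k ∈ Finset.range 8, (256000 * 10 ^ 30 * (EnD k + 5 / 10 ^ 8 / 2 ^ (k + 1))) *
      ‖v (k + 1)‖ ^ 2 ≤ ∑ k ∈ Finset.range 8, ((baseN.getD (k + 1) 0 : ℤ) : ℝ) * ‖v (k + 1)‖ ^ 2 := by
    refine Finset.sum_le_sum fun k hk => mul_le_mul_of_nonneg_right ?_ (sq_nonneg _)
    have hk' := Finset.mem_range.mp hk
    interval_cases k <;> norm_num [EnD, baseN]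
  have h2 : (256000 * 10 ^ 30 * (EnX + 5 / 10 ^ 8)) * ‖v 0‖ ^ 2 ≤
      ((baseN.getD 0 0 : ℤ) : ℝ) * ‖v 0‖ ^ 2 := by
    refine mul_le_mul_of_nonneg_right ?_ (sq_nonneg _)
    norm_num [EnX, baseN]
  linarith

theorem cn_nonneg (z : ℂ) (k : ℕ) : 0 ≤ cn z k := by
  unfold cn
  exact mul_nonneg (ch_nonneg k) (by positivity)

theorem cHi_bd {z q : ℂ} (hE : Enc z q) (k : ℕ) (hk : k < 9) :
    cn z k * 10 ^ 14 ≤ ((cHi.getD k 0 : ℤ) : ℝ) := by
  have h := abs_le.mp hE.norm_z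
  have h1 : ‖z‖ ≤ 737750757488224 / 10 ^ 15 := by linarith [h.2]
  have h2 : ‖z‖ ^ (2 * (k + 1)) ≤ (737750757488224 / 10 ^ 15) ^ (2 * (k + 1)) :=
    pow_le_pow_left₀ (norm_nonneg _) h1 _
  unfold cn
  refine (mul_le_mul_of_nonneg_right (mul_le_mul_of_nonneg_left h2 (ch_nonneg k))
    (by norm_num)).trans ?_
  interval_cases k <;> norm_num [ch, cHi]

theorem cLo_bd {z q : ℂ} (hE : Enc z q) (k : ℕ) (hk : k < 8) :
    ((cLo.getD k 0 : ℤ) : ℝ) ≤ cn z k * 10 ^ 14 := by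
  have h := abs_le.mp hE.norm_z
  have h1 : 737750757468224 / 10 ^ 15 ≤ ‖z‖ := by linarith [h.1]
  have h2 : (737750757468224 / 10 ^ 15) ^ (2 * (k + 1)) ≤ ‖z‖ ^ (2 * (k + 1)) :=
    pow_le_pow_left₀ (by norm_num) h1 _
  unfold cn
  refine le_trans ?_ (mul_le_mul_of_nonneg_right (mul_le_mul_of_nonneg_left h2 (ch_nonneg k))
    (by norm_num))
  interval_cases k <;> norm_num [ch, cLo]

theorem sumHn (u X : ℂ) (d : ℕ → ℂ) (m : ℕ) (hm : m < 8) :
    ∑ k ∈ Finset.range 9, (if k = 0 then 1 else if k = m + 1 then u else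
      if k < m + 1 then u - 1 else 0) * vec X d k =
      X + (u - 1) * ∑ j ∈ Finset.range (m + 1), d j + d m := by
  interval_cases m <;> simp [Finset.sum_range_succ, vec] <;> ring

/-- The near form as a combination of squares. -/
theorem near_form (z q u X : ℂ) (d : ℕ → ℂ) : NearMain z q u X d =
    2 * ((starRingEnd ℂ) X * ∑ k ∈ Finset.range 9, (if k = 0 then
      (((m1 z q).re / 2 : ℝ) : ℂ) + u * eps2 z q u else u * Bk z q u (k - 1)) * vec X d k).re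
    + ‖∑ k ∈ Finset.range 9, (if k = 0 then 0 else Ak z q (k - 1)) * vec X d k‖ ^ 2
    - ‖∑ k ∈ Finset.range 9, (if k = 0 then eps1 z q u else
        Ak z q (k - 1) + (u - 1) * Bk z q u (k - 1)) * vec X d k‖ ^ 2
    + ∑ k ∈ Finset.range 8, cn z k * ‖d k‖ ^ 2
    - ∑ k ∈ Finset.range 8, cn z (k + 1) *
        ‖X + (u - 1) * ∑ j ∈ Finset.range (k + 1), d j + d k‖ ^ 2
    - cn z 0 * ‖∑ k ∈ Finset.range 9, (if k = 0 then 1 else -Pit z q k) * vec X d k‖ ^ 2 := by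
  unfold NearMain
  rw [sum9, sum9, sum9, sum9, Finset.sum_sub_distrib]
  simp only [if_true, Nat.add_eq_zero_iff, one_ne_zero, and_false, if_false, Nat.add_sub_cancel,
    zero_mul, zero_add, one_mul]
  set A := ∑ k ∈ Finset.range 8, Ak z q k * d k
  set B := ∑ k ∈ Finset.range 8, Bk z q u k * d k with hB
  have e1 : ∑ k ∈ Finset.range 8, u * Bk z q u k * d k = u * B := by
    rw [hB, Finset.mul_sum]; exact Finset.sum_congr rfl fun _ _ => by ring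
  have e2 : ∑ k ∈ Finset.range 8, (Ak z q k + (u - 1) * Bk z q u k) * d k = A + (u - 1) * B := by
    rw [hB, Finset.mul_sum, ← Finset.sum_add_distrib]
    exact Finset.sum_congr rfl fun _ _ => by ring
  have e3 : ∑ k ∈ Finset.range 8, -Pit z q (k + 1) * d k =
      -∑ k ∈ Finset.range 8, Pit z q (k + 1) * d k := by
    rw [← Finset.sum_neg_distrib]; exact Finset.sum_congr rfl fun _ _ => by ring
  rw [e1, e2, e3]
  have e4 : eps1 z q u * X + (A + (u - 1) * B) = A + (eps1 z q u * X + (u - 1) * B) := by ring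
  rw [e4, norm_sq_add_eq A (eps1 z q u * X + (u - 1) * B)]
  have e5 : (starRingEnd ℂ) X * (((((m1 z q).re / 2 : ℝ) : ℂ) + u * eps2 z q u) * X + u * B) =
      (((m1 z q).re / 2 : ℝ) : ℂ) * ((starRingEnd ℂ) X * X) +
      (u * eps2 z q u) * ((starRingEnd ℂ) X * X) + (starRingEnd ℂ) X * u * B := by ring
  rw [e5, ← Complex.normSq_eq_conj_mul_self, Complex.add_re, Complex.add_re,
    Complex.re_mul_ofReal, Complex.re_mul_ofReal, Complex.ofReal_re, Complex.normSq_eq_norm_sq]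
  have e6 : X + -∑ k ∈ Finset.range 8, Pit z q (k + 1) * d k =
      X - ∑ k ∈ Finset.range 8, Pit z q (k + 1) * d k := by ring
  rw [e6]
  ring

theorem near_cell {z q : ℂ} (hE : Enc z q) (j : ℤ) (hj : |j| ≤ 149)
    (p0 : psd 9 (nearM j) = true) (p1 : psd 9 (nearM (j + 1)) = true)
    (τ : ℝ) (h0 : 0 ≤ τ) (h1 : τ ≤ 1) (hu1 : ‖pt j τ - 1‖ ≤ 1) (X : ℂ) (d : ℕ → ℂ) :
    EnX * ‖X‖ ^ 2 + ∑ k ∈ Finset.range 8, EnD k * ‖d k‖ ^ 2 ≤ NearMain z q (pt j τ) X d := by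
  have hu := norm_pt j τ
  set u := pt j τ with hudef
  set v := vec X d with hv
  have hv0 : v 0 = X := rfl
  have hvs : ∀ k, v (k + 1) = d k := fun _ => rfl
  have q0 := psd_sound 9 _ p0 v
  have q1 := psd_sound 9 _ p1 v
  have hW := WW_nonneg v
  -- rows
  have NS := neg_sq j hj τ h0 h1 rowS rowS_len rowS_ok _ (fun k hk => rowS_err hE u hu hu1 k hk) v
  have NP := neg_sq j hj τ h0 h1 rowPi rowPi_len rowPi_ok _ (fun k hk => rowPi_err hE u k hk) v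
  have LR := lin_row j hj τ h0 h1 rowR rowR_len rowR_ok _ (fun k hk => rowR_err hE u hu k hk) v
  have PA := pos_sq rowA rowA_len _ (fun k hk => rowA_err hE k hk) v
  have NH : ∀ m ∈ Finset.range 8, cn z (m + 1) * (256000 * 10 ^ 30 *
      ‖X + (u - 1) * ∑ j ∈ Finset.range (m + 1), d j + d m‖ ^ 2) ≤
      ((cHi.getD (m + 1) 0 : ℤ) : ℝ) *
      (1001 * ((1 - τ) * qf (negM (rowHn m) j) v + τ * qf (negM (rowHn m) (j + 1)) v)) := by
    intro m hm
    have hm' := Finset.mem_range.mp hm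
    have := neg_sq j hj τ h0 h1 (rowHn m) (rowHn_len m) (rowHn_ok m) _
      (fun k hk => rowHn_err u m k hk) v
    rw [hv, sumHn u X d m hm', ← hv] at this
    have hb := cHi_bd hE (m + 1) (by omega)
    have hc := cn_nonneg z (m + 1)
    have n0 : 0 ≤ 256000 * 10 ^ 16 *
      ‖X + (u - 1) * ∑ j ∈ Finset.range (m + 1), d j + d m‖ ^ 2 := by positivity
    calc _ = cn z (m + 1) * 10 ^ 14 *
          (256000 * 10 ^ 16 * ‖X + (u - 1) * ∑ j ∈ Finset.range (m + 1), d j + d m‖ ^ 2) := by ring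
      _ ≤ ((cHi.getD (m + 1) 0 : ℤ) : ℝ) *
          (256000 * 10 ^ 16 * ‖X + (u - 1) * ∑ j ∈ Finset.range (m + 1), d j + d m‖ ^ 2) :=
          mul_le_mul_of_nonneg_right hb n0
      _ ≤ _ := mul_le_mul_of_nonneg_left this ((mul_nonneg hc (by norm_num)).trans hb)
  have NHs := Finset.sum_le_sum NH
  have NP' : cn z 0 * (256000 * 10 ^ 30 *
      ‖∑ k ∈ Finset.range 9, (if k = 0 then 1 else -Pit z q k) * v k‖ ^ 2) ≤
      ((cHi.getD 0 0 : ℤ) : ℝ) *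
      (1001 * ((1 - τ) * qf (negM rowPi j) v + τ * qf (negM rowPi (j + 1)) v)) := by
    have hb := cHi_bd hE 0 (by omega)
    have hc := cn_nonneg z 0
    have n0 : 0 ≤ 256000 * 10 ^ 16 *
      ‖∑ k ∈ Finset.range 9, (if k = 0 then 1 else -Pit z q k) * v k‖ ^ 2 := by positivity
    calc _ = cn z 0 * 10 ^ 14 * (256000 * 10 ^ 16 *
          ‖∑ k ∈ Finset.range 9, (if k = 0 then 1 else -Pit z q k) * v k‖ ^ 2) := by ring
      _ ≤ ((cHi.getD 0 0 : ℤ) : ℝ) * (256000 * 10 ^ 16 *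
          ‖∑ k ∈ Finset.range 9, (if k = 0 then 1 else -Pit z q k) * v k‖ ^ 2) :=
          mul_le_mul_of_nonneg_right hb n0
      _ ≤ _ := mul_le_mul_of_nonneg_left NP ((mul_nonneg hc (by norm_num)).trans hb)
  have PC : dq (scaleD (256000 * 10000000000000000) cLo) (sh v) ≤
      256000 * 10 ^ 30 * ∑ k ∈ Finset.range 8, cn z k * ‖d k‖ ^ 2 := by
    have e2 : dq (scaleD (256000 * 10000000000000000) cLo) (sh v) =
        256000 * 10 ^ 16 * ∑ k ∈ Finset.range 8, ((cLo.getD k 0 : ℤ) : ℝ) * ‖d k‖ ^ 2 := by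
      rw [dq_scaleD]
      simp only [cLo, dq, sh, Finset.sum_range_succ, Finset.sum_range_zero]
      simp only [List.getD_cons_zero, List.getD_cons_succ, hvs]
      push_cast
      ring
    rw [e2]
    have h3 : ∀ k ∈ Finset.range 8, ((cLo.getD k 0 : ℤ) : ℝ) * ‖d k‖ ^ 2 ≤
        10 ^ 14 * (cn z k * ‖d k‖ ^ 2) := by
      intro k hk
      have := mul_le_mul_of_nonneg_right (cLo_bd hE k (Finset.mem_range.mp hk)) (sq_nonneg ‖d k‖)
      linarith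
    have h4 := Finset.sum_le_sum h3
    rw [← Finset.mul_sum] at h4
    nlinarith
  have hP : qf nearP v = 256000 * 99999 * 10 ^ 9 * ‖dot rowA v‖ ^ 2 +
      dq (scaleD (256000 * 10000000000000000) cLo) (sh v) := by
    unfold nearP
    rw [qf_addM, qf_scaleM, qf_sqM, qf_diagM]
    simp only [dq]
    push_cast
    ring
  have hN : ∀ i : ℤ, qf (nearN i) v = 1001 * 10 ^ 14 * qf (negM rowS i) v +
      1001 * ((cHi.getD 0 0 : ℤ) : ℝ) * qf (negM rowPi i) v +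
      1001 * (∑ m ∈ Finset.range 8, ((cHi.getD (m + 1) 0 : ℤ) : ℝ) * qf (negM (rowHn m) i) v) +
      10 ^ 21 * qf (lossLin rowR) v + dq baseN v := by
    intro i
    unfold nearN
    rw [qf_addM, qf_addM, qf_addM, qf_addM, qf_scaleM, qf_scaleM, qf_sumM, qf_scaleM, qf_diagM]
    have e : ∑ k ∈ Finset.range 8, qf (scaleM (1001 * cHi.getD (k + 1) 0) (negM (rowHn k) i)) v =
        1001 * ∑ m ∈ Finset.range 8, ((cHi.getD (m + 1) 0 : ℤ) : ℝ) * qf (negM (rowHn m) i) v := by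
      rw [Finset.mul_sum]
      refine Finset.sum_congr rfl fun k _ => ?_
      rw [qf_scaleM]
      push_cast
      ring
    rw [e]
    push_cast
    ring
  have hM : ∀ i : ℤ, qf (nearM i) v = qf nearP v +
      256000 * 10 ^ 22 * qf (linM rowR i) v - qf (nearN i) v := by
    intro i
    unfold nearM
    rw [qf_addM, qf_addM, qf_scaleM, qf_scaleM]
    push_cast
    ring
  have hbase := dq_baseN v
  rw [hv0] at hbase LR
  simp only [hvs] at hbase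
  rw [hM, hN, hP] at q0 q1
  rw [near_form, ← hv]
  set R := ((starRingEnd ℂ) X * ∑ k ∈ Finset.range 9, (if k = 0 then
      (((m1 z q).re / 2 : ℝ) : ℂ) + u * eps2 z q u else u * Bk z q u (k - 1)) * v k).re
  set A := ‖∑ k ∈ Finset.range 9, (if k = 0 then 0 else Ak z q (k - 1)) * v k‖ ^ 2
  set S := ‖∑ k ∈ Finset.range 9, (if k = 0 then eps1 z q u else
        Ak z q (k - 1) + (u - 1) * Bk z q u (k - 1)) * v k‖ ^ 2
  set P' := ‖∑ k ∈ Finset.range 9, (if k = 0 then 1 else -Pit z q k) * v k‖ ^ 2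
  have eH : ∑ m ∈ Finset.range 8, cn z (m + 1) * (256000 * 10 ^ 30 *
      ‖X + (u - 1) * ∑ j ∈ Finset.range (m + 1), d j + d m‖ ^ 2) = 256000 * 10 ^ 30 *
      ∑ m ∈ Finset.range 8, cn z (m + 1) *
        ‖X + (u - 1) * ∑ j ∈ Finset.range (m + 1), d j + d m‖ ^ 2 := by
    rw [Finset.mul_sum]; exact Finset.sum_congr rfl fun _ _ => by ring
  have eN : ∑ m ∈ Finset.range 8, ((cHi.getD (m + 1) 0 : ℤ) : ℝ) *
      (1001 * ((1 - τ) * qf (negM (rowHn m) j) v + τ * qf (negM (rowHn m) (j + 1)) v)) =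
      1001 * ((1 - τ) * ∑ m ∈ Finset.range 8, ((cHi.getD (m + 1) 0 : ℤ) : ℝ) *
        qf (negM (rowHn m) j) v +
      τ * ∑ m ∈ Finset.range 8, ((cHi.getD (m + 1) 0 : ℤ) : ℝ) * qf (negM (rowHn m) (j + 1)) v) := by
    rw [Finset.mul_sum, Finset.mul_sum, ← Finset.sum_add_distrib, Finset.mul_sum]
    exact Finset.sum_congr rfl fun _ _ => by ring
  rw [eH, eN] at NHs
  set H := ∑ m ∈ Finset.range 8, cn z (m + 1) *
        ‖X + (u - 1) * ∑ j ∈ Finset.range (m + 1), d j + d m‖ ^ 2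
  have qq := add_nonneg (mul_nonneg (show 0 ≤ 1 - τ by linarith) q0) (mul_nonneg h0 q1)
  have PA' : 256000 * 99999 * 10 ^ 9 * ‖dot rowA v‖ ^ 2 ≤
      256000 * 10 ^ 30 * (A + 226 / 10 ^ 10 * WW v) := by
    have := mul_le_mul_of_nonneg_left PA (show (0 : ℝ) ≤ 256000 * 10 ^ 30 by norm_num)
    have e : (256000 * 10 ^ 30 : ℝ) * ((1 - 1 / 10 ^ 5) * ‖dot rowA v‖ ^ 2 / 10 ^ 16 -
      226 / 10 ^ 10 * ∑ k ∈ Finset.range 9, ‖v k‖ ^ 2 / 2 ^ k) =
      256000 * 99999 * 10 ^ 9 * ‖dot rowA v‖ ^ 2 - 256000 * 10 ^ 30 * (226 / 10 ^ 10 * WW v) := by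
      unfold WW; ring
    rw [e] at this
    linarith
  have fin : 256000 * 10 ^ 30 * (EnX * ‖X‖ ^ 2 + ∑ k ∈ Finset.range 8, EnD k * ‖d k‖ ^ 2) ≤
      256000 * 10 ^ 30 * (2 * R + A - S + ∑ k ∈ Finset.range 8, cn z k * ‖d k‖ ^ 2 - H -
        cn z 0 * P') := by
    have hW' : (0 : ℝ) ≤ 256000 * 10 ^ 30 * (5 / 10 ^ 8 - 226 / 10 ^ 10) * WW v := by positivity
    linear_combination qq + LR + PA' + PC + 10 ^ 14 * NS + NP' + NHs + hbase + hW'
  have h16 : (0 : ℝ) < 256000 * 10 ^ 30 := by norm_num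
  exact le_of_mul_le_mul_left fin h16

end

end Pool.Agent.Whit.Eng
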