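import Pool.Agent.Whit.CellS

/-!
# Squares of rows on a cell
-/

namespace Pool.Agent.Whit.Eng

open Complex

noncomputable section

/-- `∑ β_k |v_k|`. -/
def bsum : List TP → (ℕ → ℂ) → ℝ
  | [], _ => 0
  | t :: l, v => (bet t : ℝ) * ‖v 0‖ + bsum l (sh v)

/-- `∑ β_k 2^{-k} |v_k|²`. -/
def wsum : List TP → (ℕ → ℂ) → ℝ
  | [], _ => 0
  | t :: l, v => (bet t : ℝ) * ‖v 0‖ ^ 2 + wsum l (sh v) / 2

theorem bsum_nonneg (l : List TP) (v : ℕ → ℂ) : 0 ≤ bsum l v := by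
  induction l generalizing v with
  | nil => simp [bsum]
  | cons t l ih => simp only [bsum]; have := ih (sh v); positivity

theorem wsum_nonneg (l : List TP) (v : ℕ → ℂ) : 0 ≤ wsum l v := by
  induction l generalizing v with
  | nil => simp [wsum]
  | cons t l ih => simp only [wsum]; have := ih (sh v); positivity

theorem amgm {x S T W : ℝ} (hT : 0 ≤ T) (hW : 0 ≤ W) (hx : 0 ≤ x) (hS : 0 ≤ S)
    (h : S ^ 2 ≤ T * W) : 2 * x * S ≤ T * x ^ 2 + W := by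
  have h1 : (2 * x * S) ^ 2 ≤ (T * x ^ 2 + W) ^ 2 := by
    have : (2 * x * S) ^ 2 = 4 * x ^ 2 * S ^ 2 := by ring
    rw [this]
    nlinarith [sq_nonneg (T * x ^ 2 - W), mul_le_mul_of_nonneg_left h (sq_nonneg x)]
  exact abs_le_of_sq_le_sq' h1 (by positivity) |>.2

theorem bsum_sq (l : List TP) (v : ℕ → ℂ) : bsum l v ^ 2 ≤ (btot l : ℝ) * wsum l v := by
  induction l generalizing v with
  | nil => simp [bsum, wsum]
  | cons t l ih =>
    have h := ih (sh v)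
    have hT : (0 : ℝ) ≤ btot l := Nat.cast_nonneg _
    have hb : (0 : ℝ) ≤ bet t := Nat.cast_nonneg _
    have hW := wsum_nonneg l (sh v)
    have hS := bsum_nonneg l (sh v)
    have hx := norm_nonneg (v 0)
    have h1 := amgm (x := ‖v 0‖) (S := bsum l (sh v)) (T := 2 * btot l) (W := wsum l (sh v) / 2)
      (by positivity) (by positivity) hx hS (by linarith)
    simp only [bsum, wsum, btot]
    push_cast
    nlinarith [mul_le_mul_of_nonneg_left h1 hb]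

theorem amgm_row (l : List TP) (v : ℕ → ℂ) (x : ℝ) (hx : 0 ≤ x) :
    2 * x * bsum l v ≤ (btot l : ℝ) * x ^ 2 + wsum l v :=
  amgm (Nat.cast_nonneg _) (wsum_nonneg l v) hx (bsum_nonneg l v) (bsum_sq l v)

theorem dq_lossL (tot : ℕ) (l : List TP) (m : ℕ) (hl : l.length ≤ m + 1) (v : ℕ → ℂ) :
    (tot : ℝ) * 2 ^ m * wsum l v / 10 ^ 8 ≤ dq (lossL tot (2 ^ m) l) v := by
  induction l generalizing m v with
  | nil => simp [wsum, lossL, dq]
  | cons t l ih =>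
    simp only [wsum, lossL, dq]
    have h1 : ((tot * bet t * 2 ^ m : ℕ) : ℝ) / 10 ^ 8 ≤
        (((tot * bet t * 2 ^ m / 100000000 + 1 : ℕ) : ℤ) : ℝ) := by
      have := Nat.lt_div_mul_add (a := tot * bet t * 2 ^ m) (b := 100000000) (by norm_num)
      have h : ((tot * bet t * 2 ^ m : ℕ) : ℝ) ≤
        ((tot * bet t * 2 ^ m / 100000000 * 100000000 + 100000000 : ℕ) : ℝ) := by
        exact_mod_cast this.le
      rw [div_le_iff₀ (by norm_num)]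
      rw [Int.cast_natCast]
      refine h.trans (le_of_eq ?_)
      rw [Nat.cast_add, Nat.cast_mul, Nat.cast_succ]
      norm_num
      ring
    have h2 := mul_le_mul_of_nonneg_right h1 (sq_nonneg ‖v 0‖)
    cases m with
    | zero =>
      have : l = [] := by
        cases l with
        | nil => rfl
        | cons a l => simp at hl
      subst this
      simp only [wsum, lossL, dq]
      push_cast at h2 ⊢
      linarith
    | succ m =>
      have h3 := ih m (by simp at hl ⊢; omega) (sh v)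
      have e : (2 : ℕ) ^ (m + 1) / 2 = 2 ^ m := by rw [pow_succ]; simp
      rw [e]
      push_cast at h2 ⊢
      have e2 : (tot : ℝ) * 2 ^ (m + 1) * ((bet t : ℝ) * ‖v 0‖ ^ 2 + wsum l (sh v) / 2) / 10 ^ 8 =
          (tot : ℝ) * bet t * 2 ^ (m + 1) / 10 ^ 8 * ‖v 0‖ ^ 2 +
          (tot : ℝ) * 2 ^ m * wsum l (sh v) / 10 ^ 8 := by
        rw [pow_succ]; ring
      rw [e2]
      linarith

theorem dq_scaleD (c : ℤ) (d : List ℤ) (v : ℕ → ℂ) : dq (scaleD c d) v = (c : ℝ) * dq d v := by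
  induction d generalizing v with
  | nil => simp [scaleD, dq]
  | cons a l ih => simp only [scaleD, dq, ih]; push_cast; ring

/-- All exponents are at most `15`. -/
def okR (l : List TP) : Prop := ∀ t ∈ l, okT t

theorem row_bd (j : ℤ) (hj : |j| ≤ 149) (τ : ℝ) (h0 : 0 ≤ τ) (h1 : τ ≤ 1) (l : List TP)
    (hl : okR l) (y : ℕ → ℂ)
    (hy : ∀ k < l.length, ‖y k - evC (l.getD k []) (pt j τ)‖ ≤ 5 / 10 ^ 9) (v : ℕ → ℂ) :
    ‖∑ k ∈ Finset.range l.length, y k * v k -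
      ((1 - τ) * (dot (rowG j l) v / 10 ^ 8) + τ * (dot (rowG (j + 1) l) v / 10 ^ 8))‖ ≤
      bsum l v / 10 ^ 12 := by
  induction l generalizing y v with
  | nil => simp [rowG, dot, bsum]
  | cons t l ih =>
    have ih' := ih (fun t ht => hl t (List.mem_cons_of_mem _ ht)) (fun k => y (k + 1))
      (fun k hk => by
        have := hy (k + 1) (by simp; omega)
        simpa using this) (sh v)
    have h2 := entry_bd j hj τ h0 h1 t (hl t List.mem_cons_self) (y 0)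
      (by simpa using hy 0 (by simp))
    rw [List.length_cons, Finset.sum_range_succ']
    simp only [rowG, dot, bsum]
    have e : ∑ k ∈ Finset.range l.length, y (k + 1) * v (k + 1) + y 0 * v 0 -
      ((1 - τ) * (((evG j t).toC * v 0 + dot (rowG j l) (sh v)) / 10 ^ 8) +
        τ * (((evG (j + 1) t).toC * v 0 + dot (rowG (j + 1) l) (sh v)) / 10 ^ 8)) =
      (y 0 - ((1 - τ) * ((evG j t).toC / 10 ^ 8) + τ * ((evG (j + 1) t).toC / 10 ^ 8))) * v 0 +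
      (∑ k ∈ Finset.range l.length, y (k + 1) * (sh v) k -
      ((1 - τ) * (dot (rowG j l) (sh v) / 10 ^ 8) + τ * (dot (rowG (j + 1) l) (sh v) / 10 ^ 8))) := by
      simp only [sh]
      ring
    rw [e]
    refine (norm_add_le _ _).trans ?_
    rw [norm_mul]
    have h3 := mul_le_mul_of_nonneg_right h2 (norm_nonneg (v 0))
    calc _ ≤ (bet t : ℝ) / 10 ^ 12 * ‖v 0‖ + bsum l (sh v) / 10 ^ 12 := add_le_add h3 ih'
      _ = _ := by ring

theorem norm_convex (a b : ℂ) (τ : ℝ) (h0 : 0 ≤ τ) (h1 : τ ≤ 1) :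
    ‖(1 - τ) * a + τ * b‖ ^ 2 ≤ (1 - τ) * ‖a‖ ^ 2 + τ * ‖b‖ ^ 2 := by
  have n1 : ‖(1 - τ : ℂ)‖ = 1 - τ := by
    have : (1 - τ : ℂ) = ((1 - τ : ℝ) : ℂ) := by push_cast; ring
    rw [this, Complex.norm_real, Real.norm_eq_abs, abs_of_nonneg (by linarith)]
  have n2 : ‖(τ : ℂ)‖ = τ := by rw [Complex.norm_real, Real.norm_eq_abs, abs_of_nonneg h0]
  have h : ‖(1 - τ) * a + τ * b‖ ≤ (1 - τ) * ‖a‖ + τ * ‖b‖ := by
    refine (norm_add_le _ _).trans ?_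
    rw [norm_mul, norm_mul, n1, n2]
  have h2 : ‖(1 - τ) * a + τ * b‖ ^ 2 ≤ ((1 - τ) * ‖a‖ + τ * ‖b‖) ^ 2 :=
    pow_le_pow_left₀ (norm_nonneg _) h 2
  nlinarith [mul_nonneg (mul_nonneg h0 (sub_nonneg.mpr h1)) (sq_nonneg (‖a‖ - ‖b‖))]

/-- Negative squares. -/
theorem neg_sq (j : ℤ) (hj : |j| ≤ 149) (τ : ℝ) (h0 : 0 ≤ τ) (h1 : τ ≤ 1) (l : List TP)
    (hlen : l.length = 9) (hl : okR l) (y : ℕ → ℂ)
    (hy : ∀ k < 9, ‖y k - evC (l.getD k []) (pt j τ)‖ ≤ 5 / 10 ^ 9) (v : ℕ → ℂ) :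
    256000 * 10 ^ 16 * ‖∑ k ∈ Finset.range 9, y k * v k‖ ^ 2 ≤
      1001 * ((1 - τ) * qf (negM l j) v + τ * qf (negM l (j + 1)) v) := by
  have hb := row_bd j hj τ h0 h1 l hl y (by rw [hlen]; exact hy) v
  rw [hlen] at hb
  set Y : ℂ := ∑ k ∈ Finset.range 9, y k * v k with hY
  set Z : ℂ := (1 - τ) * (dot (rowG j l) v / 10 ^ 8) + τ * (dot (rowG (j + 1) l) v / 10 ^ 8) with hZ
  have hq : ∀ i : ℤ, qf (negM l i) v =
      256 * ‖dot (rowG i l) v‖ ^ 2 + 1000 * dq (loss l) v := by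
    intro i
    unfold negM
    rw [qf_addM, qf_scaleM, qf_sqM, qf_diagM, dq_scaleD]
    push_cast
    ring
  rw [hq, hq]
  have hd : (btot l : ℝ) * 256 * wsum l v / 10 ^ 8 ≤ dq (loss l) v := by
    have := dq_lossL (btot l) l 8 (by omega) v
    norm_num at this ⊢
    exact this
  have hs := bsum_sq l v
  have hb0 := bsum_nonneg l v
  have hZ2 : ‖Z‖ ^ 2 ≤ ((1 - τ) * ‖dot (rowG j l) v‖ ^ 2 + τ * ‖dot (rowG (j + 1) l) v‖ ^ 2) / 10 ^ 16 := by
    have := norm_convex (dot (rowG j l) v / 10 ^ 8) (dot (rowG (j + 1) l) v / 10 ^ 8) τ h0 h1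
    rw [norm_div, norm_div] at this
    have h10 : ‖(10 : ℂ) ^ 8‖ = 10 ^ 8 := by norm_num
    rw [h10] at this
    refine this.trans (le_of_eq ?_)
    ring
  have hYn : ‖Y‖ ≤ ‖Z‖ + bsum l v / 10 ^ 12 := by
    have : Y = Z + (Y - Z) := by ring
    rw [this]
    exact (norm_add_le _ _).trans (by linarith)
  have hY2 : ‖Y‖ ^ 2 ≤ 1001 / 1000 * ‖Z‖ ^ 2 + 1001 * (bsum l v / 10 ^ 12) ^ 2 := by
    have h3 : ‖Y‖ ^ 2 ≤ (‖Z‖ + bsum l v / 10 ^ 12) ^ 2 := pow_le_pow_left₀ (norm_nonneg _) hYn 2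
    nlinarith [sq_nonneg (‖Z‖ - 1000 * (bsum l v / 10 ^ 12))]
  have hb2 : (bsum l v / 10 ^ 12) ^ 2 ≤ dq (loss l) v / (256 * 10 ^ 16) := by
    rw [div_pow, div_le_div_iff₀ (by norm_num) (by norm_num)]
    rw [div_le_iff₀ (by norm_num)] at hd
    nlinarith
  calc 256000 * 10 ^ 16 * ‖Y‖ ^ 2 ≤ 256000 * 10 ^ 16 *
        (1001 / 1000 * (((1 - τ) * ‖dot (rowG j l) v‖ ^ 2 + τ * ‖dot (rowG (j + 1) l) v‖ ^ 2) / 10 ^ 16)
          + 1001 * (dq (loss l) v / (256 * 10 ^ 16))) := by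
        refine mul_le_mul_of_nonneg_left (hY2.trans ?_) (by norm_num)
        gcongr
    _ = _ := by ring

/-- Positive squares with constant rows. -/
theorem pos_row (l : List GI) (x : ℕ → ℂ)
    (hx : ∀ k < l.length, ‖x k - (l.getD k ⟨0, 0⟩).toC / 10 ^ 8‖ ≤ 21 / 10 ^ 9) (v : ℕ → ℂ) :
    ‖∑ k ∈ Finset.range l.length, x k * v k - dot l v / 10 ^ 8‖ ≤
      21 / 10 ^ 9 * ∑ k ∈ Finset.range l.length, ‖v k‖ := by
  induction l generalizing x v with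
  | nil => simp [dot]
  | cons a l ih =>
    have ih' := ih (fun k => x (k + 1)) (fun k hk => by
      have := hx (k + 1) (by simp; omega)
      simpa using this) (sh v)
    have h2 : ‖x 0 - a.toC / 10 ^ 8‖ ≤ 21 / 10 ^ 9 := by simpa using hx 0 (by simp)
    rw [List.length_cons, Finset.sum_range_succ', Finset.sum_range_succ']
    simp only [dot]
    have e : ∑ k ∈ Finset.range l.length, x (k + 1) * v (k + 1) + x 0 * v 0 -
        (a.toC * v 0 + dot l (sh v)) / 10 ^ 8 =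
        (x 0 - a.toC / 10 ^ 8) * v 0 +
        (∑ k ∈ Finset.range l.length, x (k + 1) * (sh v) k - dot l (sh v) / 10 ^ 8) := by
      simp only [sh]
      ring
    rw [e]
    refine (norm_add_le _ _).trans ?_
    rw [norm_mul]
    have h3 := mul_le_mul_of_nonneg_right h2 (norm_nonneg (v 0))
    simp only [sh] at ih' ⊢
    linarith

theorem cs9 (v : ℕ → ℂ) : (∑ k ∈ Finset.range 9, ‖v k‖) ^ 2 ≤
    511 * ∑ k ∈ Finset.range 9, ‖v k‖ ^ 2 / 2 ^ k := by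
  have h := Finset.sum_mul_sq_le_sq_mul_sq (Finset.range 9) (fun k => (Real.sqrt 2) ^ k)
    (fun k => ‖v k‖ / (Real.sqrt 2) ^ k)
  have h2 : ∀ k : ℕ, (Real.sqrt 2) ^ k ≠ 0 := fun k => by positivity
  have e1 : ∑ k ∈ Finset.range 9, (Real.sqrt 2) ^ k * (‖v k‖ / (Real.sqrt 2) ^ k) =
      ∑ k ∈ Finset.range 9, ‖v k‖ :=
    Finset.sum_congr rfl fun k _ => by rw [mul_div_cancel₀ _ (h2 k)]
  have e2 : ∑ k ∈ Finset.range 9, ((Real.sqrt 2) ^ k) ^ 2 = 511 := by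
    have : ∀ k : ℕ, ((Real.sqrt 2) ^ k) ^ 2 = 2 ^ k := fun k => by
      rw [← pow_mul, mul_comm, pow_mul, Real.sq_sqrt (by norm_num)]
    simp only [this]
    norm_num [Finset.sum_range_succ]
  have e3 : ∑ k ∈ Finset.range 9, (‖v k‖ / (Real.sqrt 2) ^ k) ^ 2 =
      ∑ k ∈ Finset.range 9, ‖v k‖ ^ 2 / 2 ^ k :=
    Finset.sum_congr rfl fun k _ => by
      rw [div_pow, ← pow_mul, mul_comm k 2, pow_mul, Real.sq_sqrt (by norm_num)]
  rw [e1, e2, e3] at h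
  exact h

/-- Positive squares. -/
theorem pos_sq (l : List GI) (hlen : l.length = 9) (x : ℕ → ℂ)
    (hx : ∀ k < 9, ‖x k - (l.getD k ⟨0, 0⟩).toC / 10 ^ 8‖ ≤ 21 / 10 ^ 9) (v : ℕ → ℂ) :
    (1 - 1 / 10 ^ 5) * ‖dot l v‖ ^ 2 / 10 ^ 16 -
      226 / 10 ^ 10 * ∑ k ∈ Finset.range 9, ‖v k‖ ^ 2 / 2 ^ k ≤
      ‖∑ k ∈ Finset.range 9, x k * v k‖ ^ 2 := by
  have hb := pos_row l x (by rw [hlen]; exact hx) v
  rw [hlen] at hb
  have hc := cs9 v
  set Y : ℂ := ∑ k ∈ Finset.range 9, x k * v k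
  set s : ℝ := ∑ k ∈ Finset.range 9, ‖v k‖ with hs
  set W : ℝ := ∑ k ∈ Finset.range 9, ‖v k‖ ^ 2 / 2 ^ k
  have hs0 : 0 ≤ s := Finset.sum_nonneg fun _ _ => norm_nonneg _
  have hd : ‖dot l v‖ / 10 ^ 8 = ‖dot l v / 10 ^ 8‖ := by
    rw [norm_div]; norm_num
  have h1 : ‖dot l v‖ / 10 ^ 8 ≤ ‖Y‖ + 21 / 10 ^ 9 * s := by
    rw [hd]
    have : dot l v / 10 ^ 8 = Y - (Y - dot l v / 10 ^ 8) := by ring
    rw [this]
    exact (norm_sub_le _ _).trans (by linarith)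
  have h2 : (‖dot l v‖ / 10 ^ 8) ^ 2 ≤ (‖Y‖ + 21 / 10 ^ 9 * s) ^ 2 :=
    pow_le_pow_left₀ (by positivity) h1 2
  have e : (1 - 1 / 10 ^ 5) * ‖dot l v‖ ^ 2 / 10 ^ 16 =
      (1 - 1 / 10 ^ 5) * (‖dot l v‖ / 10 ^ 8) ^ 2 := by ring
  rw [e]
  have h3 : (1 - 1 / 10 ^ 5) * (‖Y‖ + 21 / 10 ^ 9 * s) ^ 2 ≤ ‖Y‖ ^ 2 + 10 ^ 5 * (21 / 10 ^ 9 * s) ^ 2 := by
    nlinarith [sq_nonneg (‖Y‖ / 10 ^ 5 - (21 / 10 ^ 9 * s)), sq_nonneg (‖Y‖), sq_nonneg s]
  nlinarith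

end

end Pool.Agent.Whit.Eng
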