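import Pool.Agent.Whit.Spec

/-!
# Job S2, part a: ball arithmetic for complex numbers (fixed point, scale `10^20`)
-/

namespace Pool.Agent.Whit.S2

/-- the scale -/
def D : ℕ := 100000000000000000000

lemma D_pos : (0 : ℝ) < (D : ℝ) := by norm_num [D]

/-- a ball with centre `(a + b i) / D` and radius `e / D`; `n / D` is a bound for the norm -/
structure Bl where
  a : ℤ
  b : ℤ
  e : ℕ
  n : ℕ
deriving DecidableEq

/-- the centre -/
noncomputable def Bl.c (x : Bl) : ℂ := ⟨(x.a : ℝ) / (D : ℝ), (x.b : ℝ) / (D : ℝ)⟩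

/-- `u` lies in the ball `x` -/
def Bl.Ok (x : Bl) (u : ℂ) : Prop := ‖u - x.c‖ ≤ (x.e : ℝ) / (D : ℝ) ∧ ‖u‖ ≤ (x.n : ℝ) / (D : ℝ)

def Bl.mul (x y : Bl) : Bl :=
  ⟨(x.a * y.a - x.b * y.b) / (D : ℤ), (x.a * y.b + x.b * y.a) / (D : ℤ),
    (x.n * y.e + (y.n + y.e) * x.e) / D + 3, x.n * y.n / D + 1⟩

def Bl.add (x y : Bl) : Bl := ⟨x.a + y.a, x.b + y.b, x.e + y.e, x.n + y.n⟩

def Bl.neg (x : Bl) : Bl := ⟨-x.a, -x.b, x.e, x.n⟩

def Bl.divn (x : Bl) (m : ℕ) : Bl := ⟨x.a / (m : ℤ), x.b / (m : ℤ), x.e / m + 3, x.n / m + 1⟩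

def Bl.small (t : ℕ) : Bl := ⟨0, 0, t, t⟩

def Bl.one : Bl := ⟨(D : ℤ), 0, 0, D⟩

lemma int_floor (A : ℤ) {m : ℕ} (hm : 0 < m) : |(A : ℝ) / m - ((A / (m : ℤ) : ℤ) : ℝ)| ≤ 1 := by
  have h1 := Int.emod_nonneg A (b := (m : ℤ)) (by omega)
  have h2 := Int.emod_lt_of_pos A (b := (m : ℤ)) (by omega)
  have h3 := Int.mul_ediv_add_emod A (m : ℤ)
  have hm' : (0 : ℝ) < m := by exact_mod_cast hm
  have h4 : (A : ℝ) = m * ((A / (m : ℤ) : ℤ) : ℝ) + ((A % (m : ℤ) : ℤ) : ℝ) := by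
    exact_mod_cast h3.symm
  have h5 : (0 : ℝ) ≤ ((A % (m : ℤ) : ℤ) : ℝ) := by exact_mod_cast h1
  have h6 : ((A % (m : ℤ) : ℤ) : ℝ) < m := by exact_mod_cast h2
  have h7 : (A : ℝ) / m - ((A / (m : ℤ) : ℤ) : ℝ) = ((A % (m : ℤ) : ℤ) : ℝ) / m := by
    rw [h4]
    have h8 : (m * ((A / (m : ℤ) : ℤ) : ℝ) + ((A % (m : ℤ) : ℤ) : ℝ)) / m =
        ((A / (m : ℤ) : ℤ) : ℝ) + ((A % (m : ℤ) : ℤ) : ℝ) / m := by
      field_simp
    rw [← h4] at h8 ⊢
    rw [h8]; ring
  rw [h7, abs_of_nonneg (by positivity), div_le_one hm']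
  exact h6.le

lemma nat_floor (A : ℕ) {m : ℕ} (hm : 0 < m) : (A : ℝ) / m ≤ ((A / m : ℕ) : ℝ) + 1 := by
  have h := int_floor (A : ℤ) hm
  have h2 := (abs_le.1 h).2
  push_cast at h2 ⊢
  have h3 : (((A : ℤ) / (m : ℤ) : ℤ) : ℝ) = ((A / m : ℕ) : ℝ) := by
    rw [← Int.natCast_div]; norm_cast
  rw [h3] at h2
  linarith

lemma norm_le_two {w : ℂ} {t : ℝ} (h1 : |w.re| ≤ t) (h2 : |w.im| ≤ t) : ‖w‖ ≤ 2 * t :=
  (Complex.norm_le_abs_re_add_abs_im w).trans (by linarith)

lemma center_bound {x : Bl} {u : ℂ} (h : x.Ok u) : ‖x.c‖ ≤ ((x.n + x.e : ℕ) : ℝ) / (D : ℝ) := by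
  have h1 : ‖x.c‖ ≤ ‖u‖ + ‖u - x.c‖ := by
    have := norm_sub_le u (u - x.c)
    rwa [sub_sub_cancel] at this
  push_cast
  rw [add_div]
  linarith [h.1, h.2]

theorem mul_ok {x y : Bl} {u v : ℂ} (hx : x.Ok u) (hy : y.Ok v) : (x.mul y).Ok (u * v) := by
  have hD := D_pos
  have hD' : 0 < D := by norm_num [D]
  constructor
  · have h1 : ‖u * v - x.c * y.c‖ ≤ (((x.n * y.e + (y.n + y.e) * x.e : ℕ) : ℝ) / (D : ℝ)) / (D : ℝ) := by
      have e1 : u * v - x.c * y.c = u * (v - y.c) + y.c * (u - x.c) := by ring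
      rw [e1]
      refine (norm_add_le _ _).trans ?_
      rw [norm_mul, norm_mul]
      have a1 : ‖u‖ * ‖v - y.c‖ ≤ (x.n : ℝ) / D * ((y.e : ℝ) / D) :=
        mul_le_mul hx.2 hy.1 (norm_nonneg _) (by positivity)
      have a2 : ‖y.c‖ * ‖u - x.c‖ ≤ ((y.n + y.e : ℕ) : ℝ) / D * ((x.e : ℝ) / D) :=
        mul_le_mul (center_bound hy) hx.1 (norm_nonneg _) (by positivity)
      refine (add_le_add a1 a2).trans (le_of_eq ?_)
      push_cast
      field_simp
    have h2 : ‖x.c * y.c - (x.mul y).c‖ ≤ 2 * (1 / (D : ℝ)) := by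
      refine norm_le_two ?_ ?_
      · have := int_floor (x.a * y.a - x.b * y.b) hD'
        have e2 : (x.c * y.c - (x.mul y).c).re =
            (((x.a * y.a - x.b * y.b : ℤ) : ℝ) / D -
              (((x.a * y.a - x.b * y.b) / (D : ℤ) : ℤ) : ℝ)) / D := by
          simp only [Bl.c, Bl.mul, Complex.sub_re, Complex.mul_re]
          push_cast
          field_simp
        rw [e2, abs_div, abs_of_pos hD]
        exact div_le_div_of_nonneg_right this hD.le
      · have := int_floor (x.a * y.b + x.b * y.a) hD'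
        have e2 : (x.c * y.c - (x.mul y).c).im =
            (((x.a * y.b + x.b * y.a : ℤ) : ℝ) / D -
              (((x.a * y.b + x.b * y.a) / (D : ℤ) : ℤ) : ℝ)) / D := by
          simp only [Bl.c, Bl.mul, Complex.sub_im, Complex.mul_im]
          push_cast
          field_simp
        rw [e2, abs_div, abs_of_pos hD]
        exact div_le_div_of_nonneg_right this hD.le
    have h3 : ‖u * v - (x.mul y).c‖ ≤ ‖u * v - x.c * y.c‖ + ‖x.c * y.c - (x.mul y).c‖ := by
      have := norm_add_le (u * v - x.c * y.c) (x.c * y.c - (x.mul y).c)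
      rwa [sub_add_sub_cancel] at this
    have h4 := nat_floor (x.n * y.e + (y.n + y.e) * x.e) hD'
    have h5 : (((x.n * y.e + (y.n + y.e) * x.e : ℕ) : ℝ) / (D : ℝ)) / (D : ℝ) ≤
        ((((x.n * y.e + (y.n + y.e) * x.e) / D : ℕ) : ℝ) + 1) / D :=
      div_le_div_of_nonneg_right h4 hD.le
    have h6 : (((x.mul y).e : ℕ) : ℝ) / D =
        ((((x.n * y.e + (y.n + y.e) * x.e) / D : ℕ) : ℝ) + 1) / D + 2 * (1 / (D : ℝ)) := by
      simp only [Bl.mul]
      push_cast
      ring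
    rw [h6]
    linarith
  · rw [norm_mul]
    have h1 : ‖u‖ * ‖v‖ ≤ (x.n : ℝ) / D * ((y.n : ℝ) / D) :=
      mul_le_mul hx.2 hy.2 (norm_nonneg _) (by positivity)
    have h2 := nat_floor (x.n * y.n) hD'
    have h3 : (x.n : ℝ) / D * ((y.n : ℝ) / D) = (((x.n * y.n : ℕ) : ℝ) / D) / D := by
      push_cast; field_simp
    rw [h3] at h1
    refine h1.trans ?_
    simp only [Bl.mul]
    push_cast
    push_cast at h2
    exact div_le_div_of_nonneg_right h2 hD.le

theorem add_ok {x y : Bl} {u v : ℂ} (hx : x.Ok u) (hy : y.Ok v) : (x.add y).Ok (u + v) := by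
  have e1 : u + v - (x.add y).c = (u - x.c) + (v - y.c) := by
    have : (x.add y).c = x.c + y.c := by
      apply Complex.ext
      · simp only [Bl.c, Bl.add, Complex.add_re]; push_cast; ring
      · simp only [Bl.c, Bl.add, Complex.add_im]; push_cast; ring
    rw [this]; ring
  constructor
  · rw [e1]
    refine (norm_add_le _ _).trans ?_
    simp only [Bl.add]
    push_cast
    rw [add_div]
    exact add_le_add hx.1 hy.1
  · refine (norm_add_le _ _).trans ?_
    simp only [Bl.add]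
    push_cast
    rw [add_div]
    exact add_le_add hx.2 hy.2

theorem neg_ok {x : Bl} {u : ℂ} (hx : x.Ok u) : x.neg.Ok (-u) := by
  have e1 : -u - x.neg.c = -(u - x.c) := by
    have : x.neg.c = -x.c := by
      apply Complex.ext
      · simp only [Bl.c, Bl.neg, Complex.neg_re]; push_cast; ring
      · simp only [Bl.c, Bl.neg, Complex.neg_im]; push_cast; ring
    rw [this]; ring
  constructor
  · rw [e1, norm_neg]; exact hx.1
  · rw [norm_neg]; exact hx.2

theorem divn_ok {x : Bl} {u : ℂ} (hx : x.Ok u) {m : ℕ} (hm : 0 < m) :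
    (x.divn m).Ok (u / (m : ℂ)) := by
  have hD := D_pos
  have hm' : (0 : ℝ) < m := by exact_mod_cast hm
  constructor
  · have h1 : ‖u / (m : ℂ) - x.c / (m : ℂ)‖ ≤ ((x.e : ℝ) / m) / D := by
      rw [← sub_div, norm_div, Complex.norm_natCast]
      calc ‖u - x.c‖ / m ≤ ((x.e : ℝ) / D) / m := div_le_div_of_nonneg_right hx.1 hm'.le
        _ = ((x.e : ℝ) / m) / D := by field_simp
    have h2 : ‖x.c / (m : ℂ) - (x.divn m).c‖ ≤ 2 * (1 / (D : ℝ)) := by
      have e0 : x.c / (m : ℂ) = ⟨(x.a : ℝ) / D / m, (x.b : ℝ) / D / m⟩ := by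
        apply Complex.ext
        · rw [Complex.div_natCast_re]; rfl
        · rw [Complex.div_natCast_im]; rfl
      rw [e0]
      refine norm_le_two ?_ ?_
      · have := int_floor x.a hm
        have e2 : ((⟨(x.a : ℝ) / D / m, (x.b : ℝ) / D / m⟩ : ℂ) - (x.divn m).c).re =
            ((x.a : ℝ) / m - ((x.a / (m : ℤ) : ℤ) : ℝ)) / D := by
          simp only [Bl.c, Bl.divn, Complex.sub_re]
          field_simp
        rw [e2, abs_div, abs_of_pos hD]
        exact div_le_div_of_nonneg_right this hD.le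
      · have := int_floor x.b hm
        have e2 : ((⟨(x.a : ℝ) / D / m, (x.b : ℝ) / D / m⟩ : ℂ) - (x.divn m).c).im =
            ((x.b : ℝ) / m - ((x.b / (m : ℤ) : ℤ) : ℝ)) / D := by
          simp only [Bl.c, Bl.divn, Complex.sub_im]
          field_simp
        rw [e2, abs_div, abs_of_pos hD]
        exact div_le_div_of_nonneg_right this hD.le
    have h3 : ‖u / (m : ℂ) - (x.divn m).c‖ ≤ ‖u / (m : ℂ) - x.c / (m : ℂ)‖ +
        ‖x.c / (m : ℂ) - (x.divn m).c‖ := by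
      have := norm_add_le (u / (m : ℂ) - x.c / (m : ℂ)) (x.c / (m : ℂ) - (x.divn m).c)
      rwa [sub_add_sub_cancel] at this
    have h4 := nat_floor x.e hm
    have h5 : ((x.e : ℝ) / m) / D ≤ (((x.e / m : ℕ) : ℝ) + 1) / D :=
      div_le_div_of_nonneg_right h4 hD.le
    have h6 : (((x.divn m).e : ℕ) : ℝ) / D = (((x.e / m : ℕ) : ℝ) + 1) / D + 2 * (1 / (D : ℝ)) := by
      simp only [Bl.divn]
      push_cast
      ring
    rw [h6]
    linarith
  · rw [norm_div, Complex.norm_natCast]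
    have h4 := nat_floor x.n hm
    calc ‖u‖ / m ≤ ((x.n : ℝ) / D) / m := div_le_div_of_nonneg_right hx.2 hm'.le
      _ = ((x.n : ℝ) / m) / D := by field_simp
      _ ≤ (((x.n / m : ℕ) : ℝ) + 1) / D := div_le_div_of_nonneg_right h4 hD.le
      _ = _ := by simp only [Bl.divn]; push_cast; ring

theorem small_ok {u : ℂ} {t : ℕ} (h : ‖u‖ ≤ (t : ℝ) / (D : ℝ)) : (Bl.small t).Ok u := by
  have : (Bl.small t).c = 0 := by
    apply Complex.ext <;> simp [Bl.c, Bl.small]
  constructor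
  · rw [this, sub_zero]; exact h
  · exact h

theorem one_ok : Bl.one.Ok 1 := by
  have hD := D_pos
  have : Bl.one.c = 1 := by
    apply Complex.ext
    · simp only [Bl.c, Bl.one, Complex.one_re]
      push_cast
      exact div_self hD.ne'
    · simp [Bl.c, Bl.one]
  constructor
  · rw [this]; simp [Bl.one]
  · simp only [Bl.one]
    rw [div_self hD.ne']; simp

/-- certified inverse -/
def Bl.inv (x : Bl) (a' b' : ℤ) (l nn : ℕ) : Bl :=
  ⟨a', b', (((D : ℤ) * D - (x.a * a' - x.b * b')).natAbs + (x.a * b' + x.b * a').natAbs +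
    nn * x.e) / l + 1, D * D / l + 1⟩

lemma norm_sq_mk (a b : ℝ) : ‖(⟨a, b⟩ : ℂ)‖ ^ 2 = a ^ 2 + b ^ 2 := by
  rw [Complex.sq_norm, Complex.normSq_mk]; ring

theorem inv_ok {x : Bl} {u : ℂ} (hx : x.Ok u) {a' b' : ℤ} {l nn : ℕ} (hl : 0 < l)
    (h1 : (((l + x.e) ^ 2 : ℕ) : ℤ) ≤ x.a ^ 2 + x.b ^ 2) (h2 : a' ^ 2 + b' ^ 2 ≤ ((nn ^ 2 : ℕ) : ℤ)) :
    (x.inv a' b' l nn).Ok u⁻¹ ∧ (l : ℝ) / D ≤ ‖u‖ := by
  have hD := D_pos
  have hl' : (0 : ℝ) < l := by exact_mod_cast hl
  have hc : ((l + x.e : ℕ) : ℝ) / D ≤ ‖x.c‖ := by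
    refine le_of_sq_le_sq ?_ (norm_nonneg _)
    rw [Bl.c, norm_sq_mk, div_pow, div_pow, div_pow, ← add_div]
    refine div_le_div_of_nonneg_right ?_ (by positivity)
    exact_mod_cast h1
  have hu : (l : ℝ) / D ≤ ‖u‖ := by
    have h3 : ‖x.c‖ ≤ ‖u‖ + ‖u - x.c‖ := by
      have := norm_sub_le u (u - x.c)
      rwa [sub_sub_cancel] at this
    push_cast at hc
    rw [add_div] at hc
    linarith [hx.1]
  have hu0 : 0 < ‖u‖ := lt_of_lt_of_le (by positivity) hu
  have hu1 : u ≠ 0 := norm_pos_iff.1 hu0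
  set c' : ℂ := ⟨(a' : ℝ) / D, (b' : ℝ) / D⟩ with hc'
  have hn : ‖c'‖ ≤ (nn : ℝ) / D := by
    refine le_of_sq_le_sq ?_ (by positivity)
    rw [hc', norm_sq_mk, div_pow, div_pow, div_pow, ← add_div]
    refine div_le_div_of_nonneg_right ?_ (by positivity)
    exact_mod_cast h2
  have hR : ‖1 - x.c * c'‖ ≤ ((((D : ℤ) * D - (x.a * a' - x.b * b')).natAbs +
      (x.a * b' + x.b * a').natAbs : ℕ) : ℝ) / D / D := by
    refine (Complex.norm_le_abs_re_add_abs_im _).trans (le_of_eq ?_)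
    have e1 : (1 - x.c * c').re = (((D : ℤ) * D - (x.a * a' - x.b * b') : ℤ) : ℝ) / D / D := by
      simp only [hc', Bl.c, Complex.sub_re, Complex.one_re, Complex.mul_re]
      push_cast
      field_simp
    have e2 : (1 - x.c * c').im = -((x.a * b' + x.b * a' : ℤ) : ℝ) / D / D := by
      simp only [hc', Bl.c, Complex.sub_im, Complex.one_im, Complex.mul_im]
      push_cast
      field_simp
      ring
    rw [e1, e2, abs_div, abs_div, abs_div, abs_div, abs_neg, abs_of_pos hD]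
    push_cast
    rw [Nat.cast_natAbs, Nat.cast_natAbs]
    push_cast
    ring
  refine ⟨⟨?_, ?_⟩, hu⟩
  · have e3 : u⁻¹ - (x.inv a' b' l nn).c = (1 - u * c') / u := by
      have : (x.inv a' b' l nn).c = c' := rfl
      rw [this]
      field_simp
    rw [e3, norm_div]
    have h4 : ‖1 - u * c'‖ ≤ ((((D : ℤ) * D - (x.a * a' - x.b * b')).natAbs +
        (x.a * b' + x.b * a').natAbs + nn * x.e : ℕ) : ℝ) / D / D := by
      have e4 : 1 - u * c' = (1 - x.c * c') - (u - x.c) * c' := by ring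
      rw [e4]
      refine (norm_sub_le _ _).trans ?_
      rw [norm_mul]
      have a1 : ‖u - x.c‖ * ‖c'‖ ≤ (x.e : ℝ) / D * ((nn : ℝ) / D) :=
        mul_le_mul hx.1 hn (norm_nonneg _) (by positivity)
      refine (add_le_add hR a1).trans (le_of_eq ?_)
      push_cast
      field_simp
    have h5 : ‖1 - u * c'‖ / ‖u‖ ≤ (((((D : ℤ) * D - (x.a * a' - x.b * b')).natAbs +
        (x.a * b' + x.b * a').natAbs + nn * x.e : ℕ) : ℝ) / D / D) / ((l : ℝ) / D) :=
      div_le_div₀ (by positivity) h4 (by positivity) hu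
    refine h5.trans ?_
    have h6 := nat_floor (((D : ℤ) * D - (x.a * a' - x.b * b')).natAbs +
        (x.a * b' + x.b * a').natAbs + nn * x.e) hl
    calc (((((D : ℤ) * D - (x.a * a' - x.b * b')).natAbs +
        (x.a * b' + x.b * a').natAbs + nn * x.e : ℕ) : ℝ) / D / D) / ((l : ℝ) / D)
        = ((((D : ℤ) * D - (x.a * a' - x.b * b')).natAbs +
        (x.a * b' + x.b * a').natAbs + nn * x.e : ℕ) : ℝ) / l / D := by
          field_simp
      _ ≤ _ := by
          refine (div_le_div_of_nonneg_right h6 hD.le).trans (le_of_eq ?_)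
          simp only [Bl.inv]
          push_cast
          ring
  · rw [norm_inv]
    have h7 : ‖u‖⁻¹ ≤ ((l : ℝ) / D)⁻¹ := inv_anti₀ (by positivity) hu
    refine h7.trans ?_
    have h8 := nat_floor (D * D) hl
    calc ((l : ℝ) / D)⁻¹ = (((D * D : ℕ) : ℝ) / l) / D := by
          push_cast
          field_simp
      _ ≤ _ := by
          refine (div_le_div_of_nonneg_right h8 hD.le).trans (le_of_eq ?_)
          simp only [Bl.inv]
          push_cast
          ring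

/-- comparison with a table entry -/
theorem close_tab {x : Bl} {u : ℂ} (hx : x.Ok u) {t : ℤ × ℤ}
    (h : (x.a - 100000 * t.1).natAbs + (x.b - 100000 * t.2).natAbs + x.e ≤ 10000000000) :
    ‖u - dec t‖ ≤ 1 / 10 ^ 10 := by
  have hD := D_pos
  have h1 : ‖x.c - dec t‖ ≤
      (((x.a - 100000 * t.1).natAbs + (x.b - 100000 * t.2).natAbs : ℕ) : ℝ) / D := by
    refine (Complex.norm_le_abs_re_add_abs_im _).trans (le_of_eq ?_)
    have e1 : (x.c - dec t).re = ((x.a - 100000 * t.1 : ℤ) : ℝ) / D := by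
      simp only [Bl.c, dec, Complex.sub_re]
      push_cast
      norm_num [D]
      ring
    have e2 : (x.c - dec t).im = ((x.b - 100000 * t.2 : ℤ) : ℝ) / D := by
      simp only [Bl.c, dec, Complex.sub_im]
      push_cast
      norm_num [D]
      ring
    rw [e1, e2, abs_div, abs_div, abs_of_pos hD]
    push_cast
    rw [Nat.cast_natAbs, Nat.cast_natAbs]
    push_cast
    ring
  have h2 : ‖u - dec t‖ ≤ ‖u - x.c‖ + ‖x.c - dec t‖ := by
    have := norm_add_le (u - x.c) (x.c - dec t)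
    rwa [sub_add_sub_cancel] at this
  have h3 : (((x.a - 100000 * t.1).natAbs + (x.b - 100000 * t.2).natAbs + x.e : ℕ) : ℝ) ≤
      10000000000 := by exact_mod_cast h
  have h4 : (((x.a - 100000 * t.1).natAbs + (x.b - 100000 * t.2).natAbs + x.e : ℕ) : ℝ) / D ≤
      1 / 10 ^ 10 := by
    rw [div_le_div_iff₀ hD (by positivity)]
    norm_num [D] at h3 ⊢
    linarith
  push_cast at h4 h1
  rw [add_div] at h4
  linarith [hx.1]

end Pool.Agent.Whit.S2
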