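import Pool.Agent.Whit.Eng

/-!
# Powers of `e^{ij/16}`, rational trigonometric polynomials
-/

namespace Pool.Agent.Whit.Eng

/-- `10^15 e^{i/16}`. -/
def a0 : GI := ⟨998047510700099, 62459317842380⟩

/-- `10^15 e^{i n/16}`, `n : ℕ`. -/
def Tn : ℕ → GI
  | 0 => ⟨1000000000000000, 0⟩
  | n + 1 => GI.rnd 1000000000000000 (GI.mul (Tn n) a0)

/-- `10^15 e^{i j/16}`, `j : ℤ`. -/
def Tz : ℤ → GI
  | Int.ofNat n => Tn n
  | Int.negSucc n => GI.conj (Tn (n + 1))

/-- `10^15 e^{i j ν/16}`. -/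
def pw (j : ℤ) : ℕ → GI
  | 0 => ⟨1000000000000000, 0⟩
  | ν + 1 => GI.rnd 1000000000000000 (GI.mul (pw j ν) (Tz j))

/-- Trigonometric polynomials: lists of pairs (exponent, coefficient · 10^10). -/
abbrev TP := List (ℕ × GI)

/-- Value at `e^{ij/16}`, times `10^25`. -/
def evS (j : ℤ) : TP → GI
  | [] => ⟨0, 0⟩
  | c :: t => GI.add (GI.mul c.2 (pw j c.1)) (evS j t)

/-- Value at `e^{ij/16}`, times `10^8`. -/
def evG (j : ℤ) (t : TP) : GI := GI.rnd 100000000000000000 (evS j t)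

/-- `∑ |c| ν²`. -/
def chs : TP → ℕ
  | [] => 0
  | c :: t => GI.n1 c.2 * c.1 ^ 2 + chs t

/-- `∑ |c|`. -/
def nms : TP → ℕ
  | [] => 0
  | c :: t => GI.n1 c.2 + nms t

/-- Error bound of an entry (unit `10^-12`). -/
def bet (t : TP) : ℕ := chs t * 100 / 2048 + nms t / 100000000 + 25002

/-- `∑ β_k 2^k`. -/
def btot : List TP → ℕ
  | [] => 0
  | t :: l => bet t + 2 * btot l

/-- Loss weights (unit `10^-16/256`). -/
def lossL (tot : ℕ) : ℕ → List TP → List ℤ
  | _, [] => []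
  | s, t :: l => ((tot * bet t * s / 100000000 + 1 : ℕ) : ℤ) :: lossL tot (s / 2) l

/-- Loss weights. -/
def loss (row : List TP) : List ℤ := lossL (btot row) 256 row

/-- Row at `e^{ij/16}`. -/
def rowG (j : ℤ) : List TP → List GI
  | [] => []
  | t :: l => evG j t :: rowG j l

/-- Multiple of a vector of integers. -/
def scaleD (c : ℤ) : List ℤ → List ℤ
  | [] => []
  | a :: l => c * a :: scaleD c l

/-- Matrix of a negative square. -/
def negM (row : List TP) (j : ℤ) : List (List GI) :=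
  addM (scaleM 256 (sqM (rowG j row))) (diagM (scaleD 1000 (loss row)))

end Pool.Agent.Whit.Eng
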