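import Pool.Agent.Whit.EngS

/-!
# Chord estimate and the table of powers
-/

namespace Pool.Agent.Whit.Eng

open Complex

noncomputable section

theorem aux_cos (y : ℝ) (hy : 0 ≤ y) :
    2 - 2 * Real.cos y + y ^ 2 - 2 * y * Real.sin y ≤ y ^ 4 / 4 := by
  let g : ℝ → ℝ := fun y => y ^ 4 / 4 - (2 - 2 * Real.cos y + y ^ 2 - 2 * y * Real.sin y)
  have hd : ∀ x, HasDerivAt g (2 * x * (Real.cos x - (1 - x ^ 2 / 2))) x := by
    intro x
    have h1 : HasDerivAt (fun y : ℝ => y ^ 4 / 4) (4 * x ^ 3 / 4) x := by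
      simpa using (hasDerivAt_pow 4 x).div_const 4
    have h2 : HasDerivAt (fun y : ℝ => 2 - 2 * Real.cos y) (-(2 * (-Real.sin x))) x :=
      ((Real.hasDerivAt_cos x).const_mul 2).const_sub 2
    have h3 : HasDerivAt (fun y : ℝ => y ^ 2) (2 * x) x := by
      simpa using hasDerivAt_pow 2 x
    have h4 : HasDerivAt (fun y : ℝ => 2 * y * Real.sin y) (2 * 1 * Real.sin x + 2 * x * Real.cos x) x :=
      ((hasDerivAt_id x).const_mul 2).mul (Real.hasDerivAt_sin x)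
    have h5 := h1.sub ((h2.add h3).sub h4)
    have e : 2 * x * (Real.cos x - (1 - x ^ 2 / 2)) =
        4 * x ^ 3 / 4 - (-(2 * -Real.sin x) + 2 * x - (2 * 1 * Real.sin x + 2 * x * Real.cos x)) := by
      ring
    rw [e]
    exact h5
  have hm : MonotoneOn g (Set.Ici 0) := by
    apply monotoneOn_of_deriv_nonneg (convex_Ici 0)
    · exact fun x _ => (hd x).continuousAt.continuousWithinAt
    · exact fun x _ => (hd x).differentiableAt.differentiableWithinAt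
    · intro x hx
      rw [interior_Ici, Set.mem_Ioi] at hx
      rw [(hd x).deriv]
      have := Real.one_sub_sq_div_two_le_cos (x := x)
      exact mul_nonneg (by linarith) (by linarith)
  have h0 : g 0 = 0 := by simp [g]
  have := hm (Set.self_mem_Ici) (Set.mem_Ici.mpr hy) hy
  rw [h0] at this
  simp only [g] at this
  linarith

theorem norm_exp_sub (y : ℝ) : ‖exp (y * I) - 1 - y * I‖ ≤ y ^ 2 / 2 := by
  have h : ‖exp (y * I) - 1 - y * I‖ ^ 2 ≤ (y ^ 2 / 2) ^ 2 := by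
    rw [Complex.sq_norm, Complex.normSq_apply, Complex.exp_mul_I]
    have hre : (Complex.cos y + Complex.sin y * I - 1 - y * I).re = Real.cos y - 1 := by
      simp [Complex.cos_ofReal_re]
    have him : (Complex.cos y + Complex.sin y * I - 1 - y * I).im = Real.sin y - y := by
      simp [Complex.sin_ofReal_re]
    rw [hre, him]
    have h1 : (Real.cos y - 1) * (Real.cos y - 1) + (Real.sin y - y) * (Real.sin y - y) =
        2 - 2 * Real.cos y + y ^ 2 - 2 * y * Real.sin y := by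
      nlinarith [Real.sin_sq_add_cos_sq y]
    rw [h1]
    rcases le_total 0 y with hy | hy
    · have := aux_cos y hy
      nlinarith
    · have := aux_cos (-y) (by linarith)
      rw [Real.cos_neg, Real.sin_neg] at this
      nlinarith
  exact abs_le_of_sq_le_sq' h (by positivity) |>.2

theorem norm_expI (y : ℝ) : ‖exp (y * I)‖ = 1 := Complex.norm_exp_ofReal_mul_I y

/-- Chord estimate. -/
theorem chord (s t τ : ℝ) (h0 : 0 ≤ τ) (h1 : τ ≤ 1) :
    ‖exp (((1 - τ) * s + τ * t : ℝ) * I) - ((1 - τ) * exp (s * I) + τ * exp (t * I))‖ ≤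
      (t - s) ^ 2 / 8 := by
  set θ : ℝ := (1 - τ) * s + τ * t with hθ
  set a : ℝ := s - θ
  set b : ℝ := t - θ
  have ea : exp (s * I) = exp (θ * I) * exp (a * I) := by
    rw [← Complex.exp_add]; congr 1; simp [a]; ring
  have eb : exp (t * I) = exp (θ * I) * exp (b * I) := by
    rw [← Complex.exp_add]; congr 1; simp [b]; ring
  have key : exp (θ * I) - ((1 - τ) * exp (s * I) + τ * exp (t * I)) =
      -(exp (θ * I) * ((1 - τ) * (exp (a * I) - 1 - a * I) + τ * (exp (b * I) - 1 - b * I))) := by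
    have hab : ((1 - τ) * a + τ * b : ℂ) = 0 := by
      have : ((1 - τ) * a + τ * b : ℝ) = 0 := by simp only [a, b, hθ]; ring
      exact_mod_cast this
    rw [ea, eb]
    linear_combination (-(exp (θ * I)) * I) * hab
  rw [key, norm_neg, norm_mul, norm_expI, one_mul]
  have n1 : ‖((1 - τ : ℂ)) * (exp (a * I) - 1 - a * I)‖ ≤ (1 - τ) * (a ^ 2 / 2) := by
    rw [norm_mul]
    have : ‖(1 - τ : ℂ)‖ = 1 - τ := by
      have : (1 - τ : ℂ) = ((1 - τ : ℝ) : ℂ) := by push_cast; ring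
      rw [this, Complex.norm_real, Real.norm_eq_abs, abs_of_nonneg (by linarith)]
    rw [this]
    exact mul_le_mul_of_nonneg_left (norm_exp_sub a) (by linarith)
  have n2 : ‖(τ : ℂ) * (exp (b * I) - 1 - b * I)‖ ≤ τ * (b ^ 2 / 2) := by
    rw [norm_mul, Complex.norm_real, Real.norm_eq_abs, abs_of_nonneg h0]
    exact mul_le_mul_of_nonneg_left (norm_exp_sub b) h0
  refine (norm_add_le _ _).trans ((add_le_add n1 n2).trans ?_)
  have ha : a = -(τ * (t - s)) := by simp only [a, hθ]; ring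
  have hb : b = (1 - τ) * (t - s) := by simp only [b, hθ]; ring
  rw [ha, hb]
  have : (1 - τ) * ((-(τ * (t - s))) ^ 2 / 2) + τ * (((1 - τ) * (t - s)) ^ 2 / 2) =
      (t - s) ^ 2 / 2 * (τ * (1 - τ)) := by ring
  rw [this]
  nlinarith [sq_nonneg (t - s), sq_nonneg (2 * τ - 1), mul_nonneg (sq_nonneg (t - s)) (sq_nonneg (2 * τ - 1))]

/-- `e^{i j /16}`. -/
def eG (j : ℤ) : ℂ := exp (((j : ℝ) / 16 : ℝ) * I)

theorem norm_eG (j : ℤ) : ‖eG j‖ = 1 := norm_expI _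

theorem a0_bd : ‖eG 1 - a0.toC / 10 ^ 15‖ ≤ 2 / 10 ^ 15 := by
  have h := Complex.exp_bound (x := (((1 : ℤ) : ℝ) / 16 : ℝ) * I) (n := 11) (by
    rw [norm_mul, Complex.norm_I, Complex.norm_real]; norm_num) (by norm_num)
  have e : ∑ m ∈ Finset.range 11, ((((1 : ℤ) : ℝ) / 16 : ℝ) * I) ^ m / (m.factorial : ℂ) =
      ⟨1 - 1 / 512 + 1 / 24 / 16 ^ 4 - 1 / 720 / 16 ^ 6 + 1 / 40320 / 16 ^ 8 - 1 / 3628800 / 16 ^ 10,
       1 / 16 - 1 / 6 / 16 ^ 3 + 1 / 120 / 16 ^ 5 - 1 / 5040 / 16 ^ 7 + 1 / 362880 / 16 ^ 9⟩ := by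
    simp only [Finset.sum_range_succ, Finset.sum_range_zero, Nat.factorial, mul_pow]
    have h4 : I ^ 4 = 1 := Complex.I_pow_four
    have h2 : I ^ 2 = -1 := Complex.I_sq
    have h3 : I ^ 3 = -I := Complex.I_pow_three
    have h5 : I ^ 5 = I := by rw [show (5 : ℕ) = 4 + 1 by rfl, pow_add, h4]; ring
    have h6 : I ^ 6 = -1 := by rw [show (6 : ℕ) = 4 + 2 by rfl, pow_add, h4, h2]; ring
    have h7 : I ^ 7 = -I := by rw [show (7 : ℕ) = 4 + 3 by rfl, pow_add, h4, h3]; ring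
    have h8 : I ^ 8 = 1 := by rw [show (8 : ℕ) = 4 + 4 by rfl, pow_add, h4]; ring
    have h9 : I ^ 9 = I := by rw [show (9 : ℕ) = 8 + 1 by rfl, pow_add, h8]; ring
    have h10 : I ^ 10 = -1 := by rw [show (10 : ℕ) = 8 + 2 by rfl, pow_add, h8, h2]; ring
    rw [h2, h3, h4, h5, h6, h7, h8, h9, h10]
    rw [Complex.mk_eq_add_mul_I]
    push_cast
    ring
  rw [e] at h
  have h2 : ‖(⟨1 - 1 / 512 + 1 / 24 / 16 ^ 4 - 1 / 720 / 16 ^ 6 + 1 / 40320 / 16 ^ 8 - 1 / 3628800 / 16 ^ 10,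
       1 / 16 - 1 / 6 / 16 ^ 3 + 1 / 120 / 16 ^ 5 - 1 / 5040 / 16 ^ 7 + 1 / 362880 / 16 ^ 9⟩ : ℂ) -
       a0.toC / 10 ^ 15‖ ≤ 11 / 10 / 10 ^ 15 := by
    refine (Complex.norm_le_abs_re_add_abs_im _).trans ?_
    have e3 : a0.toC / 10 ^ 15 = ⟨998047510700099 / 10 ^ 15, 62459317842380 / 10 ^ 15⟩ := by
      have : (10 : ℂ) ^ 15 = ((10 ^ 15 : ℝ) : ℂ) := by push_cast; ring
      rw [this]
      apply Complex.ext
      · rw [Complex.div_ofReal_re]; simp [a0, GI.toC]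
      · rw [Complex.div_ofReal_im]; simp [a0, GI.toC]
    rw [e3, Complex.sub_re, Complex.sub_im]
    have : ∀ x y a b : ℝ, |x| ≤ a → |y| ≤ b → |x| + |y| ≤ a + b := fun x y a b h1 h2 => add_le_add h1 h2
    refine (this _ _ (5 / 10 / 10 ^ 15) (6 / 10 / 10 ^ 15) ?_ ?_).trans (by norm_num)
    · rw [abs_le]; constructor <;> norm_num
    · rw [abs_le]; constructor <;> norm_num
  have h3 : ‖(((((1 : ℤ) : ℝ) / 16 : ℝ)) : ℂ) * I‖ = 1 / 16 := by
    rw [norm_mul, Complex.norm_I, Complex.norm_real]; norm_num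
  rw [h3] at h
  have h4 : ‖eG 1 - a0.toC / 10 ^ 15‖ ≤ _ := (norm_sub_le_norm_sub_add_norm_sub _ _ _).trans
    (add_le_add h h2)
  refine h4.trans ?_
  norm_num [Nat.factorial]

theorem eG_add (i j : ℤ) : eG (i + j) = eG i * eG j := by
  unfold eG
  rw [← Complex.exp_add]
  congr 1
  push_cast
  ring

theorem eG_zero : eG 0 = 1 := by simp [eG]

theorem eG_neg (j : ℤ) : eG (-j) = (starRingEnd ℂ) (eG j) := by
  unfold eG
  rw [← Complex.exp_conj]
  congr 1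
  rw [map_mul, Complex.conj_I, Complex.conj_ofReal]
  push_cast
  ring

theorem mul_err {x y x' y' : ℂ} {e f : ℝ} (hx : ‖x‖ ≤ 1) (hy : ‖y‖ ≤ 1) (h1 : ‖x - x'‖ ≤ e)
    (h2 : ‖y - y'‖ ≤ f) (he1 : e ≤ 1) (hf : 0 ≤ f) : ‖x * y - x' * y'‖ ≤ e + 2 * f := by
  have e1 : x * y - x' * y' = (x - x') * y + x' * (y - y') := by ring
  rw [e1]
  have hx' : ‖x'‖ ≤ 2 := by
    have : ‖x'‖ ≤ ‖x - x'‖ + ‖x‖ := by
      have := norm_sub_norm_le x' x
      rw [norm_sub_rev] at this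
      linarith
    linarith
  refine (norm_add_le _ _).trans ?_
  rw [norm_mul, norm_mul]
  have a1 : ‖x - x'‖ * ‖y‖ ≤ e * 1 := mul_le_mul h1 hy (norm_nonneg _) ((norm_nonneg _).trans h1)
  have a2 : ‖x'‖ * ‖y - y'‖ ≤ 2 * f := mul_le_mul hx' h2 (norm_nonneg _) (by norm_num)
  linarith

/-- One rounded multiplication. -/
theorem rnd_mul_err {x y : ℂ} {a b : GI} {e f : ℝ} (hx : ‖x‖ ≤ 1) (hy : ‖y‖ ≤ 1)
    (h1 : ‖x - a.toC / 10 ^ 15‖ ≤ e) (h2 : ‖y - b.toC / 10 ^ 15‖ ≤ f) (he1 : e ≤ 1) (hf : 0 ≤ f) :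
    ‖x * y - (GI.rnd 1000000000000000 (GI.mul a b)).toC / 10 ^ 15‖ ≤ e + 2 * f + 2 / 10 ^ 15 := by
  have h3 := mul_err hx hy h1 h2 he1 hf
  have h4 := rnd_err 1000000000000000 (by norm_num) (GI.mul a b)
  rw [toC_mul] at h4
  have h5 : ‖a.toC / 10 ^ 15 * (b.toC / 10 ^ 15) -
      (GI.rnd 1000000000000000 (GI.mul a b)).toC / 10 ^ 15‖ ≤ 2 / 10 ^ 15 := by
    have e1 : a.toC / 10 ^ 15 * (b.toC / 10 ^ 15) -
      (GI.rnd 1000000000000000 (GI.mul a b)).toC / 10 ^ 15 =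
      (a.toC * b.toC / ((1000000000000000 : ℤ) : ℂ) - (GI.rnd 1000000000000000 (GI.mul a b)).toC) /
        10 ^ 15 := by
      push_cast; ring
    rw [e1, norm_div]
    have : ‖(10 : ℂ) ^ 15‖ = 10 ^ 15 := by norm_num
    rw [this]
    gcongr
  have h6 := norm_sub_le_norm_sub_add_norm_sub (x * y) (a.toC / 10 ^ 15 * (b.toC / 10 ^ 15))
    ((GI.rnd 1000000000000000 (GI.mul a b)).toC / 10 ^ 15)
  linarith

theorem one_err : ‖(1 : ℂ) - (⟨1000000000000000, 0⟩ : GI).toC / 10 ^ 15‖ = 0 := by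
  have : (⟨1000000000000000, 0⟩ : GI).toC = 10 ^ 15 := by
    have : (10 : ℂ) ^ 15 = ((10 ^ 15 : ℝ) : ℂ) := by push_cast; ring
    rw [this]
    apply Complex.ext
    · rw [Complex.ofReal_re]; simp [GI.toC]; norm_num
    · rw [Complex.ofReal_im]; simp [GI.toC]
  rw [this]
  simp

theorem Tn_bd (n : ℕ) (hn : n ≤ 1000) : ‖eG n - (Tn n).toC / 10 ^ 15‖ ≤ 6 * n / 10 ^ 15 := by
  induction n with
  | zero =>
    simp only [Tn, Nat.cast_zero, eG_zero, mul_zero, zero_div]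
    exact one_err.le
  | succ n ih =>
    have ih' := ih (by omega)
    have hn' : (n : ℝ) ≤ 1000 := by exact_mod_cast (show n ≤ 1000 by omega)
    have := rnd_mul_err (norm_eG n).le (norm_eG 1).le ih' a0_bd (by
      rw [div_le_one (by norm_num)]; nlinarith) (by norm_num)
    rw [← eG_add] at this
    simp only [Tn]
    push_cast
    refine this.trans ?_
    have : (6 * (n : ℝ) / 10 ^ 15 + 2 * (2 / 10 ^ 15) + 2 / 10 ^ 15) = 6 * (n + 1) / 10 ^ 15 := by ring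
    rw [this]

theorem Tz_bd (j : ℤ) (hj : |j| ≤ 150) : ‖eG j - (Tz j).toC / 10 ^ 15‖ ≤ 9 / 10 ^ 13 := by
  cases j with
  | ofNat n =>
    have hn : n ≤ 150 := by simpa using hj
    have := Tn_bd n (by omega)
    have hn' : (n : ℝ) ≤ 150 := by exact_mod_cast hn
    refine (this : ‖eG (Int.ofNat n) - (Tz (Int.ofNat n)).toC / 10 ^ 15‖ ≤ _).trans ?_
    rw [div_le_div_iff₀ (by norm_num) (by norm_num)]
    nlinarith
  | negSucc n =>
    have hn : n + 1 ≤ 150 := by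
      have : |Int.negSucc n| = (n : ℤ) + 1 := by
        rw [Int.negSucc_eq, abs_neg, abs_of_nonneg (by positivity)]
      rw [this] at hj
      omega
    have := Tn_bd (n + 1) (by omega)
    have hn' : ((n + 1 : ℕ) : ℝ) ≤ 150 := by exact_mod_cast hn
    have e : eG (Int.negSucc n) - (Tz (Int.negSucc n)).toC / 10 ^ 15 =
        (starRingEnd ℂ) (eG ((n + 1 : ℕ) : ℤ) - (Tn (n + 1)).toC / 10 ^ 15) := by
      simp only [Tz, toC_conj, map_sub, map_div₀, map_pow]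
      rw [show Int.negSucc n = -((n + 1 : ℕ) : ℤ) from rfl, eG_neg]
      have h10 : (starRingEnd ℂ) 10 = 10 := map_ofNat (starRingEnd ℂ) 10
      rw [h10]
    rw [e, Complex.norm_conj]
    refine this.trans ?_
    rw [div_le_div_iff₀ (by norm_num) (by norm_num)]
    nlinarith

theorem pw_bd (j : ℤ) (hj : |j| ≤ 150) (ν : ℕ) (hν : ν ≤ 15) :
    ‖eG j ^ ν - (pw j ν).toC / 10 ^ 15‖ ≤ 2 * ν / 10 ^ 12 := by
  induction ν with
  | zero =>
    simp only [pw, pow_zero, Nat.cast_zero, mul_zero, zero_div]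
    exact one_err.le
  | succ n ih =>
    have ih' := ih (by omega)
    have hn' : (n : ℝ) ≤ 15 := by exact_mod_cast (show n ≤ 15 by omega)
    have hx1 : ‖eG j ^ n‖ ≤ 1 := by rw [norm_pow, norm_eG, one_pow]
    have he1 : 2 * (n : ℝ) / 10 ^ 12 ≤ 1 := by rw [div_le_one (by norm_num)]; linarith
    have := rnd_mul_err hx1 (norm_eG j).le ih' (Tz_bd j hj) he1 (by norm_num)
    rw [pow_succ, Nat.cast_succ]
    refine (show ‖eG j ^ n * eG j - (pw j (n + 1)).toC / 10 ^ 15‖ ≤ _ from this).trans ?_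
    have : (2 * ((n : ℝ) + 1) / 10 ^ 12) = 2 * n / 10 ^ 12 + 2 / 10 ^ 12 := by ring
    rw [this]
    norm_num
    linarith

end

end Pool.Agent.Whit.Eng
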